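import Pool.Agent.Lead.THC.Alg1

set_option autoImplicit false

open scoped BigOperators

noncomputable section

namespace Pool.Agent.Lead.THC

/-! ### projectors attached to vectors `e a` and dual forms `f a` -/

/-- `∏ (e a ∧ ι_{f a})` over `L` -/
def proj (e : ℕ → E) (f : ℕ → Module.Dual ℚ E) (L : Finset ℕ) : A →ₗ[ℚ] A :=
  ((L.sort (· ≤ ·)).map fun a =>
    ((LinearMap.mulLeft ℚ (io (e a))).comp (ctr (f a)) : Module.End ℚ A)).prod

theorem ctr_io_mul' (f : Module.Dual ℚ E) (m : E) (x : A) :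
    ctr f (io m * x) = f m • x - io m * ctr f x :=
  CliffordAlgebra.contractLeft_ι_mul f m x

theorem io_mul_io_mul_self (m : E) (x : A) : io m * (io m * x) = 0 := by
  rw [← mul_assoc, ExteriorAlgebra.ι_sq_zero, zero_mul]

theorem io_mul_io_mul_swap (m m' : E) (x : A) : io m * (io m' * x) = - (io m' * (io m * x)) := by
  have h := ExteriorAlgebra.ι_add_mul_swap (R := ℚ) m m'
  rw [← mul_assoc, ← mul_assoc, ← neg_mul]
  congr 1
  exact eq_neg_of_add_eq_zero_left h

/-- list form of `proj` -/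
def projL (e : ℕ → E) (f : ℕ → Module.Dual ℚ E) (l : List ℕ) : A →ₗ[ℚ] A :=
  (l.map fun a =>
    ((LinearMap.mulLeft ℚ (io (e a))).comp (ctr (f a)) : Module.End ℚ A)).prod

theorem projL_nil (e : ℕ → E) (f : ℕ → Module.Dual ℚ E) (ω : A) : projL e f [] ω = ω := by
  simp [projL]

theorem projL_cons (e : ℕ → E) (f : ℕ → Module.Dual ℚ E) (a : ℕ) (l : List ℕ) (ω : A) :
    projL e f (a :: l) ω = io (e a) * ctr (f a) (projL e f l ω) := by
  simp [projL]

theorem proj_eq_projL (e : ℕ → E) (f : ℕ → Module.Dual ℚ E) (L : Finset ℕ) :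
    proj e f L = projL e f (L.sort (· ≤ ·)) := rfl

theorem io_mul_projL {e : ℕ → E} {f : ℕ → Module.Dual ℚ E} {a : ℕ} (ω : A) :
    ∀ l : List ℕ, (∀ b ∈ l, b ≠ a → f b (e a) = 0) → a ∈ l → io (e a) * projL e f l ω = 0
  | [], _, ha => by simp at ha
  | b :: l, h, ha => by
    rw [projL_cons]
    by_cases hb : b = a
    · subst hb
      exact io_mul_io_mul_self _ _
    · have hal : a ∈ l := by
        rcases List.mem_cons.1 ha with h' | h'
        · exact absurd h'.symm hb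
        · exact h'
      have ih := io_mul_projL ω l (fun c hc => h c (List.mem_cons_of_mem _ hc)) hal
      have h1 := ctr_io_mul' (f b) (e a) (projL e f l ω)
      rw [ih, map_zero, h b List.mem_cons_self hb, zero_smul, zero_sub] at h1
      rw [io_mul_io_mul_swap, neg_eq_zero.1 h1.symm, mul_zero, neg_zero]

theorem eq_io_mul_ctr {m : E} {f : Module.Dual ℚ E} (hf : f m = 1) {x : A} (hx : io m * x = 0) :
    x = io m * ctr f x := by
  have h1 := ctr_io_mul' f m x
  rw [hx, map_zero, hf, one_smul] at h1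
  exact (sub_eq_zero.1 h1.symm)

/-- list form of `wedge` -/
def wedgeL (e : ℕ → E) (l : List ℕ) : A := (l.map fun a => io (e a)).prod

theorem wedgeL_nil (e : ℕ → E) : wedgeL e [] = 1 := by simp [wedgeL]

theorem wedgeL_cons (e : ℕ → E) (a : ℕ) (l : List ℕ) :
    wedgeL e (a :: l) = io (e a) * wedgeL e l := by simp [wedgeL]

theorem wedgeL_concat (e : ℕ → E) (a : ℕ) (l : List ℕ) :
    wedgeL e (l ++ [a]) = wedgeL e l * io (e a) := by simp [wedgeL]

theorem wedge_eq_wedgeL (e : ℕ → E) (S : Finset ℕ) :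
    wedge e S = wedgeL e (S.sort (· ≤ ·)) := rfl

theorem wedgeL_perm (e : ℕ → E) {l l' : List ℕ} (h : l.Perm l') :
    ∃ σ : ℚ, (σ = 1 ∨ σ = -1) ∧ wedgeL e l = σ • wedgeL e l' := by
  induction h with
  | nil => exact ⟨1, Or.inl rfl, by simp⟩
  | cons a _ ih =>
    obtain ⟨σ, hσ, h⟩ := ih
    exact ⟨σ, hσ, by rw [wedgeL_cons, wedgeL_cons, h, mul_smul_comm]⟩
  | swap a b l =>
    refine ⟨-1, Or.inr rfl, ?_⟩
    rw [wedgeL_cons, wedgeL_cons, wedgeL_cons, wedgeL_cons, io_mul_io_mul_swap, neg_smul, one_smul]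
  | trans _ _ ih1 ih2 =>
    obtain ⟨σ, hσ, h⟩ := ih1
    obtain ⟨τ, hτ, h'⟩ := ih2
    refine ⟨σ * τ, ?_, by rw [h, h', smul_smul]⟩
    rcases hσ with rfl | rfl <;> rcases hτ with rfl | rfl <;> simp

/-- inserting a new vertex multiplies the wedge on the left, up to sign -/
theorem exists_io_mul_wedge_eq (e : ℕ → E) {ρ : Finset ℕ} {a : ℕ} (ha : a ∉ ρ) :
    ∃ σ : ℚ, (σ = 1 ∨ σ = -1) ∧ io (e a) * wedge e ρ = σ • wedge e (insert a ρ) := by
  have hp : (a :: ρ.sort (· ≤ ·)).Perm ((insert a ρ).sort (· ≤ ·)) := by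
    rw [List.perm_ext_iff_of_nodup (List.nodup_cons.2 ⟨by simpa using ha, Finset.sort_nodup _ _⟩)
      (Finset.sort_nodup _ _)]
    intro x
    simp
  obtain ⟨σ, hσ, h⟩ := wedgeL_perm e hp
  exact ⟨σ, hσ, by rw [wedge_eq_wedgeL, wedge_eq_wedgeL, ← wedgeL_cons, h]⟩

theorem io_mul_proj {e : ℕ → E} {f : ℕ → Module.Dual ℚ E} {L : Finset ℕ}
    (h : ∀ a ∈ L, ∀ a' ∈ L, f a (e a') = if a = a' then 1 else 0) {a : ℕ} (ha : a ∈ L) (ω : A) :
    io (e a) * proj e f L ω = 0 := by
  rw [proj_eq_projL]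
  refine io_mul_projL ω _ (fun b hb hba => ?_) (by simpa using ha)
  rw [h b (by simpa using hb) a ha, if_neg hba]

/-- `proj ω` is a multiple of each `e a` -/
theorem exists_proj_eq_io_mul {e : ℕ → E} {f : ℕ → Module.Dual ℚ E} {L : Finset ℕ}
    (h : ∀ a ∈ L, ∀ a' ∈ L, f a (e a') = if a = a' then 1 else 0) {a : ℕ} (ha : a ∈ L) (ω : A) :
    ∃ η, proj e f L ω = io (e a) * η :=
  ⟨_, eq_io_mul_ctr (f := f a) (by rw [h a ha a ha, if_pos rfl]) (io_mul_proj h ha ω)⟩

theorem Space.proj_mem_K {r : ℕ} (X : Space r) {e : ℕ → E} (f : ℕ → Module.Dual ℚ E)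
    {L S : Finset ℕ} (he : ∀ a ∈ L, e a ∈ supp (S : Set ℕ)) {s : ℕ} {ω : A} (h : ω ∈ X.K s S) :
    proj e f L ω ∈ X.K s S := by
  rw [proj_eq_projL]
  have key : ∀ l : List ℕ, (∀ a ∈ l, e a ∈ supp (S : Set ℕ)) → projL e f l ω ∈ X.K s S := by
    intro l
    induction l with
    | nil => intro _; rwa [projL_nil]
    | cons a l ih =>
      intro hl
      have h1 := ih fun b hb => hl b (List.mem_cons_of_mem _ hb)
      rw [projL_cons]
      cases s with
      | zero => rw [X.ctr_eq_zero_of_mem_K_zero _ h1, mul_zero]; exact Submodule.zero_mem _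
      | succ s => exact X.io_mul_mem_K (hl a List.mem_cons_self) (X.ctr_mem_K _ h1)
  exact key _ fun a ha => he a (by simpa using ha)

theorem Space.proj_mem_I {r : ℕ} (X : Space r) (e : ℕ → E) {f : ℕ → Module.Dual ℚ E}
    {L S : Finset ℕ} {ρ : Set ℕ} (hf : ∀ a ∈ L, X.B S ⊔ supp ρ ≤ LinearMap.ker (f a)) {ω : A}
    (h : ω ∈ X.I S ρ) : proj e f L ω ∈ X.I S ρ := by
  rw [proj_eq_projL]
  have key : ∀ l : List ℕ, (∀ a ∈ l, a ∈ L) → projL e f l ω ∈ X.I S ρ := by
    intro l
    induction l with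
    | nil => intro _; rwa [projL_nil]
    | cons a l ih =>
      intro hl
      rw [projL_cons]
      exact X.mul_mem_I _ (X.ctr_mem_I (hf a (hl a List.mem_cons_self))
        (ih fun b hb => hl b (List.mem_cons_of_mem _ hb)))
  exact key _ fun a ha => by simpa using ha

theorem Space.sub_proj_mem_I {r : ℕ} (X : Space r) {e : ℕ → E} {f : ℕ → Module.Dual ℚ E}
    {L S : Finset ℕ} {ρ : Set ℕ} (h : ∀ a ∈ L, ∀ a' ∈ L, f a (e a') = if a = a' then 1 else 0)
    (hf : ∀ a ∈ L, X.B S ⊔ supp ρ ≤ LinearMap.ker (f a)) {ω : A}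
    (hω : ∀ a ∈ L, io (e a) * ω ∈ X.I S ρ) : ω - proj e f L ω ∈ X.I S ρ := by
  rw [proj_eq_projL]
  have key : ∀ l : List ℕ, (∀ a ∈ l, a ∈ L) → ω - projL e f l ω ∈ X.I S ρ := by
    intro l
    induction l with
    | nil => intro _; rw [projL_nil, sub_self]; exact Submodule.zero_mem _
    | cons a l ih =>
      intro hl
      have ha := hl a List.mem_cons_self
      have h1 := ih fun b hb => hl b (List.mem_cons_of_mem _ hb)
      have h2 : ω - projL e f (a :: l) ω =
          ctr (f a) (io (e a) * ω) + io (e a) * ctr (f a) (ω - projL e f l ω) := by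
        rw [projL_cons, ctr_io_mul', h a ha a ha, if_pos rfl, one_smul, map_sub, mul_sub]
        abel
      rw [h2]
      exact Submodule.add_mem _ (X.ctr_mem_I (hf a ha) (hω a ha))
        (X.mul_mem_I _ (X.ctr_mem_I (hf a ha) h1))
  exact key _ fun a ha => by simpa using ha

/-- division by `wedge e ρ` of an element killed by all `e a`, `a ∈ L` -/
theorem Space.exists_div {r : ℕ} (X : Space r) {e : ℕ → E} {f : ℕ → Module.Dual ℚ E}
    {L ρ S : Finset ℕ} (h : ∀ a ∈ L, ∀ a' ∈ L, f a (e a') = if a = a' then 1 else 0) (hρ : ρ ⊆ L)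
    {s : ℕ} {ω : A} (hK : ω ∈ X.K (s + ρ.card) S) (hω : ∀ a ∈ L, io (e a) * ω = 0) :
    ∃ η ∈ X.K s S, wedge e ρ * η = ω ∧ ∀ a ∈ L, a ∉ ρ → io (e a) * η = 0 := by
  have key : ∀ l : List ℕ, l.Nodup → ∀ (L' : Finset ℕ) (ω : A), L' ⊆ L → (∀ a ∈ l, a ∈ L') →
      ω ∈ X.K (s + l.length) S → (∀ a ∈ L', io (e a) * ω = 0) →
      ∃ η ∈ X.K s S, wedgeL e l * η = ω ∧ ∀ a ∈ L', a ∉ l → io (e a) * η = 0 := by
    intro l
    induction l with
    | nil =>
      intro _ L' ω _ _ hK hω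
      exact ⟨ω, by simpa using hK, by rw [wedgeL_nil, one_mul], fun a ha _ => hω a ha⟩
    | cons b l ih =>
      intro hn L' ω hL hl hK hω
      have hb := hl b List.mem_cons_self
      obtain ⟨hbl, hn'⟩ := List.nodup_cons.1 hn
      have h1 : ω = io (e b) * ctr (f b) ω :=
        eq_io_mul_ctr (by rw [h b (hL hb) b (hL hb), if_pos rfl]) (hω b hb)
      obtain ⟨η, hη, h2, h3⟩ := ih hn' (L'.erase b) (ctr (f b) ω)
        ((Finset.erase_subset _ _).trans hL)
        (fun a ha => Finset.mem_erase.2 ⟨fun hab => hbl (hab ▸ ha),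
          hl a (List.mem_cons_of_mem _ ha)⟩)
        (X.ctr_mem_K _ (by simpa [add_assoc] using hK))
        (fun a ha => by
          obtain ⟨hab, ha⟩ := Finset.mem_erase.1 ha
          have h4 := ctr_io_mul' (f b) (e a) ω
          rw [hω a ha, map_zero, h b (hL hb) a (hL ha), if_neg (Ne.symm hab), zero_smul,
            zero_sub] at h4
          exact neg_eq_zero.1 h4.symm)
      refine ⟨η, hη, by rw [wedgeL_cons, mul_assoc, h2, ← h1], fun a ha hal => ?_⟩
      have hab : a ≠ b := fun hab => hal (hab ▸ List.mem_cons_self)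
      exact h3 a (Finset.mem_erase.2 ⟨hab, ha⟩) fun h' => hal (List.mem_cons_of_mem _ h')
  obtain ⟨η, hη, h2, h3⟩ := key (ρ.sort (· ≤ ·)) (Finset.sort_nodup _ _) L ω subset_rfl
    (fun a ha => hρ (by simpa using ha)) (by simpa using hK) hω
  exact ⟨η, hη, h2, fun a ha har => h3 a ha (by simpa using har)⟩

theorem Space.wedge_mul_mem_K {r : ℕ} (X : Space r) {e : ℕ → E} {ρ S : Finset ℕ}
    (he : ∀ a ∈ ρ, e a ∈ supp (S : Set ℕ)) {s : ℕ} {ω : A} (h : ω ∈ X.K s S) :
    wedge e ρ * ω ∈ X.K (s + ρ.card) S := by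
  have key : ∀ l : List ℕ, (∀ a ∈ l, e a ∈ supp (S : Set ℕ)) →
      wedgeL e l * ω ∈ X.K (s + l.length) S := by
    intro l
    induction l with
    | nil => intro _; simpa [wedgeL_nil] using h
    | cons a l ih =>
      intro hl
      rw [wedgeL_cons, mul_assoc, List.length_cons, ← add_assoc]
      exact X.io_mul_mem_K (hl a List.mem_cons_self)
        (ih fun b hb => hl b (List.mem_cons_of_mem _ hb))
  have := key (ρ.sort (· ≤ ·)) fun a ha => he a (by simpa using ha)
  rwa [Finset.length_sort] at this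

theorem io_mul_wedge {e : ℕ → E} {ρ : Finset ℕ} {a : ℕ} (ha : a ∈ ρ) :
    io (e a) * wedge e ρ = 0 := by
  obtain ⟨σ, hσ, h⟩ := exists_io_mul_wedge_eq e (Finset.notMem_erase a ρ)
  rw [Finset.insert_erase ha] at h
  have h1 : σ • (io (e a) * wedge e ρ) = 0 := by
    rw [← mul_smul_comm, ← h, io_mul_io_mul_self]
  rcases hσ with rfl | rfl <;> simpa using h1

/-- a wedge is a left and a right multiple of each of its factors -/
theorem exists_wedge_eq_mul_io {e : ℕ → E} {ρ : Finset ℕ} {a : ℕ} (ha : a ∈ ρ) :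
    ∃ σ : ℚ, (σ = 1 ∨ σ = -1) ∧ wedge e ρ = σ • (wedge e (ρ.erase a) * io (e a)) := by
  have hp : (ρ.sort (· ≤ ·)).Perm ((ρ.erase a).sort (· ≤ ·) ++ [a]) := by
    refine List.Perm.trans ?_ (List.perm_append_singleton _ _).symm
    rw [List.perm_ext_iff_of_nodup (Finset.sort_nodup _ _)
      (List.nodup_cons.2 ⟨by simp, Finset.sort_nodup _ _⟩)]
    intro x
    by_cases hx : x = a
    · simp [hx, ha]
    · simp [hx]
  obtain ⟨σ, hσ, h⟩ := wedgeL_perm e hp
  exact ⟨σ, hσ, by rw [wedge_eq_wedgeL, wedge_eq_wedgeL, ← wedgeL_concat, h]⟩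

theorem io_mul_wedge_comm (e : ℕ → E) (ρ : Finset ℕ) (μ : E) :
    io μ * wedge e ρ = (-1 : ℚ) ^ ρ.card • (wedge e ρ * io μ) := by
  have key : ∀ l : List ℕ, io μ * wedgeL e l = (-1 : ℚ) ^ l.length • (wedgeL e l * io μ) := by
    intro l
    induction l with
    | nil => simp [wedgeL_nil]
    | cons a l ih =>
      rw [wedgeL_cons, io_mul_io_mul_swap, ih, List.length_cons, pow_succ, mul_smul_comm,
        mul_assoc, mul_neg, mul_one, neg_smul]
  have := key (ρ.sort (· ≤ ·))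
  rwa [Finset.length_sort] at this

theorem wedge_mem_pow {e : ℕ → E} {ρ : Finset ℕ} {U : Submodule ℚ E} (he : ∀ a ∈ ρ, e a ∈ U) :
    wedge e ρ ∈ vecs U ^ ρ.card := by
  have key : ∀ l : List ℕ, (∀ a ∈ l, e a ∈ U) → wedgeL e l ∈ vecs U ^ l.length := by
    intro l
    induction l with
    | nil =>
      intro _
      rw [wedgeL_nil, List.length_nil, pow_zero]
      exact Submodule.one_le.1 le_rfl
    | cons a l ih =>
      intro hl
      rw [wedgeL_cons, List.length_cons, pow_succ']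
      exact Submodule.mul_mem_mul (Submodule.mem_map_of_mem (hl a List.mem_cons_self))
        (ih fun b hb => hl b (List.mem_cons_of_mem _ hb))
  have := key (ρ.sort (· ≤ ·)) fun a ha => he a (by simpa using ha)
  rwa [Finset.length_sort] at this

/-- the `m`-th power of the span of the `e a`, `a ∈ L`, is spanned by the wedges -/
theorem vecs_span_pow_le (e : ℕ → E) (L : Finset ℕ) (m : ℕ) :
    vecs (Submodule.span ℚ (e '' (L : Set ℕ))) ^ m ≤
      Submodule.span ℚ {w | ∃ ρ ⊆ L, ρ.card = m ∧ w = wedge e ρ} := by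
  induction m with
  | zero =>
    rw [pow_zero, Submodule.one_le]
    exact Submodule.subset_span ⟨∅, Finset.empty_subset _, rfl, by simp [wedge]⟩
  | succ m ih =>
    rw [pow_succ']
    refine (mul_le_mul_right ih _).trans ?_
    rw [vecs, Submodule.map_span, Submodule.span_mul_span, Submodule.span_le]
    rintro _ ⟨_, ⟨_, ⟨a, ha, rfl⟩, rfl⟩, _, ⟨ρ, hρ, hc, rfl⟩, rfl⟩
    by_cases har : a ∈ ρ
    · have : io (e a) * wedge e ρ = 0 := io_mul_wedge har
      simp only [this]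
      exact Submodule.zero_mem _
    · obtain ⟨σ, -, h⟩ := exists_io_mul_wedge_eq e har
      simp only [h]
      exact Submodule.smul_mem _ _ (Submodule.subset_span ⟨insert a ρ,
        Finset.insert_subset ha hρ, by rw [Finset.card_insert_of_notMem har, hc], rfl⟩)

theorem sgn_sq (v : ℕ) (R : Finset ℕ) : sgn v R * sgn v R = 1 := by
  rw [sgn, ← mul_pow]
  simp

theorem sgn_insert_self (v : ℕ) (R : Finset ℕ) : sgn v (insert v R) = sgn v R := by
  rw [sgn, sgn, Finset.filter_insert, if_neg (lt_irrefl v)]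

theorem sgn_insert_of_lt {v w : ℕ} (h : v < w) {R : Finset ℕ} (hw : w ∉ R) :
    sgn v (insert w R) = - sgn v R := by
  rw [sgn, sgn, Finset.filter_insert, if_pos h,
    Finset.card_insert_of_notMem (fun h' => hw (Finset.mem_filter.1 h').1), pow_succ]
  ring

theorem sgn_insert_of_le {v w : ℕ} (h : w ≤ v) (R : Finset ℕ) :
    sgn v (insert w R) = sgn v R := by
  rw [sgn, sgn, Finset.filter_insert, if_neg (not_lt.2 h)]

theorem sgn_anticomm {v w : ℕ} (h : v ≠ w) {R : Finset ℕ} (hv : v ∉ R) (hw : w ∉ R) :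
    sgn v R * sgn w (insert v R) = - (sgn w R * sgn v (insert w R)) := by
  rcases lt_or_gt_of_ne h with h | h
  · rw [sgn_insert_of_le h.le, sgn_insert_of_lt h hw]
    ring
  · rw [sgn_insert_of_lt h hv, sgn_insert_of_le h.le]
    ring

end Pool.Agent.Lead.THC
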