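import Pool.Agent.Lead.THC.Core

set_option autoImplicit false

open scoped BigOperators

noncomputable section

namespace Pool.Agent.Lead.THC

theorem a1_io_mem {W : Submodule ℚ E} {μ : E} (h : μ ∈ W) : io μ ∈ vecs W := ⟨μ, h, rfl⟩

theorem a1_vecs_mono {W W' : Submodule ℚ E} (h : W ≤ W') : vecs W ≤ vecs W' :=
  Submodule.map_mono h

theorem a1_ctr_io (f : Module.Dual ℚ E) (μ : E) (x : A) :
    ctr f (io μ * x) = f μ • x - io μ * ctr f x := CliffordAlgebra.contractLeft_ι_mul f μ x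

theorem a1_ctr_ctr (f : Module.Dual ℚ E) (x : A) : ctr f (ctr f x) = 0 :=
  CliffordAlgebra.contractLeft_contractLeft f x

theorem a1_ctr_comm (f g : Module.Dual ℚ E) (x : A) : ctr f (ctr g x) = -ctr g (ctr f x) :=
  CliffordAlgebra.contractLeft_comm f g x

theorem a1_io_io (μ : E) (x : A) : io μ * (io μ * x) = 0 := by
  rw [← mul_assoc, ExteriorAlgebra.ι_sq_zero, zero_mul]

theorem a1_io_swap (μ ν : E) (x : A) : io μ * (io ν * x) = -(io ν * (io μ * x)) := by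
  rw [eq_neg_iff_add_eq_zero, ← mul_assoc, ← mul_assoc, ← add_mul,
    ExteriorAlgebra.ι_add_mul_swap, zero_mul]

theorem a1_mul_le {W : Submodule ℚ E} {N P : Submodule ℚ A}
    (h : ∀ μ ∈ W, ∀ x ∈ N, io μ * x ∈ P) : vecs W * N ≤ P :=
  Submodule.mul_le.2 (by rintro _ ⟨μ, hμ, rfl⟩ x hx; exact h μ hμ x hx)

theorem a1_pow_le {W : Submodule ℚ E} {k : ℕ} {P : Submodule ℚ A}
    (h : ∀ μ ∈ W, ∀ x ∈ vecs W ^ k, io μ * x ∈ P) : vecs W ^ (k + 1) ≤ P := by
  rw [pow_succ']; exact a1_mul_le h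

theorem a1_io_mul_pow {W : Submodule ℚ E} {k : ℕ} {μ : E} (hμ : μ ∈ W) {x : A}
    (hx : x ∈ vecs W ^ k) : io μ * x ∈ vecs W ^ (k + 1) := by
  rw [pow_succ']; exact Submodule.mul_mem_mul (a1_io_mem hμ) hx

theorem a1_ctr_zero (f : Module.Dual ℚ E) {W : Submodule ℚ E} {x : A} (hx : x ∈ vecs W ^ 0) :
    ctr f x = 0 := by
  rw [pow_zero, Submodule.mem_one] at hx
  obtain ⟨q, rfl⟩ := hx
  exact CliffordAlgebra.contractLeft_algebraMap _ f q

theorem a1_ctr_pow (f : Module.Dual ℚ E) (W : Submodule ℚ E) (k : ℕ) :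
    vecs W ^ (k + 1) ≤ (vecs W ^ k).comap (ctr f) := by
  induction k with
  | zero =>
    refine a1_pow_le fun μ _ x hx => ?_
    rw [Submodule.mem_comap, a1_ctr_io, a1_ctr_zero f hx, mul_zero, sub_zero]
    exact Submodule.smul_mem _ _ hx
  | succ k ih =>
    refine a1_pow_le fun μ hμ x hx => ?_
    rw [Submodule.mem_comap, a1_ctr_io]
    exact Submodule.sub_mem _ (Submodule.smul_mem _ _ hx) (a1_io_mul_pow hμ (ih hx))

theorem a1_ctr_ker {f : Module.Dual ℚ E} {W : Submodule ℚ E} (h : W ≤ LinearMap.ker f) (k : ℕ) :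
    vecs W ^ k ≤ LinearMap.ker (ctr f) := by
  induction k with
  | zero => exact fun x hx => a1_ctr_zero f hx
  | succ k ih =>
    refine a1_pow_le fun μ hμ x hx => ?_
    rw [LinearMap.mem_ker, a1_ctr_io, LinearMap.mem_ker.1 (h hμ), LinearMap.mem_ker.1 (ih hx)]
    simp

/-- removing the component along `ε` -/
def a1Q (f : Module.Dual ℚ E) (ε : E) : A →ₗ[ℚ] A :=
  LinearMap.id - (LinearMap.mulLeft ℚ (io ε)).comp (ctr f)

theorem a1Q_apply (f : Module.Dual ℚ E) (ε : E) (x : A) : a1Q f ε x = x - io ε * ctr f x := rfl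

theorem a1Q_pow {f : Module.Dual ℚ E} {ε : E} {W : Submodule ℚ E} (hε : ε ∈ W) (h1 : f ε = 1)
    (k : ℕ) : vecs W ^ k ≤ (vecs (W ⊓ LinearMap.ker f) ^ k).comap (a1Q f ε) := by
  induction k with
  | zero =>
    intro x hx
    rw [Submodule.mem_comap, a1Q_apply, a1_ctr_zero f hx, mul_zero, sub_zero]
    simpa using hx
  | succ k ih =>
    refine a1_pow_le fun μ hμ x hx => ?_
    have e : a1Q f ε (io μ * x) = io (μ - f μ • ε) * a1Q f ε x := by
      simp only [a1Q_apply, a1_ctr_io, map_sub, map_smul, mul_sub, sub_mul, smul_mul_assoc,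
        mul_smul_comm, a1_io_io, a1_io_swap μ ε, smul_zero]
      abel
    rw [Submodule.mem_comap, e]
    exact a1_io_mul_pow (Submodule.mem_inf.2 ⟨W.sub_mem hμ (W.smul_mem _ hε), by simp [h1]⟩)
      (ih hx)

theorem a1_cl_perm {l l' : List (Module.Dual ℚ E)} (h : l.Perm l') :
    ∃ σ : ℚ, (σ = 1 ∨ σ = -1) ∧ ∀ ω, (l.map fun f => (ctr f : Module.End ℚ A)).prod ω =
      σ • (l'.map fun f => (ctr f : Module.End ℚ A)).prod ω := by
  induction h with
  | nil => exact ⟨1, Or.inl rfl, by simp⟩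
  | cons f _ ih =>
    obtain ⟨σ, h1, h2⟩ := ih
    exact ⟨σ, h1, fun ω => by simp [h2]⟩
  | swap f g l =>
    refine ⟨-1, Or.inr rfl, fun ω => ?_⟩
    simp only [List.map_cons, List.prod_cons, Module.End.mul_apply, neg_smul, one_smul]
    exact a1_ctr_comm _ _ _
  | trans _ _ ih ih' =>
    obtain ⟨σ, h1, h2⟩ := ih
    obtain ⟨τ, h3, h4⟩ := ih'
    refine ⟨σ * τ, ?_, fun ω => by rw [h2, h4, smul_smul]⟩
    rcases h1 with rfl | rfl <;> rcases h3 with rfl | rfl <;> simp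

theorem a1_sq {σ : ℚ} (h : σ = 1 ∨ σ = -1) : σ * σ = 1 := by rcases h with rfl | rfl <;> simp

namespace Space

variable {r : ℕ} (X : Space r)

theorem a1_K_le {s : ℕ} {S : Finset ℕ} {P : Submodule ℚ A}
    (h : ∀ S' ∈ X.T, S ⊆ S' → vecs (supp (S' : Set ℕ)) ^ s ≤ P) : X.K s S ≤ P :=
  iSup₂_le fun S' h' => h S' h'.1 h'.2

theorem a1_F_le {s : ℕ} {S : Finset ℕ} {P : Submodule ℚ A}
    (h : ∀ S' ∈ X.T, S ⊆ S' → vecs (X.tan S') ^ s ≤ P) : X.F s S ≤ P :=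
  iSup₂_le fun S' h' => h S' h'.1 h'.2

theorem a1_le_K (s : ℕ) {S S' : Finset ℕ} (h : S' ∈ X.T) (h' : S ⊆ S') :
    vecs (supp (S' : Set ℕ)) ^ s ≤ X.K s S :=
  le_iSup₂ (f := fun (S' : Finset ℕ) (_ : S' ∈ X.T ∧ S ⊆ S') => vecs (supp (S' : Set ℕ)) ^ s)
    S' ⟨h, h'⟩

theorem a1_le_F (s : ℕ) {S S' : Finset ℕ} (h : S' ∈ X.T) (h' : S ⊆ S') :
    vecs (X.tan S') ^ s ≤ X.F s S :=
  le_iSup₂ (f := fun (S' : Finset ℕ) (_ : S' ∈ X.T ∧ S ⊆ S') => vecs (X.tan S') ^ s)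
    S' ⟨h, h'⟩

theorem a1_tan_mono {S S' : Finset ℕ} (h : S ⊆ S') : X.tan S ≤ X.tan S' :=
  inf_le_inf_right _ (Finsupp.supported_mono h)

theorem a1_dual {S : Finset ℕ} (hS : S ∈ X.T) {L : Finset ℕ} {e : ℕ → E}
    (he : ∀ a ∈ L, e a ∈ supp (S : Set ℕ)) (hi : LinearIndependent ℚ fun a : L => e a) :
    ∃ f : ℕ → Module.Dual ℚ E, (∀ a, X.B S ≤ LinearMap.ker (f a)) ∧
      ∀ a ∈ L, ∀ a' ∈ L, f a (e a') = if a = a' then 1 else 0 := by
  classical
  have h1 : LinearIndependent ℚ ((X.B S).mkQ ∘ fun a : L => e a) := by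
    refine hi.map ?_
    rw [Submodule.ker_mkQ]
    refine (X.B_inj S hS).symm.mono_left (Submodule.span_le.2 ?_)
    rintro _ ⟨a, rfl⟩
    exact he a a.2
  obtain ⟨g, hg⟩ := LinearMap.exists_extend h1.repr
  refine ⟨fun a => if h : a ∈ L then
    (Finsupp.lapply (⟨a, h⟩ : L)).comp (g.comp (X.B S).mkQ) else 0, fun a μ hμ => ?_,
    fun a ha a' ha' => ?_⟩
  · have : (X.B S).mkQ μ = 0 := (Submodule.Quotient.mk_eq_zero _).2 hμ
    by_cases h : a ∈ L <;> simp only [h, dif_pos, dif_neg, not_false_iff, LinearMap.mem_ker,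
      LinearMap.comp_apply, this, map_zero, LinearMap.zero_apply]
  · have h2 := LinearMap.congr_fun hg ⟨(X.B S).mkQ (e a'),
      Submodule.subset_span ⟨⟨a', ha'⟩, rfl⟩⟩
    rw [h1.repr_eq_single ⟨a', ha'⟩ _ rfl] at h2
    simp only [LinearMap.comp_apply, Submodule.subtype_apply] at h2
    simp only [ha, dif_pos, LinearMap.comp_apply, h2, Finsupp.lapply_apply, Finsupp.single_apply,
      Subtype.mk.injEq, eq_comm]

theorem mul_mem_I {S : Finset ℕ} {ρ : Set ℕ} (a : A) {ω : A} (h : ω ∈ X.I S ρ) :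
    a * ω ∈ X.I S ρ := by
  induction a using ExteriorAlgebra.induction generalizing ω with
  | algebraMap q => rw [← Algebra.smul_def]; exact Submodule.smul_mem _ _ h
  | ι ν =>
    refine (a1_mul_le (P := (X.I S ρ).comap (LinearMap.mulLeft ℚ (io ν))) fun μ hμ x _ => ?_) h
    rw [Submodule.mem_comap, LinearMap.mulLeft_apply, a1_io_swap]
    exact Submodule.neg_mem _ (Submodule.mul_mem_mul (a1_io_mem hμ) trivial)
  | mul a b ha hb => rw [mul_assoc]; exact ha (hb h)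
  | add a b ha hb => rw [add_mul]; exact Submodule.add_mem _ (ha h) (hb h)

theorem mem_I_mul {S : Finset ℕ} {ρ : Set ℕ} (a : A) {ω : A} (h : ω ∈ X.I S ρ) :
    ω * a ∈ X.I S ρ := by
  refine (a1_mul_le (P := (X.I S ρ).comap (LinearMap.mulRight ℚ a)) fun μ hμ x _ => ?_) h
  rw [Submodule.mem_comap, LinearMap.mulRight_apply, mul_assoc]
  exact Submodule.mul_mem_mul (a1_io_mem hμ) trivial

theorem io_mul_mem_I {S : Finset ℕ} {ρ : Set ℕ} {μ : E} (h : μ ∈ X.B S ⊔ supp ρ) (a : A) :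
    io μ * a ∈ X.I S ρ := Submodule.mul_mem_mul (a1_io_mem h) trivial

theorem ctr_mem_I {S : Finset ℕ} {ρ : Set ℕ} {f : Module.Dual ℚ E}
    (hf : X.B S ⊔ supp ρ ≤ LinearMap.ker f) {ω : A} (h : ω ∈ X.I S ρ) : ctr f ω ∈ X.I S ρ := by
  refine (a1_mul_le (P := (X.I S ρ).comap (ctr f)) fun μ hμ x _ => ?_) h
  rw [Submodule.mem_comap, a1_ctr_io, LinearMap.mem_ker.1 (hf hμ), zero_smul, zero_sub]
  exact Submodule.neg_mem _ (X.io_mul_mem_I hμ _)

theorem I_mono {R S : Finset ℕ} {ρ ρ' : Set ℕ} (hR : X.Cell R) (hRS : R ⊆ S) (hS : S ∈ X.T)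
    (hρ : ρ ⊆ ρ') : X.I S ρ ≤ X.I R ρ' :=
  mul_le_mul_left (a1_vecs_mono (sup_le_sup (X.B_anti S hS R hRS hR.2)
    (Finsupp.supported_mono hρ))) _

theorem I_mono_right {S : Finset ℕ} {ρ ρ' : Set ℕ} (hρ : ρ ⊆ ρ') : X.I S ρ ≤ X.I S ρ' :=
  mul_le_mul_left (a1_vecs_mono (sup_le_sup_left (Finsupp.supported_mono hρ) _)) _

/-- an element of `I S (insert v ρ)` is killed by `e_v` modulo `I S ρ` -/
theorem io_mul_mem_I_of_insert {S : Finset ℕ} {ρ : Set ℕ} {v : ℕ} {ω : A}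
    (h : ω ∈ X.I S (insert v ρ)) : io (Finsupp.single v 1) * ω ∈ X.I S ρ := by
  refine (a1_mul_le (P := (X.I S ρ).comap (LinearMap.mulLeft ℚ (io (Finsupp.single v 1))))
    fun μ hμ x _ => ?_) h
  obtain ⟨b, hb, s, hs, rfl⟩ := Submodule.mem_sup.1 hμ
  have e : b + s = (b + s.erase v) + s v • Finsupp.single v 1 := by
    rw [add_assoc, Finsupp.smul_single, smul_eq_mul, mul_one, Finsupp.erase_add_single]
  have h1 : s.erase v ∈ supp ρ := fun w hw => by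
    rw [Finset.mem_coe, Finsupp.support_erase, Finset.mem_erase] at hw
    exact (hs hw.2).resolve_left hw.1
  rw [Submodule.mem_comap, LinearMap.mulLeft_apply, e, map_add, add_mul, mul_add, map_smul,
    smul_mul_assoc, mul_smul_comm, a1_io_io, smul_zero, add_zero]
  exact X.mul_mem_I _ (X.io_mul_mem_I (Submodule.add_mem_sup hb h1) _)

/-- converse: an element killed by `e_v` modulo `I S ∅` vanishes at the face at infinity `v` -/
theorem mem_I_singleton_of_io_mul {S : Finset ℕ} (hS : S ∈ X.T) {v : ℕ} (hv : v ∈ S) {ω : A}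
    (h : io (Finsupp.single v 1) * ω ∈ X.I S ∅) : ω ∈ X.I S {v} := by
  obtain ⟨f, h1, h2⟩ := X.a1_dual hS (L := {v}) (e := fun a => Finsupp.single a 1)
    (fun a ha => Finsupp.single_mem_supported _ _ (by rw [Finset.mem_singleton.1 ha]; exact hv))
    ((Finsupp.basisSingleOne (R := ℚ) (ι := ℕ)).linearIndependent.comp _ Subtype.val_injective)
  have h3 := X.ctr_mem_I (f := f v) (by simpa using h1 v) h
  rw [a1_ctr_io, h2 v (by simp) v (by simp), if_pos rfl, one_smul] at h3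
  have h4 := (X.I S {v}).add_mem (X.I_mono_right (Set.empty_subset _) h3)
    (X.io_mul_mem_I (Submodule.mem_sup_right (Finsupp.single_mem_supported ℚ (1 : ℚ)
      (Set.mem_singleton v))) (ctr (f v) ω))
  rwa [sub_add_cancel] at h4

theorem K_anti {R S : Finset ℕ} (h : R ⊆ S) (s : ℕ) : X.K s S ≤ X.K s R :=
  X.a1_K_le fun _ h1 h2 => X.a1_le_K s h1 (h.trans h2)

theorem F_anti {R S : Finset ℕ} (h : R ⊆ S) (p : ℕ) : X.F p S ≤ X.F p R :=
  X.a1_F_le fun _ h1 h2 => X.a1_le_F p h1 (h.trans h2)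

theorem F_le_K (p : ℕ) (S : Finset ℕ) : X.F p S ≤ X.K p S :=
  X.a1_F_le fun _ h1 h2 => (pow_le_pow_left' (a1_vecs_mono inf_le_left) p).trans (X.a1_le_K p h1 h2)

theorem ctr_mem_K {s : ℕ} {S : Finset ℕ} (f : Module.Dual ℚ E) {ω : A} (h : ω ∈ X.K (s + 1) S) :
    ctr f ω ∈ X.K s S :=
  X.a1_K_le (P := (X.K s S).comap (ctr f)) (fun _ h1 h2 =>
    (a1_ctr_pow f _ s).trans (Submodule.comap_mono (X.a1_le_K s h1 h2))) h

theorem ctr_mem_F {p : ℕ} {S : Finset ℕ} (f : Module.Dual ℚ E) {ω : A} (h : ω ∈ X.F (p + 1) S) :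
    ctr f ω ∈ X.F p S :=
  X.a1_F_le (P := (X.F p S).comap (ctr f)) (fun _ h1 h2 =>
    (a1_ctr_pow f _ p).trans (Submodule.comap_mono (X.a1_le_F p h1 h2))) h

theorem exists_algebraMap_of_mem_K_zero {S : Finset ℕ} {ω : A} (h : ω ∈ X.K 0 S) :
    ∃ q : ℚ, ω = algebraMap ℚ A q := by
  obtain ⟨q, hq⟩ := Submodule.mem_one.1 (X.a1_K_le (P := 1) (fun _ _ _ => (pow_zero _).le) h)
  exact ⟨q, hq.symm⟩

theorem ctr_eq_zero_of_mem_K_zero {S : Finset ℕ} (f : Module.Dual ℚ E) {ω : A}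
    (h : ω ∈ X.K 0 S) : ctr f ω = 0 :=
  X.a1_K_le (P := LinearMap.ker (ctr f)) (fun _ _ _ _ hx => a1_ctr_zero f hx) h

theorem io_mul_mem_K {s : ℕ} {S : Finset ℕ} {μ : E} (hμ : μ ∈ supp (S : Set ℕ)) {ω : A}
    (h : ω ∈ X.K s S) : io μ * ω ∈ X.K (s + 1) S :=
  X.a1_K_le (P := (X.K (s + 1) S).comap (LinearMap.mulLeft ℚ (io μ))) (fun _ h1 h2 _ hx =>
    X.a1_le_K _ h1 h2 (a1_io_mul_pow (Finsupp.supported_mono h2 hμ) hx)) h

theorem io_mul_mem_F {p : ℕ} {S : Finset ℕ} {μ : E} (hμ : μ ∈ X.tan S) {ω : A}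
    (h : ω ∈ X.F p S) : io μ * ω ∈ X.F (p + 1) S :=
  X.a1_F_le (P := (X.F (p + 1) S).comap (LinearMap.mulLeft ℚ (io μ))) (fun _ h1 h2 _ hx =>
    X.a1_le_F _ h1 h2 (a1_io_mul_pow (X.a1_tan_mono h2 hμ) hx)) h

theorem one_mem_K_zero {S : Finset ℕ} (hS : S ∈ X.T) : (1 : A) ∈ X.K 0 S :=
  X.a1_le_K 0 hS subset_rfl (by rw [pow_zero]; exact Submodule.mem_one.2 ⟨1, map_one _⟩)

/-- a form vanishing on the whole star kills `K` -/
theorem ctr_eq_zero_of_star {s : ℕ} {S : Finset ℕ} {f : Module.Dual ℚ E}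
    (hf : ∀ S' ∈ X.T, S ⊆ S' → supp (S' : Set ℕ) ≤ LinearMap.ker f) {ω : A} (h : ω ∈ X.K s S) :
    ctr f ω = 0 :=
  X.a1_K_le (P := LinearMap.ker (ctr f)) (fun S' h1 h2 => a1_ctr_ker (hf S' h1 h2) s) h

theorem le_ker_lvl (S : Finset ℕ) {ρ : Set ℕ} (hρ : ∀ v ∈ ρ, X.lev v = ⊥) (i : Fin r) :
    X.B S ⊔ supp ρ ≤ LinearMap.ker (lvl X.lev i) := by
  refine sup_le (X.B_lvl S i) fun μ hμ => ?_
  rw [LinearMap.mem_ker, lvl, Finsupp.linearCombination_apply]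
  refine Finset.sum_eq_zero fun v hv => ?_
  simp [hρ v (hμ hv)]

theorem ctr_lvl_of_mem_F {p : ℕ} {S : Finset ℕ} {ω : A} (h : ω ∈ X.F p S) (i : Fin r) :
    ctr (lvl X.lev i) ω = 0 :=
  X.a1_F_le (P := LinearMap.ker (ctr (lvl X.lev i)))
    (fun _ _ _ => a1_ctr_ker (inf_le_right.trans (iInf_le _ i)) p) h

theorem comp_empty (ω : A) : X.comp ∅ ω = ω := by simp [comp]

/-- `comp` of a larger set is a contraction of `comp` of a smaller set, up to sign -/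
theorem comp_insert {J : Finset (Fin r)} {i : Fin r} (hi : i ∉ J) :
    ∃ σ : ℚ, (σ = 1 ∨ σ = -1) ∧ ∀ ω, X.comp (insert i J) ω = σ • ctr (lvl X.lev i) (X.comp J ω) := by
  have h : ((insert i J).sort (· ≤ ·)).Perm (i :: J.sort (· ≤ ·)) := by
    rw [← Multiset.coe_eq_coe, ← Multiset.cons_coe, Finset.sort_eq, Finset.sort_eq,
      Finset.insert_val_of_notMem hi]
  obtain ⟨σ, h1, h2⟩ := a1_cl_perm (h.map (lvl X.lev))
  refine ⟨σ, h1, fun ω => ?_⟩
  simpa [comp, List.map_map, Function.comp_def] using h2 ω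

theorem ctr_lvl_comp {J : Finset (Fin r)} {i : Fin r} (hi : i ∈ J) (ω : A) :
    ctr (lvl X.lev i) (X.comp J ω) = 0 := by
  obtain ⟨σ, -, h⟩ := X.comp_insert (Finset.notMem_erase i J)
  rw [Finset.insert_erase hi] at h
  rw [h, map_smul, a1_ctr_ctr, smul_zero]

theorem comp_ctr (J : Finset (Fin r)) (f : Module.Dual ℚ E) (ω : A) :
    X.comp J (ctr f ω) = (-1 : ℚ) ^ J.card • ctr f (X.comp J ω) := by
  induction J using Finset.induction_on with
  | empty => simp [comp_empty]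
  | insert i J hi ih =>
    obtain ⟨σ, -, h⟩ := X.comp_insert hi
    rw [h, h, ih, Finset.card_insert_of_notMem hi, map_smul, map_smul, a1_ctr_comm, pow_succ]
    module

theorem a1_comp_io_mul (J : Finset (Fin r)) {μ : E} (hμ : ∀ i ∈ J, lvl X.lev i μ = 0) (ω : A) :
    X.comp J (io μ * ω) = (-1 : ℚ) ^ J.card • (io μ * X.comp J ω) := by
  induction J using Finset.induction_on with
  | empty => simp [comp_empty]
  | insert i J hi ih =>
    obtain ⟨σ, -, h⟩ := X.comp_insert hi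
    rw [h, h, ih fun j hj => hμ j (Finset.mem_insert_of_mem hj), Finset.card_insert_of_notMem hi,
      map_smul, a1_ctr_io, hμ i (Finset.mem_insert_self _ _), mul_smul_comm, pow_succ]
    module

theorem a1_comp_eq_zero {J : Finset (Fin r)} {j : Fin r} (hj : j ∈ J) {ω : A}
    (h : ctr (lvl X.lev j) ω = 0) : X.comp J ω = 0 := by
  obtain ⟨σ, -, h1⟩ := X.comp_insert (Finset.notMem_erase j J)
  have h2 := X.comp_ctr (J.erase j) (lvl X.lev j) ω
  rw [h, map_zero, eq_comm, smul_eq_zero] at h2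
  rw [Finset.insert_erase hj] at h1
  rw [h1, h2.resolve_left (by simp), smul_zero]

/-- `comp` commutes up to sign with multiplication by a vector killed by the level forms -/
theorem comp_io_mul (J : Finset (Fin r)) {μ : E} (hμ : ∀ i, lvl X.lev i μ = 0) (ω : A) :
    X.comp J (io μ * ω) = (-1 : ℚ) ^ J.card • (io μ * X.comp J ω) :=
  X.a1_comp_io_mul J (fun i _ => hμ i) ω

theorem comp_mem_I {S : Finset ℕ} {ρ : Set ℕ} (hρ : ∀ v ∈ ρ, X.lev v = ⊥) (J : Finset (Fin r))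
    {ω : A} (h : ω ∈ X.I S ρ) : X.comp J ω ∈ X.I S ρ := by
  induction J using Finset.induction_on with
  | empty => rwa [comp_empty]
  | insert i J hi ih =>
    obtain ⟨σ, -, h1⟩ := X.comp_insert hi
    rw [h1]
    exact Submodule.smul_mem _ _ (X.ctr_mem_I (X.le_ker_lvl S hρ i) ih)

theorem comp_mem_K {s : ℕ} {S : Finset ℕ} (J : Finset (Fin r)) {ω : A}
    (h : ω ∈ X.K (s + J.card) S) : X.comp J ω ∈ X.K s S := by
  induction J using Finset.induction_on generalizing s with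
  | empty => rwa [comp_empty]
  | insert i J hi ih =>
    obtain ⟨σ, -, h1⟩ := X.comp_insert hi
    rw [Finset.card_insert_of_notMem hi, add_comm J.card, ← add_assoc] at h
    rw [h1]
    exact Submodule.smul_mem _ _ (X.ctr_mem_K _ (ih h))

theorem comp_eq_zero_of_lt {s : ℕ} {S : Finset ℕ} {J : Finset (Fin r)} (hJ : s < J.card) {ω : A}
    (h : ω ∈ X.K s S) : X.comp J ω = 0 := by
  induction J using Finset.induction_on with
  | empty => simp at hJ
  | insert i J hi ih =>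
    obtain ⟨σ, -, h1⟩ := X.comp_insert hi
    rw [Finset.card_insert_of_notMem hi, Nat.lt_succ_iff_lt_or_eq] at hJ
    rw [h1]
    rcases hJ with hJ | rfl
    · rw [ih hJ, map_zero, smul_zero]
    · rw [X.ctr_eq_zero_of_mem_K_zero _ (X.comp_mem_K (S := S) J (by rwa [zero_add])), smul_zero]

theorem comp_mem_pow {W : Submodule ℚ E} {k : ℕ} (J : Finset (Fin r)) {ω : A}
    (h : ω ∈ vecs W ^ (k + J.card)) : X.comp J ω ∈ vecs W ^ k := by
  induction J using Finset.induction_on generalizing k with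
  | empty => rwa [comp_empty]
  | insert i J hi ih =>
    obtain ⟨σ, -, h1⟩ := X.comp_insert hi
    rw [Finset.card_insert_of_notMem hi, add_comm J.card, ← add_assoc] at h
    rw [h1]
    exact Submodule.smul_mem _ _ (a1_ctr_pow _ _ _ (ih h))

theorem a1_exists_Q {ε : Fin r → E} (hd : ∀ i j, lvl X.lev j (ε i) = if i = j then 1 else 0)
    (J : Finset (Fin r)) : ∃ Q : A →ₗ[ℚ] A,
    (∀ (W : Submodule ℚ E) (k : ℕ), (∀ i, ε i ∈ W) →
      vecs W ^ k ≤ (vecs (W ⊓ ⨅ i ∈ J, LinearMap.ker (lvl X.lev i)) ^ k).comap Q) ∧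
    ∀ P : Submodule ℚ A, (∀ a, ∀ x ∈ P, a * x ∈ P) → (∀ i, ∀ x ∈ P, ctr (lvl X.lev i) x ∈ P) →
      ∀ ω, (∀ i, ctr (lvl X.lev i) ω ∈ P) → ω - Q ω ∈ P := by
  induction J using Finset.induction_on with
  | empty => exact ⟨LinearMap.id, fun W k _ => by simp, fun P _ _ ω _ => by simp⟩
  | insert i J hi ih =>
    obtain ⟨Q, h1, h2⟩ := ih
    refine ⟨(a1Q (lvl X.lev i) (ε i)).comp Q, fun W k hW x hx => ?_, fun P p1 p2 ω hω => ?_⟩
    · have h3 := a1Q_pow (f := lvl X.lev i) (ε := ε i)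
        (W := W ⊓ ⨅ i ∈ J, LinearMap.ker (lvl X.lev i)) ⟨hW i, by
          simp only [SetLike.mem_coe, Submodule.mem_iInf, LinearMap.mem_ker, hd]
          exact fun j hj => if_neg fun e : i = j => hi (e ▸ hj)⟩ (by simp [hd]) k (h1 W k hW hx)
      rwa [Finset.iInf_insert, inf_comm (LinearMap.ker _), ← inf_assoc]
    · have h3 := h2 P p1 p2 ω hω
      have h4 := P.sub_mem (hω i) (p2 i _ h3)
      rw [map_sub, sub_sub_cancel] at h4
      rw [LinearMap.comp_apply, a1Q_apply, ← sub_add]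
      exact P.add_mem h3 (p1 _ _ h4)

theorem a1_eps {S : Finset ℕ} (hS : X.Cell S) : ∃ ε : Fin r → E,
    (∀ i, ε i ∈ supp (S : Set ℕ)) ∧ ∀ i j, lvl X.lev j (ε i) = if i = j then 1 else 0 := by
  choose v hv hv' using hS.2
  refine ⟨fun i => Finsupp.single (v i) 1, fun i => Finsupp.single_mem_supported _ _ (hv i),
    fun i j => ?_⟩
  simp [lvl, hv']

theorem a1_exists_F {s : ℕ} {S : Finset ℕ} (hS : X.Cell S) {P : Submodule ℚ A}
    (p1 : ∀ a, ∀ x ∈ P, a * x ∈ P) (p2 : ∀ i, ∀ x ∈ P, ctr (lvl X.lev i) x ∈ P) {ω : A}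
    (h : ω ∈ X.K s S) (h0 : ∀ i, ctr (lvl X.lev i) ω ∈ P) : ∃ η ∈ X.F s S, ω - η ∈ P := by
  obtain ⟨ε, e1, e2⟩ := X.a1_eps hS
  obtain ⟨Q, h1, h2⟩ := X.a1_exists_Q e2 Finset.univ
  refine ⟨Q ω, X.a1_K_le (P := (X.F s S).comap Q) (fun S' k1 k2 x hx => X.a1_le_F s k1 k2 ?_) h,
    h2 P p1 p2 ω h0⟩
  simpa [tan] using h1 _ s (fun i => Finsupp.supported_mono k2 (e1 i)) hx

theorem mem_pow_inf_ker {W : Submodule ℚ E} {ε : Fin r → E} (hε : ∀ i, ε i ∈ W)
    (hd : ∀ i j, lvl X.lev j (ε i) = if i = j then 1 else 0) {k : ℕ} {ω : A}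
    (h : ω ∈ vecs W ^ k) (h0 : ∀ i, ctr (lvl X.lev i) ω = 0) :
    ω ∈ vecs (W ⊓ ⨅ i, LinearMap.ker (lvl X.lev i)) ^ k := by
  obtain ⟨Q, h1, h2⟩ := X.a1_exists_Q hd Finset.univ
  have h3 := h2 ⊥ (by simp) (by simp) ω h0
  rw [Submodule.mem_bot, sub_eq_zero] at h3
  rw [h3]
  simpa using h1 W k hε h

/-- an element of `K` killed by all level forms modulo `I` lies in `F` modulo `I` -/
theorem exists_F_of_ctr_mem_I {s : ℕ} {S : Finset ℕ} (hS : X.Cell S) {ρ : Set ℕ}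
    (hρ : ∀ v ∈ ρ, X.lev v = ⊥) {ω : A} (h : ω ∈ X.K s S)
    (h0 : ∀ i, ctr (lvl X.lev i) ω ∈ X.I S ρ) : ∃ η ∈ X.F s S, ω - η ∈ X.I S ρ :=
  X.a1_exists_F hS (fun a _ hx => X.mul_mem_I a hx)
    (fun i _ hx => X.ctr_mem_I (X.le_ker_lvl S hρ i) hx) h h0

theorem mem_F_of_ctr_eq_zero {s : ℕ} {S : Finset ℕ} (hS : X.Cell S) {ω : A} (h : ω ∈ X.K s S)
    (h0 : ∀ i, ctr (lvl X.lev i) ω = 0) : ω ∈ X.F s S := by
  obtain ⟨η, h1, h2⟩ := X.a1_exists_F hS (P := ⊥) (by simp) (by simp) h h0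
  rw [Submodule.mem_bot, sub_eq_zero] at h2
  rwa [h2]

theorem comp_univ_mem_F {k : ℕ} {S : Finset ℕ} (hS : X.Cell S) {ω : A} (h : ω ∈ X.K (k + r) S) :
    X.comp Finset.univ ω ∈ X.F k S :=
  X.mem_F_of_ctr_eq_zero hS (X.comp_mem_K _ (by simpa using h))
    fun i => X.ctr_lvl_comp (Finset.mem_univ i) ω

theorem mem_Phi {d : ℤ} {s : ℕ} {S : Finset ℕ} {ρ : Set ℕ} {ω : A} :
    ω ∈ X.Phi d s S ρ ↔
      ω ∈ X.K s S ∧ ∀ J : Finset (Fin r), d < (J.card : ℤ) → X.comp J ω ∈ X.I S ρ := by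
  simp only [Phi, Submodule.mem_inf, Submodule.mem_iInf, Submodule.mem_comap]

/-- top components of an element of `Phi d` lie in `F` modulo `I` -/
theorem exists_F_comp {d p : ℕ} {S : Finset ℕ} (hS : X.Cell S) {ρ : Set ℕ}
    (hρ : ∀ v ∈ ρ, X.lev v = ⊥) {ω : A} (h : ω ∈ X.Phi d (p + d) S ρ) {J : Finset (Fin r)}
    (hJ : J.card = d) : ∃ η ∈ X.F p S, X.comp J ω - η ∈ X.I S ρ := by
  obtain ⟨h1, h2⟩ := X.mem_Phi.1 h
  refine X.exists_F_of_ctr_mem_I hS hρ (X.comp_mem_K J (by rwa [hJ])) fun i => ?_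
  by_cases hi : i ∈ J
  · rw [X.ctr_lvl_comp hi]; exact Submodule.zero_mem _
  · obtain ⟨σ, s1, s2⟩ := X.comp_insert hi
    have h3 := (X.I S ρ).smul_mem σ (h2 (insert i J) (by
      rw [Finset.card_insert_of_notMem hi, hJ]; push_cast; omega))
    rwa [s2, smul_smul, a1_sq s1, one_smul] at h3

theorem a1_wedge (J : Finset (Fin r)) : ∃ W : (Fin r → E) → A,
    ∀ ε : Fin r → E, (∀ i j, lvl X.lev j (ε i) = if i = j then 1 else 0) →
      (∀ (S : Finset ℕ) (s : ℕ) (ω : A), (∀ i, ε i ∈ supp (S : Set ℕ)) → ω ∈ X.K s S →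
        W ε * ω ∈ X.K (s + J.card) S) ∧ (∀ i ∈ J, ∀ η, io (ε i) * (W ε * η) = 0) ∧
      (∀ j ∉ J, ∀ η, ctr (lvl X.lev j) η = 0 → ctr (lvl X.lev j) (W ε * η) = 0) ∧
      ∀ η : A, (∀ i ∈ J, ctr (lvl X.lev i) η = 0) → X.comp J (W ε * η) = η := by
  induction J using Finset.induction_on with
  | empty => exact ⟨fun _ => 1, fun ε _ => by simp [comp_empty]⟩
  | insert i J hi ih =>
    obtain ⟨W, hW⟩ := ih
    obtain ⟨σ, s1, s2⟩ := X.comp_insert hi
    refine ⟨fun ε => (σ * (-1) ^ J.card) • (io (ε i) * W ε), fun ε hd => ?_⟩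
    obtain ⟨h1, h2, h3, h4⟩ := hW ε hd
    simp only [smul_mul_assoc, mul_assoc, mul_smul_comm, map_smul]
    refine ⟨fun S s ω e1 e2 => ?_, fun j hj η => ?_, fun j hj η hη => ?_, fun η hη => ?_⟩
    · rw [Finset.card_insert_of_notMem hi, ← add_assoc]
      exact Submodule.smul_mem _ _ (X.io_mul_mem_K (e1 i) (h1 S s ω e1 e2))
    · rcases Finset.mem_insert.1 hj with rfl | hj
      · rw [a1_io_io, smul_zero]
      · rw [a1_io_swap, h2 j hj, mul_zero, neg_zero, smul_zero]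
    · rw [Finset.mem_insert, not_or] at hj
      rw [a1_ctr_io, hd, if_neg (Ne.symm hj.1), h3 j hj.2 η hη]
      simp
    · rw [s2, X.a1_comp_io_mul J (fun j hj => by rw [hd, if_neg fun e : i = j => hi (e ▸ hj)]),
        h4 η fun j hj => hη j (Finset.mem_insert_of_mem hj), map_smul, a1_ctr_io, hd, if_pos rfl,
        hη i (Finset.mem_insert_self _ _), mul_zero, sub_zero, one_smul, smul_smul, smul_smul,
        mul_right_comm σ, a1_sq s1, one_mul, ← mul_pow]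
      simp

/-- prescribed top components -/
theorem exists_lift_comp {d p : ℕ} {S : Finset ℕ} (hS : X.Cell S) (η : Finset (Fin r) → A)
    (hη : ∀ J : Finset (Fin r), J.card = d → η J ∈ X.F p S) :
    ∃ ω ∈ X.K (p + d) S, (∀ J : Finset (Fin r), J.card = d → X.comp J ω = η J) ∧
      (∀ J : Finset (Fin r), d < J.card → X.comp J ω = 0) ∧
      ((∀ J : Finset (Fin r), J.card = d → η J = 0) → ω = 0) := by
  obtain ⟨ε, e1, e2⟩ := X.a1_eps hS
  choose W hW using X.a1_wedge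
  have key : ∀ J J' : Finset (Fin r), J.card = d → ¬ J' ⊆ J → X.comp J' (W J ε * η J) = 0 := by
    intro J J' hJ h
    obtain ⟨j, j1, j2⟩ := Finset.not_subset.1 h
    exact X.a1_comp_eq_zero j1 ((hW J ε e2).2.2.1 j j2 _ (X.ctr_lvl_of_mem_F (hη J hJ) j))
  refine ⟨∑ J ∈ Finset.univ.filter fun J : Finset (Fin r) => J.card = d, W J ε * η J,
    Submodule.sum_mem _ fun J hJ => ?_, fun J hJ => ?_, fun J hJ => ?_, fun h => ?_⟩
  · have hJ' := (Finset.mem_filter.1 hJ).2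
    exact hJ' ▸ (hW J ε e2).1 S p _ e1 (X.F_le_K p S (hη J hJ'))
  · rw [map_sum, Finset.sum_eq_single J (fun J' hJ' hne => ?_) (fun h => (h (by simp [hJ])).elim)]
    · exact (hW J ε e2).2.2.2 _ fun i _ => X.ctr_lvl_of_mem_F (hη J hJ) i
    · have h1 := (Finset.mem_filter.1 hJ').2
      exact key J' J h1 fun h => hne (Finset.eq_of_subset_of_card_le h (by omega)).symm
  · rw [map_sum]
    refine Finset.sum_eq_zero fun J' hJ' => ?_
    have h1 := (Finset.mem_filter.1 hJ').2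
    exact key J' J h1 fun h => by have := Finset.card_le_card h; omega
  · exact Finset.sum_eq_zero fun J hJ => by rw [h J (Finset.mem_filter.1 hJ).2, mul_zero]

/-- the top wedge of a family dual to the level forms -/
theorem exists_top_wedge : ∃ (W : (Fin r → E) → A) (σ : Fin r → ℚ), (∀ i, σ i ≠ 0) ∧
    ∀ ε : Fin r → E, (∀ i j, lvl X.lev j (ε i) = if i = j then 1 else 0) →
      (∀ (S : Finset ℕ) (s : ℕ) (ω : A), (∀ i, ε i ∈ supp (S : Set ℕ)) → ω ∈ X.K s S →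
        W ε * ω ∈ X.K (s + r) S) ∧
      ∀ η : A, (∀ i, ctr (lvl X.lev i) η = 0) → X.comp Finset.univ (W ε * η) = η ∧
        ∀ i, X.comp (Finset.univ.erase i) (W ε * η) = σ i • (io (ε i) * η) := by
  obtain ⟨W, hW⟩ := X.a1_wedge Finset.univ
  choose σ s1 s2 using fun i : Fin r => X.comp_insert (Finset.notMem_erase i Finset.univ)
  refine ⟨W, σ, fun i h => by simpa [h] using a1_sq (s1 i), fun ε hd => ?_⟩
  obtain ⟨h1, h2, -, h4⟩ := hW ε hd
  refine ⟨fun S s ω e1 e2 => by simpa using h1 S s ω e1 e2, fun η hη =>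
    ⟨h4 η fun i _ => hη i, fun i => ?_⟩⟩
  have k1 := X.a1_comp_io_mul (Finset.univ.erase i) (μ := ε i)
    (fun j hj => by rw [hd, if_neg (Finset.ne_of_mem_erase hj).symm]) (W ε * η)
  rw [h2 i (Finset.mem_univ i), map_zero, eq_comm, smul_eq_zero] at k1
  have k2 := congrArg (ctr (lvl X.lev i)) (k1.resolve_left (by simp))
  rw [a1_ctr_io, hd, if_pos rfl, one_smul, map_zero, sub_eq_zero] at k2
  have k3 := s2 i (W ε * η)
  rw [Finset.insert_erase (Finset.mem_univ i), h4 η fun i _ => hη i] at k3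
  rw [k2]
  conv_rhs => rw [k3]
  rw [mul_smul_comm, smul_smul, a1_sq (s1 i), one_smul]

/-- forms dual to independent vectors of a simplex, vanishing on the relations and on a set of
vertices outside -/
theorem exists_dual {S : Finset ℕ} (hS : S ∈ X.T) {L : Finset ℕ} {e : ℕ → E}
    (he : ∀ a ∈ L, e a ∈ supp (S : Set ℕ)) (hi : LinearIndependent ℚ fun a : L => e a) :
    ∃ f : ℕ → Module.Dual ℚ E, (∀ a, X.B S ≤ LinearMap.ker (f a)) ∧
      ∀ a ∈ L, ∀ a' ∈ L, f a (e a') = if a = a' then 1 else 0 := X.a1_dual hS he hi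

end Space

end Pool.Agent.Lead.THC
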