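import Pool.Agent.Lead.THC.Meets

set_option autoImplicit false

open scoped BigOperators

noncomputable section

namespace Pool.Agent.Lead.THC

namespace Bis

theorem cellBd_eq_sum {M : Type} [AddCommGroup M] [Module ℚ M] (T : Finset (Finset ℕ))
    (c : Finset ℕ → M) (R W : Finset ℕ) (hW : ∀ S ∈ T, S ⊆ W) :
    cellBd T c R =
      ∑ w ∈ W, if w ∉ R ∧ insert w R ∈ T then sgn w R • c (insert w R) else 0 := by
  unfold cellBd
  refine Finset.sum_subset ?_ ?_
  · intro w hw
    obtain ⟨S, hS, hwS⟩ := Finset.mem_biUnion.1 hw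
    exact hW S hS hwS
  · intro w _ hw
    rw [if_neg]
    rintro ⟨-, h2⟩
    exact hw (Finset.mem_biUnion.2 ⟨_, h2, Finset.mem_insert_self _ _⟩)

theorem sgn_top {p : ℕ} {R : Finset ℕ} (h : ∀ a ∈ R, a < p) : sgn p R = 1 := by
  unfold sgn
  rw [Finset.filter_eq_empty_iff.2, Finset.card_empty, pow_zero]
  intro a ha
  have := h a ha
  omega

theorem sgn_insert_top {p w : ℕ} {R : Finset ℕ} (hp : p ∉ R) (hw : w < p) :
    sgn w (insert p R) = - sgn w R := by
  unfold sgn
  rw [Finset.filter_insert, if_pos hw, Finset.card_insert_of_notMem, pow_succ]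
  · ring
  · intro h
    exact hp (Finset.mem_filter.1 h).1

theorem sum_push {K N : Type} [Field K] [AddCommGroup N] [Module K N] {u v : ℕ}
    (Q : Finset ℕ) (g : ℕ → K) (x : K) (w : ℕ → N) :
    ∑ a ∈ insert u (insert v Q), ((if a ∈ Q then g a else 0) + (if a = u then x else 0)
        + (if a = v then x else 0)) • w a
      = ∑ a ∈ Q, g a • w a + x • w u + x • w v := by
  simp only [add_smul, Finset.sum_add_distrib, ite_smul, zero_smul]
  rw [Finset.sum_ite_mem, Finset.sum_ite_eq', Finset.sum_ite_eq', if_pos (by simp),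
    if_pos (by simp)]
  congr 3
  ext a
  simp only [Finset.mem_inter, Finset.mem_insert]
  tauto

theorem erase_subset_bisCar (u v p : ℕ) (S' : Finset ℕ) : S'.erase p ⊆ bisCar u v p S' := by
  unfold bisCar
  split_ifs
  · exact (Finset.subset_insert _ _).trans (Finset.subset_insert _ _)
  · exact Finset.erase_subset _ _

theorem bisCar_mono (u v p : ℕ) {R' S' : Finset ℕ} (h : R' ⊆ S') :
    bisCar u v p R' ⊆ bisCar u v p S' := by
  by_cases hR : p ∈ R'
  · unfold bisCar
    rw [if_pos hR, if_pos (h hR)]
    exact Finset.insert_subset_insert _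
      (Finset.insert_subset_insert _ (Finset.erase_subset_erase _ h))
  · have : bisCar u v p R' = R'.erase p := by
      unfold bisCar
      rw [if_neg hR, Finset.erase_eq_of_notMem hR]
    rw [this]
    exact (Finset.erase_subset_erase _ h).trans (erase_subset_bisCar u v p S')

end Bis

open Bis

namespace St

variable {r : ℕ} {X : Space r} (st : St X)

theorem lt_fresh {S : Finset ℕ} (hS : S ∈ st.cx) {a : ℕ} (ha : a ∈ S) : a < st.fresh := by
  unfold fresh
  have : a ∈ st.cx.biUnion id ∪ X.rays :=
    Finset.mem_union_left _ (Finset.mem_biUnion.2 ⟨S, hS, ha⟩)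
  exact Nat.lt_succ_of_le (Finset.le_sup (f := id) this)

theorem lt_fresh_of_ray {a : ℕ} (ha : a ∈ X.rays) : a < st.fresh := by
  unfold fresh
  have : a ∈ st.cx.biUnion id ∪ X.rays := Finset.mem_union_right _ ha
  exact Nat.lt_succ_of_le (Finset.le_sup (f := id) this)

theorem fresh_notMem {S : Finset ℕ} (hS : S ∈ st.cx) : st.fresh ∉ S :=
  fun h => lt_irrefl _ (st.lt_fresh hS h)

theorem Edge.left_lt {st : St X} {u v : ℕ} (h : st.Edge u v) : u < st.fresh :=
  st.lt_fresh h.2.1 (by simp)

theorem Edge.right_lt {st : St X} {u v : ℕ} (h : st.Edge u v) : v < st.fresh :=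
  st.lt_fresh h.2.1 (by simp)

/-- membership in the starred complex, simplices without the new vertex -/
theorem mem_bisCx_of_not_mem {u v : ℕ} (h : st.Edge u v) {S' : Finset ℕ} (hp : st.fresh ∉ S') :
    S' ∈ bisCx st.cx u v st.fresh ↔ S' ∈ st.cx ∧ ¬ (u ∈ S' ∧ v ∈ S') := by
  have _ := h
  unfold bisCx
  rw [Finset.mem_union, Finset.mem_filter, Finset.mem_biUnion]
  constructor
  · rintro (h1 | ⟨S, -, h2⟩)
    · exact h1
    · exfalso
      simp only [Finset.mem_insert, Finset.mem_singleton] at h2
      rcases h2 with rfl | rfl | rfl <;> exact hp (Finset.mem_insert_self _ _)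
  · exact fun h1 => Or.inl h1

/-- membership in the starred complex, simplices with the new vertex -/
theorem mem_bisCx_of_mem {u v : ℕ} (h : st.Edge u v) {S' : Finset ℕ} (hp : st.fresh ∈ S') :
    S' ∈ bisCx st.cx u v st.fresh ↔
      bisCar u v st.fresh S' ∈ st.cx ∧ ¬ (u ∈ S' ∧ v ∈ S') := by
  have hu := h.left_lt
  have hv := h.right_lt
  have huv := h.1
  unfold bisCx bisCar
  rw [if_pos hp, Finset.mem_union, Finset.mem_filter, Finset.mem_biUnion]
  constructor
  · rintro (h1 | ⟨S, hS, h2⟩)
    · exact absurd hp (st.fresh_notMem h1.1)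
    · obtain ⟨hS, huS, hvS⟩ := Finset.mem_filter.1 hS
      have hpS := st.fresh_notMem hS
      simp only [Finset.mem_insert, Finset.mem_singleton] at h2
      have key : insert u (insert v (S'.erase st.fresh)) = S ∧ ¬ (u ∈ S' ∧ v ∈ S') := by
        rcases h2 with rfl | rfl | rfl
        all_goals
          refine ⟨?_, ?_⟩
          · ext a
            simp only [Finset.mem_insert, Finset.mem_erase]
            constructor
            · intro ha
              grind
            · intro ha
              have : a ≠ st.fresh := fun e => hpS (e ▸ ha)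
              grind
          · simp only [Finset.mem_insert, Finset.mem_erase]
            grind
      rw [key.1]
      exact ⟨hS, key.2⟩
  · rintro ⟨h1, h2⟩
    refine Or.inr ⟨_, Finset.mem_filter.2 ⟨h1, by simp, by simp⟩, ?_⟩
    simp only [Finset.mem_insert, Finset.mem_singleton]
    by_cases hvS : v ∈ S'
    · refine Or.inl ?_
      ext a
      simp only [Finset.mem_insert, Finset.mem_erase]
      grind
    · by_cases huS : u ∈ S'
      · refine Or.inr (Or.inl ?_)
        ext a
        simp only [Finset.mem_insert, Finset.mem_erase]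
        grind
      · refine Or.inr (Or.inr ?_)
        ext a
        simp only [Finset.mem_insert, Finset.mem_erase]
        grind

theorem bisCar_mem {u v : ℕ} (h : st.Edge u v) {S' : Finset ℕ}
    (hS : S' ∈ bisCx st.cx u v st.fresh) : bisCar u v st.fresh S' ∈ st.cx := by
  by_cases hp : st.fresh ∈ S'
  · exact ((st.mem_bisCx_of_mem h hp).1 hS).1
  · unfold bisCar
    rw [if_neg hp]
    exact ((st.mem_bisCx_of_not_mem h hp).1 hS).1

theorem not_both_of_mem_bisCx {u v : ℕ} (h : st.Edge u v) {S' : Finset ℕ}
    (hS : S' ∈ bisCx st.cx u v st.fresh) : ¬ (u ∈ S' ∧ v ∈ S') := by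
  by_cases hp : st.fresh ∈ S'
  · exact ((st.mem_bisCx_of_mem h hp).1 hS).2
  · exact ((st.mem_bisCx_of_not_mem h hp).1 hS).2

/-- membership in the starred complex, both cases at once -/
theorem mem_bisCx_iff {u v : ℕ} (h : st.Edge u v) {S' : Finset ℕ} :
    S' ∈ bisCx st.cx u v st.fresh ↔
      bisCar u v st.fresh S' ∈ st.cx ∧ ¬ (u ∈ S' ∧ v ∈ S') := by
  by_cases hp : st.fresh ∈ S'
  · exact st.mem_bisCx_of_mem h hp
  · rw [st.mem_bisCx_of_not_mem h hp]
    unfold bisCar
    rw [if_neg hp]

theorem bisCx_down {u v : ℕ} (h : st.Edge u v) :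
    ∀ S ∈ bisCx st.cx u v st.fresh, ∀ R ⊆ S, R ∈ bisCx st.cx u v st.fresh := by
  intro S hS R hRS
  rw [st.mem_bisCx_iff h] at hS ⊢
  exact ⟨st.down _ hS.1 _ (bisCar_mono u v _ hRS), fun hh => hS.2 ⟨hRS hh.1, hRS hh.2⟩⟩

theorem bisPos_fresh (u v : ℕ) :
    st.bisPos u v st.fresh = (1 / 2 : ℚ) • (st.pos u + st.pos v) := by
  unfold bisPos
  rw [Function.update_self]

theorem bisPos_of_ne (u v : ℕ) {a : ℕ} (ha : a ≠ st.fresh) : st.bisPos u v a = st.pos a := by
  unfold bisPos
  rw [Function.update_of_ne ha]

theorem support_bisPos_fresh (u v : ℕ) :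
    (st.bisPos u v st.fresh).support = (st.pos u).support ∪ (st.pos v).support := by
  rw [bisPos_fresh]
  ext w
  have h1 := st.pos_nonneg u w
  have h2 := st.pos_nonneg v w
  simp only [Finsupp.mem_support_iff, Finset.mem_union, Finsupp.smul_apply, Finsupp.add_apply,
    smul_eq_mul]
  constructor
  · intro hw
    by_contra hc
    push Not at hc
    apply hw
    rw [hc.1, hc.2]
    ring
  · intro hw h0
    rcases hw with hw | hw
    · exact hw (by linarith)
    · exact hw (by linarith)

theorem kap_bisPos (u v : ℕ) (S' : Finset ℕ) :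
    (S'.biUnion fun a => (st.bisPos u v a).support) = st.kap (bisCar u v st.fresh S') := by
  unfold kap bisCar
  by_cases hp : st.fresh ∈ S'
  · rw [if_pos hp]
    conv_lhs => rw [← Finset.insert_erase hp]
    rw [Finset.biUnion_insert, Finset.biUnion_insert, Finset.biUnion_insert,
      support_bisPos_fresh, Finset.union_assoc]
    congr 2
    refine Finset.biUnion_congr rfl fun a ha => ?_
    rw [st.bisPos_of_ne u v (Finset.ne_of_mem_erase ha)]
  · rw [if_neg hp]
    refine Finset.biUnion_congr rfl fun a ha => ?_
    rw [st.bisPos_of_ne u v (fun e => hp (e ▸ ha))]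

theorem singleton_mem_of_bisCx {u v : ℕ} (h : st.Edge u v) {a : ℕ} (ha : a ≠ st.fresh)
    (hS : {a} ∈ bisCx st.cx u v st.fresh) : {a} ∈ st.cx :=
  ((st.mem_bisCx_of_not_mem h (by simpa using ha.symm)).1 hS).1

theorem bisPos_indep {u v : ℕ} (h : st.Edge u v) :
    ∀ S ∈ bisCx st.cx u v st.fresh, LinearIndependent ℚ fun a : S => st.bisPos u v a := by
  intro S' hS
  have hcar := st.indep _ (st.bisCar_mem h hS)
  have hnb := st.not_both_of_mem_bisCx h hS
  by_cases hp : st.fresh ∈ S'
  · have hcar' : LinearIndepOn ℚ st.pos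
        ((insert u (insert v (S'.erase st.fresh)) : Finset ℕ) : Set ℕ) := by
      unfold bisCar at hcar
      rw [if_pos hp] at hcar
      exact hcar
    change LinearIndepOn ℚ (st.bisPos u v) (S' : Set ℕ)
    rw [linearIndepOn_finset_iff] at hcar' ⊢
    intro g hg
    rw [← Finset.add_sum_erase _ _ hp, bisPos_fresh] at hg
    have e : ∑ a ∈ S'.erase st.fresh, g a • st.bisPos u v a
        = ∑ a ∈ S'.erase st.fresh, g a • st.pos a :=
      Finset.sum_congr rfl fun a ha => by rw [st.bisPos_of_ne u v (Finset.ne_of_mem_erase ha)]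
    rw [e] at hg
    have h0 := hcar' (fun a => (if a ∈ S'.erase st.fresh then g a else 0)
      + (if a = u then g st.fresh / 2 else 0) + (if a = v then g st.fresh / 2 else 0)) (by
        rw [sum_push, ← hg]
        module)
    have huv := h.1
    have hgp : g st.fresh = 0 := by
      by_cases hu : u ∈ S'
      · have hv : v ∉ S' := fun hv => hnb ⟨hu, hv⟩
        have := h0 v (by simp)
        rw [if_neg (fun hh => hv (Finset.mem_of_mem_erase hh)), if_neg huv.symm, if_pos rfl] at this
        linarith
      · have := h0 u (by simp)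
        rw [if_neg (fun hh => hu (Finset.mem_of_mem_erase hh)), if_pos rfl, if_neg huv] at this
        linarith
    intro a ha
    by_cases hap : a = st.fresh
    · rw [hap, hgp]
    · have ha' : a ∈ S'.erase st.fresh := Finset.mem_erase.2 ⟨hap, ha⟩
      have := h0 a (Finset.mem_insert_of_mem (Finset.mem_insert_of_mem ha'))
      rw [if_pos ha', hgp] at this
      simpa using this
  · have e : (fun a : S' => st.bisPos u v a) = fun a : S' => st.pos a := by
      funext a
      exact st.bisPos_of_ne u v fun e => hp (e ▸ a.2)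
    rw [e]
    exact st.indep _ ((st.mem_bisCx_of_not_mem h hp).1 hS).1

/-- bisection of the bounded edge `u v` -/
def bisect {u v : ℕ} (h : st.Edge u v) (o' : Finset ℕ → ℚ) : St X where
  cx := bisCx st.cx u v st.fresh
  down := st.bisCx_down h
  pos := st.bisPos u v
  pos_nonneg := by
    intro a w
    by_cases ha : a = st.fresh
    · rw [ha, bisPos_fresh]
      have h1 := st.pos_nonneg u w
      have h2 := st.pos_nonneg v w
      simp only [Finsupp.smul_apply, Finsupp.add_apply, smul_eq_mul]
      linarith
    · rw [st.bisPos_of_ne u v ha]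
      exact st.pos_nonneg a w
  pos_ray := by
    intro a ha
    rw [st.bisPos_of_ne u v (st.lt_fresh_of_ray ha).ne]
    exact st.pos_ray a ha
  pos_fin := by
    intro a hS ha
    by_cases hap : a = st.fresh
    · have hu := st.pos_fin u (st.down _ h.2.1 _ (by simp)) h.2.2.1
      have hv := st.pos_fin v (st.down _ h.2.1 _ (by simp)) h.2.2.2
      rw [hap]
      refine ⟨?_, ?_⟩
      · intro w hw
        rw [support_bisPos_fresh, Finset.mem_union] at hw
        rcases hw with hw | hw
        · exact hu.1 w hw
        · exact hv.1 w hw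
      · rw [bisPos_fresh]
        simp only [map_smul, map_add, smul_eq_mul]
        rw [← Finset.mul_sum, Finset.sum_add_distrib, hu.2, hv.2]
        norm_num
    · rw [st.bisPos_of_ne u v hap]
      exact st.pos_fin a (st.singleton_mem_of_bisCx h hap hS) ha
  ray_lt := by
    intro a ha a' hS ha'
    by_cases hap : a' = st.fresh
    · rw [hap]
      exact st.lt_fresh_of_ray ha
    · exact st.ray_lt a ha a' (st.singleton_mem_of_bisCx h hap hS) ha'
  kap_mem := by
    intro S hS
    rw [kap_bisPos]
    exact st.kap_mem _ (st.bisCar_mem h hS)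
  indep := st.bisPos_indep h
  o := o'

theorem kap_bisCar {u v : ℕ} (h : st.Edge u v) (o' : Finset ℕ → ℚ) {S' : Finset ℕ}
    (hS : S' ∈ (st.bisect h o').cx) :
    st.kap (bisCar u v st.fresh S') = (st.bisect h o').kap S' := by
  have _ := hS
  exact (st.kap_bisPos u v S').symm

theorem meets_bisect_of_not_mem {u v : ℕ} (h : st.Edge u v) (o' : Finset ℕ → ℚ) {S' : Finset ℕ}
    (hp : st.fresh ∉ S') : (st.bisect h o').Meets S' ↔ st.Meets S' := by
  have e : ∀ (t : ℕ → ℝ) (i : Fin r),
      ∑ a ∈ S', t a * ((lvl X.lev i ((st.bisect h o').pos a) : ℚ) : ℝ)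
        = ∑ a ∈ S', t a * ((lvl X.lev i (st.pos a) : ℚ) : ℝ) := by
    intro t i
    refine Finset.sum_congr rfl fun a ha => ?_
    have : (st.bisect h o').pos a = st.pos a := st.bisPos_of_ne u v fun e => hp (e ▸ ha)
    rw [this]
  unfold Meets
  simp only [e]

theorem meets_bisCar {u v : ℕ} (h : st.Edge u v) (o' : Finset ℕ → ℚ) {S' : Finset ℕ}
    (hS : S' ∈ (st.bisect h o').cx) (hm : (st.bisect h o').Meets S') :
    st.Meets (bisCar u v st.fresh S') := by
  have _ := hS
  by_cases hp : st.fresh ∈ S'
  · obtain ⟨t, ht, hsum⟩ := hm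
    unfold bisCar
    rw [if_pos hp]
    have htp := ht _ hp
    refine ⟨fun a => (if a ∈ S'.erase st.fresh then t a else 0)
      + (if a = u then t st.fresh / 2 else 0) + (if a = v then t st.fresh / 2 else 0), ?_, ?_⟩
    · intro a ha
      have h1 : 0 ≤ (if a ∈ S'.erase st.fresh then t a else 0) := by
        split_ifs with hh
        · exact (ht a (Finset.mem_of_mem_erase hh)).le
        · exact le_rfl
      have h2 : 0 ≤ (if a = u then t st.fresh / 2 else 0) := by
        split_ifs
        · linarith
        · exact le_rfl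
      have h3 : 0 ≤ (if a = v then t st.fresh / 2 else 0) := by
        split_ifs
        · linarith
        · exact le_rfl
      simp only [Finset.mem_insert] at ha
      beta_reduce
      rcases ha with ha | ha | ha
      · rw [if_pos ha] at h2 ⊢
        linarith
      · rw [if_pos ha] at h3 ⊢
        linarith
      · rw [if_pos ha] at h1 ⊢
        have := ht a (Finset.mem_of_mem_erase ha)
        linarith
    · intro i
      have e := sum_push (K := ℝ) (N := ℝ) (u := u) (v := v) (S'.erase st.fresh) t
        (t st.fresh / 2) (fun a => ((lvl X.lev i (st.pos a) : ℚ) : ℝ))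
      simp only [smul_eq_mul] at e
      rw [e, ← hsum i, ← Finset.add_sum_erase _ _ hp]
      have e1 : (st.bisect h o').pos st.fresh = (1 / 2 : ℚ) • (st.pos u + st.pos v) :=
        st.bisPos_fresh u v
      have e2 : ∑ a ∈ S'.erase st.fresh, t a * ((lvl X.lev i ((st.bisect h o').pos a) : ℚ) : ℝ)
          = ∑ a ∈ S'.erase st.fresh, t a * ((lvl X.lev i (st.pos a) : ℚ) : ℝ) := by
        refine Finset.sum_congr rfl fun a ha => ?_
        have : (st.bisect h o').pos a = st.pos a :=
          st.bisPos_of_ne u v (Finset.ne_of_mem_erase ha)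
        rw [this]
      rw [e1, e2, map_smul, map_add, smul_eq_mul]
      push_cast
      ring
  · unfold bisCar
    rw [if_neg hp]
    exact (st.meets_bisect_of_not_mem h o' hp).1 hm

theorem subset_range_of_mem {S : Finset ℕ} (hS : S ∈ st.cx) : S ⊆ Finset.range st.fresh :=
  fun _ ha => Finset.mem_range.2 (st.lt_fresh hS ha)

theorem subset_range_of_mem_bisCx {u v : ℕ} (h : st.Edge u v) {S : Finset ℕ}
    (hS : S ∈ bisCx st.cx u v st.fresh) : S ⊆ insert st.fresh (Finset.range st.fresh) := by
  intro a ha
  by_cases hap : a = st.fresh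
  · rw [hap]
    exact Finset.mem_insert_self _ _
  · exact Finset.mem_insert_of_mem (st.subset_range_of_mem (st.bisCar_mem h hS)
      (erase_subset_bisCar u v _ S (Finset.mem_erase.2 ⟨hap, ha⟩)))

theorem cellBd_bisect_of_notMem {u v : ℕ} (h : st.Edge u v) {M : Type} [AddCommGroup M]
    [Module ℚ M] (c : Finset ℕ → M) {R' : Finset ℕ} (hR : R' ∈ bisCx st.cx u v st.fresh)
    (hp : st.fresh ∉ R') :
    cellBd (bisCx st.cx u v st.fresh)
        (fun S' => bisEps u v st.fresh S' • c (bisCar u v st.fresh S')) R' =
      cellBd st.cx c R' := by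
  obtain ⟨hR1, hR2⟩ := (st.mem_bisCx_of_not_mem h hp).1 hR
  have hu := h.left_lt
  have hv := h.right_lt
  have huv := h.1
  rw [cellBd_eq_sum _ _ _ _ fun S hS => st.subset_range_of_mem_bisCx h hS,
    cellBd_eq_sum _ _ _ _ fun S hS => st.subset_range_of_mem hS,
    Finset.sum_insert (by simp)]
  -- the terms of the old vertices
  have hold : ∀ w ∈ Finset.range st.fresh,
      (if w ∉ R' ∧ insert w R' ∈ st.cx then sgn w R' • c (insert w R') else 0)
      = (if w ∉ R' ∧ insert w R' ∈ bisCx st.cx u v st.fresh then sgn w R' •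
          (bisEps u v st.fresh (insert w R') • c (bisCar u v st.fresh (insert w R'))) else 0)
        + ((if w = u then (if v ∈ R' ∧ insert u R' ∈ st.cx then sgn u R' • c (insert u R')
            else 0) else 0)
          + (if w = v then (if u ∈ R' ∧ insert v R' ∈ st.cx then sgn v R' • c (insert v R')
            else 0) else 0)) := by
    intro w hw
    have hw' : w < st.fresh := Finset.mem_range.1 hw
    have hpw : st.fresh ∉ insert w R' := by
      simp only [Finset.mem_insert, not_or]
      exact ⟨by omega, hp⟩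
    have e1 : bisEps u v st.fresh (insert w R') = 1 := by
      unfold bisEps
      rw [if_neg hpw]
    have e2 : bisCar u v st.fresh (insert w R') = insert w R' := by
      unfold bisCar
      rw [if_neg hpw]
    rw [e1, e2, one_smul]
    simp only [st.mem_bisCx_of_not_mem h hpw, Finset.mem_insert]
    by_cases hwu : w = u
    · subst hwu
      have hne : ¬ v = w := fun e => huv e.symm
      by_cases h1 : v ∈ R'
      · have h2 : w ∉ R' := fun h2 => hR2 ⟨h2, h1⟩
        simp [h1, h2, huv]
      · simp [h1, huv, hne]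
    · by_cases hwv : w = v
      · subst hwv
        by_cases h1 : u ∈ R'
        · have h2 : w ∉ R' := fun h2 => hR2 ⟨h1, h2⟩
          simp [h1, h2, hwu]
        · simp [h1, hwu, huv]
      · have h1 : ¬ u = w := fun e => hwu e.symm
        have h2 : ¬ v = w := fun e => hwv e.symm
        simp [hwu, hwv, h1, h2, hR2]
  rw [Finset.sum_congr rfl hold, Finset.sum_add_distrib, Finset.sum_add_distrib,
    Finset.sum_ite_eq', Finset.sum_ite_eq', if_pos (Finset.mem_range.2 hu),
    if_pos (Finset.mem_range.2 hv), add_comm]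
  congr 1
  -- the term of the new vertex
  have hpp : st.fresh ∈ insert st.fresh R' := Finset.mem_insert_self _ _
  have eer : (insert st.fresh R').erase st.fresh = R' := Finset.erase_insert hp
  have ecar : bisCar u v st.fresh (insert st.fresh R') = insert u (insert v R') := by
    unfold bisCar
    rw [if_pos hpp, eer]
  have hu' : u ∈ insert st.fresh R' ↔ u ∈ R' := by
    simp only [Finset.mem_insert]
    exact ⟨fun hh => hh.resolve_left hu.ne, Or.inr⟩
  have hv' : v ∈ insert st.fresh R' ↔ v ∈ R' := by
    simp only [Finset.mem_insert]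
    exact ⟨fun hh => hh.resolve_left hv.ne, Or.inr⟩
  have eeps : bisEps u v st.fresh (insert st.fresh R')
      = if v ∈ R' then sgn u R' else if u ∈ R' then sgn v R' else 0 := by
    unfold bisEps
    rw [if_pos hpp, eer]
    simp only [hu', hv']
  rw [sgn_top (fun a ha => st.lt_fresh hR1 ha), one_smul, eeps]
  simp only [st.mem_bisCx_of_mem h hpp, ecar, hu', hv']
  by_cases h1 : v ∈ R'
  · have h2 : u ∉ R' := fun h2 => hR2 ⟨h2, h1⟩
    simp [h1, h2, hp, Finset.insert_eq_of_mem h1]
  · by_cases h2 : u ∈ R'
    · have e : insert u (insert v R') = insert v R' :=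
        Finset.insert_eq_of_mem (Finset.mem_insert_of_mem h2)
      simp [h1, h2, hp, e]
    · simp [h1, h2]

theorem cellBd_bisect_of_mem {u v : ℕ} (h : st.Edge u v) {M : Type} [AddCommGroup M]
    [Module ℚ M] (c : Finset ℕ → M) {Q : Finset ℕ} (hp : st.fresh ∉ Q)
    (hS : insert u (insert v Q) ∈ st.cx) (hQ : ¬ (u ∈ Q ∧ v ∈ Q)) :
    cellBd (bisCx st.cx u v st.fresh)
        (fun S' => bisEps u v st.fresh S' • c (bisCar u v st.fresh S')) (insert st.fresh Q) =
      (if v ∈ Q then sgn u Q else if u ∈ Q then sgn v Q else 0) •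
        cellBd st.cx c (insert u (insert v Q)) := by
  have hu := h.left_lt
  have hv := h.right_lt
  have huv := h.1
  rw [cellBd_eq_sum _ _ _ _ fun S hS => st.subset_range_of_mem_bisCx h hS,
    cellBd_eq_sum _ _ _ _ fun S hS => st.subset_range_of_mem hS,
    Finset.sum_insert (by simp), if_neg (by simp), zero_add]
  set S := insert u (insert v Q) with hSdef
  have hterm : ∀ w ∈ Finset.range st.fresh,
      (if w ∉ insert st.fresh Q ∧ insert w (insert st.fresh Q) ∈ bisCx st.cx u v st.fresh then
        sgn w (insert st.fresh Q) • (bisEps u v st.fresh (insert w (insert st.fresh Q)) •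
          c (bisCar u v st.fresh (insert w (insert st.fresh Q)))) else 0)
      = if w ∉ Q ∧ insert w S ∈ st.cx ∧ ¬ (u ∈ insert w Q ∧ v ∈ insert w Q) then
          (- sgn w Q * (if v ∈ insert w Q then sgn u (insert w Q) else
            if u ∈ insert w Q then sgn v (insert w Q) else 0)) • c (insert w S) else 0 := by
    intro w hw
    have hw' : w < st.fresh := Finset.mem_range.1 hw
    have hpp : st.fresh ∈ insert w (insert st.fresh Q) := by simp
    have eer : (insert w (insert st.fresh Q)).erase st.fresh = insert w Q := by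
      rw [Finset.insert_comm, Finset.erase_insert]
      simp only [Finset.mem_insert, not_or]
      exact ⟨by omega, hp⟩
    have ecar : bisCar u v st.fresh (insert w (insert st.fresh Q)) = insert w S := by
      unfold bisCar
      rw [if_pos hpp, eer, hSdef, Finset.insert_comm v w, Finset.insert_comm u w]
    have hmem : ∀ a, a < st.fresh → (a ∈ insert w (insert st.fresh Q) ↔ a ∈ insert w Q) := by
      intro a ha
      simp only [Finset.mem_insert]
      have : a ≠ st.fresh := ha.ne
      tauto
    have hw2 : w ∈ insert st.fresh Q ↔ w ∈ Q := by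
      simp only [Finset.mem_insert]
      exact ⟨fun hh => hh.resolve_left hw'.ne, Or.inr⟩
    have eeps : bisEps u v st.fresh (insert w (insert st.fresh Q))
        = if v ∈ insert w Q then sgn u (insert w Q) else
            if u ∈ insert w Q then sgn v (insert w Q) else 0 := by
      unfold bisEps
      rw [if_pos hpp, eer]
      simp only [hmem u hu, hmem v hv]
    rw [eeps, sgn_insert_top hp hw', smul_smul]
    simp only [st.mem_bisCx_of_mem h hpp, ecar, hmem u hu, hmem v hv, hw2]
  rw [Finset.sum_congr rfl hterm]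
  by_cases h1 : v ∈ Q
  · have h2 : u ∉ Q := fun h2 => hQ ⟨h2, h1⟩
    have eS : S = insert u Q := by rw [hSdef, Finset.insert_eq_of_mem h1]
    rw [if_pos h1, Finset.smul_sum]
    refine Finset.sum_congr rfl fun w _ => ?_
    have h3 : v ∈ insert w Q := Finset.mem_insert_of_mem h1
    by_cases hw : w ∉ S ∧ insert w S ∈ st.cx
    · have hwu : w ≠ u := fun e => hw.1 (by rw [eS, e]; simp)
      have hwQ : w ∉ Q := fun e => hw.1 (by rw [eS]; exact Finset.mem_insert_of_mem e)
      have h4 : u ∉ insert w Q := by
        simp only [Finset.mem_insert, not_or]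
        exact ⟨hwu.symm, h2⟩
      rw [if_pos hw, if_pos ⟨hwQ, hw.2, fun hh => h4 hh.1⟩, if_pos h3, smul_smul, eS,
        sgn_anticomm hwu.symm h2 hwQ, neg_mul]
    · rw [if_neg hw, if_neg, smul_zero]
      rintro ⟨a1, a2, a3⟩
      refine hw ⟨?_, a2⟩
      rw [eS, Finset.mem_insert, not_or]
      exact ⟨fun e => a3 ⟨by rw [e]; simp, h3⟩, a1⟩
  · by_cases h2 : u ∈ Q
    · have eS : S = insert v Q := by
        rw [hSdef, Finset.insert_eq_of_mem (Finset.mem_insert_of_mem h2)]
      rw [if_neg h1, if_pos h2, Finset.smul_sum]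
      refine Finset.sum_congr rfl fun w _ => ?_
      have h3 : u ∈ insert w Q := Finset.mem_insert_of_mem h2
      by_cases hw : w ∉ S ∧ insert w S ∈ st.cx
      · have hwv : w ≠ v := fun e => hw.1 (by rw [eS, e]; simp)
        have hwQ : w ∉ Q := fun e => hw.1 (by rw [eS]; exact Finset.mem_insert_of_mem e)
        have h4 : v ∉ insert w Q := by
          simp only [Finset.mem_insert, not_or]
          exact ⟨hwv.symm, h1⟩
        rw [if_pos hw, if_pos ⟨hwQ, hw.2, fun hh => h4 hh.2⟩, if_neg h4, if_pos h3, smul_smul,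
          eS, sgn_anticomm hwv.symm h1 hwQ, neg_mul]
      · rw [if_neg hw, if_neg, smul_zero]
        rintro ⟨a1, a2, a3⟩
        refine hw ⟨?_, a2⟩
        rw [eS, Finset.mem_insert, not_or]
        exact ⟨fun e => a3 ⟨h3, by rw [e]; simp⟩, a1⟩
    · rw [if_neg h1, if_neg h2, zero_smul]
      have hsplit : ∀ w ∈ Finset.range st.fresh,
          (if w ∉ Q ∧ insert w S ∈ st.cx ∧ ¬ (u ∈ insert w Q ∧ v ∈ insert w Q) then
            (- sgn w Q * (if v ∈ insert w Q then sgn u (insert w Q) else
              if u ∈ insert w Q then sgn v (insert w Q) else 0)) • c (insert w S) else 0)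
          = (if w = u then (- sgn u Q * sgn v (insert u Q)) • c S else 0)
            + (if w = v then (- sgn v Q * sgn u (insert v Q)) • c S else 0) := by
        intro w _
        by_cases hwu : w = u
        · subst hwu
          have e : insert w S = S := Finset.insert_eq_of_mem (by rw [hSdef]; simp)
          have h4 : v ∉ insert w Q := by
            simp only [Finset.mem_insert, not_or]
            exact ⟨huv.symm, h1⟩
          rw [e, if_pos ⟨h2, hS, fun hh => h4 hh.2⟩, if_neg h4, if_pos (by simp), if_pos rfl,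
            if_neg huv, add_zero]
        · by_cases hwv : w = v
          · subst hwv
            have e : insert w S = S := Finset.insert_eq_of_mem (by rw [hSdef]; simp)
            have h4 : u ∉ insert w Q := by
              simp only [Finset.mem_insert, not_or]
              exact ⟨huv, h2⟩
            rw [e, if_pos ⟨h1, hS, fun hh => h4 hh.1⟩, if_pos (by simp), if_neg hwu,
              if_pos rfl, zero_add]
          · have h3 : v ∉ insert w Q := by
              simp only [Finset.mem_insert, not_or]
              exact ⟨fun e => hwv e.symm, h1⟩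
            have h4 : u ∉ insert w Q := by
              simp only [Finset.mem_insert, not_or]
              exact ⟨fun e => hwu e.symm, h2⟩
            rw [if_neg h3, if_neg h4, if_neg hwu, if_neg hwv]
            simp
      rw [Finset.sum_congr rfl hsplit, Finset.sum_add_distrib, Finset.sum_ite_eq',
        Finset.sum_ite_eq', if_pos (Finset.mem_range.2 hu), if_pos (Finset.mem_range.2 hv),
        ← add_smul, neg_mul, neg_mul, sgn_anticomm huv h2 h1]
      simp

/-- the subdivision operator is a chain map -/
theorem cellBd_bisect {u v : ℕ} (h : st.Edge u v) {M : Type} [AddCommGroup M] [Module ℚ M]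
    (c : Finset ℕ → M) {R' : Finset ℕ} (hR : R' ∈ bisCx st.cx u v st.fresh) :
    cellBd (bisCx st.cx u v st.fresh)
        (fun S' => bisEps u v st.fresh S' • c (bisCar u v st.fresh S')) R' =
      bisEps u v st.fresh R' • cellBd st.cx c (bisCar u v st.fresh R') := by
  by_cases hp : st.fresh ∈ R'
  · obtain ⟨h1, h2⟩ := (st.mem_bisCx_of_mem h hp).1 hR
    have ecar : bisCar u v st.fresh R' = insert u (insert v (R'.erase st.fresh)) := by
      unfold bisCar
      rw [if_pos hp]
    have hu' : u ∈ R'.erase st.fresh ↔ u ∈ R' := by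
      simp [h.left_lt.ne]
    have hv' : v ∈ R'.erase st.fresh ↔ v ∈ R' := by
      simp [h.right_lt.ne]
    have key := st.cellBd_bisect_of_mem h c (Q := R'.erase st.fresh) (Finset.notMem_erase _ _)
      (ecar ▸ h1) (by rw [hu', hv']; exact h2)
    rw [Finset.insert_erase hp] at key
    rw [key, ecar]
    congr 1
    unfold bisEps
    rw [if_pos hp]
    simp only [hu', hv']
  · rw [st.cellBd_bisect_of_notMem h c hR hp]
    unfold bisEps bisCar
    rw [if_neg hp, if_neg hp, one_smul]

end St

end Pool.Agent.Lead.THC
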