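import Pool.Agent.Lead.THC.Bisect

set_option autoImplicit false

open scoped BigOperators

noncomputable section

namespace Pool.Agent.Lead.THC

namespace BisAug

/-- simplicial coboundary of a weight -/
def cob (f : Finset ℕ → ℚ) (S : Finset ℕ) : ℚ := ∑ w ∈ S, sgn w (S.erase w) * f (S.erase w)

theorem cob_congr {f g : Finset ℕ → ℚ} {S : Finset ℕ}
    (h : ∀ w ∈ S, f (S.erase w) = g (S.erase w)) : cob f S = cob g S :=
  Finset.sum_congr rfl fun w hw => by rw [h w hw]

theorem cob_eq_zero {f : Finset ℕ → ℚ} {S : Finset ℕ}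
    (h : ∀ w ∈ S, f (S.erase w) = 0) : cob f S = 0 :=
  Finset.sum_eq_zero fun w hw => by rw [h w hw, mul_zero]

theorem cob_add (f g : Finset ℕ → ℚ) (S : Finset ℕ) :
    cob (fun R => f R + g R) S = cob f S + cob g S := by
  simp only [cob, mul_add, Finset.sum_add_distrib]

theorem cob_cob (f : Finset ℕ → ℚ) (S : Finset ℕ) : cob (cob f) S = 0 := by
  classical
  let g : ℕ → ℕ → ℚ := fun w x => if x = w then 0 else
    sgn w (S.erase w) * (sgn x ((S.erase w).erase x) * f ((S.erase w).erase x))
  have h1 : cob (cob f) S = ∑ w ∈ S, ∑ x ∈ S, g w x := by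
    refine Finset.sum_congr rfl fun w hw => ?_
    rw [cob, Finset.mul_sum, ← Finset.add_sum_erase S _ hw]
    simp only [g, if_true, zero_add]
    exact Finset.sum_congr rfl fun x hx => by rw [if_neg (Finset.mem_erase.1 hx).1]
  have h2 : ∀ w ∈ S, ∀ x ∈ S, g w x = - g x w := by
    intro w hw x hx
    by_cases hxw : x = w
    · simp [g, hxw]
    · have hwx : w ≠ x := Ne.symm hxw
      simp only [g, if_neg hxw, if_neg hwx]
      have e1 : S.erase w = insert x ((S.erase w).erase x) :=
        (Finset.insert_erase (Finset.mem_erase.2 ⟨hxw, hx⟩)).symm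
      have e2 : S.erase x = insert w ((S.erase w).erase x) := by
        rw [Finset.erase_right_comm]
        exact (Finset.insert_erase (Finset.mem_erase.2 ⟨hwx, hw⟩)).symm
      have e3 : (S.erase x).erase w = (S.erase w).erase x := Finset.erase_right_comm
      have h3 := sgn_anticomm hxw (R := (S.erase w).erase x) (Finset.notMem_erase _ _)
        (fun h => Finset.notMem_erase w S (Finset.mem_of_mem_erase h))
      rw [← e1, ← e2] at h3
      rw [e3]
      linear_combination (f ((S.erase w).erase x)) * h3
  have h4 : ∑ w ∈ S, ∑ x ∈ S, g w x = - ∑ w ∈ S, ∑ x ∈ S, g w x := by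
    conv_rhs => rw [Finset.sum_comm, ← Finset.sum_neg_distrib]
    refine Finset.sum_congr rfl fun w hw => ?_
    rw [← Finset.sum_neg_distrib]
    exact Finset.sum_congr rfl fun x hx => h2 w hw x hx
  rw [h1]
  linarith

theorem sgn_top {p : ℕ} {R : Finset ℕ} (h : ∀ a ∈ R, a < p) : sgn p R = 1 := by
  rw [sgn, Finset.filter_false_of_mem (fun a ha => not_lt.2 (h a ha).le)]
  simp

theorem cob_insert_top (f : Finset ℕ → ℚ) {p : ℕ} {R : Finset ℕ} (h : ∀ a ∈ R, a < p) :
    cob f (insert p R) = f R - ∑ w ∈ R, sgn w (R.erase w) * f (insert p (R.erase w)) := by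
  have hp : p ∉ R := fun h' => lt_irrefl _ (h p h')
  rw [cob, Finset.sum_insert hp, Finset.erase_insert hp, sgn_top h, one_mul, sub_eq_add_neg,
    ← Finset.sum_neg_distrib]
  congr 1
  refine Finset.sum_congr rfl fun w hw => ?_
  rw [Finset.erase_insert_of_ne (h w hw).ne', sgn_insert_of_lt (h w hw)
    (fun h' => hp (Finset.mem_of_mem_erase h')), neg_mul]

/-- pull-back of a weight along the subdivision operator -/
def sdStar (u v p : ℕ) (f : Finset ℕ → ℚ) (S : Finset ℕ) : ℚ :=
  if u ∈ S ∧ v ∈ S then sgn u (S.erase u) * f (insert p (S.erase u)) +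
    sgn v (S.erase v) * f (insert p (S.erase v)) else f S

theorem cob_sdStar {u v p : ℕ} (huv : u ≠ v) (f : Finset ℕ → ℚ) {T : Finset ℕ} (hu : u ∉ T)
    (hv : v ∉ T) (hup : u < p) (hvp : v < p) (hT : ∀ a ∈ T, a < p) :
    cob (sdStar u v p f) (insert u (insert v T)) =
      sgn u (insert v T) * cob f (insert p (insert v T)) +
        sgn v (insert u T) * cob f (insert p (insert u T)) := by
  have huvT : u ∉ insert v T := by simp [huv, hu]
  have hvuT : v ∉ insert u T := by simp [huv.symm, hv]
  have hv' : ∀ a ∈ insert v T, a < p := by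
    intro a ha
    rcases Finset.mem_insert.1 ha with rfl | ha
    exacts [hvp, hT a ha]
  have hu' : ∀ a ∈ insert u T, a < p := by
    intro a ha
    rcases Finset.mem_insert.1 ha with rfl | ha
    exacts [hup, hT a ha]
  rw [cob_insert_top f hv', cob_insert_top f hu', Finset.sum_insert hv, Finset.sum_insert hu,
    Finset.erase_insert hv, Finset.erase_insert hu, cob, Finset.sum_insert huvT,
    Finset.sum_insert hv, Finset.erase_insert huvT]
  have e1 : (insert u (insert v T)).erase v = insert u T := by
    rw [Finset.insert_comm, Finset.erase_insert hvuT]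
  rw [e1]
  have e2 : sdStar u v p f (insert v T) = f (insert v T) := by
    rw [sdStar, if_neg fun h => huvT h.1]
  have e3 : sdStar u v p f (insert u T) = f (insert u T) := by
    rw [sdStar, if_neg fun h => hvuT h.2]
  have e4 : ∑ w ∈ T, sgn w ((insert u (insert v T)).erase w) *
      sdStar u v p f ((insert u (insert v T)).erase w) =
      - (sgn u (insert v T) * ∑ w ∈ T, sgn w ((insert v T).erase w) *
        f (insert p ((insert v T).erase w))) -
      sgn v (insert u T) * ∑ w ∈ T, sgn w ((insert u T).erase w) *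
        f (insert p ((insert u T).erase w)) := by
    rw [Finset.mul_sum, Finset.mul_sum, ← Finset.sum_neg_distrib, ← Finset.sum_sub_distrib]
    refine Finset.sum_congr rfl fun w hw => ?_
    have hwu : w ≠ u := fun h => hu (h ▸ hw)
    have hwv : w ≠ v := fun h => hv (h ▸ hw)
    have hu2 : u ∉ T.erase w := fun h => hu (Finset.mem_of_mem_erase h)
    have hv2 : v ∉ T.erase w := fun h => hv (Finset.mem_of_mem_erase h)
    have hu3 : u ∉ insert v (T.erase w) := by simp [huv, hu]
    have hv3 : v ∉ insert u (T.erase w) := by simp [huv.symm, hv]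
    rw [Finset.erase_insert_of_ne hwu.symm, Finset.erase_insert_of_ne hwv.symm,
      Finset.erase_insert_of_ne hwu.symm, sdStar, if_pos (by simp), Finset.erase_insert hu3]
    have e5 : (insert u (insert v (T.erase w))).erase v = insert u (T.erase w) := by
      rw [Finset.insert_comm, Finset.erase_insert hv3]
    rw [e5]
    have a1 := sgn_anticomm hwu (R := insert v (T.erase w)) (by simp [hwv]) hu3
    have a2 := sgn_anticomm hwv (R := insert u (T.erase w)) (by simp [hwu]) hv3
    have e6 : insert w (insert v (T.erase w)) = insert v T := by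
      rw [Finset.insert_comm, Finset.insert_erase hw]
    have e7 : insert w (insert u (T.erase w)) = insert u T := by
      rw [Finset.insert_comm, Finset.insert_erase hw]
    rw [e6] at a1
    rw [e7, Finset.insert_comm v u] at a2
    linear_combination f (insert p (insert v (T.erase w))) * a1 +
      f (insert p (insert u (T.erase w))) * a2
  have a3 := sgn_anticomm huv hu hv
  rw [e2, e3, e4]
  linear_combination f (insert p T) * a3

variable {r : ℕ} {X : Space r} (st : St X) {u v : ℕ} (h : st.Edge u v)

include h in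
theorem u_lt : u < st.fresh := st.lt_fresh h.2.1 (by simp)

include h in
theorem v_lt : v < st.fresh := st.lt_fresh h.2.1 (by simp)

theorem fresh_notMem {S : Finset ℕ} (hS : S ∈ st.cx) : st.fresh ∉ S :=
  fun h' => lt_irrefl _ (st.lt_fresh hS h')

theorem fresh_not_ray : st.fresh ∉ X.rays :=
  fun h' => lt_irrefl _ (st.lt_fresh_of_ray h')

theorem pos_of_ne (o' : Finset ℕ → ℚ) {a : ℕ} (ha : a ≠ st.fresh) :
    (st.bisect h o').pos a = st.pos a := by
  show st.bisPos u v a = _
  rw [St.bisPos, Function.update_of_ne ha]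

theorem pos_fresh (o' : Finset ℕ → ℚ) :
    (st.bisect h o').pos st.fresh = (1 / 2 : ℚ) • (st.pos u + st.pos v) := by
  show st.bisPos u v _ = _
  rw [St.bisPos, Function.update_self]

theorem lvl_fresh (o' : Finset ℕ → ℚ) (i : Fin r) :
    ((lvl X.lev i ((st.bisect h o').pos st.fresh) : ℚ) : ℝ) =
      (((lvl X.lev i (st.pos u) : ℚ) : ℝ) + ((lvl X.lev i (st.pos v) : ℚ) : ℝ)) / 2 := by
  rw [pos_fresh, map_smul, map_add, smul_eq_mul]
  push_cast
  ring

theorem sum_T (o' : Finset ℕ → ℚ) {T : Finset ℕ} (hp : st.fresh ∉ T) (t : ℕ → ℝ) (i : Fin r) :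
    ∑ a ∈ T, t a * ((lvl X.lev i ((st.bisect h o').pos a) : ℚ) : ℝ) =
      ∑ a ∈ T, t a * ((lvl X.lev i (st.pos a) : ℚ) : ℝ) :=
  Finset.sum_congr rfl fun a ha => by rw [pos_of_ne st h o' fun e => hp (e ▸ ha)]

/-- if a simplex containing the edge meets the fibre then one of its halves does -/
theorem meets_half (o' : Finset ℕ → ℚ) {T : Finset ℕ} (hp : st.fresh ∉ T) (hu : u ∉ T)
    (hv : v ∉ T) (hm : st.Meets (insert u (insert v T))) :
    (st.bisect h o').Meets (insert st.fresh (insert v T)) ∨
      (st.bisect h o').Meets (insert st.fresh (insert u T)) := by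
  obtain ⟨t, ht, hs⟩ := hm
  have huv := h.1
  have hup := (u_lt st h).ne
  have hvp := (v_lt st h).ne
  have huvT : u ∉ insert v T := by simp [huv, hu]
  have tu := ht u (by simp)
  have tv := ht v (by simp)
  have key : ∀ i, t u * ((lvl X.lev i (st.pos u) : ℚ) : ℝ) + (t v * ((lvl X.lev i (st.pos v) : ℚ) : ℝ) +
      ∑ a ∈ T, t a * ((lvl X.lev i (st.pos a) : ℚ) : ℝ)) = X.b i := by
    intro i
    rw [← hs i, Finset.sum_insert huvT, Finset.sum_insert hv]
  rcases le_total (t u) (t v) with hle | hle
  · left
    refine (st.bisect h o').meets_of_nonneg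
      (t := fun a => if a = st.fresh then 2 * t u else if a = v then t v - t u else t a) ?_ ?_
    · intro a ha
      split_ifs with h1 h2
      · positivity
      · linarith
      · have : a ∈ T := by simpa [h1, h2] using ha
        exact (ht a (by simp [this])).le
    · intro i
      rw [Finset.sum_insert (by simp [hvp.symm, hp]), Finset.sum_insert hv, if_pos rfl,
        if_neg hvp, if_pos rfl, lvl_fresh, pos_of_ne st h o' hvp, sum_T st h o' hp, ← key i]
      have : ∑ a ∈ T, (if a = st.fresh then 2 * t u else if a = v then t v - t u else t a) *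
          ((lvl X.lev i (st.pos a) : ℚ) : ℝ) = ∑ a ∈ T, t a * ((lvl X.lev i (st.pos a) : ℚ) : ℝ) :=
        Finset.sum_congr rfl fun a ha => by
          rw [if_neg (ne_of_mem_of_not_mem ha hp), if_neg (ne_of_mem_of_not_mem ha hv)]
      rw [this]
      ring
  · right
    refine (st.bisect h o').meets_of_nonneg
      (t := fun a => if a = st.fresh then 2 * t v else if a = u then t u - t v else t a) ?_ ?_
    · intro a ha
      split_ifs with h1 h2
      · positivity
      · linarith
      · have : a ∈ T := by simpa [h1, h2] using ha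
        exact (ht a (by simp [this])).le
    · intro i
      rw [Finset.sum_insert (by simp [hup.symm, hp]), Finset.sum_insert hu, if_pos rfl,
        if_neg hup, if_pos rfl, lvl_fresh, pos_of_ne st h o' hup, sum_T st h o' hp, ← key i]
      have : ∑ a ∈ T, (if a = st.fresh then 2 * t v else if a = u then t u - t v else t a) *
          ((lvl X.lev i (st.pos a) : ℚ) : ℝ) = ∑ a ∈ T, t a * ((lvl X.lev i (st.pos a) : ℚ) : ℝ) :=
        Finset.sum_congr rfl fun a ha => by
          rw [if_neg (ne_of_mem_of_not_mem ha hp), if_neg (ne_of_mem_of_not_mem ha hu)]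
      rw [this]
      ring

/-- if both halves meet the fibre then the separating wall does -/
theorem meets_wall (o' : Finset ℕ → ℚ) {T : Finset ℕ} (hp : st.fresh ∉ T) (hu : u ∉ T)
    (hv : v ∉ T) (h1 : (st.bisect h o').Meets (insert st.fresh (insert v T)))
    (h2 : (st.bisect h o').Meets (insert st.fresh (insert u T))) :
    (st.bisect h o').Meets (insert st.fresh T) := by
  obtain ⟨t, ht, hs⟩ := h1
  obtain ⟨t', ht', hs'⟩ := h2
  have hup := (u_lt st h).ne
  have hvp := (v_lt st h).ne
  have tv := ht v (by simp)
  have tu := ht' u (by simp)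
  have tp := ht st.fresh (by simp)
  have tp' := ht' st.fresh (by simp)
  have hsum : 0 < t v + t' u := by positivity
  refine (st.bisect h o').meets_of_nonneg
    (t := fun a => if a = st.fresh then
      (t' u * t st.fresh + t v * t' st.fresh + 2 * t' u * t v) / (t v + t' u)
      else (t' u * t a + t v * t' a) / (t v + t' u)) ?_ ?_
  · intro a ha
    split_ifs with h1
    · positivity
    · have : a ∈ T := by simpa [h1] using ha
      have a1 := ht a (by simp [this])
      have a2 := ht' a (by simp [this])
      positivity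
  · intro i
    have k1 := hs i
    have k2 := hs' i
    rw [Finset.sum_insert (by simp [hvp.symm, hp]), Finset.sum_insert hv, lvl_fresh,
      pos_of_ne st h o' hvp, sum_T st h o' hp] at k1
    rw [Finset.sum_insert (by simp [hup.symm, hp]), Finset.sum_insert hu, lvl_fresh,
      pos_of_ne st h o' hup, sum_T st h o' hp] at k2
    rw [Finset.sum_insert hp, if_pos rfl, lvl_fresh, sum_T st h o' hp]
    have : ∑ a ∈ T, (if a = st.fresh then
        (t' u * t st.fresh + t v * t' st.fresh + 2 * t' u * t v) / (t v + t' u)
        else (t' u * t a + t v * t' a) / (t v + t' u)) * ((lvl X.lev i (st.pos a) : ℚ) : ℝ) =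
        (t' u * ∑ a ∈ T, t a * ((lvl X.lev i (st.pos a) : ℚ) : ℝ) +
          t v * ∑ a ∈ T, t' a * ((lvl X.lev i (st.pos a) : ℚ) : ℝ)) / (t v + t' u) := by
      rw [Finset.mul_sum, Finset.mul_sum, ← Finset.sum_add_distrib, Finset.sum_div]
      refine Finset.sum_congr rfl fun a ha => ?_
      rw [if_neg (ne_of_mem_of_not_mem ha hp)]
      ring
    rw [this]
    field_simp
    linear_combination 2 * t' u * k1 + 2 * t v * k2

theorem decomp {u v : ℕ} (huv : u ≠ v) {S : Finset ℕ} (hu : u ∈ S) (hv : v ∈ S) :
    ∃ T, u ∉ T ∧ v ∉ T ∧ S = insert u (insert v T) := by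
  refine ⟨(S.erase u).erase v, fun h' => Finset.notMem_erase u S (Finset.mem_of_mem_erase h'),
    Finset.notMem_erase _ _, ?_⟩
  rw [Finset.insert_erase (Finset.mem_erase.2 ⟨huv.symm, hv⟩), Finset.insert_erase hu]

section Shapes

variable {p : ℕ} {T : Finset ℕ}

theorem car_u (hvp : v ≠ p) (hp : p ∉ T) :
    bisCar u v p (insert p (insert v T)) = insert u (insert v T) := by
  rw [bisCar, if_pos (by simp), Finset.erase_insert (by simp [hvp.symm, hp]),
    Finset.insert_idem]

theorem car_v (hup : u ≠ p) (hp : p ∉ T) :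
    bisCar u v p (insert p (insert u T)) = insert u (insert v T) := by
  rw [bisCar, if_pos (by simp), Finset.erase_insert (by simp [hup.symm, hp]),
    Finset.insert_comm v u, Finset.insert_idem]

theorem car_uv (hp : p ∉ T) : bisCar u v p (insert p T) = insert u (insert v T) := by
  rw [bisCar, if_pos (by simp), Finset.erase_insert hp]

theorem eps_u (hvp : v ≠ p) (hp : p ∉ T) :
    bisEps u v p (insert p (insert v T)) = sgn u (insert v T) := by
  rw [bisEps, if_pos (by simp), if_pos (by simp), Finset.erase_insert (by simp [hvp.symm, hp])]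

theorem eps_v (huv : u ≠ v) (hup : u ≠ p) (hvp : v ≠ p) (hp : p ∉ T) (hv : v ∉ T) :
    bisEps u v p (insert p (insert u T)) = sgn v (insert u T) := by
  rw [bisEps, if_pos (by simp), if_neg (by simp [hvp, huv.symm, hv]), if_pos (by simp),
    Finset.erase_insert (by simp [hup.symm, hp])]

theorem eps_uv (hup : u ≠ p) (hvp : v ≠ p) (hu : u ∉ T) (hv : v ∉ T) :
    bisEps u v p (insert p T) = 0 := by
  rw [bisEps, if_pos (by simp), if_neg (by simp [hvp, hv]), if_neg (by simp [hup, hu])]

/-- the three shapes of a simplex containing the new vertex -/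
theorem shapes (huv : u ≠ v) {S' : Finset ℕ} (hp : p ∈ S') (hn : ¬ (u ∈ S' ∧ v ∈ S')) :
    ∃ T, p ∉ T ∧ u ∉ T ∧ v ∉ T ∧
      (S' = insert p (insert v T) ∨ S' = insert p (insert u T) ∨ S' = insert p T) := by
  refine ⟨((S'.erase p).erase u).erase v, by simp, by simp, by simp, ?_⟩
  by_cases hv : v ∈ S'
  · left
    have hu : u ∉ S' := fun hu => hn ⟨hu, hv⟩
    ext x
    simp only [Finset.mem_insert, Finset.mem_erase]
    by_cases h1 : x = p
    · simp [h1, hp]
    · by_cases h2 : x = v
      · simp [h2, hv]
      · by_cases h3 : x = u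
        · simp [h3, hu, huv, h3 ▸ h1]
        · simp [h1, h2, h3]
  · by_cases hu : u ∈ S'
    · right; left
      ext x
      simp only [Finset.mem_insert, Finset.mem_erase]
      by_cases h1 : x = p
      · simp [h1, hp]
      · by_cases h2 : x = u
        · simp [h2, hu]
        · by_cases h3 : x = v
          · simp [h3, hv, huv.symm, h3 ▸ h1]
          · simp [h1, h2, h3]
    · right; right
      ext x
      simp only [Finset.mem_insert, Finset.mem_erase]
      by_cases h1 : x = p
      · simp [h1, hp]
      · by_cases h2 : x = u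
        · simp [h2, hu, h2 ▸ h1]
        · by_cases h3 : x = v
          · simp [h3, hv, h3 ▸ h1]
          · simp [h1, h2, h3]

theorem insert_insert_inj {T' : Finset ℕ} (hu : u ∉ T) (hv : v ∉ T) (hu' : u ∉ T') (hv' : v ∉ T')
    (e : insert u (insert v T) = insert u (insert v T')) : T = T' := by
  ext x
  have := congrArg (fun S => x ∈ S) e
  simp only [Finset.mem_insert, eq_iff_iff] at this
  constructor
  · intro hx
    rcases this.1 (Or.inr (Or.inr hx)) with h1 | h1 | h1
    exacts [absurd (h1 ▸ hx) hu, absurd (h1 ▸ hx) hv, h1]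
  · intro hx
    rcases this.2 (Or.inr (Or.inr hx)) with h1 | h1 | h1
    exacts [absurd (h1 ▸ hx) hu', absurd (h1 ▸ hx) hv', h1]

end Shapes

section Mem

variable {T : Finset ℕ} (hu : u ∉ T) (hv : v ∉ T) (hS : insert u (insert v T) ∈ st.cx)

include hS in
theorem fresh_notMem_T : st.fresh ∉ T :=
  fun h' => fresh_notMem st hS (by simp [h'])

include h hu hS in
theorem mem_u : insert st.fresh (insert v T) ∈ bisCx st.cx u v st.fresh := by
  rw [st.mem_bisCx_of_mem h (by simp), car_u (v_lt st h).ne (fresh_notMem_T st hS)]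
  exact ⟨hS, by simp [(u_lt st h).ne, h.1, hu]⟩

include h hv hS in
theorem mem_v : insert st.fresh (insert u T) ∈ bisCx st.cx u v st.fresh := by
  rw [st.mem_bisCx_of_mem h (by simp), car_v (u_lt st h).ne (fresh_notMem_T st hS)]
  exact ⟨hS, by simp [(v_lt st h).ne, h.1.symm, hv]⟩

include h hu hS in
theorem mem_uv : insert st.fresh T ∈ bisCx st.cx u v st.fresh := by
  rw [st.mem_bisCx_of_mem h (by simp), car_uv (fresh_notMem_T st hS)]
  exact ⟨hS, by simp [(u_lt st h).ne, hu]⟩

include h hu hv hS in
theorem filter_car : (bisCx st.cx u v st.fresh).filter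
      (fun S' => bisCar u v st.fresh S' = insert u (insert v T)) =
    {insert st.fresh (insert v T), insert st.fresh (insert u T), insert st.fresh T} := by
  have hp := fresh_notMem_T st hS
  ext S'
  simp only [Finset.mem_filter, Finset.mem_insert, Finset.mem_singleton]
  constructor
  · rintro ⟨h1, h2⟩
    by_cases hp' : st.fresh ∈ S'
    · obtain ⟨T', a1, a2, a3, a4⟩ := shapes h.1 hp' ((st.mem_bisCx_of_mem h hp').1 h1).2
      have : T' = T := by
        refine insert_insert_inj a2 a3 hu hv ?_
        rcases a4 with rfl | rfl | rfl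
        · rwa [car_u (v_lt st h).ne a1] at h2
        · rwa [car_v (u_lt st h).ne a1] at h2
        · rwa [car_uv a1] at h2
      rwa [this] at a4
    · have h3 := ((st.mem_bisCx_of_not_mem h hp').1 h1).2
      rw [bisCar, if_neg hp'] at h2
      exact absurd (by rw [h2]; simp) h3
  · rintro (rfl | rfl | rfl)
    · exact ⟨mem_u st h hu hS, car_u (v_lt st h).ne hp⟩
    · exact ⟨mem_v st h hv hS, car_v (u_lt st h).ne hp⟩
    · exact ⟨mem_uv st h hu hS, car_uv hp⟩

end Mem

/-- the weight transported along the carrier map -/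
def o0 (u v : ℕ) (S' : Finset ℕ) : ℚ := bisEps u v st.fresh S' * st.o (bisCar u v st.fresh S')

open Classical in
/-- the transported weight on meeting simplices -/
def m0 (S' : Finset ℕ) : ℚ := if (st.bisect h 0).Meets S' then o0 st u v S' else 0

/-- the correction on the walls -/
def corr (S' : Finset ℕ) : ℚ :=
  if st.fresh ∈ S' ∧ u ∉ S' ∧ v ∉ S' then - (sgn v S' * cob (m0 st h) (insert v S')) else 0

/-- the new orientation weight -/
def oNew (S' : Finset ℕ) : ℚ := o0 st u v S' + corr st h S'

open Classical in
/-- the new weight on meeting simplices -/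
def mNew (S' : Finset ℕ) : ℚ := if (st.bisect h 0).Meets S' then oNew st h S' else 0

open Classical in
/-- the old weight on meeting simplices -/
def mOld (S : Finset ℕ) : ℚ := if st.Meets S then st.o S else 0

theorem mNew_of_notMem {S' : Finset ℕ} (hp : st.fresh ∉ S') : mNew st h S' = mOld st S' := by
  have e : oNew st h S' = st.o S' := by
    rw [oNew, corr, if_neg fun h' => hp h'.1, add_zero, o0, bisEps, if_neg hp, bisCar,
      if_neg hp, one_mul]
  rw [mNew, mOld, e, st.meets_bisect_of_not_mem h 0 hp]

theorem cob_mOld (hA : st.Aug) {S : Finset ℕ} (hS : S ∈ st.cx) (hr : Disjoint S X.rays)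
    (hc : S.card = r + 1) : cob (mOld st) S = 0 := by
  by_cases hm : st.Meets S
  · rw [← hA S hS hr hm hc, cob]
    refine Finset.sum_congr rfl fun w _ => ?_
    rw [mOld]
    split_ifs <;> simp
  · refine cob_eq_zero fun w _ => ?_
    rw [mOld, if_neg fun h' => hm (st.meets_mono (Finset.erase_subset _ _) h')]

theorem cob_mNew_of_not_meets {S' : Finset ℕ} (hm : ¬ (st.bisect h 0).Meets S') :
    cob (mNew st h) S' = 0 :=
  cob_eq_zero fun w _ => by
    rw [mNew, if_neg fun h' => hm ((st.bisect h 0).meets_mono (Finset.erase_subset _ _) h')]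

theorem sdStar_mNew {R : Finset ℕ} (hR : R ∈ st.cx) (hc : R.card = r) :
    sdStar u v st.fresh (mNew st h) R = mOld st R := by
  by_cases huv : u ∈ R ∧ v ∈ R
  · obtain ⟨T, hu, hv, rfl⟩ := decomp h.1 huv.1 huv.2
    have hp := fresh_notMem_T st hR
    have hup := (u_lt st h).ne
    have hvp := (v_lt st h).ne
    have huvT : u ∉ insert v T := by simp [h.1, hu]
    have hvuT : v ∉ insert u T := by simp [h.1.symm, hv]
    have e1 : (insert u (insert v T)).erase v = insert u T := by
      rw [Finset.insert_comm, Finset.erase_insert hvuT]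
    have o1 : oNew st h (insert st.fresh (insert v T)) =
        sgn u (insert v T) * st.o (insert u (insert v T)) := by
      rw [oNew, corr, if_neg (by simp), add_zero, o0, eps_u hvp hp, car_u hvp hp]
    have o2 : oNew st h (insert st.fresh (insert u T)) =
        sgn v (insert u T) * st.o (insert u (insert v T)) := by
      rw [oNew, corr, if_neg (by simp), add_zero, o0, eps_v h.1 hup hvp hp hv, car_v hup hp]
    have s1 := sgn_sq u (insert v T)
    have s2 := sgn_sq v (insert u T)
    have hw : ¬ (st.bisect h 0).Meets (insert st.fresh T) := by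
      intro hm
      have h1 := ((st.bisect h 0).le_card_of_meets hm).trans
        (Finset.card_le_card Finset.sdiff_subset)
      rw [Finset.card_insert_of_notMem hp] at h1
      rw [Finset.card_insert_of_notMem huvT, Finset.card_insert_of_notMem hv] at hc
      omega
    rw [sdStar, if_pos huv, Finset.erase_insert huvT, e1, mNew, mNew, mOld, o1, o2]
    by_cases m1 : (st.bisect h 0).Meets (insert st.fresh (insert v T))
    · have m2 : ¬ (st.bisect h 0).Meets (insert st.fresh (insert u T)) :=
        fun m2 => hw (meets_wall st h 0 hp hu hv m1 m2)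
      have m3 := st.meets_bisCar h 0 (mem_u st h hu hR) m1
      rw [car_u hvp hp] at m3
      rw [if_pos m1, if_neg m2, if_pos m3]
      linear_combination st.o (insert u (insert v T)) * s1
    · by_cases m2 : (st.bisect h 0).Meets (insert st.fresh (insert u T))
      · have m3 := st.meets_bisCar h 0 (mem_v st h hv hR) m2
        rw [car_v hup hp] at m3
        rw [if_neg m1, if_pos m2, if_pos m3]
        linear_combination st.o (insert u (insert v T)) * s2
      · have m3 : ¬ st.Meets (insert u (insert v T)) := fun m3 =>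
          (meets_half st h 0 hp hu hv m3).elim m1 m2
        rw [if_neg m1, if_neg m2, if_neg m3]
        ring
  · rw [sdStar, if_neg huv, mNew_of_notMem st h (fresh_notMem st hR)]

section Aug

variable (hA : st.Aug) {T : Finset ℕ} (hu : u ∉ T) (hv : v ∉ T)
  (hS : insert u (insert v T) ∈ st.cx) (hr : Disjoint T X.rays)

include h hr in
theorem disj_rays : Disjoint (insert u (insert v T)) X.rays := by
  simp only [Finset.disjoint_insert_left]
  exact ⟨h.2.2.1, h.2.2.2, hr⟩

include hA hu hv hS hr in
theorem cob_pair (hc : T.card + 1 = r) :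
    sgn u (insert v T) * cob (mNew st h) (insert st.fresh (insert v T)) +
      sgn v (insert u T) * cob (mNew st h) (insert st.fresh (insert u T)) = 0 := by
  have huvT : u ∉ insert v T := by simp [h.1, hu]
  have hcard : (insert u (insert v T)).card = r + 1 := by
    rw [Finset.card_insert_of_notMem huvT, Finset.card_insert_of_notMem hv, hc]
  rw [← cob_sdStar h.1 _ hu hv (u_lt st h) (v_lt st h)
    (fun a ha => st.lt_fresh hS (by simp [ha])), ← cob_mOld st hA hS (disj_rays st h hr) hcard]
  refine cob_congr fun w hw => sdStar_mNew st h (st.down _ hS _ (Finset.erase_subset _ _)) ?_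
  rw [Finset.card_erase_of_mem hw, hcard]
  rfl

include hA hu hv hS hr in
theorem cob_u (hc : T.card + 1 = r) : cob (mNew st h) (insert st.fresh (insert v T)) = 0 := by
  classical
  have hp := fresh_notMem_T st hS
  have hup := (u_lt st h).ne
  have hvp := (v_lt st h).ne
  by_cases hw : (st.bisect h 0).Meets (insert st.fresh T)
  · have e1 : mNew st h = fun S' => m0 st h S' +
        (if (st.bisect h 0).Meets S' then corr st h S' else 0) := by
      funext S'
      rw [mNew, m0, oNew]
      split_ifs <;> simp
    have hvpT : v ∉ insert st.fresh T := by simp [hvp, hv]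
    rw [e1, cob_add, Finset.insert_comm]
    conv_lhs => enter [2]; rw [cob]
    rw [Finset.sum_insert hvpT,
      Finset.erase_insert hvpT, if_pos hw, corr, if_pos (by simp [hup, hu, hvp, hv]),
      Finset.sum_eq_zero]
    · linear_combination (- cob (m0 st h) (insert v (insert st.fresh T))) *
        sgn_sq v (insert st.fresh T)
    · intro w hw'
      have hwv : w ≠ v := ne_of_mem_of_not_mem hw' hvpT
      have e2 : corr st h ((insert v (insert st.fresh T)).erase w) = 0 := by
        rw [corr, if_neg (by simp [hwv.symm])]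
      rw [e2]
      simp
  · by_cases m1 : (st.bisect h 0).Meets (insert st.fresh (insert v T))
    · have m2 : ¬ (st.bisect h 0).Meets (insert st.fresh (insert u T)) :=
        fun m2 => hw (meets_wall st h 0 hp hu hv m1 m2)
      have h1 := cob_pair st h hA hu hv hS hr hc
      rw [cob_mNew_of_not_meets st h m2] at h1
      linear_combination sgn u (insert v T) * h1 -
        cob (mNew st h) (insert st.fresh (insert v T)) * sgn_sq u (insert v T)
    · exact cob_mNew_of_not_meets st h m1

include hA hu hv hS hr in
theorem cob_v (hc : T.card + 1 = r) : cob (mNew st h) (insert st.fresh (insert u T)) = 0 := by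
  have h1 := cob_pair st h hA hu hv hS hr hc
  rw [cob_u st h hA hu hv hS hr hc] at h1
  linear_combination sgn v (insert u T) * h1 -
    cob (mNew st h) (insert st.fresh (insert u T)) * sgn_sq v (insert u T)

include hA in
theorem cob_old {S : Finset ℕ} (hS : S ∈ st.cx) (hr : Disjoint S X.rays) (hc : S.card = r + 1) :
    cob (mNew st h) S = 0 := by
  rw [← cob_mOld st hA hS hr hc]
  exact cob_congr fun w _ => mNew_of_notMem st h fun h' =>
    fresh_notMem st hS (Finset.mem_of_mem_erase h')

include hA hu hv hS hr in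
theorem cob_uv (hc : T.card = r) : cob (mNew st h) (insert st.fresh T) = 0 := by
  have hp := fresh_notMem_T st hS
  have hvp := (v_lt st h).ne
  have h1 := cob_cob (mNew st h) (insert st.fresh (insert v T))
  have hlt : ∀ a ∈ insert v T, a < st.fresh := fun a ha =>
    st.lt_fresh hS (Finset.mem_insert_of_mem ha)
  rw [cob_insert_top _ hlt, Finset.sum_insert hv, Finset.erase_insert hv,
    cob_old st h hA (st.down _ hS _ (Finset.subset_insert _ _))
      (by simp only [Finset.disjoint_insert_left]; exact ⟨h.2.2.2, hr⟩)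
      (by rw [Finset.card_insert_of_notMem hv, hc]), Finset.sum_eq_zero] at h1
  · linear_combination (- sgn v T) * h1 - cob (mNew st h) (insert st.fresh T) * sgn_sq v T
  · intro w hw
    have hwv : w ≠ v := ne_of_mem_of_not_mem hw hv
    rw [Finset.erase_insert_of_ne hwv.symm, cob_u st h hA
      (fun h' => hu (Finset.mem_of_mem_erase h')) (fun h' => hv (Finset.mem_of_mem_erase h'))
      (st.down _ hS _ (Finset.insert_subset_insert _ (Finset.insert_subset_insert _
        (Finset.erase_subset _ _))))
      (hr.mono_left (Finset.erase_subset _ _))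
      (by rw [Finset.card_erase_add_one hw, hc]), mul_zero]

end Aug

theorem aug_new (hA : st.Aug) : (st.bisect h (oNew st h)).Aug := by
  intro S' hS' hr _ hc
  have key : cob (mNew st h) S' = 0 := by
    by_cases hp : st.fresh ∈ S'
    · obtain ⟨h1, h2⟩ := (st.mem_bisCx_of_mem h hp).1 hS'
      obtain ⟨T, a1, a2, a3, a4⟩ := shapes h.1 hp h2
      have hup := (u_lt st h).ne
      have hvp := (v_lt st h).ne
      rcases a4 with rfl | rfl | rfl
      · rw [car_u hvp a1] at h1
        rw [Finset.card_insert_of_notMem (by simp [hvp.symm, a1]),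
          Finset.card_insert_of_notMem a3] at hc
        exact cob_u st h hA a2 a3 h1 (hr.mono_left fun x hx => by simp [hx]) (by omega)
      · rw [car_v hup a1] at h1
        rw [Finset.card_insert_of_notMem (by simp [hup.symm, a1]),
          Finset.card_insert_of_notMem a2] at hc
        exact cob_v st h hA a2 a3 h1 (hr.mono_left fun x hx => by simp [hx]) (by omega)
      · rw [car_uv a1] at h1
        rw [Finset.card_insert_of_notMem a1] at hc
        exact cob_uv st h hA a2 a3 h1 (hr.mono_left fun x hx => by simp [hx]) (by omega)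
    · exact cob_old st h hA ((st.mem_bisCx_of_not_mem h hp).1 hS').1 hr hc
  refine Eq.trans ?_ key
  rw [cob]
  refine Finset.sum_congr rfl fun w _ => ?_
  rw [mNew]
  have e : (st.bisect h (oNew st h)).Meets (S'.erase w) ↔ (st.bisect h 0).Meets (S'.erase w) :=
    Iff.rfl
  by_cases hm : (st.bisect h 0).Meets (S'.erase w)
  · rw [if_pos hm, if_pos (e.2 hm)]
    rfl
  · rw [if_neg hm, if_neg fun h' => hm (e.1 h'), mul_zero]

theorem sgn_sdiff {a : ℕ} (ha : {a} ∈ st.cx) (har : a ∉ X.rays) (R : Finset ℕ) :
    sgn a (R \ X.rays) = sgn a R := by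
  rw [sgn, sgn]
  congr 2
  ext w
  simp only [Finset.mem_filter, Finset.mem_sdiff]
  exact ⟨fun h' => ⟨h'.1.1, h'.2⟩, fun h' => ⟨⟨h'.1, fun hw =>
    lt_asymm h'.2 (st.ray_lt w hw a ha har)⟩, h'.2⟩⟩

open Classical in
theorem o_car_new {j : Finset ℕ} (hj : j ∈ st.cx) (hm : st.Meets j) (hc : j.card = r) :
    ∑ j' ∈ (bisCx st.cx u v st.fresh).filter (fun j' => bisCar u v st.fresh j' = j),
      (if (st.bisect h 0).Meets j' then bisEps u v st.fresh j' * oNew st h j' else 0) =
      st.o j := by
  have h1 := sdStar_mNew st h hj hc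
  rw [mOld, if_pos hm] at h1
  rw [← h1]
  have h2 : ∀ j', (if (st.bisect h 0).Meets j' then bisEps u v st.fresh j' * oNew st h j' else 0)
      = bisEps u v st.fresh j' * mNew st h j' := by
    intro j'
    rw [mNew]
    split_ifs <;> simp
  simp only [h2]
  by_cases huv : u ∈ j ∧ v ∈ j
  · obtain ⟨T, hu, hv, rfl⟩ := decomp h.1 huv.1 huv.2
    have hp := fresh_notMem_T st hj
    have hup := (u_lt st h).ne
    have hvp := (v_lt st h).ne
    have huvT : u ∉ insert v T := by simp [h.1, hu]
    have hvuT : v ∉ insert u T := by simp [h.1.symm, hv]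
    have e1 : (insert u (insert v T)).erase v = insert u T := by
      rw [Finset.insert_comm, Finset.erase_insert hvuT]
    have n1 : insert st.fresh (insert v T) ≠ insert st.fresh (insert u T) := by
      intro e
      have : v ∈ insert st.fresh (insert u T) := by rw [← e]; simp
      simp [hvp, h.1.symm, hv] at this
    have n2 : insert st.fresh (insert v T) ≠ insert st.fresh T := by
      intro e
      have : v ∈ insert st.fresh T := by rw [← e]; simp
      simp [hvp, hv] at this
    have n3 : insert st.fresh (insert u T) ≠ insert st.fresh T := by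
      intro e
      have : u ∈ insert st.fresh T := by rw [← e]; simp
      simp [hup, hu] at this
    rw [filter_car st h hu hv hj, Finset.sum_insert (by simp [n1, n2]),
      Finset.sum_insert (by simp [n3]), Finset.sum_singleton, eps_u hvp hp,
      eps_v h.1 hup hvp hp hv, eps_uv hup hvp hu hv, sdStar, if_pos huv,
      Finset.erase_insert huvT, e1]
    ring
  · have hp := fresh_notMem st hj
    have e : (bisCx st.cx u v st.fresh).filter (fun j' => bisCar u v st.fresh j' = j) = {j} := by
      ext S'
      simp only [Finset.mem_filter, Finset.mem_singleton]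
      constructor
      · rintro ⟨-, h3⟩
        by_cases hp' : st.fresh ∈ S'
        · rw [bisCar, if_pos hp'] at h3
          exact absurd (by rw [← h3]; simp) huv
        · rwa [bisCar, if_neg hp'] at h3
      · rintro rfl
        exact ⟨(st.mem_bisCx_of_not_mem h hp).2 ⟨hj, huv⟩, by rw [bisCar, if_neg hp]⟩
    rw [e, Finset.sum_singleton, bisEps, if_neg hp, one_mul, sdStar, if_neg huv]

/-- the refinement structure of a bisection -/
def refines : Refines st (st.bisect h (oNew st h)) where
  car := bisCar u v st.fresh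
  eps := bisEps u v st.fresh
  car_mem := by
    intro S' hS'
    by_cases hp : st.fresh ∈ S'
    · exact ((st.mem_bisCx_of_mem h hp).1 hS').1
    · rw [bisCar, if_neg hp]
      exact ((st.mem_bisCx_of_not_mem h hp).1 hS').1
  car_mono := by
    intro S' _ R' hR x
    simp only [bisCar]
    split_ifs with h1 h2 h2
    · simp only [Finset.mem_insert, Finset.mem_erase]
      rintro (h3 | h3 | h3)
      exacts [Or.inl h3, Or.inr (Or.inl h3), Or.inr (Or.inr ⟨h3.1, hR h3.2⟩)]
    · exact absurd (hR h1) h2
    · simp only [Finset.mem_insert, Finset.mem_erase]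
      exact fun hx => Or.inr (Or.inr ⟨ne_of_mem_of_not_mem hx h1, hR hx⟩)
    · exact fun hx => hR hx
  kap_car := fun S' hS' => st.kap_bisCar h _ hS'
  meets_car := fun S' hS' hm => st.meets_bisCar h _ hS' hm
  ray_car := by
    intro S' _
    rw [bisCar]
    split_ifs with hp
    · ext x
      simp only [Finset.mem_inter, Finset.mem_insert, Finset.mem_erase]
      constructor
      · rintro ⟨h1 | h1 | h1, h2⟩
        exacts [absurd (h1 ▸ h2) h.2.2.1, absurd (h1 ▸ h2) h.2.2.2, ⟨h1.2, h2⟩]
      · rintro ⟨h1, h2⟩
        exact ⟨Or.inr (Or.inr ⟨ne_of_mem_of_not_mem h2 (fresh_not_ray st), h1⟩), h2⟩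
    · rfl
  fin_car := by
    intro S' _
    have e : st.fresh ∈ S' \ X.rays ↔ st.fresh ∈ S' := by simp [fresh_not_ray st]
    by_cases hp : st.fresh ∈ S'
    · rw [bisCar, bisCar, if_pos hp, if_pos (e.2 hp)]
      ext x
      simp only [Finset.mem_sdiff, Finset.mem_insert, Finset.mem_erase]
      constructor
      · rintro (h1 | h1 | h1)
        exacts [⟨Or.inl h1, h1 ▸ h.2.2.1⟩, ⟨Or.inr (Or.inl h1), h1 ▸ h.2.2.2⟩,
          ⟨Or.inr (Or.inr ⟨h1.1, h1.2.1⟩), h1.2.2⟩]
      · rintro ⟨h1 | h1 | h1, h2⟩
        exacts [Or.inl h1, Or.inr (Or.inl h1), Or.inr (Or.inr ⟨h1.1, h1.2, h2⟩)]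
    · rw [bisCar, bisCar, if_neg hp, if_neg fun h' => hp (e.1 h')]
  fin_eps := by
    intro S' _
    have e : st.fresh ∈ S' \ X.rays ↔ st.fresh ∈ S' := by simp [fresh_not_ray st]
    have eu : u ∈ S' \ X.rays ↔ u ∈ S' := by simp [h.2.2.1]
    have ev : v ∈ S' \ X.rays ↔ v ∈ S' := by simp [h.2.2.2]
    have e2 : (S' \ X.rays).erase st.fresh = S'.erase st.fresh \ X.rays :=
      (Finset.erase_sdiff_comm _ _ _).symm
    simp only [bisEps, e, eu, ev, e2]
    rw [sgn_sdiff st (st.down _ h.2.1 _ (by simp)) h.2.2.1,
      sgn_sdiff st (st.down _ h.2.1 _ (by simp)) h.2.2.2]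
  join := by
    intro S hS j' hj' hc
    have hpS := fresh_notMem st hS
    by_cases hp : st.fresh ∈ j'
    · have h1 := ((st.mem_bisCx_of_mem h hp).1 hj').2
      have hp' : st.fresh ∈ j' ∪ S ∩ X.rays := Finset.mem_union_left _ hp
      refine (st.mem_bisCx_of_mem h hp').2 ⟨?_, ?_⟩
      · have e : bisCar u v st.fresh (j' ∪ S ∩ X.rays) = S := by
          rw [bisCar, if_pos hp] at hc
          rw [bisCar, if_pos hp', Finset.erase_union_distrib,
            Finset.erase_eq_of_notMem (s := S ∩ X.rays) (by simp [hpS]), ← Finset.insert_union,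
            ← Finset.insert_union, hc, Finset.sdiff_union_inter]
        rwa [e]
      · simpa [h.2.2.1, h.2.2.2] using h1
    · have h1 := ((st.mem_bisCx_of_not_mem h hp).1 hj').2
      rw [bisCar, if_neg hp] at hc
      have e : j' ∪ S ∩ X.rays = S := by rw [hc, Finset.sdiff_union_inter]
      rw [e]
      refine (st.mem_bisCx_of_not_mem h hpS).2 ⟨hS, ?_⟩
      simpa [hc, h.2.2.1, h.2.2.2] using h1
  card_car := by
    intro S' hS' he
    by_cases hp : st.fresh ∈ S'
    · obtain ⟨T, a1, a2, a3, a4⟩ := shapes h.1 hp ((st.mem_bisCx_of_mem h hp).1 hS').2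
      have hup := (u_lt st h).ne
      have hvp := (v_lt st h).ne
      have huvT : u ∉ insert v T := by simp [h.1, a2]
      rcases a4 with rfl | rfl | rfl
      · rw [car_u hvp a1, Finset.card_insert_of_notMem huvT,
          Finset.card_insert_of_notMem (a := st.fresh) (by simp [hvp.symm, a1])]
      · rw [car_v hup a1, Finset.card_insert_of_notMem huvT,
          Finset.card_insert_of_notMem (a := st.fresh) (by simp [hup.symm, a1]),
          Finset.card_insert_of_notMem a2, Finset.card_insert_of_notMem a3]
      · exact absurd (eps_uv hup hvp a2 a3) he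
    · rw [bisCar, if_neg hp]
  span_car := by
    intro S' _ a ha har
    by_cases hap : a = st.fresh
    · subst hap
      rw [pos_fresh, bisCar, if_pos ha]
      refine Submodule.smul_mem _ _ (Submodule.add_mem _
        (Submodule.subset_span ⟨u, ?_, rfl⟩) (Submodule.subset_span ⟨v, ?_, rfl⟩))
      · simp [h.2.2.1]
      · simp [h.2.2.2]
    · rw [pos_of_ne st h _ hap]
      refine Submodule.subset_span ⟨a, ?_, rfl⟩
      rw [bisCar]
      split_ifs <;> simp [ha, har, hap]
  sd_bd := fun M _ _ c R' hR' => st.cellBd_bisect h c hR'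
  o_car := by
    intro j hj _ hm hc
    rw [← o_car_new st h hj hm hc, Finset.sum_filter, Finset.sum_filter]
    refine Finset.sum_congr rfl fun j' _ => ?_
    have e : (st.bisect h (oNew st h)).Meets j' ↔ (st.bisect h 0).Meets j' := Iff.rfl
    by_cases h1 : bisCar u v st.fresh j' = j
    · by_cases h2 : (st.bisect h 0).Meets j'
      · rw [if_pos ⟨e.2 h2, h1⟩, if_pos h1, if_pos h2]
        rfl
      · rw [if_neg fun h' => h2 (e.1 h'.1), if_pos h1, if_neg h2]
    · rw [if_neg fun h' => h1 h'.2, if_neg h1]

end BisAug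

/-- bisection is a refinement, and the orientation weight extends -/
theorem St.bisect_refines {r : ℕ} {X : Space r} (st : St X) {u v : ℕ} (h : st.Edge u v)
    (hA : st.Aug) : ∃ (o' : Finset ℕ → ℚ) (R : Refines st (st.bisect h o')),
      R.car = bisCar u v st.fresh ∧ (st.bisect h o').Aug :=
  ⟨BisAug.oNew st h, BisAug.refines st h, rfl, BisAug.aug_new st h hA⟩

end Pool.Agent.Lead.THC
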