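import Pool.Agent.Lead.THC.Bisect

set_option autoImplicit false

open scoped BigOperators

noncomputable section

namespace Pool.Agent.Lead.THC

theorem lv_sgn_sq (w : ℕ) (R : Finset ℕ) : sgn w R * sgn w R = 1 := by
  rw [sgn, ← mul_pow]; simp

theorem lv_cellBd_single {M : Type} [AddCommGroup M] [Module ℚ M] {T : Finset (Finset ℕ)}
    {c : Finset ℕ → M} {R : Finset ℕ} {w : ℕ} (hw : w ∉ R) (hT : insert w R ∈ T)
    (h : ∀ x, x ≠ w → x ∉ R → insert x R ∈ T → c (insert x R) = 0) :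
    cellBd T c R = sgn w R • c (insert w R) := by
  rw [cellBd, Finset.sum_eq_single w, if_pos ⟨hw, hT⟩]
  · intro x _ hx
    split_ifs with h1
    · rw [h x hx h1.1 h1.2, smul_zero]
    · rfl
  · intro h1
    exact (h1 (Finset.mem_biUnion.2 ⟨_, hT, Finset.mem_insert_self _ _⟩)).elim

theorem lv_car_mono {u v p : ℕ} {R S : Finset ℕ} (h : R ⊆ S) : bisCar u v p R ⊆ bisCar u v p S := by
  intro x
  have h1 := @h x
  have h2 := @h p
  unfold bisCar
  split_ifs <;> grind

namespace St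

variable {r : ℕ} {X : Space r} (st : St X) {u v : ℕ}

theorem lv_fresh {S : Finset ℕ} (hS : S ∈ st.cx) : st.fresh ∉ S :=
  fun h => lt_irrefl _ (st.lt_fresh hS h)

theorem lv_u (h : st.Edge u v) : u ≠ st.fresh := (st.lt_fresh h.2.1 (by simp)).ne

theorem lv_v (h : st.Edge u v) : v ≠ st.fresh := (st.lt_fresh h.2.1 (by simp)).ne

theorem lv_mem (h : st.Edge u v) {S' : Finset ℕ} :
    S' ∈ bisCx st.cx u v st.fresh ↔ bisCar u v st.fresh S' ∈ st.cx ∧ ¬ (u ∈ S' ∧ v ∈ S') := by
  by_cases hp : st.fresh ∈ S'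
  · exact st.mem_bisCx_of_mem h hp
  · rw [st.mem_bisCx_of_not_mem h hp, bisCar, if_neg hp]

theorem lv_card (h : st.Edge u v) {S' : Finset ℕ} (hS : S' ∈ bisCx st.cx u v st.fresh)
    (he : bisEps u v st.fresh S' ≠ 0) : (bisCar u v st.fresh S').card = S'.card := by
  have h1 := ((st.lv_mem h).1 hS).2
  have hu := st.lv_u h
  have hv := st.lv_v h
  have huv := h.1
  unfold bisCar
  unfold bisEps at he
  split_ifs at he ⊢ with h2 h3 h4
  · rw [Finset.insert_eq_of_mem (Finset.mem_erase.2 ⟨hv, h3⟩), Finset.card_insert_of_notMem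
      (by simp; tauto), Finset.card_erase_add_one h2]
  · rw [Finset.insert_comm, Finset.insert_eq_of_mem (Finset.mem_erase.2 ⟨hu, h4⟩),
      Finset.card_insert_of_notMem (by simp; tauto), Finset.card_erase_add_one h2]
  · exact (he rfl).elim
  · rfl

theorem lv_sec (h : st.Edge u v) {S₀ : Finset ℕ} (h0 : S₀ ∈ bisCx st.cx u v st.fresh) :
    ∃ σ : Finset ℕ → Finset ℕ, (∀ S ∈ st.cx, bisCar u v st.fresh S₀ ⊆ S →
      σ S ∈ bisCx st.cx u v st.fresh ∧ S₀ ⊆ σ S ∧ bisCar u v st.fresh (σ S) = S ∧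
        bisEps u v st.fresh (σ S) * bisEps u v st.fresh (σ S) = 1) ∧
      ∀ S' ∈ bisCx st.cx u v st.fresh, S₀ ⊆ S' → σ (bisCar u v st.fresh S') = S' ∨
        (st.fresh ∈ S' ∧ u ∉ S' ∧ v ∉ S') ∨ (st.fresh ∈ S' ∧ u ∈ S' ∧ u ∉ S₀) := by
  have hu := st.lv_u h
  have hv := st.lv_v h
  have huv := h.1
  have h1 := ((st.lv_mem h).1 h0).2
  refine ⟨fun S => if u ∈ S ∧ v ∈ S then
    (if u ∈ S₀ then insert st.fresh (S.erase v) else insert st.fresh (S.erase u)) else S,
    fun S hS h2 => ?_, fun S' hS h2 => ?_⟩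
  · have hp := st.lv_fresh hS
    have h3 : ∀ x ∈ S₀, x = st.fresh ∨ x ∈ S := fun x hx => by
      have := @h2 x
      unfold bisCar at this
      split_ifs at this <;> grind
    have h4 : st.fresh ∈ S₀ → u ∈ S ∧ v ∈ S := fun hx => by
      rw [bisCar, if_pos hx] at h2
      exact ⟨h2 (by simp), h2 (by simp)⟩
    beta_reduce
    split_ifs with h5 h6
    · have e : bisCar u v st.fresh (insert st.fresh (S.erase v)) = S := by
        ext x; simp only [bisCar, Finset.mem_insert_self, if_true, Finset.mem_insert,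
          Finset.mem_erase]; grind
      refine ⟨(st.lv_mem h).2 ⟨by rwa [e], by simp [hv]⟩, fun x hx => ?_, e, ?_⟩
      · simp only [Finset.mem_insert, Finset.mem_erase]; grind
      · simp [bisEps, hv, huv, h5.1, lv_sgn_sq]
    · have e : bisCar u v st.fresh (insert st.fresh (S.erase u)) = S := by
        ext x; simp only [bisCar, Finset.mem_insert_self, if_true, Finset.mem_insert,
          Finset.mem_erase]; grind
      refine ⟨(st.lv_mem h).2 ⟨by rwa [e], by simp [hu]⟩, fun x hx => ?_, e, ?_⟩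
      · simp only [Finset.mem_insert, Finset.mem_erase]; grind
      · simp [bisEps, huv.symm, h5.2, lv_sgn_sq]
    · have e : bisCar u v st.fresh S = S := if_neg hp
      refine ⟨(st.lv_mem h).2 ⟨by rwa [e], h5⟩, fun x hx => ?_, e, by simp [bisEps, hp]⟩
      grind
  · have h3 := ((st.lv_mem h).1 hS).2
    have h4 := @h2 u
    by_cases hp : st.fresh ∈ S'
    · have h5 : u ∈ bisCar u v st.fresh S' ∧ v ∈ bisCar u v st.fresh S' := by simp [bisCar, hp]
      beta_reduce
      rw [if_pos h5, bisCar, if_pos hp]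
      by_cases h6 : u ∈ S₀
      · left
        rw [if_pos h6]
        ext x; simp only [Finset.mem_insert, Finset.mem_erase]; grind
      · by_cases h7 : v ∈ S'
        · left
          rw [if_neg h6]
          ext x; simp only [Finset.mem_insert, Finset.mem_erase]; grind
        · tauto
    · left
      beta_reduce
      rw [bisCar, if_neg hp, if_neg h3]

end St

/-- local acyclicity survives bisection -/
theorem St.bisect_lvk {r : ℕ} {X : Space r} (st : St X) {u v : ℕ} (h : st.Edge u v)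
    (o' : Finset ℕ → ℚ) (hL : st.LVK) : (st.bisect h o').LVK := by
  intro S₀ h0 hm t a c hat hK hI
  have hu := st.lv_u h
  have hv := st.lv_v h
  have huv := h.1
  have hkap := fun S' hS => st.kap_bisCar h o' (S' := S') hS
  have hdown := (st.bisect h o').down
  have hIm := fun R S (hS : S ∈ (st.bisect h o').cx) (h1 : S₀ ⊆ R) (h2 : R ⊆ S) =>
    (st.bisect h o').I_kap_mono hS h2 ((st.bisect h o').meets_mono h1 hm)
  have hKm := fun (R S : Finset ℕ) (h2 : R ⊆ S) => X.K_anti ((st.bisect h o').kap_mono h2) t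
  have hcar := st.meets_bisCar h o' h0 hm
  set kap := (st.bisect h o').kap
  change S₀ ∈ bisCx st.cx u v st.fresh at h0
  change ∀ S ∈ bisCx st.cx u v st.fresh, _ at hK hI hkap hdown
  change ∀ R, ∀ S ∈ bisCx st.cx u v st.fresh, _ at hIm
  change ∀ R ∈ bisCx st.cx u v st.fresh, _ → _ → cellBd (bisCx st.cx u v st.fresh) c R ∈ _ at hI
  change ∃ y : Finset ℕ → A, (∀ S ∈ bisCx st.cx u v st.fresh, _) ∧
    ∀ S ∈ bisCx st.cx u v st.fresh, _ → _ → c S - cellBd (bisCx st.cx u v st.fresh) y S ∈ _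
  obtain ⟨σ, s1, s2⟩ := st.lv_sec h h0
  have hmem := fun S => st.lv_mem h (S' := S)
  have hcard := fun S => st.lv_card h (S' := S)
  have hbd := fun (c : Finset ℕ → A) R => st.cellBd_bisect h c (R' := R)
  set p := st.fresh
  set T := bisCx st.cx u v p
  -- removing `u` or `v` from a simplex containing `p` does not change the carrier
  have hflat : ∀ R w, p ∈ R → (w = u ∨ w = v) → bisCar u v p (insert w R) = bisCar u v p R := by
    intro R w h1 h2
    rw [bisCar, bisCar, if_pos h1, if_pos (Finset.mem_insert_of_mem h1)]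
    ext x; simp only [Finset.mem_insert, Finset.mem_erase]; grind
  -- first correction
  set y₁ : Finset ℕ → A := fun S =>
    if p ∈ S ∧ v ∈ S ∧ v ∉ S₀ then sgn v (S.erase v) • c (S.erase v) else 0 with hy₁
  have y₁K : ∀ S ∈ T, S₀ ⊆ S → S.card = a + 1 → y₁ S ∈ X.K t (kap S) := by
    intro S h1 h2 h3
    simp only [hy₁]
    split_ifs with h4
    · have h5 := hdown S h1 _ (Finset.erase_subset v S)
      have h6 := hflat (S.erase v) v (Finset.mem_erase.2 ⟨hv.symm, h4.1⟩) (Or.inr rfl)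
      rw [Finset.insert_erase h4.2.1] at h6
      rw [← hkap S h1, h6, hkap _ h5]
      exact Submodule.smul_mem _ _ (hK _ h5 (Finset.subset_erase.2 ⟨h2, h4.2.2⟩)
        (by rw [Finset.card_erase_of_mem h4.2.1, h3]; rfl))
    · exact Submodule.zero_mem _
  set c₁ : Finset ℕ → A := fun S => c S - cellBd T y₁ S with hc₁
  have c₁K : ∀ S ∈ T, S₀ ⊆ S → S.card = a → c₁ S ∈ X.K t (kap S) := fun S h1 h2 h3 =>
    Submodule.sub_mem _ (hK S h1 h2 h3) (cellBd_mem T fun w h4 h5 =>
      hKm _ _ (Finset.subset_insert w S) (y₁K _ h5 (h2.trans (Finset.subset_insert w S))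
        (by rw [Finset.card_insert_of_notMem h4, h3])))
  have c₁I : ∀ R ∈ T, S₀ ⊆ R → R.card + 1 = a → cellBd T c₁ R ∈ X.I (kap R) ∅ := by
    intro R h1 h2 h3
    rw [hc₁, cellBd_sub, cellBd_cellBd T hdown, sub_zero]
    exact hI R h1 h2 h3
  have c₁0 : ∀ S ∈ T, S₀ ⊆ S → p ∈ S → u ∉ S → v ∉ S → c₁ S = 0 := by
    intro S h1 h2 h3 h4 h5
    have h6 : insert v S ∈ T := (hmem _).2 ⟨by
      rw [hflat S v h3 (Or.inr rfl)]; exact ((hmem _).1 h1).1, by simp [h4, huv]⟩
    simp only [hc₁]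
    rw [lv_cellBd_single h5 h6 fun x k1 _ _ => if_neg (by simp [h5, k1.symm])]
    simp only [hy₁]
    rw [if_pos ⟨Finset.mem_insert_of_mem h3, Finset.mem_insert_self _ _, fun k => h5 (h2 k)⟩,
      Finset.erase_insert h5, smul_smul, lv_sgn_sq, one_smul, sub_self]
  -- the chain on the old complex
  set z : Finset ℕ → A := fun S => bisEps u v p (σ S) • c₁ (σ S) with hz
  set d : Finset ℕ → A := fun S => c₁ S - bisEps u v p S • z (bisCar u v p S) with hd
  have sq : ∀ e : ℚ, e * e = 1 → e ≠ 0 := fun e k1 k2 => by simp [k2] at k1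
  have d0 : ∀ S ∈ T, S₀ ⊆ S → ¬ (p ∈ S ∧ u ∈ S ∧ u ∉ S₀) → d S = 0 := by
    intro S h1 h2 h3
    simp only [hd, hz]
    rcases s2 S h1 h2 with h4 | h4 | h4
    · have h5 := (s1 _ ((hmem _).1 h1).1 (lv_car_mono h2)).2.2.2
      rw [h4] at h5 ⊢
      rw [smul_smul, h5, one_smul, sub_self]
    · rw [c₁0 S h1 h2 h4.1 h4.2.1 h4.2.2, bisEps, if_pos h4.1, if_neg h4.2.2, if_neg h4.2.1]
      simp
    · exact (h3 h4).elim
  have dI : ∀ S ∈ T, S₀ ⊆ S → S.card = a → d S ∈ X.I (kap S) ∅ := by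
    intro S h1 h2 h3
    by_cases h4 : p ∈ S ∧ u ∈ S ∧ u ∉ S₀
    · have h5 := hdown S h1 _ (Finset.erase_subset u S)
      have h6 : S₀ ⊆ S.erase u := Finset.subset_erase.2 ⟨h2, h4.2.2⟩
      have h7 : p ∈ S.erase u := Finset.mem_erase.2 ⟨hu.symm, h4.1⟩
      have h8 : v ∉ S.erase u := fun k => ((hmem _).1 h1).2 ⟨h4.2.1, (Finset.mem_erase.1 k).2⟩
      have h9 := hflat (S.erase u) u h7 (Or.inl rfl)
      have k1 := c₁I _ h5 h6 (by rw [Finset.card_erase_add_one h4.2.1, h3])
      have k2 : cellBd T d (S.erase u) = cellBd T c₁ (S.erase u) := by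
        rw [hd, cellBd_sub T c₁, hbd z _ h5, bisEps, if_pos h7, if_neg h8,
          if_neg (Finset.notMem_erase u S), zero_smul, sub_zero]
      rw [← k2, lv_cellBd_single (Finset.notMem_erase u S) (by rwa [Finset.insert_erase h4.2.1])
        fun x k1 _ k3 => d0 _ k3 (h6.trans (Finset.subset_insert _ _)) (by simp [k1.symm]),
        ← hkap _ h5, ← h9, Finset.insert_erase h4.2.1, hkap _ h1] at k1
      have k3 := Submodule.smul_mem _ (sgn u (S.erase u)) k1
      rwa [smul_smul, lv_sgn_sq, one_smul] at k3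
    · rw [d0 S h1 h2 h4]; exact Submodule.zero_mem _
  obtain ⟨y₀, y₀K, y₀I⟩ := hL _ ((hmem _).1 h0).1 hcar t a z hat (fun S h1 h2 h3 => by
      obtain ⟨k1, k2, k3, k4⟩ := s1 S h1 h2
      have k5 := hcard _ k1 (sq _ k4)
      have k6 := c₁K _ k1 k2 (by rw [← k5, k3, h3])
      rw [← hkap _ k1, k3] at k6
      exact Submodule.smul_mem _ _ k6) (fun R h1 h2 h3 => by
      obtain ⟨k1, k2, k3, k4⟩ := s1 R h1 h2
      have k5 := hcard _ k1 (sq _ k4)
      rw [k3] at k5
      have k6 := Submodule.sub_mem _ (c₁I _ k1 k2 (by rw [← k5, h3])) (cellBd_mem T (c := d)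
        fun w j1 j2 => hIm _ _ j2 k2 (Finset.subset_insert w _)
          (dI _ j2 (k2.trans (Finset.subset_insert w _))
            (by rw [Finset.card_insert_of_notMem j1, ← k5, h3])))
      rw [hd, cellBd_sub T c₁, sub_sub_cancel, hbd z _ k1, ← hkap _ k1, k3] at k6
      have k7 := Submodule.smul_mem _ (bisEps u v p (σ R)) k6
      rwa [smul_smul, k4, one_smul] at k7)
  refine ⟨fun S => y₁ S + bisEps u v p S • y₀ (bisCar u v p S), fun S h1 h2 h3 => ?_,
    fun S h1 h2 h3 => ?_⟩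
  · refine Submodule.add_mem _ (y₁K S h1 h2 h3) ?_
    by_cases he : bisEps u v p S = 0
    · rw [he, zero_smul]; exact Submodule.zero_mem _
    · rw [← hkap S h1]
      exact Submodule.smul_mem _ _ (y₀K _ ((hmem _).1 h1).1 (lv_car_mono h2)
        (by rw [hcard S h1 he, h3]))
  · have e : c S - cellBd T (fun S => y₁ S + bisEps u v p S • y₀ (bisCar u v p S)) S =
        d S + bisEps u v p S • (z (bisCar u v p S) - cellBd st.cx y₀ (bisCar u v p S)) := by
      rw [cellBd_add, hbd y₀ S h1, smul_sub]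
      simp only [hd, hc₁]
      abel
    rw [e]
    refine Submodule.add_mem _ (dI S h1 h2 h3) ?_
    by_cases he : bisEps u v p S = 0
    · rw [he, zero_smul]; exact Submodule.zero_mem _
    · rw [← hkap S h1]
      exact Submodule.smul_mem _ _ (y₀I _ ((hmem _).1 h1).1 (lv_car_mono h2)
        (by rw [hcard S h1 he, h3]))

end Pool.Agent.Lead.THC
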