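import Pool.Agent.Lead.THC.Chains1

set_option autoImplicit false

open scoped BigOperators

noncomputable section

namespace Pool.Agent.Lead.THC

theorem bdry_apply_mem {M : Type} [AddCommGroup M] [Module ℚ M] {c : List Pt →₀ M}
    {l' : List Pt} (P : Submodule ℚ M)
    (h : ∀ l ∈ c.support, 2 ≤ l.length → ∀ i < l.length, l.eraseIdx i = l' → c l ∈ P) :
    bdry c l' ∈ P := by
  classical
  rw [bdry, Finsupp.sum, Finsupp.finsetSum_apply]
  refine P.sum_mem fun l hl => ?_
  split_ifs with h2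
  · rw [Finsupp.finsetSum_apply]
    refine P.sum_mem fun i hi => ?_
    rw [Finsupp.smul_apply, Finsupp.single_apply]
    refine P.smul_mem _ ?_
    split_ifs with h3
    · exact h l hl h2 i (Finset.mem_range.1 hi) h3
    · exact P.zero_mem
  · exact P.zero_mem

theorem tens_apply' {G M : Type} [AddCommGroup M] [Module ℚ M] (u : G →₀ ℚ) (ω : M) (g : G) :
    tens u ω g = u g • ω := rfl

namespace Space

variable {r : ℕ} (X : Space r)

theorem cell_car {l : List Pt} (hl : l ≠ []) (h : X.Valid l) : X.Cell (car l) := by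
  refine ⟨h.2, fun i => ?_⟩
  obtain ⟨z, hz⟩ := List.exists_mem_of_ne_nil l hl
  by_contra hc
  push Not at hc
  have h1 := (h.1 z hz).2.1 i
  rw [Finsupp.sum, Finset.sum_eq_zero fun v hv => if_neg (hc v (mem_car.2 ⟨z, hz, Or.inl hv⟩))]
    at h1
  exact (X.b_pos i).ne h1

theorem Valid.sub {X : Space r} {l l' : List Pt} (h : X.Valid l) (hs : ∀ z ∈ l', z ∈ l) :
    X.Valid l' :=
  ⟨fun z hz => h.1 z (hs z hz), X.T_down _ h.2 _ (car_mono hs)⟩

theorem sed_ray {l : List Pt} (hl : l ≠ []) (h : ∀ z ∈ l, X.IsPt z) :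
    ∀ v ∈ sed l, X.lev v = ⊥ := fun v hv => by
  obtain ⟨z, hz⟩ := List.exists_mem_of_ne_nil l hl
  exact (h z hz).2.2 v (hv z hz)

theorem null_zero : X.Null 0 := fun _ => Submodule.zero_mem _

theorem null_add {c c' : List Pt →₀ A} (h : X.Null c) (h' : X.Null c') : X.Null (c + c') :=
  fun l => Submodule.add_mem _ (h l) (h' l)

theorem null_smul (q : ℚ) {c : List Pt →₀ A} (h : X.Null c) : X.Null (q • c) :=
  fun l => Submodule.smul_mem _ q (h l)

theorem null_neg {c : List Pt →₀ A} (h : X.Null c) : X.Null (-c) :=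
  fun l => Submodule.neg_mem _ (h l)

theorem null_sub {c c' : List Pt →₀ A} (h : X.Null c) (h' : X.Null c') : X.Null (c - c') :=
  fun l => Submodule.sub_mem _ (h l) (h' l)

theorem null_sum {ι : Type} (s : Finset ι) {c : ι → List Pt →₀ A} (h : ∀ i ∈ s, X.Null (c i)) :
    X.Null (∑ i ∈ s, c i) := fun l => by
  rw [Finsupp.finsetSum_apply]
  exact Submodule.sum_mem _ fun i hi => h i hi l

theorem null_bdry {c : List Pt →₀ A} (hv : ∀ l ∈ c.support, X.Valid l) (h : X.Null c) :
    X.Null (bdry c) := fun l' => by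
  refine bdry_apply_mem _ fun l hl h2 i hi e => ?_
  have hs : ∀ z ∈ l', z ∈ l := fun z hz => List.mem_of_mem_eraseIdx (e ▸ hz)
  have hne : l' ≠ [] := by
    intro h0
    have := congrArg List.length e
    rw [List.length_eraseIdx_of_lt hi, h0, List.length_nil] at this
    omega
  exact X.I_mono (X.cell_car hne ((hv l hl).sub hs)) (car_mono hs) (hv l hl).2 (sed_anti hs) (h l)

theorem null_down {c : List Pt →₀ A} (hv : ∀ l ∈ c.support, l ≠ [] ∧ X.Valid l) (h : X.Null c) :
    X.Null (X.down c) := fun l => by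
  rw [down, Finsupp.mapRange_apply]
  by_cases hl : l ∈ c.support
  · exact X.comp_mem_I (X.sed_ray (hv l hl).1 (hv l hl).2.1) _ (h l)
  · rw [Finsupp.notMem_support_iff.1 hl, map_zero]
    exact Submodule.zero_mem _

/-- a rational chain carried by the face `(S, ρ)` times a null coefficient is null -/
theorem null_tens {S : Finset ℕ} (hS : S ∈ X.T) {ρ : Set ℕ} {u : List Pt →₀ ℚ}
    (hu : ∀ l ∈ u.support, l ≠ [] ∧ (∀ z ∈ l, X.IsPt z) ∧ car l ⊆ S ∧ ρ ⊆ sed l) {ω : A}
    (hω : ω ∈ X.I S ρ) : X.Null (tens u ω) := fun l => by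
  rw [tens_apply']
  by_cases hl : l ∈ u.support
  · obtain ⟨h1, h2, h3, h4⟩ := hu l hl
    exact Submodule.smul_mem _ _
      (X.I_mono (X.cell_car h1 ⟨h2, X.T_down _ hS _ h3⟩) h3 hS h4 hω)
  · rw [Finsupp.notMem_support_iff.1 hl, zero_smul]
    exact Submodule.zero_mem _

theorem kchain_zero (s q : ℕ) : X.IsKChain s q 0 := fun l hl => by simp at hl

theorem IsKChain.mem {X : Space r} {s q : ℕ} {c : List Pt →₀ A} (h : X.IsKChain s q c)
    (l : List Pt) : c l ∈ X.K s (car l) := by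
  by_cases hl : l ∈ c.support
  · exact (h l hl).2.2
  · rw [Finsupp.notMem_support_iff.1 hl]
    exact Submodule.zero_mem _

theorem kchain_add {s q : ℕ} {c c' : List Pt →₀ A} (h : X.IsKChain s q c)
    (h' : X.IsKChain s q c') : X.IsKChain s q (c + c') := fun l hl => by
  classical
  have h1 : (c + c') l ∈ X.K s (car l) := Submodule.add_mem _ (h.mem l) (h'.mem l)
  rcases Finset.mem_union.1 (Finsupp.support_add hl) with h2 | h2
  · exact ⟨(h l h2).1, (h l h2).2.1, h1⟩
  · exact ⟨(h' l h2).1, (h' l h2).2.1, h1⟩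

theorem kchain_smul {s q : ℕ} (a : ℚ) {c : List Pt →₀ A} (h : X.IsKChain s q c) :
    X.IsKChain s q (a • c) := fun l hl =>
  have h2 := Finsupp.support_smul hl
  ⟨(h l h2).1, (h l h2).2.1, Submodule.smul_mem _ a (h.mem l)⟩

theorem kchain_sub {s q : ℕ} {c c' : List Pt →₀ A} (h : X.IsKChain s q c)
    (h' : X.IsKChain s q c') : X.IsKChain s q (c - c') := by
  have := X.kchain_add h (X.kchain_smul (-1) h')
  rwa [neg_one_smul, ← sub_eq_add_neg] at this

theorem kchain_sum {ι : Type} {s q : ℕ} (t : Finset ι) {c : ι → List Pt →₀ A}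
    (h : ∀ i ∈ t, X.IsKChain s q (c i)) : X.IsKChain s q (∑ i ∈ t, c i) :=
  Finset.sum_induction c (X.IsKChain s q) (fun _ _ => X.kchain_add) (X.kchain_zero s q) h

theorem kchain_bdry {s q : ℕ} {c : List Pt →₀ A} (h : X.IsKChain s (q + 1) c) :
    X.IsKChain s q (bdry c) := fun l' hl' => by
  obtain ⟨l, hl, -, i, hi, e⟩ := mem_support_bdry hl'
  refine ⟨?_, (h l hl).2.1.sub fun z hz => List.mem_of_mem_eraseIdx (e ▸ hz),
    bdry_apply_mem _ fun l hl _ i _ e => ?_⟩
  · rw [e, List.length_eraseIdx_of_lt hi, (h l hl).1]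
    rfl
  · exact X.K_anti (car_mono fun z hz => List.mem_of_mem_eraseIdx (e ▸ hz)) s (h l hl).2.2

theorem kchain_tens {S : Finset ℕ} (hS : S ∈ X.T) {s q : ℕ} {u : List Pt →₀ ℚ}
    (hu : ∀ l ∈ u.support, l.length = q + 1 ∧ (∀ z ∈ l, X.IsPt z) ∧ car l ⊆ S) {ω : A}
    (hω : ω ∈ X.K s S) : X.IsKChain s q (tens u ω) := fun l hl => by
  obtain ⟨h1, h2, h3⟩ := hu l (Finsupp.support_mapRange hl)
  exact ⟨h1, ⟨h2, X.T_down _ hS _ h3⟩, Submodule.smul_mem _ _ (X.K_anti h3 s hω)⟩

theorem chain_down {k q : ℕ} {c : List Pt →₀ A} (h : X.IsKChain (k + r) q c) :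
    X.IsChain k q (X.down c) := fun l hl => by
  obtain ⟨h1, h2, h3⟩ := h l (Finsupp.support_mapRange hl)
  exact ⟨h1, h2.1, h2.2, X.comp_univ_mem_F (X.cell_car (fun e => by simp [e] at h1) h2) h3⟩

/-- the chains carried by a face are acyclic (cone with apex `a`) -/
theorem acyclic_huge {S : Finset ℕ} {ρ : Set ℕ} {a : Pt} (ha : X.IsPt a) (haS : car [a] ⊆ S)
    (haρ : ρ ⊆ sed [a]) {q : ℕ} {u : List Pt →₀ ℚ}
    (hu : ∀ l ∈ u.support, l.length = q + 1 ∧ (∀ z ∈ l, X.IsPt z) ∧ car l ⊆ S ∧ ρ ⊆ sed l)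
    (h0 : bdry u = 0) (h1 : q = 0 → aug u = 0) :
    ∃ y : List Pt →₀ ℚ, (∀ l ∈ y.support,
      l.length = q + 2 ∧ (∀ z ∈ l, X.IsPt z) ∧ car l ⊆ S ∧ ρ ⊆ sed l) ∧ bdry y = u := by
  classical
  refine ⟨cone a u, fun l' hl' => ?_, ?_⟩
  · obtain ⟨l, hl, rfl⟩ := Finset.mem_image.1 (Finsupp.mapDomain_support hl')
    obtain ⟨k1, k2, k3, k4⟩ := hu l hl
    refine ⟨by simp [k1], fun z hz => ?_, fun v hv => ?_, fun v hv z hz => ?_⟩
    · rcases List.mem_cons.1 hz with rfl | hz
      · exact ha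
      · exact k2 z hz
    · obtain ⟨z, hz, h⟩ := mem_car.1 hv
      rcases List.mem_cons.1 hz with rfl | hz
      · exact haS (mem_car.2 ⟨z, by simp, h⟩)
      · exact k3 (mem_car.2 ⟨z, hz, h⟩)
    · rcases List.mem_cons.1 hz with rfl | hz
      · exact haρ hv z (by simp)
      · exact k4 hv z hz
  · rcases Nat.eq_zero_or_pos q with rfl | hq
    · rw [bdry_cone_one a fun l hl => (hu l hl).1, h1 rfl, Finsupp.single_zero, sub_zero]
    · rw [bdry_cone a fun l hl => by have := (hu l hl).1; omega, h0, cone,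
        Finsupp.mapDomain_zero, sub_zero]

end Space

/-! ### acyclic carriers -/

section Carriers

variable {G N : Type} [AddCommGroup N] [Module ℚ N]

theorem lc_congr {f f' : G → N} {u : G →₀ ℚ} (h : ∀ g ∈ u.support, f g = f' g) :
    Finsupp.linearCombination ℚ f u = Finsupp.linearCombination ℚ f' u := by
  rw [Finsupp.linearCombination_apply, Finsupp.linearCombination_apply]
  exact Finsupp.sum_congr fun g hg => by rw [h g hg]

theorem lc_mem {f : G → N} {u : G →₀ ℚ} {P : Submodule ℚ N} (h : ∀ g ∈ u.support, f g ∈ P) :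
    Finsupp.linearCombination ℚ f u ∈ P := by
  rw [Finsupp.linearCombination_apply]
  exact P.sum_mem fun g hg => P.smul_mem _ (h g hg)

theorem exists_deg_rec (ok : G → Prop) (deg : G → ℕ) (d : G → G →₀ ℚ)
    (hd : ∀ g, ok g → ∀ g' ∈ (d g).support, ok g' ∧ deg g' + 1 = deg g) (Q : G → N → N → Prop)
    (hQ : ∀ (f : G → N) g, ok g → (∀ g' ∈ (d g).support,
      Q g' (Finsupp.linearCombination ℚ f (d g')) (f g')) →
      ∃ y, Q g (Finsupp.linearCombination ℚ f (d g)) y) :
    ∃ f : G → N, ∀ g, ok g → Q g (Finsupp.linearCombination ℚ f (d g)) (f g) := by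
  let F : ℕ → G → N := fun n => Nat.rec (fun _ => 0)
    (fun _ f g => Classical.epsilon (Q g (Finsupp.linearCombination ℚ f (d g)))) n
  let f : G → N := fun g => F (deg g + 1) g
  have hf : ∀ g, ok g → f g = Classical.epsilon (Q g (Finsupp.linearCombination ℚ f (d g))) :=
    fun g hg => by
      have : Finsupp.linearCombination ℚ f (d g) = Finsupp.linearCombination ℚ (F (deg g)) (d g) :=
        lc_congr fun g' hg' => by simp only [f, (hd g hg g' hg').2]
      rw [this]
  have key : ∀ n g, ok g → deg g = n → Q g (Finsupp.linearCombination ℚ f (d g)) (f g) := by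
    intro n
    induction n using Nat.strong_induction_on with
    | _ n ih =>
      intro g hg hn
      rw [hf g hg]
      refine Classical.epsilon_spec (hQ f g hg fun g' hg' => ?_)
      obtain ⟨h1, h2⟩ := hd g hg g' hg'
      exact ih (deg g') (by omega) g' h1 rfl
  exact ⟨f, fun g hg => key _ g hg rfl⟩

theorem exists_carried_map (ok : G → Prop) (deg : G → ℕ) (d : G → G →₀ ℚ)
    (hd : ∀ g, ok g → ∀ g' ∈ (d g).support, ok g' ∧ deg g' + 1 = deg g)
    (hdd : ∀ g, ok g → Finsupp.linearCombination ℚ d (d g) = 0)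
    (D : N →ₗ[ℚ] N) (ε : N →ₗ[ℚ] ℚ) (C : G → ℕ → Submodule ℚ N)
    (hC : ∀ g, ok g → ∀ g' ∈ (d g).support, ∀ q, C g' q ≤ C g q)
    (e : G → ℚ) (he : ∀ g, ok g → deg g = 1 → Finsupp.linearCombination ℚ e (d g) = 0)
    (h0 : ∀ g, ok g → deg g = 0 → ∃ x ∈ C g 0, D x = 0 ∧ ε x = e g)
    (hac : ∀ g, ok g → ∀ q, deg g = q + 1 → ∀ x ∈ C g q, D x = 0 → (q = 0 → ε x = 0) →
      ∃ y ∈ C g (q + 1), D y = x) :
    ∃ f : G → N, ∀ g, ok g → f g ∈ C g (deg g) ∧ D (f g) = Finsupp.linearCombination ℚ f (d g) ∧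
      (deg g = 0 → ε (f g) = e g) := by
  refine exists_deg_rec ok deg d hd
    (fun g x y => y ∈ C g (deg g) ∧ D y = x ∧ (deg g = 0 → ε y = e g)) fun f g hg ih => ?_
  rcases hn : deg g with _ | q
  · have : d g = 0 := Finsupp.support_eq_empty.1 (Finset.eq_empty_of_forall_notMem fun g' hg' => by
      have := (hd g hg g' hg').2
      omega)
    obtain ⟨x, h1, h2, h3⟩ := h0 g hg hn
    exact ⟨x, h1, by rw [h2, this, map_zero], fun _ => h3⟩
  · have hq : ∀ g' ∈ (d g).support, deg g' = q := fun g' hg' => by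
      have := (hd g hg g' hg').2
      omega
    obtain ⟨y, h1, h2⟩ := hac g hg q hn (Finsupp.linearCombination ℚ f (d g))
      (lc_mem fun g' hg' => hC g hg g' hg' q (hq g' hg' ▸ (ih g' hg').1))
      (by
        rw [Finsupp.apply_linearCombination,
          lc_congr (f := D ∘ f) (f' := Finsupp.linearCombination ℚ f ∘ d)
            fun g' hg' => (ih g' hg').2.1,
          ← Finsupp.apply_linearCombination, hdd g hg, map_zero])
      (fun h => by
        rw [Finsupp.apply_linearCombination,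
          lc_congr (f := ε ∘ f) (f' := e) fun g' hg' => (ih g' hg').2.2 ((hq g' hg').trans h)]
        exact he g hg (by omega))
    exact ⟨y, h1, h2, fun h => absurd h (by omega)⟩

theorem exists_carried_homotopy (ok : G → Prop) (deg : G → ℕ) (d : G → G →₀ ℚ)
    (hd : ∀ g, ok g → ∀ g' ∈ (d g).support, ok g' ∧ deg g' + 1 = deg g)
    (hdd : ∀ g, ok g → Finsupp.linearCombination ℚ d (d g) = 0)
    (D : N →ₗ[ℚ] N) (ε : N →ₗ[ℚ] ℚ) (C : G → ℕ → Submodule ℚ N)
    (hC : ∀ g, ok g → ∀ g' ∈ (d g).support, ∀ q, C g' q ≤ C g q)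
    (hac : ∀ g, ok g → ∀ x ∈ C g (deg g), D x = 0 → (deg g = 0 → ε x = 0) →
      ∃ y ∈ C g (deg g + 1), D y = x)
    (φ : G → N) (hφ : ∀ g, ok g → φ g ∈ C g (deg g) ∧
      D (φ g) = Finsupp.linearCombination ℚ φ (d g) ∧ (deg g = 0 → ε (φ g) = 0)) :
    ∃ h : G → N, ∀ g, ok g → h g ∈ C g (deg g + 1) ∧
      D (h g) + Finsupp.linearCombination ℚ h (d g) = φ g := by
  refine exists_deg_rec ok deg d hd
    (fun g x y => y ∈ C g (deg g + 1) ∧ D y + x = φ g) fun f g hg ih => ?_
  obtain ⟨y, h1, h2⟩ := hac g hg (φ g - Finsupp.linearCombination ℚ f (d g))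
    (Submodule.sub_mem _ (hφ g hg).1
      (lc_mem fun g' hg' => hC g hg g' hg' _ ((hd g hg g' hg').2 ▸ (ih g' hg').1)))
    (by
      have h3 : Finsupp.linearCombination ℚ φ (d g) = Finsupp.linearCombination ℚ (D ∘ f) (d g) +
          Finsupp.linearCombination ℚ (Finsupp.linearCombination ℚ f ∘ d) (d g) := by
        rw [lc_congr (f' := D ∘ f + Finsupp.linearCombination ℚ f ∘ d)
          fun g' hg' => (ih g' hg').2.symm]
        simp only [Finsupp.linearCombination_apply, Finsupp.sum, Pi.add_apply, smul_add,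
          Finset.sum_add_distrib]
      rw [map_sub, (hφ g hg).2.1, h3, ← Finsupp.apply_linearCombination,
        ← Finsupp.apply_linearCombination, hdd g hg, map_zero, add_zero, sub_self])
    (fun h => by
      have : d g = 0 :=
        Finsupp.support_eq_empty.1 (Finset.eq_empty_of_forall_notMem fun g' hg' => by
          have := (hd g hg g' hg').2
          omega)
      rw [this, map_zero, sub_zero]
      exact (hφ g hg).2.2 h)
  exact ⟨y, h1, by rw [h2, sub_add_cancel]⟩

end Carriers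

end Pool.Agent.Lead.THC
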