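import Pool.Agent.Lead.THC.St0
import Pool.Agent.Lead.THC.Chains

set_option autoImplicit false

open scoped BigOperators

noncomputable section

namespace Pool.Agent.Lead.THC

namespace CellCxAux

open Finset

variable {G G' M : Type} [AddCommGroup M] [Module ℚ M]

theorem ext_apply' (f : G → G' →₀ ℚ) (c : G →₀ M) (g' : G') :
    ext f c g' = ∑ g ∈ c.support, f g g' • c g := by
  simp [ext, Finsupp.sum, tens, Finsupp.finsetSum_apply]

theorem ext_add (f : G → G' →₀ ℚ) (c c' : G →₀ M) : ext f (c + c') = ext f c + ext f c' := by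
  refine Finsupp.sum_add_index' (fun g => ?_) fun g a b => ?_
  · ext g'; simp [tens]
  · ext g'; simp [tens]

theorem ext_zero (f : G → G' →₀ ℚ) : ext f (0 : G →₀ M) = 0 := by simp [ext]

theorem ext_sub (f : G → G' →₀ ℚ) (c c' : G →₀ M) : ext f (c - c') = ext f c - ext f c' := by
  rw [eq_sub_iff_add_eq, ← ext_add, sub_add_cancel]

theorem lc_eq_ext (f : G → G' →₀ ℚ) (u : G →₀ ℚ) :
    Finsupp.linearCombination ℚ f u = ext f u := by
  ext g'
  rw [ext_apply', Finsupp.linearCombination_apply, Finsupp.sum, Finsupp.finsetSum_apply]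
  simp [mul_comm]

theorem mem_support_ext {f : G → G' →₀ ℚ} {c : G →₀ M} {g' : G'} (h : g' ∈ (ext f c).support) :
    ∃ g ∈ c.support, g' ∈ (f g).support := by
  by_contra hcon
  push Not at hcon
  rw [Finsupp.mem_support_iff, ext_apply'] at h
  exact h (sum_eq_zero fun g hg => by rw [Finsupp.notMem_support_iff.1 (hcon g hg), zero_smul])

theorem ext_mem {f : G → G' →₀ ℚ} {c : G →₀ M} {g' : G'} {U : Submodule ℚ M}
    (h : ∀ g ∈ c.support, g' ∈ (f g).support → c g ∈ U) : ext f c g' ∈ U := by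
  rw [ext_apply']
  refine U.sum_mem fun g hg => ?_
  by_cases h0 : f g g' = 0
  · rw [h0, zero_smul]; exact U.zero_mem
  · exact U.smul_mem _ (h g hg (Finsupp.mem_support_iff.2 h0))

theorem sum_anti (D : Finset ℕ) (Ψ : ℕ → ℕ → M) (hΨ : ∀ v ∈ D, ∀ w ∈ D, Ψ v w = Ψ w v) :
    ∑ v ∈ D, ∑ w ∈ D.erase v,
      (sgn v (D.erase v) * sgn w ((D.erase v).erase w)) • Ψ v w = 0 := by
  set F : ℕ → ℕ → M := fun v w =>
    if w ≠ v then (sgn v (D.erase v) * sgn w ((D.erase v).erase w)) • Ψ v w else 0 with hF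
  have e : ∑ v ∈ D, ∑ w ∈ D.erase v,
      (sgn v (D.erase v) * sgn w ((D.erase v).erase w)) • Ψ v w = ∑ v ∈ D, ∑ w ∈ D, F v w := by
    refine sum_congr rfl fun v _ => ?_
    rw [← filter_ne' D v, sum_filter, filter_ne' D v]
  have anti : ∀ v ∈ D, ∀ w ∈ D, F v w = - F w v := by
    intro v hv w hw
    by_cases h : w = v
    · simp [hF, h]
    · simp only [hF, ne_eq, h, not_false_eq_true, if_true, Ne.symm h]
      have h1 := sgn_anticomm h (R := (D.erase v).erase w) (notMem_erase _ _)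
        (fun hh => notMem_erase v D (mem_of_mem_erase hh))
      rw [insert_erase (mem_erase.2 ⟨h, hw⟩)] at h1
      have h2 : insert v ((D.erase v).erase w) = D.erase w := by
        rw [erase_right_comm, insert_erase (mem_erase.2 ⟨Ne.symm h, hv⟩)]
      rw [h2] at h1
      rw [mul_comm, h1, erase_right_comm, hΨ v hv w hw, neg_smul, mul_comm]
  rw [e]
  have h2 : ∑ v ∈ D, ∑ w ∈ D, F v w = - ∑ v ∈ D, ∑ w ∈ D, F v w := by
    conv_rhs => rw [sum_comm]
    rw [← sum_neg_distrib]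
    refine sum_congr rfl fun v hv => ?_
    rw [← sum_neg_distrib]
    exact sum_congr rfl fun w hw => anti v hv w hw
  have h3 : (2 : ℚ) • ∑ v ∈ D, ∑ w ∈ D, F v w = 0 := by
    rw [two_smul]; nth_rewrite 1 [h2]; exact neg_add_cancel _
  exact (smul_eq_zero.1 h3).resolve_left two_ne_zero

variable {r : ℕ} (X : Space r)

theorem mem_rays {S : Finset ℕ} (hS : S ∈ X.T) {v : ℕ} (hv : v ∈ S) :
    v ∈ X.rays ↔ X.lev v = ⊥ := by
  simp only [Space.rays, mem_filter, mem_biUnion, id, and_iff_right_iff_imp]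
  exact fun _ => ⟨S, hS, hv⟩

theorem cell_mono {R S : Finset ℕ} (hR : X.Cell R) (h : R ⊆ S) (hS : S ∈ X.T) : X.Cell S :=
  ⟨hS, fun i => (hR.2 i).imp fun _ hv => ⟨h hv.1, hv.2⟩⟩

theorem cell_erase_ray {S : Finset ℕ} (hS : X.Cell S) {v : ℕ} (hv : v ∈ X.rays) :
    X.Cell (S.erase v) := by
  refine ⟨X.T_down _ hS.1 _ (erase_subset _ _), fun i => ?_⟩
  obtain ⟨w, hw, h⟩ := hS.2 i
  refine ⟨w, mem_erase.2 ⟨?_, hw⟩, h⟩
  rintro rfl
  rw [(mem_filter.1 hv).2] at h
  exact WithBot.bot_ne_coe h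

theorem cell_erase_lev {S : Finset ℕ} (hS : X.Cell S) {a b : ℕ} (hab : a ≠ b) (ha : a ∈ S)
    (hl : X.lev a = X.lev b) : X.Cell (S.erase b) := by
  refine ⟨X.T_down _ hS.1 _ (erase_subset _ _), fun i => ?_⟩
  obtain ⟨w, hw, h⟩ := hS.2 i
  by_cases hwb : w = b
  · exact ⟨a, mem_erase.2 ⟨hab, ha⟩, by rw [hl, ← hwb, h]⟩
  · exact ⟨w, mem_erase.2 ⟨hwb, hw⟩, h⟩

theorem le_card {S : Finset ℕ} (hS : X.Cell S) : r ≤ (S \ X.rays).card := by
  choose f hf1 hf2 using hS.2
  have : (univ : Finset (Fin r)).card ≤ (S \ X.rays).card := by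
    refine card_le_card_of_injOn f (fun i _ => mem_coe.2 (mem_sdiff.2 ⟨hf1 i, fun h => ?_⟩))
      fun i _ j _ h => ?_
    · have := (mem_filter.1 h).2
      rw [hf2] at this
      exact WithBot.coe_ne_bot this
    · have := hf2 i
      rw [h, hf2] at this
      exact (WithBot.coe_injective this).symm
  simpa using this

theorem COk.sub {X : Space r} {g : Finset ℕ × Finset ℕ} (hg : X.COk g) : g.2 ⊆ g.1 :=
  hg.2.trans inter_subset_left

theorem COk.ray {X : Space r} {g : Finset ℕ × Finset ℕ} (hg : X.COk g) : g.2 ⊆ X.rays :=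
  hg.2.trans inter_subset_right

theorem card_eq {g : Finset ℕ × Finset ℕ} (hg : X.COk g) : (g.1 \ g.2).card = X.cdeg g + r := by
  have h1 := (le_card X hg.1).trans (card_le_card (sdiff_subset_sdiff Subset.rfl (COk.ray hg)))
  rw [Space.cdeg, ← card_sdiff_of_subset (COk.sub hg)]
  omega

theorem erase_sdiff' (S ρ : Finset ℕ) (v : ℕ) : S.erase v \ ρ = (S \ ρ).erase v := by
  ext x; simp only [mem_sdiff, mem_erase]; tauto

theorem sdiff_insert' (S ρ : Finset ℕ) (v : ℕ) : S \ insert v ρ = (S \ ρ).erase v :=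
  sdiff_insert S ρ v

theorem cok_erase {S ρ : Finset ℕ} (h : X.COk (S, ρ)) {v : ℕ} (hv : v ∉ ρ)
    (hc : X.Cell (S.erase v)) : X.COk (S.erase v, ρ) :=
  ⟨hc, fun _ hx => mem_inter.2 ⟨mem_erase.2 ⟨fun e => hv (e ▸ hx), COk.sub h hx⟩, COk.ray h hx⟩⟩

open Classical in
/-- pointwise formula for the boundary -/
theorem ext_cbd_apply {c : Finset ℕ × Finset ℕ →₀ M} (hc : ∀ g ∈ c.support, X.COk g)
    (R σ : Finset ℕ) :
    ext X.cbd c (R, σ) =
      (if X.Cell R then ∑ v ∈ X.T.biUnion id \ (R ∪ σ), sgn v (R \ σ) • c (insert v R, σ) else 0) -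
        ∑ v ∈ σ ∩ R ∩ X.rays, sgn v (R \ σ) • c (R, σ.erase v) := by
  have key : ∀ (g : Finset ℕ × Finset ℕ) (ω : M), g.1 ⊆ X.T.biUnion id → X.cbd g (R, σ) • ω =
      (if X.Cell R then ∑ v ∈ X.T.biUnion id \ (R ∪ σ),
        sgn v (R \ σ) • (Finsupp.single g ω) (insert v R, σ) else 0) -
        ∑ v ∈ σ ∩ R ∩ X.rays, sgn v (R \ σ) • (Finsupp.single g ω) (R, σ.erase v) := by
    rintro ⟨S, ρ⟩ ω hS
    simp only [Space.cbd, smul_sub, sum_sub_distrib, Finsupp.sub_apply, Finsupp.finsetSum_apply,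
      sub_smul, sum_smul, Finsupp.smul_apply, smul_eq_mul]
    congr 1
    · split_ifs with hR
      · refine sum_bij_ne_zero (fun v _ _ => v) (fun v hv h => ?_) (fun _ _ _ _ _ _ h => h)
          (fun v hv h => ?_) fun v hv h => ?_
        · have h1 : (S.erase v, ρ) = (R, σ) := by
            by_contra hne
            apply h
            split_ifs <;> simp [hne]
          obtain ⟨rfl, rfl⟩ := Prod.mk.inj h1
          obtain ⟨a, b⟩ := mem_sdiff.1 hv
          exact mem_sdiff.2 ⟨hS a, by simp [b]⟩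
        · have h1 : (S, ρ) = (insert v R, σ) := by
            by_contra hne
            apply h
            simp [hne]
          obtain ⟨rfl, rfl⟩ := Prod.mk.inj h1
          have hv' : v ∉ R ∧ v ∉ ρ := by simpa using (mem_sdiff.1 hv).2
          refine ⟨v, mem_sdiff.2 ⟨mem_insert_self _ _, hv'.2⟩, ?_, rfl⟩
          rw [← erase_sdiff', erase_insert hv'.1, if_pos hR]
          simpa using h
        · have h1 : (S.erase v, ρ) = (R, σ) := by
            by_contra hne
            apply h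
            split_ifs <;> simp [hne]
          obtain ⟨rfl, rfl⟩ := Prod.mk.inj h1
          rw [if_pos hR, insert_erase (mem_sdiff.1 hv).1, erase_sdiff']
          simp
      · refine sum_eq_zero fun v _ => ?_
        split_ifs with h
        · rw [Finsupp.single_eq_of_ne, mul_zero, zero_smul]
          intro e
          exact hR ((Prod.mk.inj e).1 ▸ h)
        · simp
    · refine sum_bij_ne_zero (fun v _ _ => v) (fun v hv h => ?_) (fun _ _ _ _ _ _ h => h)
          (fun v hv h => ?_) fun v hv h => ?_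
      · have h0 : v ∈ X.rays := by
          by_contra hne
          apply h
          simp [hne]
        have h1 : (S, insert v ρ) = (R, σ) := by
          by_contra hne
          apply h
          simp [h0, hne]
        obtain ⟨rfl, rfl⟩ := Prod.mk.inj h1
        exact mem_inter.2 ⟨mem_inter.2 ⟨mem_insert_self _ _, (mem_sdiff.1 hv).1⟩, h0⟩
      · have h1 : (S, ρ) = (R, σ.erase v) := by
          by_contra hne
          apply h
          simp [hne]
        obtain ⟨rfl, rfl⟩ := Prod.mk.inj h1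
        obtain ⟨h2, h3⟩ := mem_inter.1 hv
        obtain ⟨h2, h4⟩ := mem_inter.1 h2
        refine ⟨v, mem_sdiff.2 ⟨h4, notMem_erase _ _⟩, ?_, rfl⟩
        rw [← sdiff_insert', insert_erase h2, if_pos h3]
        simpa using h
      · have h0 : v ∈ X.rays := by
          by_contra hne
          apply h
          simp [hne]
        have h1 : (S, insert v ρ) = (R, σ) := by
          by_contra hne
          apply h
          simp [h0, hne]
        obtain ⟨rfl, rfl⟩ := Prod.mk.inj h1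
        rw [if_pos h0, erase_insert (mem_sdiff.1 hv).2, sdiff_insert']
        simp
  rw [ext_apply', sum_congr rfl fun g hg => key g (c g)
    (fun x hx => mem_biUnion.2 ⟨g.1, (hc g hg).1.1, hx⟩), sum_sub_distrib]
  have e : ∀ g', ∑ g ∈ c.support, (Finsupp.single g (c g)) g' = c g' := fun g' => by
    rw [← Finsupp.finsetSum_apply]
    exact congrArg (fun u => u g') c.sum_single
  congr 1
  · split_ifs
    · rw [sum_comm]; simp only [← smul_sum, e]
    · simp
  · rw [sum_comm]; simp only [← smul_sum, e]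

end CellCxAux

namespace Space

open Finset CellCxAux

variable {r : ℕ} (X : Space r)

theorem cbd_support {g : Finset ℕ × Finset ℕ} (hg : X.COk g) :
    ∀ g' ∈ (X.cbd g).support, X.COk g' ∧ X.cdeg g' + 1 = X.cdeg g ∧ g'.1 ⊆ g.1 ∧ g.2 ⊆ g'.2 := by
  classical
  intro g' hg'
  obtain ⟨v, hv, h⟩ := Finsupp.mem_support_finsetSum g' hg'
  have hc := card_eq X hg
  have hc2 := card_erase_add_one hv
  obtain ⟨hv1, hv2⟩ := mem_sdiff.1 hv
  rcases mem_union.1 (Finsupp.support_sub (Finsupp.support_smul h)) with h | h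
  · split_ifs at h with h1
    · obtain rfl := mem_singleton.1 (Finsupp.support_single_subset h)
      have ok := cok_erase X (S := g.1) (ρ := g.2) hg hv2 h1
      have := card_eq X ok
      dsimp only at this
      rw [erase_sdiff'] at this
      exact ⟨ok, by omega, erase_subset _ _, Subset.rfl⟩
    · simp at h
  · split_ifs at h with h1
    · obtain rfl := mem_singleton.1 (Finsupp.support_single_subset h)
      have ok : X.COk (g.1, insert v g.2) := ⟨hg.1, insert_subset (mem_inter.2 ⟨hv1, h1⟩) hg.2⟩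
      have := card_eq X ok
      dsimp only at this
      rw [sdiff_insert'] at this
      exact ⟨ok, by omega, Subset.rfl, subset_insert _ _⟩
    · simp at h

theorem cbd_cbd {g : Finset ℕ × Finset ℕ} (hg : X.COk g) :
    Finsupp.linearCombination ℚ X.cbd (X.cbd g) = 0 := by
  classical
  obtain ⟨S, ρ⟩ := g
  let Ψ : ℕ → ℕ → (Finset ℕ × Finset ℕ →₀ ℚ) := fun v w =>
    (if X.Cell ((S.erase v).erase w) then Finsupp.single ((S.erase v).erase w, ρ) 1 else 0) -
    (if X.Cell (S.erase v) ∧ w ∈ X.rays then Finsupp.single (S.erase v, insert w ρ) 1 else 0) -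
    (if X.Cell (S.erase w) ∧ v ∈ X.rays then Finsupp.single (S.erase w, insert v ρ) 1 else 0) +
    (if v ∈ X.rays ∧ w ∈ X.rays then Finsupp.single (S, insert w (insert v ρ)) 1 else 0)
  rw [← sum_anti (S \ ρ) Ψ fun v _ w _ => by
    simp only [Ψ]
    rw [erase_right_comm, insert_comm w v ρ, sub_right_comm]
    simp only [and_comm (a := v ∈ X.rays)]]
  rw [cbd, map_sum]
  refine sum_congr rfl fun v _ => ?_
  rw [map_smul, map_sub, apply_ite (Finsupp.linearCombination ℚ X.cbd),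
    apply_ite (Finsupp.linearCombination ℚ X.cbd), map_zero, Finsupp.linearCombination_single,
    Finsupp.linearCombination_single, one_smul, one_smul]
  simp only [mul_smul, ← smul_sum]
  congr 1
  simp only [cbd, erase_sdiff', sdiff_insert']
  have im : ∀ w, X.Cell ((S.erase v).erase w) → X.Cell (S.erase v) := fun w h =>
    cell_mono X h (erase_subset _ _) (X.T_down _ hg.1.1 _ (erase_subset _ _))
  by_cases h1 : X.Cell (S.erase v) <;> by_cases h2 : v ∈ X.rays <;>
    simp only [h1, h2, if_true, if_false, Ψ, true_and, false_and, and_true, and_false, sub_zero,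
      add_zero, zero_sub, ← sum_sub_distrib, ← sum_neg_distrib, ← smul_sub, ← smul_neg]
  · exact sum_congr rfl fun w _ => by congr 1; abel
  · exact sum_congr rfl fun w _ => by rw [if_neg fun h => h1 (im w h)]; congr 1; abel
  · exact (sum_eq_zero fun w _ => by rw [if_neg fun h => h1 (im w h), smul_zero]).symm

theorem aug_cbd {g : Finset ℕ × Finset ℕ} (hg : X.COk g) (h1 : X.cdeg g = 1) :
    aug (X.cbd g) = 0 := by
  classical
  obtain ⟨S, ρ⟩ := g
  have hc := card_eq X hg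
  rw [h1] at hc
  dsimp only at hc
  have a1 : ∀ g : Finset ℕ × Finset ℕ, aug (Finsupp.single g (1 : ℚ)) = 1 := fun g => by
    simp [aug]
  simp only [cbd, map_sum, map_smul, map_sub, apply_ite aug, a1, map_zero, smul_eq_mul]
  by_cases hd : Disjoint (S \ ρ) X.rays
  · have hm : ∀ R ⊆ S, X.st0.Meets (R \ ρ) ↔ X.Cell R := by
      intro R hR
      rw [meets_st0]
      refine ⟨fun h => ⟨X.T_down _ hg.1.1 _ hR, fun i => (h i).imp fun _ hv =>
        ⟨(mem_sdiff.1 hv.1).1, hv.2⟩⟩, fun h i => (h.2 i).imp fun v hv =>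
        ⟨mem_sdiff.2 ⟨hv.1, fun hρ => ?_⟩, hv.2⟩⟩
      have := (mem_filter.1 (COk.ray hg hρ)).2
      rw [hv.2] at this
      exact WithBot.coe_ne_bot this
    refine Eq.trans (sum_congr rfl fun v hv => ?_) (X.aug_st0 (S \ ρ)
      (X.T_down _ hg.1.1 _ sdiff_subset) hd ((hm S Subset.rfl).2 hg.1) (by omega))
    rw [if_neg (disjoint_left.1 hd hv), ← erase_sdiff', hm _ (erase_subset _ _)]
    split_ifs <;> simp [st0]
  · obtain ⟨v0, h0, h0'⟩ := not_disjoint_iff.1 hd
    refine sum_eq_zero fun v hv => ?_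
    by_cases h2 : v ∈ X.rays
    · rw [if_pos h2, if_pos (cell_erase_ray X hg.1 h2), sub_self, mul_zero]
    · rw [if_neg h2, if_neg, sub_self, mul_zero]
      intro h
      have h3 := le_card X h
      have h4 : S.erase v \ X.rays ⊆ ((S \ ρ).erase v).erase v0 := by
        intro x hx
        obtain ⟨h5, h6⟩ := mem_sdiff.1 hx
        exact mem_erase.2 ⟨fun e => h6 (e ▸ h0'), mem_erase.2 ⟨(mem_erase.1 h5).1,
          mem_sdiff.2 ⟨(mem_erase.1 h5).2, fun hρ => h6 (COk.ray hg hρ)⟩⟩⟩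
      have h5 := card_le_card h4
      have h6 := card_erase_add_one hv
      have h7 := card_erase_add_one (mem_erase.2 ⟨fun e : v0 = v => h2 (e ▸ h0'), h0⟩)
      omega

end Space

namespace CellCxAux

open Finset

variable {M : Type} [AddCommGroup M] [Module ℚ M] {r : ℕ} (X : Space r)

theorem ext_cbd_cbd {y : Finset ℕ × Finset ℕ →₀ M} (hy : ∀ g ∈ y.support, X.COk g) :
    ext X.cbd (ext X.cbd y) = 0 := by
  rw [ext_ext, ext_congr (f' := fun _ => 0) fun g hg => by
    rw [← lc_eq_ext]; exact X.cbd_cbd (hy g hg)]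
  ext g
  simp [ext_apply']

theorem sgn_smul_sgn (v : ℕ) (R : Finset ℕ) (ω : M) : sgn v R • sgn v R • ω = ω := by
  rw [smul_smul, sgn_sq, one_smul]

/-- the lift along a ray -/
theorem ray_lift {q : ℕ} (c : Finset ℕ × Finset ℕ →₀ M)
    (hc : ∀ g ∈ c.support, X.COk g ∧ X.cdeg g = q) (v : ℕ) :
    ∃ y : Finset ℕ × Finset ℕ →₀ M,
      (∀ g ∈ y.support, X.COk g ∧ X.cdeg g = q + 1 ∧ v ∉ g.2 ∧ (g.1, insert v g.2) ∈ c.support) ∧
      (∀ g : Finset ℕ × Finset ℕ, ∃ t : ℚ, y g = t • c (g.1, insert v g.2)) ∧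
      ∀ R σ, v ∈ σ → ext X.cbd y (R, σ) = c (R, σ) := by
  classical
  let y : Finset ℕ × Finset ℕ →₀ M := Finsupp.onFinset (c.support.image fun g => (g.1, g.2.erase v))
    (fun g => if v ∈ g.2 then 0 else (- sgn v (g.1 \ insert v g.2)) • c (g.1, insert v g.2))
    (fun g hg => by
      split_ifs at hg with h
      · exact absurd rfl hg
      · exact mem_image.2 ⟨(g.1, insert v g.2),
          Finsupp.mem_support_iff.2 (right_ne_zero_of_smul hg), by simp [erase_insert h]⟩)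
  have hy : ∀ g, y g =
      if v ∈ g.2 then 0 else (- sgn v (g.1 \ insert v g.2)) • c (g.1, insert v g.2) := fun g => rfl
  have sup : ∀ g ∈ y.support,
      X.COk g ∧ X.cdeg g = q + 1 ∧ v ∉ g.2 ∧ (g.1, insert v g.2) ∈ c.support := by
    intro g hg
    rw [Finsupp.mem_support_iff, hy] at hg
    split_ifs at hg with h
    · exact absurd rfl hg
    have hm := Finsupp.mem_support_iff.2 (right_ne_zero_of_smul hg)
    obtain ⟨h1, h2⟩ := hc _ hm
    have ok : X.COk g := ⟨h1.1, (subset_insert _ _).trans h1.2⟩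
    have a := card_eq X h1
    have b := card_eq X ok
    have d := card_erase_add_one (mem_sdiff.2 ⟨COk.sub h1 (mem_insert_self _ _), h⟩ : v ∈ g.1 \ g.2)
    dsimp only at a
    rw [sdiff_insert'] at a
    exact ⟨ok, by omega, h, hm⟩
  refine ⟨y, sup, fun g => ?_, fun R σ hv => ?_⟩
  · rw [hy]; split_ifs
    · exact ⟨0, by simp⟩
    · exact ⟨_, rfl⟩
  · rw [ext_cbd_apply X fun g hg => (sup g hg).1]
    have z : ∀ S, y (S, σ) = 0 := fun S => by rw [hy, if_pos hv]
    simp only [z, smul_zero, sum_const_zero, ite_self, zero_sub]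
    rw [sum_eq_single v]
    · rw [hy, if_neg (notMem_erase _ _), insert_erase hv, neg_smul, smul_neg, neg_neg, sgn_smul_sgn]
    · intro w _ hw
      rw [hy, if_pos (mem_erase.2 ⟨Ne.symm hw, hv⟩), smul_zero]
    · intro h
      have : c (R, σ) = 0 := by
        by_contra h0
        have := (hc _ (Finsupp.mem_support_iff.2 h0)).1
        exact h (mem_inter.2 ⟨mem_inter.2 ⟨hv, COk.sub this hv⟩, COk.ray this hv⟩)
      rw [hy, if_neg (notMem_erase _ _), insert_erase hv, this, smul_zero, smul_zero]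

/-- boundary at a face at infinity along `v` of a chain with no part at infinity along `v` -/
theorem ray_cond {c : Finset ℕ × Finset ℕ →₀ M} (hc : ∀ g ∈ c.support, X.COk g) {v : ℕ}
    (h0 : ∀ R σ, v ∈ σ → c (R, σ) = 0) {R σ : Finset ℕ} (hR : v ∈ R) (hr : v ∈ X.rays)
    (hσ : v ∉ σ) : c (R, σ) = (- sgn v (R \ insert v σ)) • ext X.cbd c (R, insert v σ) := by
  classical
  rw [ext_cbd_apply X hc]
  simp only [fun S => h0 S (insert v σ) (mem_insert_self _ _), smul_zero, sum_const_zero, ite_self,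
    zero_sub]
  rw [sum_eq_single v]
  · rw [erase_insert hσ, neg_smul, smul_neg, neg_neg, sgn_smul_sgn]
  · intro w _ hw
    rw [h0 _ _ (mem_erase.2 ⟨Ne.symm hw, mem_insert_self _ _⟩), smul_zero]
  · intro h
    exact absurd (mem_inter.2 ⟨mem_inter.2 ⟨mem_insert_self _ _, hR⟩, hr⟩) h

theorem exists_collapse {S ρ : Finset ℕ} (h : X.COk (S, ρ)) (hd : X.cdeg (S, ρ) ≠ 0) :
    (∃ v ∈ S \ ρ, v ∈ X.rays) ∨
      ∃ a ∈ S, ∃ b ∈ S, a ≠ b ∧ a ∉ X.rays ∧ b ∉ X.rays ∧ X.lev a = X.lev b := by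
  classical
  by_cases h1 : ∃ v ∈ S \ ρ, v ∈ X.rays
  · exact Or.inl h1
  right
  push Not at h1
  have hc := card_eq X h
  obtain ⟨a, ha, b, hb, hab, hl⟩ := exists_ne_map_eq_of_card_lt_of_maps_to
    (s := S \ ρ) (t := (univ : Finset (Fin r)).image fun i : Fin r => (i : WithBot (Fin r)))
    (f := X.lev) (by
      refine lt_of_le_of_lt card_image_le ?_
      rw [card_univ, Fintype.card_fin]
      dsimp only at hc
      omega)
    (fun v hv => by
      have : X.lev v ≠ ⊥ := fun e => h1 v hv ((mem_rays X h.1.1 (mem_sdiff.1 hv).1).2 e)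
      obtain ⟨i, hi⟩ := WithBot.ne_bot_iff_exists.1 this
      exact mem_coe.2 (mem_image.2 ⟨i, mem_univ _, hi⟩))
  exact ⟨a, (mem_sdiff.1 ha).1, b, (mem_sdiff.1 hb).1, hab, h1 a ha, h1 b hb, hl⟩

/-- one elementary collapse -/
theorem collapse {S ρ : Finset ℕ} (h : X.COk (S, ρ)) (hd : X.cdeg (S, ρ) ≠ 0) :
    ∃ b ∈ S \ ρ, X.Cell (S.erase b) ∧ ∀ (q : ℕ) (u : Finset ℕ × Finset ℕ →₀ ℚ),
      (∀ g ∈ u.support, X.COk g ∧ X.cdeg g = q ∧ g.1 ⊆ S ∧ ρ ⊆ g.2) → ext X.cbd u = 0 →
      ∃ y : Finset ℕ × Finset ℕ →₀ ℚ,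
        (∀ g ∈ y.support, X.COk g ∧ X.cdeg g = q + 1 ∧ g.1 ⊆ S ∧ ρ ⊆ g.2) ∧
        ∀ g : Finset ℕ × Finset ℕ, b ∈ g.1 → (u - ext X.cbd y) g = 0 := by
  classical
  have okd : ∀ (u y : Finset ℕ × Finset ℕ →₀ ℚ), (∀ g ∈ u.support, X.COk g) →
      (∀ g ∈ y.support, X.COk g) → ∀ g ∈ (u - ext X.cbd y).support, X.COk g := by
    intro u y hu hy g hg
    rcases mem_union.1 (Finsupp.support_sub hg) with h | h
    · exact hu g h
    · obtain ⟨g', h1, h2⟩ := mem_support_ext h
      exact (X.cbd_support (hy g' h1) g h2).1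
  rcases exists_collapse X h hd with ⟨v, hv, hr⟩ | ⟨a, ha, b, hb, hab, har, hbr, hl⟩
  · refine ⟨v, hv, cell_erase_ray X h.1 hr, fun q u hu h0 => ?_⟩
    obtain ⟨y, h1, -, h3⟩ := ray_lift X u (fun g hg => ⟨(hu g hg).1, (hu g hg).2.1⟩) v
    refine ⟨y, fun g hg => ?_, fun g hg => ?_⟩
    · obtain ⟨a, b, -, d⟩ := h1 g hg
      exact ⟨a, b, (hu _ d).2.2.1,
        (subset_insert_iff_of_notMem (mem_sdiff.1 hv).2).1 (hu _ d).2.2.2⟩
    · have z : ∀ R σ, v ∈ σ → (u - ext X.cbd y) (R, σ) = 0 := fun R σ hσ => by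
        rw [Finsupp.sub_apply, h3 R σ hσ, sub_self]
      by_cases hσ : v ∈ g.2
      · exact z _ _ hσ
      · have := ray_cond X (okd u y (fun g hg => (hu g hg).1) fun g hg => (h1 g hg).1) z hg hr hσ
        rw [ext_sub, h0, ext_cbd_cbd X fun g hg => (h1 g hg).1] at this
        simpa using this
  · refine ⟨b, mem_sdiff.2 ⟨hb, fun hh => hbr (COk.ray h hh)⟩, cell_erase_lev X h.1 hab ha hl,
      fun q u hu h0 => ?_⟩
    let y : Finset ℕ × Finset ℕ →₀ ℚ := Finsupp.onFinset
      (u.support.image fun g => (insert a g.1, g.2))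
      (fun g => if a ∈ g.1 ∧ b ∈ g.1 then sgn a (g.1.erase a \ g.2) • u (g.1.erase a, g.2) else 0)
      (fun g hg => by
        split_ifs at hg with h
        · exact mem_image.2 ⟨(g.1.erase a, g.2),
            Finsupp.mem_support_iff.2 (right_ne_zero_of_smul hg), by simp [insert_erase h.1]⟩
        · exact absurd rfl hg)
    have hy : ∀ g, y g = if a ∈ g.1 ∧ b ∈ g.1 then
        sgn a (g.1.erase a \ g.2) • u (g.1.erase a, g.2) else 0 := fun g => rfl
    have sup : ∀ g ∈ y.support, X.COk g ∧ X.cdeg g = q + 1 ∧ g.1 ⊆ S ∧ ρ ⊆ g.2 := by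
      intro g hg
      rw [Finsupp.mem_support_iff, hy] at hg
      split_ifs at hg with hh
      · obtain ⟨h1, h2, h3, h4⟩ := hu _ (Finsupp.mem_support_iff.2 (right_ne_zero_of_smul hg))
        have hS : g.1 ⊆ S := by
          rw [← insert_erase hh.1]; exact insert_subset ha h3
        have ok : X.COk g := ⟨cell_mono X h1.1 (erase_subset _ _) (X.T_down _ h.1.1 _ hS),
          h1.2.trans (inter_subset_inter (erase_subset _ _) Subset.rfl)⟩
        have c1 := card_eq X h1
        have c2 := card_eq X ok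
        have c3 := card_erase_add_one
          (mem_sdiff.2 ⟨hh.1, fun e => har (COk.ray ok e)⟩ : a ∈ g.1 \ g.2)
        dsimp only at c1
        rw [erase_sdiff'] at c1
        exact ⟨ok, by omega, hS, h4⟩
      · exact absurd rfl hg
    have ok' := okd u y (fun g hg => (hu g hg).1) fun g hg => (sup g hg).1
    have haU : a ∈ X.T.biUnion id := mem_biUnion.2 ⟨S, h.1.1, ha⟩
    have z : ∀ R σ, b ∈ R → a ∉ R → (u - ext X.cbd y) (R, σ) = 0 := by
      intro R σ hbR haR
      by_contra hne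
      have ok := ok' _ (Finsupp.mem_support_iff.2 hne)
      apply hne
      rw [Finsupp.sub_apply, ext_cbd_apply X fun g hg => (sup g hg).1, if_pos ok.1,
        sum_eq_single a, sum_eq_zero, sub_zero]
      · rw [hy, if_pos ⟨mem_insert_self _ _, mem_insert_of_mem hbR⟩, erase_insert haR,
          sgn_smul_sgn, sub_self]
      · intro w _
        rw [hy, if_neg fun hh => haR hh.1, smul_zero]
      · intro w _ hw
        rw [hy, if_neg fun hh => haR ((mem_insert.1 hh.1).resolve_left (Ne.symm hw)), smul_zero]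
      · intro hh
        exact absurd (mem_sdiff.2 ⟨haU, fun e => (mem_union.1 e).elim haR
          fun e => har (COk.ray ok e)⟩) hh
    refine ⟨y, sup, fun g hg => ?_⟩
    by_cases haR : a ∈ g.1
    · by_contra hne
      have ok := ok' _ (Finsupp.mem_support_iff.2 hne)
      have e := ext_cbd_apply X ok' (g.1.erase a) g.2
      have hb' : b ∈ g.1.erase a := mem_erase.2 ⟨hab.symm, hg⟩
      rw [ext_sub, h0, ext_cbd_cbd X fun g hg => (sup g hg).1,
        if_pos (cell_erase_lev X ok.1 hab.symm hg hl.symm), sum_eq_single a, sum_eq_zero,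
        insert_erase haR] at e
      · apply hne
        simp only [sub_zero, Finsupp.zero_apply, Prod.mk.eta] at e
        rw [← sgn_smul_sgn a (g.1.erase a \ g.2) ((u - ext X.cbd y) g), ← e, smul_zero]
      · intro w _
        rw [z _ _ hb' (notMem_erase _ _), smul_zero]
      · intro w _ hw
        rw [z _ _ (mem_insert_of_mem hb') fun hh =>
          notMem_erase _ _ ((mem_insert.1 hh).resolve_left (Ne.symm hw)), smul_zero]
      · intro hh
        exact absurd (mem_sdiff.2 ⟨haU, fun e => (mem_union.1 e).elim (notMem_erase _ _)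
          fun e => har (COk.ray ok e)⟩) hh
    · exact z _ _ hg haR

theorem cdeg_erase {S ρ : Finset ℕ} (h : X.COk (S, ρ)) {b : ℕ} (hb : b ∈ S \ ρ)
    (hc : X.Cell (S.erase b)) : X.cdeg (S.erase b, ρ) + 1 = X.cdeg (S, ρ) := by
  have c1 := card_eq X h
  have c2 := card_eq X (cok_erase X h (mem_sdiff.1 hb).2 hc)
  have c3 := card_erase_add_one hb
  dsimp only at c1 c2
  rw [erase_sdiff'] at c2
  omega

theorem null_ext {d : Finset ℕ × Finset ℕ →₀ A} (hd : ∀ g ∈ d.support, X.COk g)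
    (h : ∀ g, d g ∈ X.I g.1 (g.2 : Set ℕ)) (g' : Finset ℕ × Finset ℕ) :
    ext X.cbd d g' ∈ X.I g'.1 (g'.2 : Set ℕ) :=
  ext_mem fun g hg hg' => by
    obtain ⟨h1, -, h2, h3⟩ := X.cbd_support (hd g hg) g' hg'
    exact X.I_mono h1.1 h2 (hd g hg).1.1 (coe_subset.2 h3) (h g)

theorem ext_chain {s q : ℕ} {y : Finset ℕ × Finset ℕ →₀ A}
    (hy : ∀ g ∈ y.support, X.COk g ∧ X.cdeg g = q + 1 ∧ y g ∈ X.K s g.1) :
    ∀ g ∈ (ext X.cbd y).support, X.COk g ∧ X.cdeg g = q ∧ ext X.cbd y g ∈ X.K s g.1 := by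
  intro g' hg'
  obtain ⟨g, h1, h2⟩ := mem_support_ext hg'
  obtain ⟨a, b, -, -⟩ := X.cbd_support (hy g h1).1 g' h2
  refine ⟨a, by have := (hy g h1).2.1; omega, ext_mem fun g hg hg' => ?_⟩
  exact X.K_anti (X.cbd_support (hy g hg).1 _ hg').2.2.1 s (hy g hg).2.2

theorem mem_K_of {s : ℕ} {c : Finset ℕ × Finset ℕ →₀ A} (h : ∀ g ∈ c.support, c g ∈ X.K s g.1)
    (g : Finset ℕ × Finset ℕ) : c g ∈ X.K s g.1 := by
  by_cases hg : g ∈ c.support
  · exact h g hg
  · rw [Finsupp.notMem_support_iff.1 hg]; exact Submodule.zero_mem _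

theorem kill_step {s q : ℕ} {W : Finset ℕ} (hW : W ⊆ X.rays) (v : ℕ)
    {c : Finset ℕ × Finset ℕ →₀ A}
    (hc : ∀ g ∈ c.support, X.COk g ∧ X.cdeg g = q ∧ c g ∈ X.K s g.1 ∧ Disjoint g.2 W)
    (hz : ∀ g, ext X.cbd c g ∈ X.I g.1 (g.2 : Set ℕ)) :
    ∃ y c' : Finset ℕ × Finset ℕ →₀ A,
      (∀ g ∈ y.support, X.COk g ∧ X.cdeg g = q + 1 ∧ y g ∈ X.K s g.1) ∧
      (∀ g ∈ c'.support, X.COk g ∧ X.cdeg g = q ∧ c' g ∈ X.K s g.1 ∧ Disjoint g.2 (insert v W)) ∧
      ∀ g, (c - c' - ext X.cbd y) g ∈ X.I g.1 (g.2 : Set ℕ) := by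
  classical
  let e : ℕ → E := fun a => Finsupp.single a 1
  have dual : ∀ S : Finset ℕ, ∃ f : ℕ → Module.Dual ℚ E, S ∈ X.T →
      (∀ a, X.B S ≤ LinearMap.ker (f a)) ∧
      ∀ a ∈ S, ∀ a' ∈ S, f a (e a') = if a = a' then 1 else 0 := by
    intro S
    by_cases hS : S ∈ X.T
    · obtain ⟨f, hf⟩ := X.exists_dual hS (L := S) (e := e)
        (fun a ha => Finsupp.single_mem_supported ℚ _ ha)
        ((Finsupp.basisSingleOne (R := ℚ) (ι := ℕ)).linearIndependent.comp _ Subtype.val_injective)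
      exact ⟨f, fun _ => hf⟩
    · exact ⟨0, fun h => absurd h hS⟩
  choose f hf using dual
  have c0 : ∀ w ∈ W, ∀ R σ, w ∈ σ → c (R, σ) = 0 := fun w hw R σ hσ => by
    by_contra h
    exact disjoint_left.1 (hc _ (Finsupp.mem_support_iff.2 h)).2.2.2 hσ hw
  let c2 : Finset ℕ × Finset ℕ →₀ A := Finsupp.onFinset c.support
    (fun g => proj e (f g.1) (W ∩ g.1) (c g))
    (fun g hg => Finsupp.mem_support_iff.2 fun h => hg (by rw [h, map_zero]))
  have hc2 : ∀ g, c2 g = proj e (f g.1) (W ∩ g.1) (c g) := fun g => rfl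
  have s2 : c2.support ⊆ c.support := Finsupp.support_onFinset_subset
  have dl : ∀ S ∈ X.T, ∀ a ∈ W ∩ S, ∀ a' ∈ W ∩ S, f S a (e a') = if a = a' then 1 else 0 :=
    fun S hS a ha a' ha' => (hf S hS).2 a (mem_inter.1 ha).2 a' (mem_inter.1 ha').2
  have K2 : ∀ g, c2 g ∈ X.K s g.1 := fun g =>
    X.proj_mem_K _ (fun a ha => Finsupp.single_mem_supported ℚ _ (mem_inter.1 ha).2)
      (mem_K_of X (fun g hg => (hc g hg).2.2.1) g)
  have I2 : ∀ g, (c - c2) g ∈ X.I g.1 (g.2 : Set ℕ) := by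
    intro g
    rw [Finsupp.sub_apply, hc2]
    by_cases hg : g ∈ c.support
    · obtain ⟨ok, -, -, hd⟩ := hc g hg
      refine X.sub_proj_mem_I (dl _ ok.1.1) (fun a ha => sup_le ((hf _ ok.1.1).1 a) ?_)
        fun a ha => ?_
      · rw [supp, Finsupp.supported_eq_span_single, Submodule.span_le]
        rintro _ ⟨x, hx, rfl⟩
        have := (hf _ ok.1.1).2 a (mem_inter.1 ha).2 x (COk.sub ok hx)
        rw [if_neg fun e0 : a = x => disjoint_left.1 hd hx (e0 ▸ (mem_inter.1 ha).1)] at this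
        exact this
      · obtain ⟨haW, haS⟩ := mem_inter.1 ha
        refine X.io_mul_mem_I_of_insert ?_
        have := ray_cond X (fun g hg => (hc g hg).1) (c0 a haW) haS (hW haW)
          (disjoint_right.1 hd haW)
        rw [this, ← coe_insert]
        exact Submodule.smul_mem _ _ (hz (g.1, insert a g.2))
    · rw [Finsupp.notMem_support_iff.1 hg, map_zero, sub_zero]; exact Submodule.zero_mem _
  have c20 : ∀ w ∈ W, ∀ R σ, w ∈ σ → c2 (R, σ) = 0 := fun w hw R σ hσ => by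
    rw [hc2, c0 w hw R σ hσ, map_zero]
  obtain ⟨y, h1, h2, h3⟩ := ray_lift X c2 (fun g hg => ⟨(hc g (s2 hg)).1, (hc g (s2 hg)).2.1⟩) v
  have hy : ∀ g ∈ y.support, X.COk g ∧ X.cdeg g = q + 1 ∧ y g ∈ X.K s g.1 := fun g hg => by
    obtain ⟨t, ht⟩ := h2 g
    exact ⟨(h1 g hg).1, (h1 g hg).2.1, ht ▸ Submodule.smul_mem _ _ (K2 (g.1, insert v g.2))⟩
  have hb := ext_chain X hy
  refine ⟨y, (c2 - ext X.cbd y).filter fun g => Disjoint g.2 (insert v W), hy, fun g hg => ?_,
    fun g => ?_⟩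
  · rw [Finsupp.support_filter, mem_filter] at hg
    rw [Finsupp.filter_apply, if_pos hg.2, Finsupp.sub_apply]
    have hK := Submodule.sub_mem _ (K2 g) (mem_K_of X (fun g hg => (hb g hg).2.2) g)
    rcases mem_union.1 (Finsupp.support_sub hg.1) with h | h
    · exact ⟨(hc g (s2 h)).1, (hc g (s2 h)).2.1, hK, hg.2⟩
    · exact ⟨(hb g h).1, (hb g h).2.1, hK, hg.2⟩
  · have e1 : c - ((c2 - ext X.cbd y).filter fun g => Disjoint g.2 (insert v W)) - ext X.cbd y =
        (c - c2) + ((c2 - ext X.cbd y) -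
          (c2 - ext X.cbd y).filter fun g => Disjoint g.2 (insert v W)) := by abel
    rw [e1, Finsupp.add_apply]
    refine Submodule.add_mem _ (I2 g) ?_
    rw [Finsupp.sub_apply, Finsupp.filter_apply]
    split_ifs with hd
    · rw [sub_self]; exact Submodule.zero_mem _
    rw [sub_zero, Finsupp.sub_apply]
    obtain ⟨R, σ⟩ := g
    by_cases hv : v ∈ σ
    · rw [h3 R σ hv, sub_self]; exact Submodule.zero_mem _
    obtain ⟨w, hw1, hw2⟩ := not_disjoint_iff.1 hd
    have hwW : w ∈ W := (mem_insert.1 hw2).resolve_left fun e => hv (e ▸ hw1)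
    rw [c20 w hwW R σ hw1, ext_cbd_apply X fun g hg => (hy g hg).1]
    have z : ∀ S τ, w ∈ τ → y (S, τ) = 0 := fun S τ hτ => by
      obtain ⟨t, ht⟩ := h2 (S, τ)
      rw [ht, c20 w hwW _ _ (mem_insert_of_mem hτ), smul_zero]
    simp only [fun S => z S σ hw1, smul_zero, sum_const_zero, ite_self, zero_sub, neg_neg]
    refine Submodule.sum_mem _ fun x hx => Submodule.smul_mem _ _ ?_
    by_cases hxw : x = w
    · subst hxw
      obtain ⟨t, ht⟩ := h2 (R, σ.erase x)
      rw [ht]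
      refine Submodule.smul_mem _ _ ?_
      by_cases h0 : (R, insert v (σ.erase x)) ∈ c2.support
      · obtain ⟨η, hη⟩ := exists_proj_eq_io_mul (dl R (hc _ (s2 h0)).1.1.1)
          (mem_inter.2 ⟨hwW, (mem_inter.1 (mem_inter.1 hx).1).2⟩) (c (R, insert v (σ.erase x)))
        rw [hc2, hη]
        exact X.io_mul_mem_I (Submodule.mem_sup_right (Finsupp.single_mem_supported ℚ _ hw1)) _
      · rw [Finsupp.notMem_support_iff.1 h0]; exact Submodule.zero_mem _
    · rw [z _ _ (mem_erase.2 ⟨Ne.symm hxw, hw1⟩)]; exact Submodule.zero_mem _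

theorem cycle_of {s q : ℕ} {c y c' : Finset ℕ × Finset ℕ →₀ A} (hc : ∀ g ∈ c.support, X.COk g)
    (hz : ∀ g, ext X.cbd c g ∈ X.I g.1 (g.2 : Set ℕ))
    (hy : ∀ g ∈ y.support, X.COk g ∧ X.cdeg g = q + 1 ∧ y g ∈ X.K s g.1)
    (hc' : ∀ g ∈ c'.support, X.COk g)
    (h : ∀ g, (c - c' - ext X.cbd y) g ∈ X.I g.1 (g.2 : Set ℕ)) (g : Finset ℕ × Finset ℕ) :
    ext X.cbd c' g ∈ X.I g.1 (g.2 : Set ℕ) := by
  classical
  have h1 := null_ext X (d := c - c' - ext X.cbd y) (fun g hg => by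
    rcases mem_union.1 (Finsupp.support_sub hg) with h | h
    · rcases mem_union.1 (Finsupp.support_sub h) with h | h
      exacts [hc g h, hc' g h]
    · exact (ext_chain X hy g h).1) h g
  rw [ext_sub, ext_sub, ext_cbd_cbd X fun g hg => (hy g hg).1, sub_zero, Finsupp.sub_apply] at h1
  simpa using Submodule.sub_mem _ (hz g) h1

end CellCxAux

namespace Space

open Finset CellCxAux

variable {r : ℕ} (X : Space r)

/-- the closed face `(S, ρ)` is acyclic -/
theorem acyclic_cell {S ρ : Finset ℕ} (h : X.COk (S, ρ)) {q : ℕ} {u : Finset ℕ × Finset ℕ →₀ ℚ}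
    (hu : ∀ g ∈ u.support, X.COk g ∧ X.cdeg g = q ∧ g.1 ⊆ S ∧ ρ ⊆ g.2)
    (h0 : Finsupp.linearCombination ℚ X.cbd u = 0) (h1 : q = 0 → aug u = 0) :
    ∃ y : Finset ℕ × Finset ℕ →₀ ℚ,
      (∀ g ∈ y.support, X.COk g ∧ X.cdeg g = q + 1 ∧ g.1 ⊆ S ∧ ρ ⊆ g.2) ∧
      Finsupp.linearCombination ℚ X.cbd y = u := by
  classical
  induction hn : X.cdeg (S, ρ) generalizing S u with
  | zero =>
    have only : ∀ g ∈ u.support, g = (S, ρ) := by
      intro g hg
      obtain ⟨a, -, b, c⟩ := hu g hg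
      have c1 := card_eq X h
      have c2 := card_eq X a
      have e : g.1 \ g.2 = S \ ρ :=
        eq_of_subset_of_card_le (sdiff_subset_sdiff b c) (by dsimp only at c1; omega)
      have e1 : g.1 = S := by
        refine Subset.antisymm b fun x hx => ?_
        by_cases hxρ : x ∈ ρ
        · exact COk.sub a (c hxρ)
        · exact (mem_sdiff.1 (e ▸ mem_sdiff.2 ⟨hx, hxρ⟩)).1
      refine Prod.ext e1 (Subset.antisymm (fun x hx => ?_) c)
      by_contra hxρ
      exact (mem_sdiff.1 (e ▸ mem_sdiff.2 ⟨b (COk.sub a hx), hxρ⟩ : x ∈ g.1 \ g.2)).2 hx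
    refine ⟨0, by simp, ?_⟩
    rw [map_zero]
    by_contra hne
    obtain ⟨g, hg⟩ := Finsupp.support_nonempty_iff.2 (Ne.symm hne)
    have hq : q = 0 := by rw [← (hu g hg).2.1, only g hg, hn]
    have e := Finsupp.support_subset_singleton.1 fun g hg => mem_singleton.2 (only g hg)
    have := h1 hq
    rw [e] at this
    simp only [aug, Finsupp.linearCombination_single, smul_eq_mul, mul_one] at this
    rw [this, Finsupp.single_zero] at e
    exact hne e.symm
  | succ n ih =>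
    obtain ⟨b, hb, hc, H⟩ := collapse X h (by omega)
    rw [lc_eq_ext] at h0
    obtain ⟨y, hy, hz⟩ := H q u hu h0
    obtain ⟨y', hy', e⟩ := ih (cok_erase X h (mem_sdiff.1 hb).2 hc) (u := u - ext X.cbd y)
      (fun g hg => by
        have hbg : b ∉ g.1 := fun hh => Finsupp.mem_support_iff.1 hg (hz g hh)
        rcases mem_union.1 (Finsupp.support_sub hg) with h' | h'
        · obtain ⟨a1, a2, a3, a4⟩ := hu g h'
          exact ⟨a1, a2, subset_erase.2 ⟨a3, hbg⟩, a4⟩
        · obtain ⟨g', b1, b2⟩ := mem_support_ext h'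
          obtain ⟨a1, a2, a3, a4⟩ := hy g' b1
          obtain ⟨d1, d2, d3, d4⟩ := X.cbd_support a1 g b2
          exact ⟨d1, by omega, subset_erase.2 ⟨d3.trans a3, hbg⟩, a4.trans d4⟩)
      (by rw [lc_eq_ext, ext_sub, h0, ext_cbd_cbd X fun g hg => (hy g hg).1, sub_zero])
      (fun hq => by
        rw [map_sub, h1 hq, ← lc_eq_ext, Finsupp.linearCombination_apply, Finsupp.sum, map_sum,
          sum_eq_zero, sub_zero]
        intro g hg
        rw [map_smul, X.aug_cbd (hy g hg).1 (by rw [(hy g hg).2.1, hq]), smul_zero])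
      (by have := cdeg_erase X h hb hc; omega)
    refine ⟨y + y', fun g hg => ?_, by rw [map_add, e, lc_eq_ext, add_sub_cancel]⟩
    rcases mem_union.1 (Finsupp.support_add hg) with h' | h'
    · exact hy g h'
    · obtain ⟨a1, a2, a3, a4⟩ := hy' g h'
      exact ⟨a1, a2, a3.trans (erase_subset _ _), a4⟩

theorem exists_cell_vertex {S ρ : Finset ℕ} (h : X.COk (S, ρ)) :
    ∃ g : Finset ℕ × Finset ℕ, X.COk g ∧ X.cdeg g = 0 ∧ g.1 ⊆ S ∧ ρ ⊆ g.2 := by
  induction hn : X.cdeg (S, ρ) generalizing S with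
  | zero => exact ⟨(S, ρ), h, hn, Subset.rfl, Subset.rfl⟩
  | succ n ih =>
    obtain ⟨b, hb, hc, -⟩ := collapse X h (by omega)
    obtain ⟨g, a1, a2, a3, a4⟩ := ih (cok_erase X h (mem_sdiff.1 hb).2 hc)
      (by have := cdeg_erase X h hb hc; omega)
    exact ⟨g, a1, a2, a3.trans (erase_subset _ _), a4⟩

/-- a cycle of the compactification is homologous to a cycle without faces at infinity -/
theorem kill_infinity {s q : ℕ} {c : Finset ℕ × Finset ℕ →₀ A}
    (hc : ∀ g ∈ c.support, X.COk g ∧ X.cdeg g = q ∧ c g ∈ X.K s g.1)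
    (hz : ∀ g, ext X.cbd c g ∈ X.I g.1 (g.2 : Set ℕ)) :
    ∃ y c' : Finset ℕ × Finset ℕ →₀ A,
      (∀ g ∈ y.support, X.COk g ∧ X.cdeg g = q + 1 ∧ y g ∈ X.K s g.1) ∧
      (∀ g ∈ c'.support, X.COk g ∧ X.cdeg g = q ∧ g.2 = ∅) ∧
      (∀ g, (c - c' - ext X.cbd y) g ∈ X.I g.1 (g.2 : Set ℕ)) ∧
      X.st0.Ch s (q + r) (fun S => c' (S, ∅)) ∧
      ∀ R ∈ X.T, X.st0.Meets R → R.card + 1 = q + r →
        cellBd X.T (fun S => c' (S, ∅)) R ∈ X.I R ∅ := by
  classical
  have main : ∀ W : Finset ℕ, W ⊆ X.rays → ∃ y c' : Finset ℕ × Finset ℕ →₀ A,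
      (∀ g ∈ y.support, X.COk g ∧ X.cdeg g = q + 1 ∧ y g ∈ X.K s g.1) ∧
      (∀ g ∈ c'.support, X.COk g ∧ X.cdeg g = q ∧ c' g ∈ X.K s g.1 ∧ Disjoint g.2 W) ∧
      ∀ g, (c - c' - ext X.cbd y) g ∈ X.I g.1 (g.2 : Set ℕ) := by
    intro W
    induction W using Finset.induction_on with
    | empty =>
      exact fun _ => ⟨0, c, by simp, fun g hg => ⟨(hc g hg).1, (hc g hg).2.1, (hc g hg).2.2,
        disjoint_empty_right _⟩, fun g => by simp [ext_zero]⟩
    | insert v W _ ih =>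
      intro hW
      have hW' := (subset_insert _ _).trans hW
      obtain ⟨y, c1, a1, a2, a3⟩ := ih hW'
      obtain ⟨y', c', b1, b2, b3⟩ := kill_step X hW' v a2
        (cycle_of X (fun g hg => (hc g hg).1) hz a1 (fun g hg => (a2 g hg).1) a3)
      refine ⟨y + y', c', fun g hg => ?_, b2, fun g => ?_⟩
      · have hK := Submodule.add_mem _ (mem_K_of X (fun g hg => (a1 g hg).2.2) g)
          (mem_K_of X (fun g hg => (b1 g hg).2.2) g)
        rcases mem_union.1 (Finsupp.support_add hg) with h | h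
        · exact ⟨(a1 g h).1, (a1 g h).2.1, hK⟩
        · exact ⟨(b1 g h).1, (b1 g h).2.1, hK⟩
      · have e : c - c' - ext X.cbd (y + y') =
            (c - c1 - ext X.cbd y) + (c1 - c' - ext X.cbd y') := by rw [ext_add]; abel
        rw [e]
        exact Submodule.add_mem _ (a3 g) (b3 g)
  obtain ⟨y, c', a1, a2, a3⟩ := main X.rays Subset.rfl
  have cyc := cycle_of X (fun g hg => (hc g hg).1) hz a1 (fun g hg => (a2 g hg).1) a3
  have emp : ∀ g ∈ c'.support, g.2 = ∅ := fun g hg =>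
    (disjoint_self_iff_empty _).1 ((a2 g hg).2.2.2.mono_right (COk.ray (a2 g hg).1))
  refine ⟨y, c', a1, fun g hg => ⟨(a2 g hg).1, (a2 g hg).2.1, emp g hg⟩, a3,
    fun S _ _ _ => ?_, fun R hR hm _ => ?_⟩
  · rw [kap_st0]
    refine ⟨mem_K_of X (fun g hg => (a2 g hg).2.2.1) (S, ∅), fun v hv hr => ?_⟩
    refine X.io_mul_mem_I_of_insert ?_
    have := ray_cond X (fun g hg => (a2 g hg).1) (v := v) (fun R σ hσ => by
      by_contra h
      have := emp _ (Finsupp.mem_support_iff.2 h)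
      exact notMem_empty v (this ▸ hσ)) hv hr (notMem_empty v)
    beta_reduce
    rw [this, ← coe_empty, ← coe_insert]
    exact Submodule.smul_mem _ _ (cyc (S, insert v ∅))
  · have := cyc (R, ∅)
    rw [ext_cbd_apply X fun g hg => (a2 g hg).1, if_pos ⟨hR, (X.meets_st0 R).1 hm⟩] at this
    simp only [union_empty, sdiff_empty, empty_inter, sum_empty, sub_zero, coe_empty] at this
    convert this using 1
    rw [cellBd, sdiff_eq_filter, sum_filter]
    refine sum_congr rfl fun v _ => ?_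
    by_cases h1 : v ∈ R
    · simp [h1]
    · by_cases h2 : insert v R ∈ X.T
      · simp [h1, h2]
      · have : c' (insert v R, ∅) = 0 := by
          by_contra h
          exact h2 (a2 _ (Finsupp.mem_support_iff.2 h)).1.1.1
        simp [h1, h2, this]

end Space

end Pool.Agent.Lead.THC
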