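import Pool.Agent.Lead.THC.Alg

set_option autoImplicit false

open scoped BigOperators

noncomputable section

namespace Pool.Agent.Lead.THC

theorem mem_car {l : List Pt} {v : ℕ} : v ∈ car l ↔ ∃ z ∈ l, v ∈ z.1.support ∨ v ∈ z.2 := by
  simp [car, Finset.mem_biUnion]

theorem car_mono {l l' : List Pt} (h : ∀ z ∈ l', z ∈ l) : car l' ⊆ car l := by
  intro v hv
  obtain ⟨z, hz, h'⟩ := mem_car.1 hv
  exact mem_car.2 ⟨z, h z hz, h'⟩

theorem sed_anti {l l' : List Pt} (h : ∀ z ∈ l', z ∈ l) : sed l ⊆ sed l' :=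
  fun _ hv z hz => hv z (h z hz)

section General

variable {M : Type} [AddCommGroup M] [Module ℚ M]

/-- the boundary as a linear map -/
def bdryL : (List Pt →₀ M) →ₗ[ℚ] (List Pt →₀ M) :=
  Finsupp.lsum ℚ fun l => if 2 ≤ l.length then
    ∑ i ∈ Finset.range l.length, (-1 : ℚ) ^ i • Finsupp.lsingle (l.eraseIdx i) else 0

theorem bdryL_apply (c : List Pt →₀ M) : bdryL c = bdry c := by
  rw [bdryL, Finsupp.lsum_apply, bdry]
  refine Finsupp.sum_congr fun l _ => ?_
  split_ifs <;> simp [LinearMap.sum_apply]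

/-- the prism operator as a linear map -/
def prismL (v : ℕ) : (List Pt →₀ M) →ₗ[ℚ] (List Pt →₀ M) :=
  Finsupp.lsum ℚ fun l => ∑ j ∈ Finset.range l.length, (-1 : ℚ) ^ j •
    Finsupp.lsingle (l.take (j + 1) ++ (l.drop j).map fun z => (z.1, insert v z.2))

theorem prismL_apply (v : ℕ) (c : List Pt →₀ M) : prismL v c = prism v c := by
  rw [prismL, Finsupp.lsum_apply, prism]
  refine Finsupp.sum_congr fun l _ => ?_
  simp [LinearMap.sum_apply]

theorem c1_lin_congr {G N : Type} [AddCommGroup N] [Module ℚ N] (f g : (G →₀ M) →ₗ[ℚ] N)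
    (c : G →₀ M) (h : ∀ l ∈ c.support, ∀ ω, f (Finsupp.single l ω) = g (Finsupp.single l ω)) :
    f c = g c := by
  rw [← Finsupp.sum_single c, Finsupp.sum, map_sum, map_sum]
  exact Finset.sum_congr rfl fun l hl => h l hl _

/-- the cone as a linear map -/
def coneL (a : Pt) : (List Pt →₀ M) →ₗ[ℚ] (List Pt →₀ M) := Finsupp.lmapDomain M ℚ fun l => a :: l

theorem coneL_apply (a : Pt) (c : List Pt →₀ M) : coneL a c = cone a c := rfl

theorem coneL_single (a : Pt) (l : List Pt) (ω : M) :
    coneL a (Finsupp.single l ω) = Finsupp.single (a :: l) ω := Finsupp.mapDomain_single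

/-- the shift as a linear map -/
def shiftL (ρ : Finset ℕ) : (List Pt →₀ M) →ₗ[ℚ] (List Pt →₀ M) :=
  Finsupp.lmapDomain M ℚ fun l => l.map fun z => (z.1, ρ ∪ z.2)

theorem shiftL_apply (ρ : Finset ℕ) (c : List Pt →₀ M) : shiftL ρ c = shift ρ c := rfl

theorem shiftL_single (ρ : Finset ℕ) (l : List Pt) (ω : M) :
    shiftL ρ (Finsupp.single l ω) = Finsupp.single (l.map fun z => (z.1, ρ ∪ z.2)) ω :=
  Finsupp.mapDomain_single

/-- the augmented boundary -/
def augL : (List Pt →₀ M) →ₗ[ℚ] (List Pt →₀ M) :=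
  Finsupp.lsum ℚ fun l =>
    ∑ i ∈ Finset.range l.length, (-1 : ℚ) ^ i • Finsupp.lsingle (l.eraseIdx i)

theorem augL_single (l : List Pt) (ω : M) : augL (Finsupp.single l ω) =
    ∑ i ∈ Finset.range l.length, (-1 : ℚ) ^ i • Finsupp.single (l.eraseIdx i) ω := by
  rw [augL, Finsupp.lsum_single]; simp [LinearMap.sum_apply]

theorem bdryL_single (l : List Pt) (ω : M) : bdryL (Finsupp.single l ω) =
    if 2 ≤ l.length then augL (Finsupp.single l ω) else 0 := by
  rw [bdryL, Finsupp.lsum_single, augL_single]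
  split_ifs <;> simp [LinearMap.sum_apply]

theorem prismL_single (v : ℕ) (l : List Pt) (ω : M) : prismL v (Finsupp.single l ω) =
    ∑ j ∈ Finset.range l.length, (-1 : ℚ) ^ j •
      Finsupp.single (l.take (j + 1) ++ (l.drop j).map fun z => (z.1, insert v z.2)) ω := by
  rw [prismL, Finsupp.lsum_single]; simp [LinearMap.sum_apply]

theorem augL_coneL (a : Pt) (c : List Pt →₀ M) : augL (coneL a c) = c - coneL a (augL c) := by
  refine c1_lin_congr (augL ∘ₗ coneL a) (LinearMap.id - coneL a ∘ₗ augL) c fun l _ ω => ?_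
  simp only [LinearMap.comp_apply, LinearMap.sub_apply, LinearMap.id_apply, coneL_single,
    augL_single, List.length_cons, Finset.sum_range_succ', map_sum, map_smul, pow_succ,
    List.eraseIdx_cons_succ, List.eraseIdx_cons_zero, mul_neg, mul_one, neg_smul,
    Finset.sum_neg_distrib, pow_zero, one_smul]
  abel

theorem augL_augL (c : List Pt →₀ M) : augL (augL c) = 0 := by
  refine c1_lin_congr (augL ∘ₗ augL) 0 c fun l hl ω => ?_
  clear hl
  simp only [LinearMap.comp_apply, LinearMap.zero_apply]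
  induction l with
  | nil => simp [augL_single]
  | cons a l ih => rw [← coneL_single, augL_coneL, map_sub, augL_coneL, ih]; simp

theorem shiftL_coneL (ρ : Finset ℕ) (a : Pt) (c : List Pt →₀ M) :
    shiftL ρ (coneL a c) = coneL (a.1, ρ ∪ a.2) (shiftL ρ c) :=
  c1_lin_congr (shiftL ρ ∘ₗ coneL a) (coneL (a.1, ρ ∪ a.2) ∘ₗ shiftL ρ) c fun l _ ω => by
    simp [coneL_single, shiftL_single]

theorem augL_shiftL (ρ : Finset ℕ) (c : List Pt →₀ M) : augL (shiftL ρ c) = shiftL ρ (augL c) :=
  c1_lin_congr (augL ∘ₗ shiftL ρ) (shiftL ρ ∘ₗ augL) c fun l _ ω => by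
    simp [shiftL_single, augL_single, List.eraseIdx_map]

theorem prismL_coneL (v : ℕ) (a : Pt) (c : List Pt →₀ M) : prismL v (coneL a c) =
    coneL a (coneL (a.1, {v} ∪ a.2) (shiftL {v} c)) - coneL a (prismL v c) := by
  refine c1_lin_congr (prismL v ∘ₗ coneL a)
    (coneL a ∘ₗ coneL (a.1, {v} ∪ a.2) ∘ₗ shiftL {v} - coneL a ∘ₗ prismL v) c fun l _ ω => ?_
  simp only [LinearMap.comp_apply, LinearMap.sub_apply, coneL_single, shiftL_single,
    prismL_single, List.length_cons, Finset.sum_range_succ', map_sum, map_smul, pow_succ,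
    mul_neg, mul_one, neg_smul, Finset.sum_neg_distrib, pow_zero, one_smul, List.take_succ_cons,
    List.drop_succ_cons, List.take_zero, List.drop_zero, List.cons_append, List.nil_append,
    List.map_cons, Finset.insert_eq]
  abel

theorem augL_prismL (v : ℕ) (c : List Pt →₀ M) :
    augL (prismL v c) = shiftL {v} c - c - prismL v (augL c) := by
  refine c1_lin_congr (augL ∘ₗ prismL v) (shiftL {v} - LinearMap.id - prismL v ∘ₗ augL) c
    fun l hl ω => ?_
  clear hl
  simp only [LinearMap.comp_apply, LinearMap.sub_apply, LinearMap.id_apply]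
  induction l with
  | nil => simp [augL_single, prismL_single, shiftL_single]
  | cons a l ih =>
    rw [← coneL_single, prismL_coneL, map_sub, augL_coneL, augL_coneL, augL_coneL, augL_coneL, ih,
      augL_shiftL, shiftL_coneL]
    simp only [map_sub, prismL_coneL]
    abel

theorem bdry_bdry (c : List Pt →₀ M) : bdry (bdry c) = 0 := by
  rw [← bdryL_apply, ← bdryL_apply]
  refine c1_lin_congr (bdryL ∘ₗ bdryL) 0 c fun l _ ω => ?_
  simp only [LinearMap.comp_apply, LinearMap.zero_apply]
  rw [bdryL_single]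
  split_ifs with h
  · rcases h.eq_or_lt with h2 | h2
    · rw [augL_single, map_sum]
      refine Finset.sum_eq_zero fun i hi => ?_
      rw [map_smul, bdryL_single, if_neg, smul_zero]
      rw [List.length_eraseIdx_of_lt (Finset.mem_range.1 hi)]; omega
    · rw [← augL_augL (Finsupp.single l ω), augL_single, map_sum, map_sum]
      refine Finset.sum_congr rfl fun i hi => ?_
      rw [map_smul, map_smul, bdryL_single, if_pos]
      rw [List.length_eraseIdx_of_lt (Finset.mem_range.1 hi)]; omega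
  · simp

theorem bdry_of_length_le_one {c : List Pt →₀ M} (h : ∀ l ∈ c.support, l.length ≤ 1) :
    bdry c = 0 := by
  rw [← bdryL_apply]
  refine c1_lin_congr bdryL 0 c fun l hl ω => ?_
  rw [bdryL_single, if_neg (by have := h l hl; omega)]; rfl

theorem bdry_cone (a : Pt) {c : List Pt →₀ M} (h : ∀ l ∈ c.support, 2 ≤ l.length) :
    bdry (cone a c) = c - cone a (bdry c) := by
  rw [← bdryL_apply, ← bdryL_apply, ← coneL_apply, ← coneL_apply]
  refine c1_lin_congr (bdryL ∘ₗ coneL a) (LinearMap.id - coneL a ∘ₗ bdryL) c fun l hl ω => ?_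
  have := h l hl
  simp only [LinearMap.comp_apply, LinearMap.sub_apply, LinearMap.id_apply]
  rw [bdryL_single l, if_pos this, ← augL_coneL, coneL_single, bdryL_single, if_pos]
  simp only [List.length_cons]; omega

theorem bdry_cone_one (a : Pt) {c : List Pt →₀ ℚ} (h : ∀ l ∈ c.support, l.length = 1) :
    bdry (cone a c) = c - Finsupp.single [a] (aug c) := by
  rw [← bdryL_apply, ← coneL_apply]
  refine c1_lin_congr (bdryL ∘ₗ coneL a) (LinearMap.id - Finsupp.lsingle [a] ∘ₗ aug) c
    fun l hl ω => ?_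
  obtain ⟨z, rfl⟩ := List.length_eq_one_iff.1 (h l hl)
  simp [-Finsupp.smul_single, coneL_single, bdryL_single, augL_single, Finset.sum_range_succ, aug,
    sub_eq_add_neg]

theorem aug_bdry {c : List Pt →₀ ℚ} (h : ∀ l ∈ c.support, l.length = 2) : aug (bdry c) = 0 := by
  rw [← bdryL_apply]
  refine c1_lin_congr (aug ∘ₗ bdryL) 0 c fun l hl ω => ?_
  simp [-Finsupp.smul_single, bdryL_single, augL_single, h l hl, Finset.sum_range_succ, aug]

theorem bdry_prism (v : ℕ) {c : List Pt →₀ M} (h : ∀ l ∈ c.support, l ≠ []) :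
    bdry (prism v c) = shift {v} c - c - prism v (bdry c) := by
  rw [← bdryL_apply, ← bdryL_apply, ← prismL_apply, ← prismL_apply, ← shiftL_apply]
  refine c1_lin_congr (bdryL ∘ₗ prismL v) (shiftL {v} - LinearMap.id - prismL v ∘ₗ bdryL) c
    fun l hl ω => ?_
  have h0 : 0 < l.length := List.length_pos_iff.2 (h l hl)
  simp only [LinearMap.comp_apply, LinearMap.sub_apply, LinearMap.id_apply]
  have e1 : bdryL (prismL v (Finsupp.single l ω)) = augL (prismL v (Finsupp.single l ω)) := by
    rw [prismL_single, map_sum, map_sum]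
    refine Finset.sum_congr rfl fun j hj => ?_
    have := Finset.mem_range.1 hj
    rw [map_smul, map_smul, bdryL_single, if_pos]
    simp only [List.length_append, List.length_take, List.length_map, List.length_drop]; omega
  have e2 : prismL v (bdryL (Finsupp.single l ω)) = prismL v (augL (Finsupp.single l ω)) := by
    rw [bdryL_single]
    split_ifs with h2
    · rfl
    · obtain ⟨z, rfl⟩ := List.length_eq_one_iff.1 (show l.length = 1 by omega)
      simp [augL_single, prismL_single]
  rw [e1, e2, augL_prismL]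

theorem bdry_shift (ρ : Finset ℕ) (c : List Pt →₀ M) : bdry (shift ρ c) = shift ρ (bdry c) := by
  rw [← bdryL_apply, ← bdryL_apply, ← shiftL_apply, ← shiftL_apply]
  refine c1_lin_congr (bdryL ∘ₗ shiftL ρ) (shiftL ρ ∘ₗ bdryL) c fun l _ ω => ?_
  simp only [LinearMap.comp_apply]
  rw [bdryL_single l, shiftL_single, bdryL_single, List.length_map]
  split_ifs
  · rw [← shiftL_single, augL_shiftL]
  · simp

theorem shift_prism (ρ : Finset ℕ) (v : ℕ) (c : List Pt →₀ M) :
    shift ρ (prism v c) = prism v (shift ρ c) := by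
  rw [← prismL_apply, ← prismL_apply, ← shiftL_apply, ← shiftL_apply]
  refine c1_lin_congr (shiftL ρ ∘ₗ prismL v) (prismL v ∘ₗ shiftL ρ) c fun l _ ω => ?_
  simp [shiftL_single, prismL_single, List.map_take, List.map_drop, Function.comp_def]

theorem shift_shift (ρ ρ' : Finset ℕ) (c : List Pt →₀ M) :
    shift ρ (shift ρ' c) = shift (ρ ∪ ρ') c := by
  rw [shift, shift, shift, ← Finsupp.mapDomain_comp]
  congr 1; funext l; simp [Finset.union_assoc]

theorem shift_empty (c : List Pt →₀ M) : shift ∅ c = c := by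
  rw [shift]
  have : (fun l : List Pt => l.map fun z => (z.1, ∅ ∪ z.2)) = id := by funext l; simp
  rw [this, Finsupp.mapDomain_id]

theorem prisms_empty (c : List Pt →₀ M) : prisms ∅ c = c := by simp [prisms]

theorem prisms_insert {a : ℕ} {s : Finset ℕ} (h : ∀ x ∈ s, x < a) (c : List Pt →₀ M) :
    prisms (insert a s) c = prism a (prisms s c) := by
  rw [prisms, Finset.sort_insert _ (fun b hb => (h b hb).le) (fun ha => lt_irrefl _ (h a ha))]
  rfl

theorem mem_support_prism {v : ℕ} {c : List Pt →₀ M} {l' : List Pt}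
    (h : l' ∈ (prism v c).support) : ∃ l ∈ c.support, ∃ j < l.length,
      l' = l.take (j + 1) ++ (l.drop j).map fun z => (z.1, insert v z.2) := by
  classical
  obtain ⟨l, hl, h1⟩ := Finset.mem_biUnion.1 (Finsupp.support_sum h)
  obtain ⟨j, hj, h2⟩ := Finsupp.mem_support_finsetSum _ h1
  exact ⟨l, hl, j, Finset.mem_range.1 hj,
    Finset.mem_singleton.1 (Finsupp.support_single_subset (Finsupp.support_smul h2))⟩

theorem c1_support_foldr {L : List ℕ} {c : List Pt →₀ M} {l' : List Pt}
    (h : l' ∈ (L.foldr prism c).support) :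
    ∃ l ∈ c.support, (L ≠ [] → l ≠ []) ∧ l'.length = l.length + L.length ∧
      car l' = car l ∪ L.toFinset ∧ sed l ⊆ sed l' ∧
      ∀ z' ∈ l', ∃ z ∈ l, z'.1 = z.1 ∧ z.2 ⊆ z'.2 ∧ z'.2 ⊆ z.2 ∪ L.toFinset := by
  induction L generalizing l' with
  | nil => exact ⟨l', h, by simp, by simp, by simp, le_rfl, fun z hz => ⟨z, hz, by simp⟩⟩
  | cons v L ih =>
    obtain ⟨m, hm, j, hj, rfl⟩ := mem_support_prism (show l' ∈ (prism v (L.foldr prism c)).support
      from h)
    obtain ⟨l, hl, h1, h2, h3, h4, h5⟩ := ih hm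
    have key : ∀ z' ∈ m.take (j + 1) ++ (m.drop j).map fun z => (z.1, insert v z.2),
        ∃ z ∈ m, z'.1 = z.1 ∧ z.2 ⊆ z'.2 ∧ z'.2 ⊆ insert v z.2 := by
      intro z' hz'
      rcases List.mem_append.1 hz' with h | h
      · exact ⟨z', List.mem_of_mem_take h, rfl, le_rfl, Finset.subset_insert _ _⟩
      · obtain ⟨z, hz, rfl⟩ := List.mem_map.1 h
        exact ⟨z, List.mem_of_mem_drop hz, rfl, Finset.subset_insert _ _, le_rfl⟩
    refine ⟨l, hl, fun _ => ?_, ?_, ?_, ?_, ?_⟩
    · rintro rfl
      obtain ⟨z, hz, -⟩ := h5 _ (List.getElem_mem hj)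
      simp at hz
    · simp only [List.length_append, List.length_take, List.length_map, List.length_drop,
        List.length_cons]; omega
    · rw [List.toFinset_cons, Finset.union_insert, ← h3]
      ext x
      rw [Finset.mem_insert, mem_car, mem_car]
      constructor
      · rintro ⟨z', hz', hx⟩
        obtain ⟨z, hz, e1, -, e3⟩ := key z' hz'
        rcases hx with hx | hx
        · exact Or.inr ⟨z, hz, Or.inl (e1 ▸ hx)⟩
        · rcases Finset.mem_insert.1 (e3 hx) with h | h
          · exact Or.inl h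
          · exact Or.inr ⟨z, hz, Or.inr h⟩
      · rintro (rfl | ⟨z, hz, hx⟩)
        · refine ⟨(m[j].1, insert x m[j].2), List.mem_append_right _ (List.mem_map.2
            ⟨m[j], ?_, rfl⟩), Or.inr (Finset.mem_insert_self _ _)⟩
          rw [List.drop_eq_getElem_cons hj]; exact List.mem_cons_self
        · rw [← List.take_append_drop j m] at hz
          rcases List.mem_append.1 hz with h | h
          · exact ⟨z, List.mem_append_left _ (List.take_subset_take_left m (Nat.le_succ j) h), hx⟩
          · exact ⟨(z.1, insert v z.2), List.mem_append_right _ (List.mem_map.2 ⟨z, h, rfl⟩),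
              hx.imp id fun h => Finset.mem_insert_of_mem h⟩
    · intro x hx z' hz'
      obtain ⟨z, hz, -, e2, -⟩ := key z' hz'
      exact e2 (h4 hx z hz)
    · intro z' hz'
      obtain ⟨z, hz, e1, e2, e3⟩ := key z' hz'
      obtain ⟨y, hy, f1, f2, f3⟩ := h5 z hz
      refine ⟨y, hy, e1.trans f1, f2.trans e2, e3.trans ?_⟩
      rw [List.toFinset_cons, Finset.union_insert]
      exact Finset.insert_subset_insert _ f3

/-- boundary of an iterated prism -/
theorem bdry_prisms (ρ : Finset ℕ) {c : List Pt →₀ M} (h : ∀ l ∈ c.support, l ≠ []) :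
    bdry (prisms ρ c) = (-1 : ℚ) ^ ρ.card • prisms ρ (bdry c) +
      ∑ v ∈ ρ, sgn v (ρ.erase v) • (shift {v} (prisms (ρ.erase v) c) - prisms (ρ.erase v) c) := by
  induction ρ using Finset.induction_on_max with
  | empty => simp [prisms_empty]
  | insert a s ha ih =>
    have has : a ∉ s := fun h => lt_irrefl _ (ha a h)
    have hne : ∀ l ∈ (prisms s c).support, l ≠ [] := by
      intro l' hl' h0
      obtain ⟨l, hl, -, h2, -⟩ := c1_support_foldr hl'
      have := List.length_pos_iff.2 (h l hl)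
      rw [h0, List.length_nil] at h2; omega
    have s1 : sgn a s = 1 := by
      rw [sgn, Finset.filter_eq_empty_iff.2 fun w hw => (ha w hw).not_gt]; simp
    have s2 : ∀ v ∈ s, sgn v ((insert a s).erase v) • (shift {v} (prisms ((insert a s).erase v) c)
        - prisms ((insert a s).erase v) c) =
        -prismL a (sgn v (s.erase v) • (shift {v} (prisms (s.erase v) c) - prisms (s.erase v) c)) := by
      intro v hv
      have hva := ha v hv
      rw [Finset.erase_insert_of_ne hva.ne', prisms_insert fun x hx => ha x (Finset.mem_of_mem_erase hx),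
        map_smul, map_sub, prismL_apply, prismL_apply, shift_prism, ← neg_smul]
      congr 1
      rw [sgn, sgn, Finset.filter_insert, if_pos hva, Finset.card_insert_of_notMem
        fun h => has (Finset.mem_of_mem_erase (Finset.mem_of_mem_filter _ h)), pow_succ]
      ring
    rw [prisms_insert ha, prisms_insert ha, bdry_prism a hne, ih, Finset.sum_insert has,
      Finset.erase_insert has, s1, Finset.sum_congr rfl s2, Finset.card_insert_of_notMem has,
      ← prismL_apply, ← prismL_apply, map_add, map_smul, map_sum, Finset.sum_neg_distrib, pow_succ]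
    simp only [mul_neg, mul_one, neg_smul, one_smul]
    abel

theorem prisms_add (ρ : Finset ℕ) (c c' : List Pt →₀ M) :
    prisms ρ (c + c') = prisms ρ c + prisms ρ c' := by
  unfold prisms
  induction ρ.sort (· ≥ ·) with
  | nil => rfl
  | cons v L ih => simp only [List.foldr_cons, ih, ← prismL_apply, map_add]

theorem prisms_smul (ρ : Finset ℕ) (q : ℚ) (c : List Pt →₀ M) :
    prisms ρ (q • c) = q • prisms ρ c := by
  unfold prisms
  induction ρ.sort (· ≥ ·) with
  | nil => rfl
  | cons v L ih => simp only [List.foldr_cons, ih, ← prismL_apply, map_smul]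

theorem c1_bdry_map {M' : Type} [AddCommGroup M'] [Module ℚ M'] (φ : M →ₗ[ℚ] M')
    (c : List Pt →₀ M) :
    bdry (c.mapRange φ (map_zero φ)) = (bdry c).mapRange φ (map_zero φ) := by
  rw [← bdryL_apply, ← bdryL_apply]
  refine c1_lin_congr (bdryL ∘ₗ Finsupp.mapRange.linearMap φ)
    (Finsupp.mapRange.linearMap φ ∘ₗ bdryL) c fun l _ ω => ?_
  simp only [LinearMap.comp_apply, bdryL_single, Finsupp.mapRange.linearMap_apply,
    Finsupp.mapRange_single]
  split_ifs
  · simp only [augL_single, ← Finsupp.mapRange.linearMap_apply, map_sum, map_smul]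
    simp
  · simp

theorem prism_mapRange {M' : Type} [AddCommGroup M'] [Module ℚ M'] (φ : M →ₗ[ℚ] M') (v : ℕ)
    (c : List Pt →₀ M) :
    prism v (c.mapRange φ (map_zero φ)) = (prism v c).mapRange φ (map_zero φ) := by
  rw [← prismL_apply, ← prismL_apply]
  refine c1_lin_congr (prismL v ∘ₗ Finsupp.mapRange.linearMap φ)
    (Finsupp.mapRange.linearMap φ ∘ₗ prismL v) c fun l _ ω => ?_
  simp only [LinearMap.comp_apply, prismL_single, map_sum, map_smul]
  simp [prismL_single]

theorem shift_mapRange {M' : Type} [AddCommGroup M'] [Module ℚ M'] (φ : M →ₗ[ℚ] M') (ρ : Finset ℕ)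
    (c : List Pt →₀ M) :
    shift ρ (c.mapRange φ (map_zero φ)) = (shift ρ c).mapRange φ (map_zero φ) :=
  c1_lin_congr (shiftL ρ ∘ₗ Finsupp.mapRange.linearMap φ)
    (Finsupp.mapRange.linearMap φ ∘ₗ shiftL ρ) c fun l _ ω => by simp [shiftL_single]

theorem c1_prisms_map {M' : Type} [AddCommGroup M'] [Module ℚ M'] (φ : M →ₗ[ℚ] M')
    (ρ : Finset ℕ) (c : List Pt →₀ M) :
    prisms ρ (c.mapRange φ (map_zero φ)) = (prisms ρ c).mapRange φ (map_zero φ) := by
  unfold prisms
  induction ρ.sort (· ≥ ·) with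
  | nil => rfl
  | cons v L ih => simp only [List.foldr_cons, ih, prism_mapRange]

theorem tens_eq_mapRange {G : Type} (u : G →₀ ℚ) (ω : M) :
    tens u ω = u.mapRange (LinearMap.toSpanSingleton ℚ M ω) (map_zero _) := rfl

theorem tens_apply {G : Type} (u : G →₀ ℚ) (ω : M) (g : G) : tens u ω g = u g • ω := rfl

theorem tens_single {G : Type} (g : G) (q : ℚ) (ω : M) :
    tens (Finsupp.single g q) ω = Finsupp.single g (q • ω) := Finsupp.mapRange_single

/-- `tens u` as a linear map -/
def tensR {G : Type} (u : G →₀ ℚ) : M →ₗ[ℚ] (G →₀ M) where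
  toFun := tens u
  map_add' a b := by ext g; simp [tens_apply]
  map_smul' q a := by ext g; simp [tens_apply, smul_comm q]

/-- `ext f` as a linear map -/
def extL {G G' : Type} (f : G → G' →₀ ℚ) : (G →₀ M) →ₗ[ℚ] (G' →₀ M) :=
  Finsupp.lsum ℚ fun g => tensR (f g)

theorem extL_apply {G G' : Type} (f : G → G' →₀ ℚ) (c : G →₀ M) : extL f c = ext f c := rfl

theorem extL_single {G G' : Type} (f : G → G' →₀ ℚ) (g : G) (ω : M) :
    extL f (Finsupp.single g ω) = tens (f g) ω := by
  rw [extL, Finsupp.lsum_single]; rfl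

theorem bdry_tens (u : List Pt →₀ ℚ) (ω : M) : bdry (tens u ω) = tens (bdry u) ω :=
  c1_bdry_map (LinearMap.toSpanSingleton ℚ M ω) u

theorem prism_tens (v : ℕ) (u : List Pt →₀ ℚ) (ω : M) :
    prism v (tens u ω) = tens (prism v u) ω :=
  prism_mapRange (LinearMap.toSpanSingleton ℚ M ω) v u

theorem prisms_tens (ρ : Finset ℕ) (u : List Pt →₀ ℚ) (ω : M) :
    prisms ρ (tens u ω) = tens (prisms ρ u) ω :=
  c1_prisms_map (LinearMap.toSpanSingleton ℚ M ω) ρ u

theorem shift_tens (ρ : Finset ℕ) (u : List Pt →₀ ℚ) (ω : M) :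
    shift ρ (tens u ω) = tens (shift ρ u) ω :=
  shift_mapRange (LinearMap.toSpanSingleton ℚ M ω) ρ u

/-- `bdry` is the extension of its values on generators -/
theorem bdry_eq_ext (c : List Pt →₀ M) :
    bdry c = ext (fun l => bdry (Finsupp.single l (1 : ℚ))) c := by
  rw [← bdryL_apply, ← extL_apply]
  refine c1_lin_congr _ _ c fun l _ ω => ?_
  rw [extL_single, ← bdry_tens, tens_single, one_smul, bdryL_apply]

theorem ext_ext {G G' G'' : Type} (f : G → G' →₀ ℚ) (f' : G' → G'' →₀ ℚ) (c : G →₀ M) :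
    ext f' (ext f c) = ext (fun g => ext f' (f g)) c := by
  refine c1_lin_congr (extL f' ∘ₗ extL f) (extL fun g => ext f' (f g)) c fun g _ ω => ?_
  rw [LinearMap.comp_apply, extL_single, extL_single]
  refine c1_lin_congr
    (extL f' ∘ₗ Finsupp.mapRange.linearMap (LinearMap.toSpanSingleton ℚ M ω))
    (Finsupp.mapRange.linearMap (LinearMap.toSpanSingleton ℚ M ω) ∘ₗ extL f') (f g)
    fun g' _ q => ?_
  ext x
  simp [extL_single, tens_apply, smul_smul]

theorem bdry_ext {G : Type} (f : G → List Pt →₀ ℚ) (c : G →₀ M) :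
    bdry (ext f c) = ext (fun g => bdry (f g)) c := by
  rw [← bdryL_apply]
  refine c1_lin_congr (bdryL ∘ₗ extL f) (extL fun g => bdry (f g)) c fun g _ ω => ?_
  rw [LinearMap.comp_apply, extL_single, extL_single, bdryL_apply, bdry_tens]

theorem ext_apply {G G' : Type} (f : G → G' →₀ ℚ) (c : G →₀ M) (g' : G') :
    ext f c g' = ∑ g ∈ c.support, f g g' • c g := by
  rw [ext, Finsupp.sum, Finsupp.finsetSum_apply]; rfl

theorem ext_congr {G G' : Type} {f f' : G → G' →₀ ℚ} {c : G →₀ M}
    (h : ∀ g ∈ c.support, f g = f' g) : ext f c = ext f' c :=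
  Finsupp.sum_congr fun g hg => by rw [h g hg]

theorem ext_single_one {G : Type} (c : G →₀ M) : ext (fun g => Finsupp.single g (1 : ℚ)) c = c := by
  simp only [ext, tens_single, one_smul, Finsupp.sum_single]

/-- a coefficient map commutes with the boundary -/
theorem bdry_mapRange {M' : Type} [AddCommGroup M'] [Module ℚ M'] (φ : M →ₗ[ℚ] M')
    (c : List Pt →₀ M) :
    bdry (c.mapRange φ (map_zero φ)) = (bdry c).mapRange φ (map_zero φ) := c1_bdry_map φ c

theorem prisms_mapRange {M' : Type} [AddCommGroup M'] [Module ℚ M'] (φ : M →ₗ[ℚ] M')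
    (ρ : Finset ℕ) (c : List Pt →₀ M) :
    prisms ρ (c.mapRange φ (map_zero φ)) = (prisms ρ c).mapRange φ (map_zero φ) :=
  c1_prisms_map φ ρ c

/-- support of a boundary -/
theorem mem_support_bdry {c : List Pt →₀ M} {l' : List Pt} (h : l' ∈ (bdry c).support) :
    ∃ l ∈ c.support, 2 ≤ l.length ∧ ∃ i < l.length, l' = l.eraseIdx i := by
  classical
  obtain ⟨l, hl, h1⟩ := Finset.mem_biUnion.1 (Finsupp.support_sum h)
  split_ifs at h1 with h2
  · obtain ⟨j, hj, h3⟩ := Finsupp.mem_support_finsetSum _ h1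
    exact ⟨l, hl, h2, j, Finset.mem_range.1 hj,
      Finset.mem_singleton.1 (Finsupp.support_single_subset (Finsupp.support_smul h3))⟩
  · simp at h1

/-- support of an iterated prism -/
theorem mem_support_prisms {ρ : Finset ℕ} {c : List Pt →₀ M} {l' : List Pt}
    (h : l' ∈ (prisms ρ c).support) :
    ∃ l ∈ c.support, (ρ ≠ ∅ → l ≠ []) ∧ l'.length = l.length + ρ.card ∧
      car l' = car l ∪ ρ ∧ sed l ⊆ sed l' ∧
      ∀ z' ∈ l', ∃ z ∈ l, z'.1 = z.1 ∧ z.2 ⊆ z'.2 ∧ z'.2 ⊆ z.2 ∪ ρ := by
  obtain ⟨l, hl, h1, h2, h3, h4, h5⟩ := c1_support_foldr h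
  rw [Finset.sort_toFinset] at h3 h5
  rw [Finset.length_sort] at h2
  refine ⟨l, hl, fun hρ => h1 fun h0 => hρ ?_, h2, h3, h4, h5⟩
  rw [← Finset.sort_toFinset ρ (· ≥ ·), h0, List.toFinset_nil]

theorem mem_support_shift {ρ : Finset ℕ} {c : List Pt →₀ M} {l' : List Pt}
    (h : l' ∈ (shift ρ c).support) :
    ∃ l ∈ c.support, l' = l.map fun z => (z.1, ρ ∪ z.2) := by
  classical
  obtain ⟨l, hl, e⟩ := Finset.mem_image.1 (Finsupp.mapDomain_support h)
  exact ⟨l, hl, e.symm⟩

end General

end Pool.Agent.Lead.THC
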