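import Pool.Agent.Lead.THC.Defs

/-! Internal definitions for the proof (not part of the statement). -/

set_option autoImplicit false

open scoped BigOperators

noncomputable section

namespace Pool.Agent.Lead.THC

/-- degree one multivector of a vector -/
abbrev io : E →ₗ[ℚ] A := ExteriorAlgebra.ι ℚ

/-- contraction with a linear form -/
abbrev ctr (f : Module.Dual ℚ E) : A →ₗ[ℚ] A := CliffordAlgebra.contractLeft f

/-- vectors supported on a set -/
abbrev supp (s : Set ℕ) : Submodule ℚ E := Finsupp.supported ℚ ℚ s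

/-- a rational chain times a coefficient -/
def tens {G M : Type} [AddCommGroup M] [Module ℚ M] (u : G →₀ ℚ) (ω : M) : G →₀ M :=
  u.mapRange (fun q => q • ω) (zero_smul ℚ ω)

/-- extension of a map on generators to chains with coefficients -/
def ext {G G' M : Type} [AddCommGroup M] [Module ℚ M] (f : G → G' →₀ ℚ) (c : G →₀ M) : G' →₀ M :=
  c.sum fun g ω => tens (f g) ω

/-- move all points to infinity along the rays in `ρ` -/
def shift {M : Type} [AddCommGroup M] [Module ℚ M] (ρ : Finset ℕ) (c : List Pt →₀ M) :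
    List Pt →₀ M :=
  c.mapDomain fun l => l.map fun z => (z.1, ρ ∪ z.2)

/-- cone with apex `a` -/
def cone {M : Type} [AddCommGroup M] [Module ℚ M] (a : Pt) (c : List Pt →₀ M) : List Pt →₀ M :=
  c.mapDomain fun l => a :: l

/-- sum of the coefficients -/
def aug {G : Type} : (G →₀ ℚ) →ₗ[ℚ] ℚ := Finsupp.linearCombination ℚ fun _ => (1 : ℚ)

/-- wedge product of the vectors `e a`, `a ∈ S`, in increasing order -/
def wedge (e : ℕ → E) (S : Finset ℕ) : A := ((S.sort (· ≤ ·)).map fun a => io (e a)).prod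

/-- iterated prism over a set of rays (largest ray outermost) -/
def prisms {M : Type} [AddCommGroup M] [Module ℚ M] (ρ : Finset ℕ) (c : List Pt →₀ M) :
    List Pt →₀ M :=
  (ρ.sort (· ≥ ·)).foldr prism c

namespace Space

variable {r : ℕ} (X : Space r)

/-- simplices meeting every level -/
def Cell (S : Finset ℕ) : Prop :=
  S ∈ X.T ∧ ∀ i : Fin r, ∃ v ∈ S, X.lev v = (i : WithBot (Fin r))

/-- multi-tangent space of the total space of the family -/
def K (s : ℕ) (S : Finset ℕ) : Submodule ℚ A :=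
  ⨆ (S' : Finset ℕ) (_ : S' ∈ X.T ∧ S ⊆ S'), vecs (supp (S' : Set ℕ)) ^ s

/-- iterated contraction with the level forms -/
def comp (J : Finset (Fin r)) : A →ₗ[ℚ] A :=
  ((J.sort (· ≤ ·)).map fun i => (ctr (lvl X.lev i) : Module.End ℚ A)).prod

/-- filtration of `K` by the number of base directions -/
def Phi (d : ℤ) (s : ℕ) (S : Finset ℕ) (ρ : Set ℕ) : Submodule ℚ A :=
  X.K s S ⊓ ⨅ (J : Finset (Fin r)) (_ : d < (J.card : ℤ)), (X.I S ρ).comap (X.comp J)

/-- the ray vertices -/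
def rays : Finset ℕ := (X.T.biUnion id).filter fun v => X.lev v = ⊥

/-- a list of valid points in a common cell -/
def Valid (l : List Pt) : Prop := (∀ z ∈ l, X.IsPt z) ∧ car l ∈ X.T

/-- chains with coefficients in `K s` -/
def IsKChain (s q : ℕ) (c : List Pt →₀ A) : Prop :=
  ∀ l ∈ c.support, l.length = q + 1 ∧ X.Valid l ∧ c l ∈ X.K s (car l)

/-- apply `comp univ` to the coefficients -/
def down (c : List Pt →₀ A) : List Pt →₀ A :=
  c.mapRange (X.comp Finset.univ) (map_zero _)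

end Space

/-- A rational simplicial subdivision of the total space; `o` is an orientation weight on the
vertices of the fibre. -/
structure St {r : ℕ} (X : Space r) where
  cx : Finset (Finset ℕ)
  down : ∀ S ∈ cx, ∀ R ⊆ S, R ∈ cx
  pos : ℕ → E
  pos_nonneg : ∀ a v, 0 ≤ pos a v
  pos_ray : ∀ a ∈ X.rays, pos a = Finsupp.single a 1
  pos_fin : ∀ a, {a} ∈ cx → a ∉ X.rays →
    (∀ v ∈ (pos a).support, X.lev v ≠ ⊥) ∧ ∑ i, lvl X.lev i (pos a) = 1
  ray_lt : ∀ a ∈ X.rays, ∀ a', {a'} ∈ cx → a' ∉ X.rays → a < a'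
  kap_mem : ∀ S ∈ cx, (S.biUnion fun a => (pos a).support) ∈ X.T
  indep : ∀ S ∈ cx, LinearIndependent ℚ fun a : S => pos a
  o : Finset ℕ → ℚ

namespace St

variable {r : ℕ} {X : Space r} (st : St X)

/-- carrier in the original complex -/
def kap (S : Finset ℕ) : Finset ℕ := S.biUnion fun a => (st.pos a).support

/-- the open cone on `S` meets the fibre -/
def Meets (S : Finset ℕ) : Prop :=
  ∃ t : ℕ → ℝ, (∀ a ∈ S, 0 < t a) ∧
    ∀ i, ∑ a ∈ S, t a * ((lvl X.lev i (st.pos a) : ℚ) : ℝ) = X.b i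

open Classical in
/-- the orientation weight vanishes on boundaries of bounded edges -/
def Aug : Prop :=
  ∀ S ∈ st.cx, Disjoint S X.rays → st.Meets S → S.card = r + 1 →
    ∑ v ∈ S, (if st.Meets (S.erase v) then sgn v (S.erase v) * st.o (S.erase v) else 0) = 0

/-- local acyclicity with coefficients in `K` -/
def LVK : Prop :=
  ∀ S₀ ∈ st.cx, st.Meets S₀ → ∀ (t a : ℕ) (c : Finset ℕ → A), a < t →
    (∀ S ∈ st.cx, S₀ ⊆ S → S.card = a → c S ∈ X.K t (st.kap S)) →
    (∀ R ∈ st.cx, S₀ ⊆ R → R.card + 1 = a → cellBd st.cx c R ∈ X.I (st.kap R) ∅) →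
    ∃ y : Finset ℕ → A, (∀ S ∈ st.cx, S₀ ⊆ S → S.card = a + 1 → y S ∈ X.K t (st.kap S)) ∧
      ∀ S ∈ st.cx, S₀ ⊆ S → S.card = a → c S - cellBd st.cx y S ∈ X.I (st.kap S) ∅

/-- the two invariants carried along the subdivisions -/
def Good : Prop := st.Aug ∧ st.LVK

/-- cellular chains on simplices with `a` vertices, values in `K t`, with zero boundary at
infinity -/
def Ch (t a : ℕ) (c : Finset ℕ → A) : Prop :=
  ∀ S ∈ st.cx, st.Meets S → S.card = a → c S ∈ X.K t (st.kap S) ∧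
    ∀ v ∈ S, v ∈ X.rays → io (Finsupp.single v 1) * c S ∈ X.I (st.kap S) ∅

/-- cellular cycles -/
def Cyc (s : ℕ) (c : Finset ℕ → A) : Prop :=
  st.Ch s s c ∧ ∀ R ∈ st.cx, st.Meets R → R.card + 1 = s → cellBd st.cx c R ∈ X.I (st.kap R) ∅

/-- homologous cellular cycles -/
def Hom (s : ℕ) (c c' : Finset ℕ → A) : Prop :=
  ∃ y, st.Ch s (s + 1) y ∧ ∀ S ∈ st.cx, st.Meets S → S.card = s →
    c S - c' S - cellBd st.cx y S ∈ X.I (st.kap S) ∅

/-- the coefficients are multiples of the volume elements -/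
def Tangent (s : ℕ) (c : Finset ℕ → A) : Prop :=
  ∀ S ∈ st.cx, st.Meets S → S.card = s → ∃ q : ℚ, c S = q • wedge st.pos S

open Classical in
/-- a realization of the bounded cells by affine chains -/
def IsReal (ψ : Finset ℕ → List Pt →₀ ℚ) : Prop :=
  ∀ S ∈ st.cx, Disjoint S X.rays → st.Meets S →
    (∀ l ∈ (ψ S).support, l.length + r = S.card + 1 ∧ (∀ z ∈ l, X.IsPt z) ∧ car l ⊆ st.kap S) ∧
    (r < S.card → bdry (ψ S) =
      ∑ v ∈ S, if st.Meets (S.erase v) then sgn v (S.erase v) • ψ (S.erase v) else 0) ∧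
    (S.card = r → aug (ψ S) = st.o S)

/-- the sign attached to a cell with `b` rays and `a` other vertices -/
def tau (b a : ℕ) : ℚ := (-1) ^ (b * (a + 1))

open Classical in
/-- the affine chain attached to a cellular chain -/
def Psi (ψ : Finset ℕ → List Pt →₀ ℚ) (s : ℕ) (c : Finset ℕ → A) : List Pt →₀ A :=
  ∑ S ∈ st.cx.filter fun S => st.Meets S ∧ S.card = s,
    tau (S ∩ X.rays).card (S \ X.rays).card •
      prisms (S ∩ X.rays) (tens (ψ (S \ X.rays)) (c S))

/-- the cellular chain `c` represents the class of the affine chain `γ` -/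
def Rep (k : ℕ) (γ : List Pt →₀ A) (c : Finset ℕ → A) : Prop :=
  ∃ ψ, st.IsReal ψ ∧ ∃ Y, X.IsKChain (k + r) (k + 1) Y ∧
    X.Null (γ - st.Psi ψ (k + r) c - bdry Y)

end St

open Classical in
/-- `st'` subdivides `st` -/
structure Refines {r : ℕ} {X : Space r} (st st' : St X) where
  car : Finset ℕ → Finset ℕ
  eps : Finset ℕ → ℚ
  car_mem : ∀ S' ∈ st'.cx, car S' ∈ st.cx
  car_mono : ∀ S' ∈ st'.cx, ∀ R' ⊆ S', car R' ⊆ car S'
  kap_car : ∀ S' ∈ st'.cx, st.kap (car S') = st'.kap S'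
  meets_car : ∀ S' ∈ st'.cx, st'.Meets S' → st.Meets (car S')
  ray_car : ∀ S' ∈ st'.cx, car S' ∩ X.rays = S' ∩ X.rays
  fin_car : ∀ S' ∈ st'.cx, car (S' \ X.rays) = car S' \ X.rays
  fin_eps : ∀ S' ∈ st'.cx, eps (S' \ X.rays) = eps S'
  join : ∀ S ∈ st.cx, ∀ j' ∈ st'.cx, car j' = S \ X.rays → j' ∪ (S ∩ X.rays) ∈ st'.cx
  card_car : ∀ S' ∈ st'.cx, eps S' ≠ 0 → (car S').card = S'.card
  span_car : ∀ S' ∈ st'.cx, ∀ a ∈ S', a ∉ X.rays →
    st'.pos a ∈ Submodule.span ℚ (st.pos '' ((car S' \ X.rays : Finset ℕ) : Set ℕ))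
  sd_bd : ∀ (M : Type) [AddCommGroup M] [Module ℚ M] (c : Finset ℕ → M), ∀ R' ∈ st'.cx,
    cellBd st'.cx (fun S' => eps S' • c (car S')) R' = eps R' • cellBd st.cx c (car R')
  o_car : ∀ j ∈ st.cx, Disjoint j X.rays → st.Meets j → j.card = r →
    ∑ j' ∈ st'.cx.filter (fun j' => st'.Meets j' ∧ car j' = j), eps j' * st'.o j' = st.o j

namespace Refines

variable {r : ℕ} {X : Space r} {st st' : St X} (R : Refines st st')

/-- subdivision of a cellular chain -/
def sd (c : Finset ℕ → A) : Finset ℕ → A := fun S' => R.eps S' • c (R.car S')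

/-- the star of every bounded vertex of `st'` lies in the open star of a cell of `st` -/
def Fine : Prop :=
  ∀ a, a ∉ X.rays → ∀ S₀' ∈ st'.cx, a ∈ S₀' → st'.Meets S₀' →
    ∃ j ∈ st.cx, st.Meets j ∧ ∀ S' ∈ st'.cx, a ∈ S' → st'.Meets S' → j ⊆ R.car S'

end Refines

/-- simplices after starring the edge `u v` at the new vertex `p` -/
def bisCx (cx : Finset (Finset ℕ)) (u v p : ℕ) : Finset (Finset ℕ) :=
  (cx.filter fun S => ¬ (u ∈ S ∧ v ∈ S)) ∪ (cx.filter fun S => u ∈ S ∧ v ∈ S).biUnion fun S =>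
    {insert p (S.erase u), insert p (S.erase v), insert p ((S.erase u).erase v)}

/-- carrier map of the starring -/
def bisCar (u v p : ℕ) (S' : Finset ℕ) : Finset ℕ :=
  if p ∈ S' then insert u (insert v (S'.erase p)) else S'

/-- signs of the starring (valid when `p` is larger than all other vertices) -/
def bisEps (u v p : ℕ) (S' : Finset ℕ) : ℚ :=
  if p ∈ S' then (if v ∈ S' then sgn u (S'.erase p) else if u ∈ S' then sgn v (S'.erase p) else 0)
  else 1

/-- a label larger than all vertices and all rays -/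
def St.fresh {r : ℕ} {X : Space r} (st : St X) : ℕ := (st.cx.biUnion id ∪ X.rays).sup id + 1

/-- positions after bisecting the edge `u v` -/
def St.bisPos {r : ℕ} {X : Space r} (st : St X) (u v : ℕ) : ℕ → E :=
  Function.update st.pos st.fresh ((1 / 2 : ℚ) • (st.pos u + st.pos v))

/-- `u v` is a bounded edge -/
def St.Edge {r : ℕ} {X : Space r} (st : St X) (u v : ℕ) : Prop :=
  u ≠ v ∧ {u, v} ∈ st.cx ∧ u ∉ X.rays ∧ v ∉ X.rays

end Pool.Agent.Lead.THC
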