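import Mathlib

/-!
Compact tropical spaces whose cells are products of simplices and orthants, their tropical
homology (affine chains with coefficients in the multi-tangent spaces), the eigenwave, cap
product with a line bundle, and tropical cycles.
-/

set_option autoImplicit false

open scoped BigOperators

noncomputable section

namespace Pool.Agent.Lead.THC

/-- rational vectors in barycentric coordinates (vertices are natural numbers) -/
abbrev E : Type := ℕ →₀ ℚ

/-- multivectors -/
abbrev A : Type := ExteriorAlgebra ℚ E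

/-- a point `x` (barycentric coordinates) together with the set of rays along which it has been
moved to infinity -/
abbrev Pt : Type := (ℕ →₀ ℝ) × Finset ℕ

/-- vectors supported on a set of vertices, as multivectors of degree one -/
def vecs (U : Submodule ℚ E) : Submodule ℚ A := U.map (ExteriorAlgebra.ι ℚ)

/-- sum of the coordinates of level `i` -/
def lvl {r : ℕ} (lev : ℕ → WithBot (Fin r)) (i : Fin r) : Module.Dual ℚ E :=
  Finsupp.linearCombination ℚ fun v => if lev v = (i : WithBot (Fin r)) then (1 : ℚ) else 0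

/-- A compact tropical space. Vertices of level `i` span the factor `b i • simplex`, vertices of
level `⊥` are rays going to infinity. A simplex `S ∈ T` meeting every level gives the cell
`{x ≥ 0, supp x ⊆ S, sum of level i = b i}`. `B S` are the linear relations between the vertices
near the cell `S`: the chart near `S` is the quotient by `B S`, and the affine functions near `S`
are the linear forms vanishing on `B S`. -/
structure Space (r : ℕ) where
  lev : ℕ → WithBot (Fin r)
  lev_mono : Monotone lev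
  b : Fin r → ℝ
  b_pos : ∀ i, 0 < b i
  b_indep : LinearIndependent ℚ b
  T : Finset (Finset ℕ)
  T_down : ∀ S ∈ T, ∀ R ⊆ S, R ∈ T
  B : Finset ℕ → Submodule ℚ E
  B_anti : ∀ S ∈ T, ∀ R ⊆ S, (∀ i : Fin r, ∃ v ∈ R, lev v = (i : WithBot (Fin r))) → B S ≤ B R
  B_lvl : ∀ S i, B S ≤ LinearMap.ker (lvl lev i)
  B_inj : ∀ S ∈ T, Disjoint (B S) (Finsupp.supported ℚ ℚ (S : Set ℕ))

/-- sign of removing `v` from a simplex: parity of the number of larger vertices -/
def sgn (v : ℕ) (R : Finset ℕ) : ℚ := (-1) ^ (R.filter fun w => v < w).card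

/-- value at the face `R` of the boundary of the cellular chain `c` on the complex `T` -/
def cellBd {M : Type} [AddCommGroup M] [Module ℚ M] (T : Finset (Finset ℕ)) (c : Finset ℕ → M)
    (R : Finset ℕ) : M :=
  ∑ v ∈ T.biUnion id, if v ∉ R ∧ insert v R ∈ T then sgn v R • c (insert v R) else 0

open Classical in
/-- vertices of the smallest cell containing the points of the list -/
def car (l : List Pt) : Finset ℕ := l.toFinset.biUnion fun z => z.1.support ∪ z.2

/-- rays along which all points of the list are at infinity -/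
def sed (l : List Pt) : Set ℕ := {v | ∀ z ∈ l, v ∈ z.2}

/-- boundary of a chain of affine simplices (lists of points) -/
def bdry {M : Type} [AddCommGroup M] [Module ℚ M] (c : List Pt →₀ M) : List Pt →₀ M :=
  c.sum fun l ω => if 2 ≤ l.length then
    ∑ i ∈ Finset.range l.length, (-1 : ℚ) ^ i • Finsupp.single (l.eraseIdx i) ω else 0

/-- cap product with a 1-cochain `g` of operators on multivectors -/
def capWith (g : Pt → Pt → A → A) (c : List Pt →₀ A) : List Pt →₀ A :=
  c.sum fun l ω => match l with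
    | z₀ :: z₁ :: t => Finsupp.single (z₁ :: t) (g z₀ z₁ ω)
    | _ => 0

/-- contraction of a multivector with a linear form -/
def contr {V : Type} [AddCommGroup V] [Module ℚ V] (d : Module.Dual ℚ V)
    (ω : ExteriorAlgebra ℚ V) : ExteriorAlgebra ℚ V :=
  CliffordAlgebra.contractLeft d ω

/-- cap product with a 1-cochain of affine functions (contraction of the framing) -/
def cap (g : Pt → Pt → Module.Dual ℚ E) : (List Pt →₀ A) → List Pt →₀ A :=
  capWith fun z₀ z₁ ω => contr (g z₀ z₁) ω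

/-- the component `θ` of the eigenwave: wedge the framing with the first edge vector -/
def eig (θ : ℝ →ₗ[ℚ] ℚ) : (List Pt →₀ A) → List Pt →₀ A :=
  capWith fun z₀ z₁ ω =>
    ExteriorAlgebra.ι ℚ (Finsupp.mapRange θ (map_zero θ) (z₁.1 - z₀.1)) * ω

/-- the standard triangulation of (chain) × `[0, ∞]` in the direction of the ray `v` -/
def prism {M : Type} [AddCommGroup M] [Module ℚ M] (v : ℕ) (c : List Pt →₀ M) : List Pt →₀ M :=
  c.sum fun l ω => ∑ j ∈ Finset.range l.length, (-1 : ℚ) ^ j •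
    Finsupp.single (l.take (j + 1) ++ (l.drop j).map fun z => (z.1, insert v z.2)) ω

namespace Space

variable {r : ℕ} (X : Space r)

/-- tangent space of the cell `S` -/
def tan (S : Finset ℕ) : Submodule ℚ E :=
  Finsupp.supported ℚ ℚ (S : Set ℕ) ⊓ ⨅ i, LinearMap.ker (lvl X.lev i)

/-- representatives of the multi-tangent space `F_p` at the cell `S` -/
def F (p : ℕ) (S : Finset ℕ) : Submodule ℚ A :=
  ⨆ (S' : Finset ℕ) (_ : S' ∈ X.T ∧ S ⊆ S'), vecs (X.tan S') ^ p

/-- multivectors vanishing in the chart at the face at infinity `ρ` of the cell `S` -/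
def I (S : Finset ℕ) (ρ : Set ℕ) : Submodule ℚ A :=
  vecs (X.B S ⊔ Finsupp.supported ℚ ℚ ρ) * ⊤

/-- `z` is a point of the space, up to the condition that its support lies in a simplex -/
def IsPt (z : Pt) : Prop :=
  (∀ v, 0 ≤ z.1 v) ∧
  (∀ i : Fin r, (z.1.sum fun v a => if X.lev v = (i : WithBot (Fin r)) then a else 0) = X.b i) ∧
  ∀ v ∈ z.2, X.lev v = ⊥

/-- `c` is a `q`-chain with coefficients in `F_p` -/
def IsChain (p q : ℕ) (c : List Pt →₀ A) : Prop :=
  ∀ l ∈ c.support, l.length = q + 1 ∧ (∀ z ∈ l, X.IsPt z) ∧ car l ∈ X.T ∧ c l ∈ X.F p (car l)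

/-- `c` represents the zero chain -/
def Null (c : List Pt →₀ A) : Prop := ∀ l, c l ∈ X.I (car l) (sed l)

/-- `c` is a `q`-cycle with coefficients in `F_p` -/
def IsCycle (p q : ℕ) (c : List Pt →₀ A) : Prop := X.IsChain p q c ∧ X.Null (bdry c)

/-- `c` is the boundary of a `(q+1)`-chain with coefficients in `F_p` -/
def IsBdry (p q : ℕ) (c : List Pt →₀ A) : Prop :=
  ∃ y, X.IsChain p (q + 1) y ∧ X.Null (c - bdry y)

/-- the local homology `H_q(X, X - x; F_p)` vanishes for `q < p` at the points `x` of every cell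
`S₀` (cellular chains on the star of `S₀`; a simplex with `q + r` vertices is a `q`-cell) -/
def LocAcyclic : Prop :=
  ∀ S₀ ∈ X.T, (∀ i : Fin r, ∃ v ∈ S₀, X.lev v = (i : WithBot (Fin r))) →
    ∀ (p q : ℕ) (c : Finset ℕ → A), q < p →
      (∀ S ∈ X.T, S₀ ⊆ S → S.card = q + r → c S ∈ X.F p S) →
      (∀ R ∈ X.T, S₀ ⊆ R → R.card + 1 = q + r → cellBd X.T c R ∈ X.I R ∅) →
      ∃ y : Finset ℕ → A, (∀ S ∈ X.T, S₀ ⊆ S → S.card = q + 1 + r → y S ∈ X.F p S) ∧
        ∀ S ∈ X.T, S₀ ⊆ S → S.card = q + r → c S - cellBd X.T y S ∈ X.I S ∅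

/-- `g` is a 1-cocycle of affine functions, i.e. a line bundle -/
def IsLineBundle (g : Pt → Pt → Module.Dual ℚ E) : Prop :=
  (∀ z₀ z₁, X.IsPt z₀ → X.IsPt z₁ → car [z₀, z₁] ∈ X.T →
    X.B (car [z₀, z₁]) ⊔ Finsupp.supported ℚ ℚ (sed [z₀, z₁]) ≤ LinearMap.ker (g z₀ z₁)) ∧
  ∀ z₀ z₁ z₂, X.IsPt z₀ → X.IsPt z₁ → X.IsPt z₂ → ∀ S ∈ X.T, car [z₀, z₁, z₂] ⊆ S →
    Finsupp.supported ℚ ℚ (S : Set ℕ) ≤ LinearMap.ker (g z₀ z₁ + g z₁ z₂ - g z₀ z₂)

/-- hard Lefschetz in dimension `n`: for `p + q = n + w`, capping `w` times with `g` is a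
bijection `H_q(F_p) → H_{q-w}(F_{p-w})` -/
def HardLefschetz (n : ℕ) (g : Pt → Pt → Module.Dual ℚ E) : Prop :=
  (∀ (w p q : ℕ) (c : List Pt →₀ A), p + q = n + w → X.IsCycle p q c →
    X.IsBdry (p - w) (q - w) ((cap g)^[w] c) → X.IsBdry p q c) ∧
  ∀ (w p q : ℕ) (c : List Pt →₀ A), p + q + w = n → X.IsCycle p q c →
    ∃ c', X.IsCycle (p + w) (q + w) c' ∧ X.IsBdry p q (c - (cap g)^[w] c')

/-- `conv x + cone ρ` is a nondegenerate `k`-dimensional polyhedron in a cell, its tangent space is
the real span of a rational `k`-plane `U`, and `ω` is a rational multiple of the volume element of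
`U` -/
def Straight (k : ℕ) (x : List (ℕ →₀ ℝ)) (ρ : List ℕ) (ω : A) : Prop :=
  x ≠ [] ∧ x.length + ρ.length = k + 1 ∧ (∀ y ∈ x, X.IsPt (y, ρ.toFinset)) ∧
  car (x.map fun y => (y, ρ.toFinset)) ∈ X.T ∧
  AffineIndependent ℝ (x ++ ρ.map fun v => x.headI + Finsupp.single v 1).get ∧
  ∃ U : Submodule ℚ E, Module.finrank ℚ U = k ∧ U ≤ X.tan (car (x.map fun y => (y, ρ.toFinset))) ∧
    (∀ y ∈ x, ∀ y' ∈ x, ∀ θ : ℝ →ₗ[ℚ] ℚ, Finsupp.mapRange θ (map_zero θ) (y - y') ∈ U) ∧
    (∀ v ∈ ρ, Finsupp.single v 1 ∈ U) ∧ ω ∈ vecs U ^ k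

/-- tropical `k`-cycles with rational weights: sums of weighted rational polyhedra with zero
boundary (the balancing condition) -/
def IsTropCycle (k : ℕ) (Z : List Pt →₀ A) : Prop :=
  X.Null (bdry Z) ∧ Z ∈ Submodule.span ℚ {c | ∃ x ρ ω, X.Straight k x ρ ω ∧
    c = ρ.foldr prism (Finsupp.single (x.map fun y => (y, ∅)) ω)}

end Space

end Pool.Agent.Lead.THC
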