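import Mathlib

set_option autoImplicit false

open scoped BigOperators

noncomputable section

namespace Pool.Agent.Lead.THC

/-- hypotheses of the degeneration argument -/
structure DelHyp {M : Type} [AddCommGroup M] [Module ℚ M] (D L : M →ₗ[ℚ] M)
    (P : ℤ → ℤ → ℤ → Submodule ℚ M) (n N : ℤ) : Prop where
  mono : ∀ d s q, P (d - 1) s q ≤ P d s q
  hD : ∀ d s q x, x ∈ P d s q → D x ∈ P d s (q - 1)
  hL : ∀ d s q x, x ∈ P d s q → L x ∈ P d (s - 1) (q - 1)
  hDD : ∀ x, D (D x) = 0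
  hDL : ∀ d s q x, x ∈ P d s q → D (L x) = - L (D x)
  inj : ∀ (w : ℕ) (d s q : ℤ) (x a y : M), s - d + q - n = w → x ∈ P d s q →
      D x ∈ P (d - 1) s (q - 1) → a ∈ P (d - 1) (s - w) (q - w) → y ∈ P d (s - w) (q - w + 1) →
      (L ^ w) x = a + D y → ∃ a' ∈ P (d - 1) s q, ∃ y' ∈ P d s (q + 1), x = a' + D y'
  surj : ∀ (w : ℕ) (d s q : ℤ) (x : M), s - d + q - n = - (w : ℤ) → x ∈ P d s q →
      D x ∈ P (d - 1) s (q - 1) → ∃ x' ∈ P d (s + w) (q + w), D x' ∈ P (d - 1) (s + w) (q + w - 1) ∧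
        ∃ a ∈ P (d - 1) s q, ∃ y ∈ P d s (q + 1), x = (L ^ w) x' + a + D y
  bound : ∀ (d s q : ℤ) (x : M), N < s - d + q - n → x ∈ P d s q →
      D x ∈ P (d - 1) s (q - 1) → ∃ a ∈ P (d - 1) s q, ∃ y ∈ P d s (q + 1), x = a + D y

namespace DelHyp

variable {M : Type} [AddCommGroup M] [Module ℚ M] {D L : M →ₗ[ℚ] M}
  {P : ℤ → ℤ → ℤ → Submodule ℚ M} {n N : ℤ}

theorem cast {d s q d' s' q' : ℤ} {x : M} (h : x ∈ P d s q) (h1 : d = d') (h2 : s = s')
    (h3 : q = q') : x ∈ P d' s' q' := by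
  subst h1 h2 h3; exact h

theorem le (H : DelHyp D L P n N) {d d' s q : ℤ} (h : d ≤ d') {x : M} (hx : x ∈ P d s q) :
    x ∈ P d' s q := by
  obtain ⟨k, rfl⟩ : ∃ k : ℕ, d' = d + k := ⟨(d' - d).toNat, by omega⟩
  induction k with
  | zero => simpa using hx
  | succ k ih =>
    apply H.mono
    exact cast (ih (by omega)) (by push_cast; ring) rfl rfl

theorem pow_mem (H : DelHyp D L P n N) (w : ℕ) {d s q : ℤ} {x : M} (hx : x ∈ P d s q) :
    (L ^ w) x ∈ P d (s - w) (q - w) := by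
  induction w with
  | zero => simpa using hx
  | succ w ih =>
    rw [pow_succ', Module.End.mul_apply]
    exact cast (H.hL _ _ _ _ ih) rfl (by push_cast; ring) (by push_cast; ring)

theorem D_pow (H : DelHyp D L P n N) (w : ℕ) {d s q : ℤ} {x : M} (hx : x ∈ P d s q) :
    D ((L ^ w) x) = (-1 : ℚ) ^ w • (L ^ w) (D x) := by
  induction w with
  | zero => simp
  | succ w ih =>
    rw [pow_succ', Module.End.mul_apply, H.hDL _ _ _ _ (H.pow_mem w hx), ih, map_smul,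
      Module.End.mul_apply, pow_succ]
    simp

theorem pow_D (H : DelHyp D L P n N) (w : ℕ) {d s q : ℤ} {x : M} (hx : x ∈ P d s q) :
    (L ^ w) (D x) = D ((-1 : ℚ) ^ w • (L ^ w) x) := by
  rw [map_smul, H.D_pow w hx, smul_smul, ← mul_pow]
  simp

/-- `Z_r` -/
def Z (D : M →ₗ[ℚ] M) (P : ℤ → ℤ → ℤ → Submodule ℚ M) (r d s q : ℤ) : Submodule ℚ M :=
  P d s q ⊓ (P (d - r) s (q - 1)).comap D

/-- `B_2` -/
def B (D : M →ₗ[ℚ] M) (P : ℤ → ℤ → ℤ → Submodule ℚ M) (d s q : ℤ) : Submodule ℚ M :=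
  Z D P 1 (d - 1) s q ⊔ (Z D P 1 (d + 1) s (q + 1)).map D

theorem mem_Z {r d s q : ℤ} {x : M} :
    x ∈ Z D P r d s q ↔ x ∈ P d s q ∧ D x ∈ P (d - r) s (q - 1) := Iff.rfl

theorem mem_B {d s q : ℤ} {x : M} : x ∈ B D P d s q ↔
    ∃ a y, a ∈ P (d - 1) s q ∧ D a ∈ P (d - 2) s (q - 1) ∧ y ∈ P (d + 1) s (q + 1) ∧
      D y ∈ P d s q ∧ x = a + D y := by
  constructor
  · intro h
    obtain ⟨a, ha, z, hz, rfl⟩ := Submodule.mem_sup.1 h
    obtain ⟨y, hy, rfl⟩ := Submodule.mem_map.1 hz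
    exact ⟨a, y, ha.1, cast ha.2 (by ring) rfl rfl, hy.1, cast hy.2 (by ring) rfl (by ring), rfl⟩
  · rintro ⟨a, y, ha, ha', hy, hy', rfl⟩
    exact Submodule.add_mem_sup ⟨ha, cast ha' (by ring) rfl rfl⟩
      (Submodule.mem_map_of_mem ⟨hy, cast hy' (by ring) rfl (by ring)⟩)

theorem castB {d s q d' s' q' : ℤ} {x : M} (h : x ∈ B D P d s q) (h1 : d = d') (h2 : s = s')
    (h3 : q = q') : x ∈ B D P d' s' q' := by
  subst h1 h2 h3; exact h

theorem castZ {r d s q r' d' s' q' : ℤ} {x : M} (h : x ∈ Z D P r d s q) (h0 : r = r')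
    (h1 : d = d') (h2 : s = s') (h3 : q = q') : x ∈ Z D P r' d' s' q' := by
  subst h0 h1 h2 h3; exact h

theorem pow_mem_Z (H : DelHyp D L P n N) (w : ℕ) {r d s q : ℤ} {x : M} (hx : x ∈ Z D P r d s q) :
    (L ^ w) x ∈ Z D P r d (s - w) (q - w) := by
  refine mem_Z.2 ⟨H.pow_mem w hx.1, ?_⟩
  rw [H.D_pow w hx.1]
  exact Submodule.smul_mem _ _ (cast (H.pow_mem w hx.2) rfl rfl (by ring))

theorem pow_mem_B (H : DelHyp D L P n N) (w : ℕ) {d s q : ℤ} {x : M} (hx : x ∈ B D P d s q) :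
    (L ^ w) x ∈ B D P d (s - w) (q - w) := by
  obtain ⟨a, ha, z, hz, rfl⟩ := Submodule.mem_sup.1 hx
  obtain ⟨y, hy, rfl⟩ := Submodule.mem_map.1 hz
  rw [map_add, H.pow_D w hy.1]
  exact Submodule.add_mem_sup (H.pow_mem_Z w ha) (Submodule.mem_map_of_mem
    (Submodule.smul_mem _ _ (castZ (H.pow_mem_Z w hy) rfl rfl rfl (by ring))))

theorem B_le_Z (H : DelHyp D L P n N) {d s q : ℤ} {x : M} (hx : x ∈ B D P d s q) :
    x ∈ Z D P 2 d s q := by
  obtain ⟨a, y, ha, ha', hy, hy', rfl⟩ := mem_B.1 hx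
  refine mem_Z.2 ⟨Submodule.add_mem _ (H.mono _ _ _ ha) hy', ?_⟩
  rw [map_add, H.hDD, add_zero]
  exact ha'

/-- an element of `Z 2` that is trivial on the first page lies in `B 2` -/
theorem mem_B_of (H : DelHyp D L P n N) {d s q : ℤ} {x a y : M} (hx : x ∈ Z D P 2 d s q)
    (ha : a ∈ P (d - 1) s q) (hy : y ∈ P (d + 1) s (q + 1)) (h : x = a + D y) :
    x ∈ B D P d s q := by
  refine mem_B.2 ⟨a, y, ha, ?_, hy, ?_, h⟩
  · have : D a = D x := by rw [h, map_add, H.hDD, add_zero]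
    rw [this]; exact hx.2
  · have : D y = x - a := by rw [h]; abel
    rw [this]; exact Submodule.sub_mem _ hx.1 (H.mono _ _ _ ha)

theorem inj2 (H : DelHyp D L P n N) (w : ℕ) {d s q : ℤ} {x : M} (hw : s - d + q - n = w)
    (hx : x ∈ Z D P 2 d s q) (h : (L ^ w) x ∈ B D P d (s - w) (q - w)) : x ∈ B D P d s q := by
  obtain ⟨a, y, ha, -, hy, hy', h⟩ := mem_B.1 h
  obtain ⟨y', hy1, hy2, a', ha', y'', -, rfl⟩ := H.surj w (d + 1) (s - w) (q - w + 1) y (by omega) hy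
    (cast hy' (by ring) rfl (by ring))
  have hy1' : y' ∈ P (d + 1) s (q + 1) := cast hy1 rfl (by ring) (by ring)
  have hy2' : D y' ∈ P d s q := cast hy2 (by ring) (by ring) (by ring)
  have e1 : (L ^ w) (x - (-1 : ℚ) ^ w • D y') = a + D a' := by
    rw [map_sub, h, map_add, map_add, H.hDD, H.D_pow w hy1', map_smul]
    abel
  obtain ⟨a'', ha'', z, hz, e2⟩ := H.inj w d s q (x - (-1 : ℚ) ^ w • D y') a a' hw
    (Submodule.sub_mem _ hx.1 (Submodule.smul_mem _ _ hy2'))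
    (by
      rw [map_sub, map_smul, H.hDD, smul_zero, sub_zero]
      exact H.le (by omega) hx.2) ha (cast ha' (by ring) rfl rfl) e1
  refine H.mem_B_of hx ha'' (y := z + (-1 : ℚ) ^ w • y')
    (Submodule.add_mem _ (H.le (by omega) hz) (Submodule.smul_mem _ _ hy1')) ?_
  rw [map_add, map_smul, ← add_assoc, ← e2]
  abel

theorem surj2 (H : DelHyp D L P n N) (w : ℕ) {d s q : ℤ} {x : M} (hw : s - d + q - n = - (w : ℤ))
    (hx : x ∈ Z D P 2 d s q) :
    ∃ x' ∈ Z D P 2 d (s + w) (q + w), x - (L ^ w) x' ∈ B D P d s q := by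
  obtain ⟨x', hx1, hx2, a, ha, y, hy, e⟩ := H.surj w d s q x hw hx.1 (H.le (by omega) hx.2)
  have e1 : (L ^ w) (D x') = (-1 : ℚ) ^ w • D x + D (-((-1 : ℚ) ^ w • a)) := by
    rw [H.pow_D w hx1, e, map_add, map_add, H.hDD, map_neg, map_smul, map_smul]
    simp only [smul_add, add_zero]
    abel
  obtain ⟨a', ha', z, hz, e2⟩ := H.inj w (d - 1) (s + w) (q + w - 1) (D x') _ _ (by omega) hx2
    (by rw [H.hDD]; exact Submodule.zero_mem _)
    (Submodule.smul_mem _ _ (cast hx.2 (by ring) (by ring) (by ring)))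
    (Submodule.neg_mem _ (Submodule.smul_mem _ _ (cast ha rfl (by ring) (by ring)))) e1
  have hz' : z ∈ P (d - 1) (s + w) (q + w) := cast hz rfl rfl (by ring)
  have hZ : x' - z ∈ Z D P 2 d (s + w) (q + w) := by
    refine mem_Z.2 ⟨Submodule.sub_mem _ hx1 (H.mono _ _ _ hz'), ?_⟩
    rw [map_sub, e2, add_sub_cancel_right]
    exact cast ha' (by ring) rfl rfl
  refine ⟨x' - z, hZ, ?_⟩
  refine H.mem_B_of (Submodule.sub_mem _ hx (castZ (H.pow_mem_Z w hZ) rfl rfl (by ring) (by ring)))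
    (a := a + (L ^ w) z) (y := y)
    (Submodule.add_mem _ ha (cast (H.pow_mem w hz') rfl (by ring) (by ring)))
    (H.le (by omega) hy) ?_
  rw [map_sub]
  nth_rewrite 1 [e]
  abel

theorem bound2 (H : DelHyp D L P n N) {d s q : ℤ} {x : M} (hw : N < s - d + q - n)
    (hx : x ∈ Z D P 2 d s q) : x ∈ B D P d s q := by
  obtain ⟨a, ha, y, hy, e⟩ := H.bound d s q x hw hx.1 (H.le (by omega) hx.2)
  exact H.mem_B_of hx ha (H.le (by omega) hy) e

/-- the statement `d_r = 0` -/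
def Claim (D : M →ₗ[ℚ] M) (P : ℤ → ℤ → ℤ → Submodule ℚ M) (r : ℕ) : Prop :=
  ∀ d s q x, x ∈ Z D P r d s q → ∃ y ∈ Z D P (r - 1) (d - 1) s q, x - y ∈ Z D P (r + 1) d s q

theorem Z_mono (H : DelHyp D L P n N) {r r' d s q : ℤ} (h : r ≤ r') {x : M}
    (hx : x ∈ Z D P r' d s q) : x ∈ Z D P r d s q := ⟨hx.1, H.le (by omega) hx.2⟩

theorem rep (H : DelHyp D L P n N) (r : ℕ) (ih : ∀ r' : ℕ, 2 ≤ r' → r' < r → Claim D P r')
    (k : ℕ) (hk : k + 2 ≤ r) {d s q : ℤ} {x : M} (hx : x ∈ Z D P 2 d s q) :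
    ∃ y ∈ Z D P 1 (d - 1) s q, x - y ∈ Z D P (k + 2) d s q := by
  induction k with
  | zero => exact ⟨0, Submodule.zero_mem _, by simpa using hx⟩
  | succ k ihk =>
    obtain ⟨y, hy, h⟩ := ihk (by omega)
    obtain ⟨y', hy', h'⟩ := ih (k + 2) (by omega) (by omega) d s q (x - y)
      (castZ h (by push_cast; ring) rfl rfl rfl)
    refine ⟨y + y', Submodule.add_mem _ hy (H.Z_mono (by push_cast; omega) hy'), ?_⟩
    rw [← sub_sub]
    exact castZ h' (by push_cast; ring) rfl rfl rfl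

theorem D_mem_B (H : DelHyp D L P n N) (r : ℕ) (ih : ∀ r' : ℕ, 2 ≤ r' → r' < r → Claim D P r')
    (k : ℕ) (hk : k + 1 < r) : ∀ {d s q : ℤ} {y : M}, y ∈ Z D P (k + 1) d s q →
      D y ∈ B D P (d - (k + 1)) s (q - 1) := by
  induction k with
  | zero =>
    intro d s q y hy
    exact Submodule.mem_sup_right (Submodule.mem_map_of_mem
      (castZ hy (by simp) (by simp) rfl (by ring)))
  | succ k ihk =>
    intro d s q y hy
    obtain ⟨y', hy', h'⟩ := ih (k + 2) (by omega) (by omega) d s q y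
      (castZ hy (by push_cast; ring) rfl rfl rfl)
    have e : D y = D (y - y') + D y' := by rw [map_sub]; abel
    rw [e]
    refine Submodule.add_mem _ (Submodule.mem_sup_left
      (mem_Z.2 ⟨cast h'.2 (by push_cast; ring) rfl rfl, ?_⟩))
      (castB (ihk (by omega) (castZ hy' (by push_cast; ring) rfl rfl rfl)) (by push_cast; ring) rfl rfl)
    rw [H.hDD]; exact Submodule.zero_mem _

/-- `D` of an element of `Z r` lying in `B 2` lies in `B 2` -/
theorem D_mem_B_of_B (H : DelHyp D L P n N) (k : ℕ)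
    (ih : ∀ r' : ℕ, 2 ≤ r' → r' < k + 2 → Claim D P r') {d s q : ℤ} {x : M}
    (hx : x ∈ Z D P (k + 2) d s q) (hb : x ∈ B D P d s q) :
    D x ∈ B D P (d - (k + 2)) s (q - 1) := by
  obtain ⟨a, y, ha, -, -, -, e⟩ := mem_B.1 hb
  have e1 : D x = D a := by rw [e, map_add, H.hDD, add_zero]
  have := H.D_mem_B (k + 2) ih k (by omega) (d := d - 1) (s := s) (q := q) (y := a)
    (mem_Z.2 ⟨ha, by
      rw [← e1]; exact cast hx.2 (by ring) rfl rfl⟩)
  rw [e1]
  exact castB this (by ring) rfl rfl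

theorem D_mem_Z (H : DelHyp D L P n N) {r d s q : ℤ} {x : M} (hx : x ∈ Z D P r d s q) :
    D x ∈ Z D P 2 (d - r) s (q - 1) := by
  refine mem_Z.2 ⟨hx.2, ?_⟩
  rw [H.hDD]; exact Submodule.zero_mem _

theorem delta_nonneg (H : DelHyp D L P n N) (k : ℕ)
    (ih : ∀ r' : ℕ, 2 ≤ r' → r' < k + 2 → Claim D P r') (m : ℕ) :
    ∀ (w : ℕ) (d s q : ℤ) (x : M), s - d + q - n = w → N < w + m → x ∈ Z D P (k + 2) d s q →
      D x ∈ B D P (d - (k + 2)) s (q - 1) := by
  induction m with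
  | zero =>
    intro w d s q x hw hN hx
    exact H.D_mem_B_of_B k ih hx (H.bound2 (by omega) (H.Z_mono (by omega) hx))
  | succ m ihm =>
    intro w d s q x hw hN hx
    have hx2 : x ∈ Z D P 2 d s q := H.Z_mono (by omega) hx
    obtain ⟨y₀, hy₀, hb₀⟩ := H.surj2 (w + 2) (d := d) (s := s - (w + 1 : ℕ)) (q := q - (w + 1 : ℕ))
      (by push_cast; omega) (H.pow_mem_Z (w + 1) hx2)
    obtain ⟨u, hu, hy⟩ := H.rep (k + 2) ih k le_rfl hy₀
    set y := y₀ - u with hydef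
    have hy' : y ∈ Z D P (k + 2) d (s + 1) (q + 1) :=
      castZ hy rfl rfl (by push_cast; ring) (by push_cast; ring)
    have hDy : D y ∈ B D P (d - (k + 2)) (s + 1) (q + 1 - 1) :=
      ihm (w + 2) d (s + 1) (q + 1) y (by push_cast; omega) (by push_cast; omega) hy'
    have hLy : L y ∈ Z D P (k + 2) d s q := by
      have := H.pow_mem_Z 1 hy'
      rw [pow_one] at this
      exact castZ this rfl rfl (by push_cast; ring) (by push_cast; ring)
    have hDLy : D (L y) ∈ B D P (d - (k + 2)) s (q - 1) := by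
      rw [H.hDL _ _ _ _ hy'.1]
      have := H.pow_mem_B 1 hDy
      rw [pow_one] at this
      exact Submodule.neg_mem _ (castB this rfl (by push_cast; ring) (by push_cast; ring))
    have hp : x - L y ∈ Z D P (k + 2) d s q := Submodule.sub_mem _ hx hLy
    have hprim : (L ^ (w + 1)) (x - L y) ∈ B D P d (s - (w + 1 : ℕ)) (q - (w + 1 : ℕ)) := by
      have e : (L ^ (w + 1)) (x - L y) =
          ((L ^ (w + 1)) x - (L ^ (w + 2)) y₀) + (L ^ (w + 2)) u := by
        rw [map_sub, ← Module.End.mul_apply, ← pow_succ, hydef, map_sub]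
        abel
      rw [e]
      refine Submodule.add_mem _ hb₀ (Submodule.mem_sup_left ?_)
      exact castZ (H.pow_mem_Z (w + 2) hu) rfl rfl (by push_cast; ring) (by push_cast; ring)
    have h1 := H.D_mem_B_of_B k ih (H.pow_mem_Z (w + 1) hp) hprim
    rw [H.D_pow _ hp.1] at h1
    have h2 : (L ^ (w + 1)) (D (x - L y)) ∈
        B D P (d - (k + 2)) (s - (w + 1 : ℕ)) (q - (w + 1 : ℕ) - 1) := by
      have := Submodule.smul_mem _ ((-1 : ℚ) ^ (w + 1)) h1
      rwa [smul_smul, ← mul_pow, neg_mul_neg, one_mul, one_pow, one_smul] at this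
    have h3 := H.pow_mem_B k h2
    rw [← Module.End.mul_apply, ← pow_add] at h3
    have h4 := H.inj2 (k + (w + 1)) (d := d - (k + 2)) (s := s) (q := q - 1) (by push_cast; omega)
      (H.D_mem_Z hp) (castB h3 rfl (by push_cast; ring) (by push_cast; ring))
    have e : D x = D (x - L y) + D (L y) := by rw [map_sub]; abel
    rw [e]
    exact Submodule.add_mem _ h4 hDLy

theorem delta (H : DelHyp D L P n N) (k : ℕ)
    (ih : ∀ r' : ℕ, 2 ≤ r' → r' < k + 2 → Claim D P r') {d s q : ℤ} {x : M}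
    (hx : x ∈ Z D P (k + 2) d s q) : D x ∈ B D P (d - (k + 2)) s (q - 1) := by
  rcases le_total 0 (s - d + q - n) with h | h
  · exact H.delta_nonneg k ih (N + 1).toNat (s - d + q - n).toNat d s q x (by omega) (by omega) hx
  · set w := (-(s - d + q - n)).toNat with hw
    obtain ⟨y₀, hy₀, hb₀⟩ := H.surj2 w (d := d) (s := s) (q := q) (by omega)
      (H.Z_mono (by omega) hx)
    obtain ⟨u, hu, hy⟩ := H.rep (k + 2) ih k le_rfl hy₀
    have hDy := H.delta_nonneg k ih (N + 1).toNat w d (s + w) (q + w) (y₀ - u) (by omega)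
      (by omega) hy
    have hLy : (L ^ w) (y₀ - u) ∈ Z D P (k + 2) d s q :=
      castZ (H.pow_mem_Z w hy) rfl rfl (by ring) (by ring)
    have hb : x - (L ^ w) (y₀ - u) ∈ B D P d s q := by
      have e : x - (L ^ w) (y₀ - u) = (x - (L ^ w) y₀) + (L ^ w) u := by rw [map_sub]; abel
      rw [e]
      exact Submodule.add_mem _ hb₀ (Submodule.mem_sup_left
        (castZ (H.pow_mem_Z w hu) rfl rfl (by ring) (by ring)))
    have h1 := H.D_mem_B_of_B k ih (Submodule.sub_mem _ hx hLy) hb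
    have e : D x = D (x - (L ^ w) (y₀ - u)) + D ((L ^ w) (y₀ - u)) := by rw [map_sub D]; abel
    rw [e, H.D_pow w hy.1]
    exact Submodule.add_mem _ h1 (Submodule.smul_mem _ _
      (castB (H.pow_mem_B w hDy) rfl (by ring) (by ring)))

theorem claim (H : DelHyp D L P n N) (r : ℕ) : 2 ≤ r → Claim D P r := by
  induction r using Nat.strong_induction_on with
  | _ r ih =>
    intro hr
    obtain ⟨k, rfl⟩ : ∃ k, r = k + 2 := ⟨r - 2, by omega⟩
    intro d s q x hx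
    have h := H.delta k (fun r' h1 h2 => ih r' h2 h1) (d := d) (s := s) (q := q) (x := x)
      (castZ hx (by push_cast; ring) rfl rfl rfl)
    obtain ⟨a, y, ha, -, hy, hy', e⟩ := mem_B.1 h
    have hy1 : y ∈ P (d - 1) s q := H.le (by omega) (cast hy rfl rfl (by ring))
    refine ⟨y, ⟨hy1, cast hy' (by push_cast; ring) rfl rfl⟩,
      mem_Z.2 ⟨Submodule.sub_mem _ hx.1 (H.mono _ _ _ hy1), ?_⟩⟩
    rw [map_sub, e, add_sub_cancel_right]
    exact cast ha (by push_cast; ring) rfl rfl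

end DelHyp

/-- Deligne's degeneration argument. `P d s q` is the filtration step `d` in bidegree `(s, q)`;
the weight of its graded piece is `s - d + q - n`. -/
theorem deligne {M : Type} [AddCommGroup M] [Module ℚ M] (D L : M →ₗ[ℚ] M)
    (P : ℤ → ℤ → ℤ → Submodule ℚ M) (n N : ℤ)
    (mono : ∀ d s q, P (d - 1) s q ≤ P d s q)
    (_stab : ∀ d s q, d ≤ -1 → P d s q ≤ P (d - 1) s q)
    (hD : ∀ d s q x, x ∈ P d s q → D x ∈ P d s (q - 1))
    (hL : ∀ d s q x, x ∈ P d s q → L x ∈ P d (s - 1) (q - 1))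
    (hDD : ∀ x, D (D x) = 0)
    (hDL : ∀ d s q x, x ∈ P d s q → D (L x) = - L (D x))
    (inj : ∀ (w : ℕ) (d s q : ℤ) (x a y : M), s - d + q - n = w → x ∈ P d s q →
      D x ∈ P (d - 1) s (q - 1) → a ∈ P (d - 1) (s - w) (q - w) → y ∈ P d (s - w) (q - w + 1) →
      (L ^ w) x = a + D y → ∃ a' ∈ P (d - 1) s q, ∃ y' ∈ P d s (q + 1), x = a' + D y')
    (surj : ∀ (w : ℕ) (d s q : ℤ) (x : M), s - d + q - n = - (w : ℤ) → x ∈ P d s q →
      D x ∈ P (d - 1) s (q - 1) → ∃ x' ∈ P d (s + w) (q + w), D x' ∈ P (d - 1) (s + w) (q + w - 1) ∧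
        ∃ a ∈ P (d - 1) s q, ∃ y ∈ P d s (q + 1), x = (L ^ w) x' + a + D y)
    (bound : ∀ (d s q : ℤ) (x : M), N < s - d + q - n → x ∈ P d s q →
      D x ∈ P (d - 1) s (q - 1) → ∃ a ∈ P (d - 1) s q, ∃ y ∈ P d s (q + 1), x = a + D y)
    (d s q : ℤ) (x : M) (hx : x ∈ P d s q) (hx2 : D x ∈ P (d - 2) s (q - 1)) :
    ∃ y ∈ P (d - 1) s q, D (x - y) ∈ P (-1) s (q - 1) := by
  have H : DelHyp D L P n N := ⟨mono, hD, hL, hDD, hDL, inj, surj, bound⟩
  obtain ⟨y, hy, h⟩ := H.rep (d.toNat + 2) (fun r' h _ => H.claim r' h) d.toNat le_rfl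
    (d := d) (s := s) (q := q) (x := x) ⟨hx, hx2⟩
  exact ⟨y, hy.1, H.le (by omega) h.2⟩

end Pool.Agent.Lead.THC
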