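import Pool.Agent.Lead.THC.Meets
import Pool.Agent.Lead.THC.Chains

set_option autoImplicit false

open scoped BigOperators

noncomputable section

namespace Pool.Agent.Lead.THC

namespace SR

/-- affinely independent lists, in homogeneous coordinates -/
def AI {V : Type} [AddCommGroup V] [Module ℝ V] (L : List V) : Prop :=
  L.Nodup ∧ LinearIndepOn ℝ (fun p : V => ((1 : ℝ), p)) {p | p ∈ L}

section
variable {V : Type} [AddCommGroup V] [Module ℝ V]

lemma ai_nil : AI ([] : List V) := ⟨List.nodup_nil, by simp⟩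

lemma AI.cons {L : List V} (h : AI L) {p : V} (F : V →ₗ[ℝ] ℝ) (c : ℝ) (h1 : F p ≠ c)
    (h2 : ∀ q ∈ L, F q = c) : AI (p :: L) := by
  refine ⟨List.nodup_cons.2 ⟨fun hp => h1 (h2 p hp), h.1⟩, ?_⟩
  have e : {q | q ∈ p :: L} = insert p {q | q ∈ L} := by ext q; simp
  rw [e]
  refine h.2.insert fun hp => h1 ?_
  have : Submodule.span ℝ ((fun p : V => ((1 : ℝ), p)) '' {q | q ∈ L}) ≤
      LinearMap.ker (F.comp (LinearMap.snd ℝ ℝ V) - c • LinearMap.fst ℝ ℝ V) := by
    rw [Submodule.span_le]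
    rintro _ ⟨q, hq, rfl⟩
    simp [h2 q hq]
  simpa [sub_eq_zero] using this hp

lemma AI.perm {L L' : List V} (h : AI L) (hp : L.Perm L') : AI L' :=
  ⟨hp.nodup_iff.1 h.1, by simpa only [hp.mem_iff] using h.2⟩

lemma AI.get {L : List V} (h : AI L) : AffineIndependent ℝ L.get := by
  have h1 : LinearIndependent ℝ fun i => ((1 : ℝ), L.get i) :=
    LinearIndependent.comp h.2 (fun i => ⟨L.get i, List.get_mem L i⟩)
      fun i j e => h.1.injective_get (Subtype.mk.inj e)
  rw [affineIndependent_iff]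
  intro s w h2 h3
  refine linearIndependent_iff'.1 h1 s w (Prod.ext ?_ ?_)
  · simpa [Prod.fst_sum] using h2
  · simpa [Prod.snd_sum] using h3

end

/-- real vector of a rational vector -/
def re (μ : E) : ℕ →₀ ℝ := μ.mapRange (fun q : ℚ => (q : ℝ)) Rat.cast_zero

/-- real extension of a rational form -/
def ex (f : Module.Dual ℚ E) : (ℕ →₀ ℝ) →ₗ[ℝ] ℝ :=
  Finsupp.linearCombination ℝ fun v => (f (Finsupp.single v 1) : ℝ)

lemma ex_re (f : Module.Dual ℚ E) (μ : E) : ex f (re μ) = f μ := by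
  induction μ using Finsupp.induction_linear with
  | zero => simp [re]
  | add a b ha hb =>
    have : re (a + b) = re a + re b := Finsupp.mapRange_add (fun x y => Rat.cast_add x y) a b
    rw [this, map_add, map_add, ha, hb, Rat.cast_add]
  | single v q =>
    rw [re, Finsupp.mapRange_single, ex, Finsupp.linearCombination_single,
      ← Finsupp.smul_single_one v q, map_smul]
    simp

lemma re_single (v : ℕ) : re (Finsupp.single v 1) = Finsupp.single v 1 := by simp [re]

lemma theta_re (θ : ℝ →ₗ[ℚ] ℚ) (t : ℝ) (μ : E) :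
    Finsupp.mapRange.linearMap θ (t • re μ) = θ t • μ := by
  ext v
  have : t * (μ v : ℝ) = μ v • t := by rw [Rat.smul_def, mul_comm]
  simp [re, this, mul_comm]

variable {r : ℕ} {X : Space r} (st : St X)

open Classical in
/-- chosen coefficients of an interior point -/
def co (S : Finset ℕ) : ℕ → ℝ := if h : st.Meets S then h.choose else 0

lemma co_spec {S : Finset ℕ} (h : st.Meets S) : (∀ a ∈ S, 0 < co st S a) ∧
    ∀ i, ∑ a ∈ S, co st S a * ((lvl X.lev i (st.pos a) : ℚ) : ℝ) = X.b i := by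
  rw [co, dif_pos h]; exact h.choose_spec

/-- chosen interior point -/
def bp (S : Finset ℕ) : ℕ →₀ ℝ := ∑ a ∈ S, co st S a • re (st.pos a)

lemma ex_bp (f : Module.Dual ℚ E) (S : Finset ℕ) :
    ex f (bp st S) = ∑ a ∈ S, co st S a * (f (st.pos a) : ℝ) := by
  simp only [bp, map_sum, map_smul, ex_re, smul_eq_mul]

lemma bp_apply (S : Finset ℕ) (v : ℕ) : bp st S v = ∑ a ∈ S, co st S a * (st.pos a v : ℝ) := by
  simp [bp, re, Finsupp.finsetSum_apply]

lemma isPt_bp {S : Finset ℕ} (h : st.Meets S) {ρ : Finset ℕ} (hρ : ∀ v ∈ ρ, X.lev v = ⊥) :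
    X.IsPt (bp st S, ρ) := by
  obtain ⟨h1, h2⟩ := co_spec st h
  refine ⟨fun v => ?_, fun i => ?_, hρ⟩
  · rw [bp_apply]
    exact Finset.sum_nonneg fun a ha =>
      mul_nonneg (h1 a ha).le (by exact_mod_cast st.pos_nonneg a v)
  · rw [← h2, ← ex_bp, ex, Finsupp.linearCombination_apply]
    refine Finsupp.sum_congr fun v _ => ?_
    simp only [lvl, Finsupp.linearCombination_single]
    split_ifs <;> simp

lemma support_bp {S : Finset ℕ} (h : st.Meets S) : (bp st S).support = st.kap S := by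
  obtain ⟨h1, -⟩ := co_spec st h
  ext v
  rw [Finsupp.mem_support_iff, bp_apply, ne_eq, Finset.sum_eq_zero_iff_of_nonneg fun a ha =>
    mul_nonneg (h1 a ha).le (by exact_mod_cast st.pos_nonneg a v)]
  simp only [St.kap, Finset.mem_biUnion, Finsupp.mem_support_iff, not_forall, mul_eq_zero,
    Rat.cast_eq_zero, not_or, exists_prop]
  exact ⟨fun ⟨a, ha, _, h⟩ => ⟨a, ha, h⟩, fun ⟨a, ha, h⟩ => ⟨a, ha, (h1 a ha).ne', h⟩⟩

lemma theta_bp {S R : Finset ℕ} (h : st.Meets R) (hR : R ⊆ S) (θ : ℝ →ₗ[ℚ] ℚ) :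
    Finsupp.mapRange.linearMap θ (bp st R) ∈ Submodule.span ℚ (st.pos '' (S : Set ℕ)) ∧
      ∀ i, lvl X.lev i (Finsupp.mapRange.linearMap θ (bp st R)) = θ (X.b i) := by
  simp only [bp, map_sum, theta_re]
  refine ⟨Submodule.sum_mem _ fun a ha => Submodule.smul_mem _ _
    (Submodule.subset_span ⟨a, hR ha, rfl⟩), fun i => ?_⟩
  rw [← (co_spec st h).2 i, map_sum]
  refine Finset.sum_congr rfl fun a _ => ?_
  rw [map_smul, mul_comm, ← Rat.smul_def, map_smul, smul_eq_mul, smul_eq_mul, mul_comm]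

/-- decreasing flags of meeting simplices inside a simplex -/
inductive Fl : Finset ℕ → ℕ → List (Finset ℕ) → Prop
  | zero {S R : Finset ℕ} : R ⊆ S → st.Meets R → R.card = r → Fl S 0 [R]
  | succ {S R : Finset ℕ} {q : ℕ} {l : List (Finset ℕ)} :
      R ⊆ S → st.Meets R → R.card = r + q + 1 → Fl R q l → Fl S (q + 1) (R :: l)

variable {st}

lemma Fl.mono {S S' : Finset ℕ} {q : ℕ} {l : List (Finset ℕ)} (h : Fl st S q l) (hS : S ⊆ S') :
    Fl st S' q l := by
  cases h with
  | zero a b c => exact .zero (a.trans hS) b c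
  | succ a b c d => exact .succ (a.trans hS) b c d

lemma Fl.mem {S : Finset ℕ} {q : ℕ} {l : List (Finset ℕ)} (h : Fl st S q l) :
    l.length = q + 1 ∧ ∀ R ∈ l, R ⊆ S ∧ st.Meets R := by
  induction h with
  | zero a b c => simp [a, b]
  | succ a b c d ih =>
    refine ⟨by simp [ih.1], fun R hR => ?_⟩
    rcases List.mem_cons.1 hR with rfl | hR
    · exact ⟨a, b⟩
    · exact ⟨(ih.2 R hR).1.trans a, (ih.2 R hR).2⟩

lemma Fl.head {S : Finset ℕ} {q : ℕ} {l : List (Finset ℕ)} (h : Fl st S q l) :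
    ∃ R l', l = R :: l' ∧ R ⊆ S ∧ R.card = r + q ∧ ∀ R' ∈ l, R' ⊆ R := by
  cases h with
  | zero a b c => exact ⟨_, _, rfl, a, c, by simp⟩
  | succ a b c d =>
    refine ⟨_, _, rfl, a, c, fun R' hR => ?_⟩
    rcases List.mem_cons.1 hR with rfl | hR
    · exact subset_rfl
    · exact (d.mem.2 R' hR).1

lemma ex_dual {S R : Finset ℕ} {f : ℕ → Module.Dual ℚ E}
    (hf : ∀ a ∈ S, ∀ a' ∈ S, f a (st.pos a') = if a = a' then 1 else 0) (hR : R ⊆ S) {a : ℕ}
    (ha : a ∈ S) : ex (f a) (bp st R) = if a ∈ R then co st R a else 0 := by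
  rw [ex_bp, ← Finset.sum_ite_eq]
  refine Finset.sum_congr rfl fun a' h => ?_
  rw [hf a ha a' (hR h)]
  split_ifs <;> simp

lemma Fl.ai {S₀ : Finset ℕ} {f : ℕ → Module.Dual ℚ E}
    (hf : ∀ a ∈ S₀, ∀ a' ∈ S₀, f a (st.pos a') = if a = a' then 1 else 0)
    {S : Finset ℕ} {q : ℕ} {l : List (Finset ℕ)} (h : Fl st S q l) (hS : S ⊆ S₀) :
    AI (l.map (bp st)) := by
  induction h with
  | zero a b c => exact ai_nil.cons 0 1 (by simp) (by simp)
  | @succ S R q l a b c d ih =>
    obtain ⟨R', l', -, h1, h2, h3⟩ := d.head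
    obtain ⟨v, hv, hv'⟩ := Finset.exists_mem_notMem_of_card_lt_card (show R'.card < R.card by omega)
    have hR := a.trans hS
    refine (ih hR).cons (ex (f v)) 0 ?_ fun p hp => ?_
    · rw [ex_dual hf hR (hR hv), if_pos hv]
      exact ((co_spec st b).1 v hv).ne'
    · obtain ⟨R'', h4, rfl⟩ := List.mem_map.1 hp
      rw [ex_dual hf ((h3 _ h4).trans (h1.trans hR)) (hR hv), if_neg fun h => hv' (h3 _ h4 h)]

lemma ai_rays {V : Type} [AddCommGroup V] [Module ℝ V] {x : List V} (hx : AI x) (p : V)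
    (e : ℕ → V) (F : ℕ → V →ₗ[ℝ] ℝ) (ρ : List ℕ) (hρ : ρ.Nodup)
    (h1 : ∀ v ∈ ρ, F v p = 0 ∧ ∀ q ∈ x, F v q = 0)
    (h2 : ∀ v ∈ ρ, ∀ w ∈ ρ, F v (e w) = if v = w then 1 else 0) :
    AI (x ++ ρ.map fun v => p + e v) := by
  induction ρ with
  | nil => simpa using hx
  | cons v ρ ih =>
    have hv := List.nodup_cons.1 hρ
    have m := List.mem_cons_self (a := v) (l := ρ)
    refine ((ih hv.2 (fun w hw => h1 w (List.mem_cons_of_mem _ hw)) fun w hw u hu =>
      h2 w (List.mem_cons_of_mem _ hw) u (List.mem_cons_of_mem _ hu)).cons (F v) 0 ?_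
        fun q hq => ?_).perm List.perm_middle.symm
    · simp [(h1 v m).1, h2 v m v m]
    · rcases List.mem_append.1 hq with hq | hq
      · exact (h1 v m).2 q hq
      · obtain ⟨w, hw, rfl⟩ := List.mem_map.1 hq
        rw [map_add, (h1 v m).1, h2 v m w (List.mem_cons_of_mem _ hw),
          if_neg fun h : v = w => hv.1 (h ▸ hw), add_zero]

lemma finrank_tan {S : Finset ℕ} (hS : S ∈ st.cx) {k : ℕ} (hk : S.card = k + r) {ε : Fin r → E}
    (hε : ∀ i, ε i ∈ Submodule.span ℚ (st.pos '' (S : Set ℕ)))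
    (hd : ∀ i j, lvl X.lev j (ε i) = if i = j then 1 else 0) :
    Module.finrank ℚ (Submodule.span ℚ (st.pos '' (S : Set ℕ)) ⊓
      ⨅ i, LinearMap.ker (lvl X.lev i) : Submodule ℚ E) = k := by
  have h1 : Module.finrank ℚ (Submodule.span ℚ (st.pos '' (S : Set ℕ))) = k + r := by
    have := finrank_span_eq_card (st.indep S hS)
    rw [Fintype.card_coe, hk] at this
    rw [Set.image_eq_range]
    exact this
  have : Module.Finite ℚ (Submodule.span ℚ (st.pos '' (S : Set ℕ))) :=
    Module.Finite.span_of_finite ℚ (S.finite_toSet.image _)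
  generalize Submodule.span ℚ (st.pos '' (S : Set ℕ)) = W at *
  have h2 := LinearMap.finrank_range_add_finrank_ker
    ((LinearMap.pi fun i => lvl X.lev i).comp W.subtype)
  have h3 : LinearMap.range ((LinearMap.pi fun i => lvl X.lev i).comp W.subtype) = ⊤ := by
    rw [LinearMap.range_eq_top]
    intro y
    refine ⟨∑ i, y i • ⟨ε i, hε i⟩, funext fun j => ?_⟩
    simp [hd]
  rw [h3, h1, finrank_top, Module.finrank_fin_fun, LinearMap.ker_comp, LinearMap.ker_pi,
    ← Submodule.finrank_map_subtype_eq, Submodule.map_comap_subtype] at h2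
  omega

lemma straight {S : Finset ℕ} (hS : S ∈ st.cx) (hM : st.Meets S) {k q : ℕ} (hk : S.card = k + r)
    (hq : (S \ X.rays).card = r + q) {l : List (Finset ℕ)} (h : Fl st (S \ X.rays) q l) :
    X.Straight k (l.map (bp st)) ((S ∩ X.rays).sort (· ≥ ·))
      (X.comp Finset.univ (wedge st.pos S)) := by
  obtain ⟨hl, hm⟩ := h.mem
  obtain ⟨R, l', rfl, h1, h2, -⟩ := h.head
  obtain rfl : R = S \ X.rays := Finset.eq_of_subset_of_card_le h1 (by omega)
  have hρ : ∀ v ∈ S ∩ X.rays, X.lev v = ⊥ := fun v hv =>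
    St.lev_of_mem_rays (Finset.mem_inter.1 hv).2
  have hcar : car ((((S \ X.rays) :: l').map (bp st)).map fun y => (y, S ∩ X.rays)) = st.kap S := by
    rw [st.kap_eq hS]
    ext v
    simp only [mem_car, List.mem_map, exists_exists_and_eq_and, Finset.mem_union]
    constructor
    · rintro ⟨R, hR, h | h⟩
      · rw [support_bp st (hm R hR).2] at h
        exact Or.inl (st.kap_mono (hm R hR).1 h)
      · exact Or.inr h
    · intro h
      refine ⟨_, List.mem_cons_self, ?_⟩
      rwa [support_bp st (hm _ List.mem_cons_self).2]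
  obtain ⟨f, -, hf⟩ := st.exists_dual hS
  choose m hm' using st.exists_section hM
  have hε : ∀ i, ∑ a ∈ S \ X.rays, m i a • st.pos a ∈ Submodule.span ℚ (st.pos '' (S : Set ℕ)) :=
    fun i => Submodule.sum_mem _ fun a ha => Submodule.smul_mem _ _
      (Submodule.subset_span ⟨a, Finset.sdiff_subset ha, rfl⟩)
  have hd : ∀ i j, lvl X.lev j (∑ a ∈ S \ X.rays, m i a • st.pos a) = if i = j then 1 else 0 :=
    fun i j => by simp only [map_sum, map_smul, smul_eq_mul, hm']
  unfold Space.Straight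
  rw [Finset.sort_toFinset, hcar]
  refine ⟨by simp, ?_, fun y hy => ?_, st.kap_mem' hS, AI.get ?_, _, finrank_tan hS hk hε hd,
    inf_le_inf_right _ (Submodule.span_le.2 ?_), fun y hy y' hy' θ => ?_, fun v hv => ?_, ?_⟩
  · have := Finset.card_sdiff_add_card_inter S X.rays
    rw [List.length_map, hl, Finset.length_sort]
    omega
  · obtain ⟨R, hR, rfl⟩ := List.mem_map.1 hy
    exact isPt_bp st (hm R hR).2 hρ
  · have z : ∀ v ∈ (S ∩ X.rays).sort (· ≥ ·), ∀ R ∈ (S \ X.rays) :: l',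
        ex (f v) (bp st R) = 0 := fun v hv R hR => by
      have hv := Finset.mem_inter.1 ((Finset.mem_sort _).1 hv)
      rw [ex_dual hf ((hm R hR).1.trans Finset.sdiff_subset) hv.1,
        if_neg fun h => (Finset.mem_sdiff.1 ((hm R hR).1 h)).2 hv.2]
    refine ai_rays (h.ai hf Finset.sdiff_subset) _ _ (fun v => ex (f v)) _ (Finset.sort_nodup _ _)
      (fun v hv => ⟨z v hv _ List.mem_cons_self, fun p hp => ?_⟩) fun v hv w hw => ?_
    · obtain ⟨R, hR, rfl⟩ := List.mem_map.1 hp
      exact z v hv R hR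
    · have hv := Finset.mem_inter.1 ((Finset.mem_sort _).1 hv)
      have hw := Finset.mem_inter.1 ((Finset.mem_sort _).1 hw)
      rw [← re_single, ex_re, ← st.pos_ray w hw.2, hf v hv.1 w hw.1]
      split_ifs <;> simp
  · rintro _ ⟨a, ha, rfl⟩
    exact st.pos_mem_supp ha
  · obtain ⟨R, hR, rfl⟩ := List.mem_map.1 hy
    obtain ⟨R', hR', rfl⟩ := List.mem_map.1 hy'
    obtain ⟨a1, a2⟩ := theta_bp st (hm R hR).2 ((hm R hR).1.trans Finset.sdiff_subset) θ
    obtain ⟨a3, a4⟩ := theta_bp st (hm R' hR').2 ((hm R' hR').1.trans Finset.sdiff_subset) θ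
    rw [← Finsupp.mapRange.linearMap_apply, map_sub]
    refine ⟨sub_mem a1 a3, (Submodule.mem_iInf _).2 fun i => ?_⟩
    rw [LinearMap.mem_ker, map_sub, a2, a4, sub_self]
  · have hv := Finset.mem_inter.1 ((Finset.mem_sort _).1 hv)
    rw [← st.pos_ray v hv.2]
    exact ⟨Submodule.subset_span ⟨v, hv.1, rfl⟩,
      (Submodule.mem_iInf _).2 fun i => st.lvl_pos_ray hv.2 i⟩
  · refine X.mem_pow_inf_ker hε hd (X.comp_mem_pow _ ?_) fun i =>
      X.ctr_lvl_comp (Finset.mem_univ i) _
    rw [Finset.card_univ, Fintype.card_fin, ← hk]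
    exact wedge_mem_pow fun a ha => Submodule.subset_span ⟨a, ha, rfl⟩

variable (st)

open Classical in
/-- boundary of a bounded cell -/
def dd (S : Finset ℕ) : Finset ℕ →₀ ℚ :=
  ∑ v ∈ S, if st.Meets (S.erase v) then Finsupp.single (S.erase v) (sgn v (S.erase v)) else 0

open Classical in
lemma lc_dd {M : Type} [AddCommGroup M] [Module ℚ M] (f : Finset ℕ → M) (S : Finset ℕ) :
    Finsupp.linearCombination ℚ f (dd st S) =
      ∑ v ∈ S, if st.Meets (S.erase v) then sgn v (S.erase v) • f (S.erase v) else 0 := by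
  rw [dd, map_sum]
  refine Finset.sum_congr rfl fun v _ => ?_
  split_ifs <;> simp

lemma mem_dd {S R : Finset ℕ} (h : R ∈ (dd st S).support) :
    ∃ v ∈ S, R = S.erase v ∧ st.Meets R := by
  obtain ⟨v, hv, h1⟩ := Finsupp.mem_support_finsetSum _ h
  split_ifs at h1 with h2
  · have := Finset.mem_singleton.1 (Finsupp.support_single_subset h1)
    exact ⟨v, hv, this, this ▸ h2⟩
  · simp at h1

lemma dd_dd (S : Finset ℕ) : Finsupp.linearCombination ℚ (dd st) (dd st S) = 0 := by
  classical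
  set F : ℕ → ℕ → Finset ℕ →₀ ℚ := fun v w => if w ≠ v ∧ st.Meets ((S.erase v).erase w) then
    Finsupp.single ((S.erase v).erase w) (sgn v (S.erase v) * sgn w ((S.erase v).erase w)) else 0
  have h1 : Finsupp.linearCombination ℚ (dd st) (dd st S) = ∑ v ∈ S, ∑ w ∈ S, F v w := by
    rw [lc_dd]
    refine Finset.sum_congr rfl fun v hv => ?_
    split_ifs with h
    · rw [dd, Finset.smul_sum, ← Finset.sum_erase (s := S) (a := v) (by simp [F])]
      refine Finset.sum_congr rfl fun w hw => ?_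
      simp only [F, (Finset.mem_erase.1 hw).1, ne_eq, not_false_eq_true, true_and]
      split_ifs <;> simp
    · exact (Finset.sum_eq_zero fun w _ =>
        if_neg fun h' => h (st.meets_mono (Finset.erase_subset _ _) h'.2)).symm
  have h2 : ∀ v ∈ S, ∀ w ∈ S, F v w = -F w v := by
    intro v hv w hw
    by_cases h : w = v
    · simp [F, h]
    have h' : v ≠ w := fun e => h e.symm
    simp only [F, ne_eq, h, h', not_false_eq_true, true_and, Finset.erase_right_comm (a := w)]
    split_ifs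
    · have e1 : S.erase v = insert w ((S.erase v).erase w) :=
        (Finset.insert_erase (Finset.mem_erase.2 ⟨h, hw⟩)).symm
      have e2 : S.erase w = insert v ((S.erase v).erase w) := by
        rw [Finset.erase_right_comm]
        exact (Finset.insert_erase (Finset.mem_erase.2 ⟨h', hv⟩)).symm
      have := sgn_anticomm h' (R := (S.erase v).erase w) (by simp) (by simp)
      rw [← e1, ← e2] at this
      rw [← Finsupp.single_neg]
      congr 1
      linarith
    · simp
  have h3 : ∑ v ∈ S, ∑ w ∈ S, F v w = -∑ v ∈ S, ∑ w ∈ S, F v w := by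
    conv_rhs => rw [Finset.sum_comm]
    simp only [← Finset.sum_neg_distrib]
    exact Finset.sum_congr rfl fun v hv => Finset.sum_congr rfl fun w hw => h2 v hv w hw
  rw [h1]
  ext R
  have := DFunLike.congr_fun h3 R
  rw [Finsupp.neg_apply] at this
  rw [Finsupp.zero_apply]
  linarith

/-- chains spanned by flags -/
def CC (S : Finset ℕ) (q : ℕ) : Submodule ℚ (List Pt →₀ ℚ) :=
  Finsupp.supported ℚ ℚ {l | ∃ fl, Fl st S q fl ∧ l = (fl.map (bp st)).map fun y => (y, ∅)}

end SR

open SR in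
/-- a realization by flags of interior points; its simplices are straight -/
theorem St.exists_straight_real {r : ℕ} {X : Space r} (st : St X) (hA : st.Aug) :
    ∃ ψ, st.IsReal ψ ∧ ∀ S ∈ st.cx, st.Meets S → ∀ k, S.card = k + r →
      ∀ l ∈ (ψ (S \ X.rays)).support, ∃ x : List (ℕ →₀ ℝ), l = x.map (fun y => (y, ∅)) ∧
        X.Straight k x ((S ∩ X.rays).sort (· ≥ ·)) (X.comp Finset.univ (wedge st.pos S)) := by
  have hr : ∀ {S}, st.Meets S → r ≤ S.card := fun h =>
    (st.le_card_of_meets h).trans (Finset.card_le_card Finset.sdiff_subset)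
  have len : ∀ {S q x}, x ∈ CC st S q → ∀ l ∈ x.support, l.length = q + 1 := fun h l hl => by
    obtain ⟨fl, h1, rfl⟩ := h hl
    simp [h1.mem.1]
  obtain ⟨ψ, hψ⟩ := exists_carried_map (fun S => S ∈ st.cx ∧ Disjoint S X.rays ∧ st.Meets S)
    (fun S => S.card - r) (dd st) (fun S hS R hR => by
      obtain ⟨v, hv, rfl, h⟩ := mem_dd st hR
      have := hr h
      have := Finset.card_erase_add_one hv
      exact ⟨⟨st.down S hS.1 _ (Finset.erase_subset _ _),
        hS.2.1.mono_left (Finset.erase_subset _ _), h⟩, by omega⟩)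
    (fun S _ => dd_dd st S) bdryL aug (CC st) (fun S hS R hR q => by
      obtain ⟨v, hv, rfl, h⟩ := mem_dd st hR
      exact Finsupp.supported_mono fun l ⟨fl, h1, h2⟩ => ⟨fl, h1.mono (Finset.erase_subset _ _), h2⟩)
    st.o (fun S hS h => by
      rw [lc_dd]
      exact hA S hS.1 hS.2.1 hS.2.2 (by have := hr hS.2.2; omega))
    (fun S hS h => by
      have hc : S.card = r := by have := hr hS.2.2; omega
      have m : Finsupp.single [(bp st S, (∅ : Finset ℕ))] (st.o S) ∈ CC st S 0 :=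
        Finsupp.single_mem_supported ℚ _ ⟨[S], .zero subset_rfl hS.2.2 hc, rfl⟩
      exact ⟨_, m, by
        rw [bdryL_apply]; exact bdry_of_length_le_one fun l hl => (len m l hl).le, by simp [aug]⟩)
    (fun S hS q h x hx h0 h1 => by
      have hc : S.card = r + q + 1 := by have := hr hS.2.2; omega
      rw [bdryL_apply] at h0
      refine ⟨cone (bp st S, ∅) x, fun l hl => ?_, ?_⟩
      · classical
        obtain ⟨l', h2, rfl⟩ := Finset.mem_image.1 (Finsupp.mapDomain_support hl)
        obtain ⟨fl, h3, rfl⟩ := hx h2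
        exact ⟨S :: fl, .succ subset_rfl hS.2.2 hc h3, rfl⟩
      · rw [bdryL_apply]
        rcases q with _ | q
        · rw [bdry_cone_one _ (len hx), h1 rfl]; simp
        · rw [bdry_cone _ fun l hl => by rw [len hx l hl]; omega, h0]; simp [cone])
  refine ⟨ψ, fun S h1 h2 h3 => ?_, fun S h1 h2 k hk l hl => ?_⟩
  · obtain ⟨a1, a2, a3⟩ := hψ S ⟨h1, h2, h3⟩
    have := hr h3
    refine ⟨fun l hl => ⟨by rw [len a1 l hl]; omega, ?_⟩, fun _ => ?_, fun h => a3 (by omega)⟩
    · obtain ⟨fl, h4, rfl⟩ := a1 hl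
      refine ⟨fun z hz => ?_, fun v hv => ?_⟩
      · simp only [List.mem_map, exists_exists_and_eq_and] at hz
        obtain ⟨R, hR, rfl⟩ := hz
        exact isPt_bp st (h4.mem.2 R hR).2 (by simp)
      · simp only [mem_car, List.mem_map, exists_exists_and_eq_and, Finset.notMem_empty,
          or_false] at hv
        obtain ⟨R, hR, hv⟩ := hv
        rw [support_bp st (h4.mem.2 R hR).2] at hv
        exact st.kap_mono (h4.mem.2 R hR).1 hv
    · rw [← bdryL_apply, a2, lc_dd]
  · have h3 := (st.meets_sdiff_rays S).2 h2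
    obtain ⟨fl, h4, rfl⟩ := (hψ _ ⟨st.down S h1 _ Finset.sdiff_subset, Finset.sdiff_disjoint,
      h3⟩).1 hl
    exact ⟨_, rfl, straight h1 h2 hk (by have := hr h3; omega) h4⟩

end Pool.Agent.Lead.THC
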