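import Pool.Agent.Lead.THC.Realize
import Pool.Agent.Lead.THC.StraightReal

set_option autoImplicit false

open scoped BigOperators

noncomputable section

namespace Pool.Agent.Lead.THC

/-- a tangent cellular cycle gives a tropical cycle -/
theorem St.rep_final {r : ℕ} {X : Space r} (st : St X) (hA : st.Aug) {k : ℕ} {γ : List Pt →₀ A}
    (hγ : X.IsKChain (k + r) k γ) {c : Finset ℕ → A} (hc : st.Cyc (k + r) c)
    (ht : st.Tangent (k + r) c) (hr : st.Rep k γ c) :
    ∃ Z, X.IsTropCycle k Z ∧ ∃ Y, X.IsChain k (k + 1) Y ∧ X.Null (X.down γ - Z - bdry Y) := by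
  classical
  obtain ⟨ψ, hψ, hs⟩ := st.exists_straight_real hA
  obtain ⟨Y, hY, hN⟩ := st.rep_any hc hr hψ
  have hP := st.psi_kchain hψ hc.1
  have dl : ∀ u, X.down u = Finsupp.mapRange.linearMap (X.comp Finset.univ) u := fun u => rfl
  have db : ∀ u, bdry (X.down u) = X.down (bdry u) := fun u => bdry_mapRange _ u
  have nd : ∀ {q u}, X.IsKChain (k + r) q u → X.Null u → X.Null (X.down u) := fun h =>
    X.null_down fun l hl => ⟨by
      rintro rfl
      simpa using (h _ hl).1, (h l hl).2.1⟩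
  refine ⟨X.down (st.Psi ψ (k + r) c), ⟨?_, ?_⟩, X.down Y, X.chain_down hY, ?_⟩
  · rw [db]
    rcases k with _ | k
    · rw [bdry_of_length_le_one fun l hl => (hP l hl).1.le, dl, map_zero]
      exact X.null_zero
    · exact nd (X.kchain_bdry hP) (st.psi_cycle hψ hc)
  · rw [dl, St.Psi, map_sum]
    refine Submodule.sum_mem _ fun S hS => ?_
    obtain ⟨h1, h2, h3⟩ := Finset.mem_filter.1 hS
    obtain ⟨q, hq⟩ := ht S h1 h2 h3
    rw [map_smul, Finsupp.mapRange.linearMap_apply, ← prisms_mapRange]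
    refine Submodule.smul_mem _ _ ?_
    have e : (tens (ψ (S \ X.rays)) (c S)).mapRange (X.comp Finset.univ) (map_zero _) =
        ∑ l ∈ (ψ (S \ X.rays)).support, (ψ (S \ X.rays) l * q) •
          Finsupp.single l (X.comp Finset.univ (wedge st.pos S)) := by
      ext l
      rw [Finsupp.finsetSum_apply, Finset.sum_eq_single l]
      · simp [tens, hq, mul_smul]
      · intro l' _ h; simp [h.symm]
      · intro h; simp [Finsupp.notMem_support_iff.1 h]
    let P : (List Pt →₀ A) →ₗ[ℚ] (List Pt →₀ A) :=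
      ⟨⟨prisms (S ∩ X.rays), prisms_add _⟩, prisms_smul _⟩
    rw [e]
    change P _ ∈ _
    rw [map_sum]
    refine Submodule.sum_mem _ fun l hl => ?_
    obtain ⟨x, rfl, hx⟩ := hs S h1 h2 k h3 l hl
    rw [map_smul]
    exact Submodule.smul_mem _ _ (Submodule.subset_span ⟨x, _, _, hx, rfl⟩)
  · rw [db, dl, dl, dl, ← map_sub, ← map_sub, ← dl]
    exact nd (X.kchain_sub (X.kchain_sub hγ hP) (X.kchain_bdry hY)) hN

end Pool.Agent.Lead.THC
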