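import Pool.Agent.Lead.THC.BisectAug
import Pool.Agent.Lead.THC.BisectLV

set_option autoImplicit false

open scoped BigOperators

noncomputable section

namespace Pool.Agent.Lead.THC

variable {r : ℕ} {X : Space r}

/-- the trivial refinement -/
def Refines.refl (st : St X) : Refines st st where
  car := id
  eps := fun _ => 1
  car_mem := fun _ h => h
  car_mono := fun _ _ _ h => h
  kap_car := fun _ _ => rfl
  meets_car := fun _ _ h => h
  ray_car := fun _ _ => rfl
  fin_car := fun _ _ => rfl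
  fin_eps := fun _ _ => rfl
  join := fun S hS j' _ h => by
    have : j' = S \ X.rays := h
    rw [this, Finset.sdiff_union_inter]; exact hS
  card_car := fun _ _ _ => rfl
  span_car := fun S' _ a ha hr =>
    Submodule.subset_span ⟨a, by simpa using ⟨ha, hr⟩, rfl⟩
  sd_bd := fun M _ _ c R' _ => by simp
  o_car := fun j hj _ hm _ => by
    classical
    rw [Finset.sum_eq_single j]
    · simp
    · intro j' hj' hne
      exact absurd (Finset.mem_filter.1 hj').2.2 hne
    · intro h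
      exact absurd (Finset.mem_filter.2 ⟨hj, hm, rfl⟩) h

theorem Refines.disjoint_of_car {st st' : St X} (R : Refines st st') {S' : Finset ℕ}
    (hS : S' ∈ st'.cx) (h : Disjoint (R.car S') X.rays) : Disjoint S' X.rays := by
  rw [Finset.disjoint_iff_inter_eq_empty] at h ⊢
  rw [← R.ray_car S' hS, h]

/-- composition of refinements -/
def Refines.trans {st st' st'' : St X} (R : Refines st st') (R' : Refines st' st'') :
    Refines st st'' where
  car := fun S => R.car (R'.car S)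
  eps := fun S => R'.eps S * R.eps (R'.car S)
  car_mem := fun S h => R.car_mem _ (R'.car_mem S h)
  car_mono := fun S h Q hQ => R.car_mono _ (R'.car_mem S h) _ (R'.car_mono S h Q hQ)
  kap_car := fun S h => by rw [R.kap_car _ (R'.car_mem S h), R'.kap_car S h]
  meets_car := fun S h hm => R.meets_car _ (R'.car_mem S h) (R'.meets_car S h hm)
  ray_car := fun S h => by rw [R.ray_car _ (R'.car_mem S h), R'.ray_car S h]
  fin_car := fun S h => by rw [R'.fin_car S h, R.fin_car _ (R'.car_mem S h)]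
  fin_eps := fun S h => by rw [R'.fin_eps S h, R'.fin_car S h, R.fin_eps _ (R'.car_mem S h)]
  join := fun S hS j hj h => by
    have h1 := R'.car_mem j hj
    have h2 := R.join S hS _ h1 h
    have hd : Disjoint (R'.car j) X.rays :=
      R.disjoint_of_car h1 (by rw [h]; exact Finset.sdiff_disjoint)
    have h3 := R'.join _ h2 j hj (by
      ext x
      simp only [Finset.mem_sdiff, Finset.mem_union, Finset.mem_inter]
      have : x ∈ R'.car j → x ∉ X.rays := fun hx => Finset.disjoint_left.1 hd hx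
      tauto)
    have e : (R'.car j ∪ S ∩ X.rays) ∩ X.rays = S ∩ X.rays := by
      ext x
      simp only [Finset.mem_union, Finset.mem_inter]
      have : x ∈ R'.car j → x ∉ X.rays := fun hx => Finset.disjoint_left.1 hd hx
      tauto
    rwa [e] at h3
  card_car := fun S h he => by
    rw [R.card_car _ (R'.car_mem S h) (right_ne_zero_of_mul he),
      R'.card_car S h (left_ne_zero_of_mul he)]
  span_car := fun S h a ha hr => by
    refine (Submodule.span_le.2 ?_) (R'.span_car S h a ha hr)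
    rintro _ ⟨a', ha', rfl⟩
    have := Finset.mem_sdiff.1 (Finset.mem_coe.1 ha')
    exact R.span_car _ (R'.car_mem S h) a' this.1 this.2
  sd_bd := fun M _ _ c Q hQ => by
    have h1 := R'.sd_bd M (fun S' => R.eps S' • c (R.car S')) Q hQ
    rw [R.sd_bd M c _ (R'.car_mem Q hQ), smul_smul] at h1
    rw [← h1]
    simp only [smul_smul]
  o_car := fun j hj hd hm hc => by
    classical
    rw [← R.o_car j hj hd hm hc]
    rw [← Finset.sum_fiberwise_of_maps_to
      (t := st'.cx.filter fun j' => st'.Meets j' ∧ R.car j' = j) (g := R'.car)]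
    · refine Finset.sum_congr rfl fun j' hj' => ?_
      obtain ⟨h1, h2, h3⟩ := Finset.mem_filter.1 hj'
      by_cases he : R.eps j' = 0
      · rw [he, zero_mul]
        refine Finset.sum_eq_zero fun j'' hj'' => ?_
        rw [(Finset.mem_filter.1 hj'').2, he]; simp
      · rw [← R'.o_car j' h1 (R.disjoint_of_car h1 (h3 ▸ hd)) h2
          (by rw [← R.card_car j' h1 he, h3, hc]), Finset.mul_sum]
        refine Finset.sum_congr ?_ fun j'' hj'' => ?_
        · ext j''
          simp only [Finset.mem_filter]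
          constructor
          · rintro ⟨⟨a, b, -⟩, c⟩; exact ⟨a, b, c⟩
          · rintro ⟨a, b, c⟩; exact ⟨⟨a, b, by rw [c, h3]⟩, c⟩
        · rw [(Finset.mem_filter.1 hj'').2.2]; ring
    · intro j'' hj''
      obtain ⟨h1, h2, h3⟩ := Finset.mem_filter.1 hj''
      exact Finset.mem_filter.2 ⟨R'.car_mem _ h1, R'.meets_car _ h1 h2, h3⟩

/-- barycentric coordinates relative to `st` -/
structure Bary {st st' : St X} (R : Refines st st') (β : ℕ → ℕ → ℝ) : Prop where
  nonneg : ∀ a w, 0 ≤ β a w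
  supp : ∀ S' ∈ st'.cx, ∀ a ∈ S', a ∉ X.rays → ∀ w, β a w ≠ 0 → w ∈ R.car S' \ X.rays
  pos : ∀ a, {a} ∈ st'.cx → a ∉ X.rays → ∀ i, ((lvl X.lev i (st'.pos a) : ℚ) : ℝ) =
    ∑ w ∈ st.cx.biUnion id, β a w * ((lvl X.lev i (st.pos w) : ℚ) : ℝ)

/-- squared distance -/
def dsq (V : Finset ℕ) (β : ℕ → ℕ → ℝ) (a a' : ℕ) : ℝ := ∑ w ∈ V, (β a w - β a' w) ^ 2

/-- all bounded edges are short -/
def Mesh (st st' : St X) (β : ℕ → ℕ → ℝ) (M : ℝ) : Prop :=
  ∀ a a', {a, a'} ∈ st'.cx → a ∉ X.rays → a' ∉ X.rays → dsq (st.cx.biUnion id) β a a' ≤ M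

theorem dsq_comm (V : Finset ℕ) (β : ℕ → ℕ → ℝ) (a a' : ℕ) : dsq V β a a' = dsq V β a' a :=
  Finset.sum_congr rfl fun _ _ => by ring

theorem dsq_self (V : Finset ℕ) (β : ℕ → ℕ → ℝ) (a : ℕ) : dsq V β a a = 0 := by simp [dsq]

/-- coordinates after a bisection -/
def bisBary (β : ℕ → ℕ → ℝ) (u v p : ℕ) : ℕ → ℕ → ℝ :=
  Function.update β p fun w => (β u w + β v w) / 2

theorem dsq_bis_of_ne (V : Finset ℕ) (β : ℕ → ℕ → ℝ) (u v : ℕ) {p a a' : ℕ} (ha : a ≠ p)
    (ha' : a' ≠ p) : dsq V (bisBary β u v p) a a' = dsq V β a a' := by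
  simp [dsq, bisBary, Function.update_of_ne ha, Function.update_of_ne ha']

theorem dsq_bis_mid (V : Finset ℕ) (β : ℕ → ℕ → ℝ) (u v : ℕ) {p a : ℕ} (ha : a ≠ p) :
    dsq V (bisBary β u v p) p a = (dsq V β u a + dsq V β v a) / 2 - dsq V β u v / 4 := by
  simp only [dsq, bisBary, Function.update_of_ne ha, Function.update_self]
  rw [← Finset.sum_add_distrib, Finset.sum_div, Finset.sum_div, ← Finset.sum_sub_distrib]
  exact Finset.sum_congr rfl fun _ _ => by ring

theorem mem_bisCar_of_ne {u v p a : ℕ} {S : Finset ℕ} (ha : a ∈ S) (h : a ≠ p) :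
    a ∈ bisCar u v p S := by
  unfold bisCar
  split_ifs <;> simp [ha, h]

theorem bary_bisect {st st' : St X} {R : Refines st st'} {β : ℕ → ℕ → ℝ} (hβ : Bary R β)
    {u v : ℕ} (h : st'.Edge u v) {o' : Finset ℕ → ℚ} (R₁ : Refines st' (st'.bisect h o'))
    (hR : R₁.car = bisCar u v st'.fresh) : Bary (R.trans R₁) (bisBary β u v st'.fresh) := by
  obtain ⟨-, huv, hu, hv⟩ := id h
  refine ⟨fun a w => ?_, fun S hS a ha hr w hw => ?_, fun a ha hr i => ?_⟩
  · by_cases hp : a = st'.fresh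
    · subst hp
      simp only [bisBary, Function.update_self]
      have := hβ.nonneg u w
      have := hβ.nonneg v w
      positivity
    · simp only [bisBary, Function.update_of_ne hp]; exact hβ.nonneg a w
  · have hc := R₁.car_mem S hS
    show w ∈ R.car (R₁.car S) \ X.rays
    by_cases hp : a = st'.fresh
    · subst hp
      simp only [bisBary, Function.update_self] at hw
      have hu' : u ∈ R₁.car S := by rw [hR]; simp [bisCar, ha]
      have hv' : v ∈ R₁.car S := by rw [hR]; simp [bisCar, ha]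
      by_cases h0 : β u w = 0
      · exact hβ.supp _ hc v hv' hv w (by intro h1; rw [h0, h1] at hw; simp at hw)
      · exact hβ.supp _ hc u hu' hu w h0
    · simp only [bisBary, Function.update_of_ne hp] at hw
      exact hβ.supp _ hc a (by rw [hR]; exact mem_bisCar_of_ne ha hp) hr w hw
  · show ((lvl X.lev i (st'.bisPos u v a) : ℚ) : ℝ) = _
    by_cases hp : a = st'.fresh
    · subst hp
      simp only [St.bisPos, bisBary, Function.update_self, map_smul, map_add, smul_eq_mul]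
      push_cast
      rw [hβ.pos u (st'.down _ huv _ (by simp)) hu i, hβ.pos v (st'.down _ huv _ (by simp)) hv i,
        ← Finset.sum_add_distrib, Finset.mul_sum]
      exact Finset.sum_congr rfl fun _ _ => by ring
    · simp only [St.bisPos, bisBary, Function.update_of_ne hp]
      have : {a} ∈ st'.cx := ((st'.mem_bisCx_of_not_mem h (by simpa using Ne.symm hp)).1 ha).1
      exact hβ.pos a this hr i

open Classical in
/-- long bounded edges -/
def longEdges (st st' : St X) (β : ℕ → ℕ → ℝ) (θ : ℝ) : Finset (ℕ × ℕ) :=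
  ((st'.cx.biUnion id) ×ˢ (st'.cx.biUnion id)).filter fun e =>
    {e.1, e.2} ∈ st'.cx ∧ e.1 ∉ X.rays ∧ e.2 ∉ X.rays ∧ θ < dsq (st.cx.biUnion id) β e.1 e.2

theorem mem_longEdges {st st' : St X} {β : ℕ → ℕ → ℝ} {θ : ℝ} {e : ℕ × ℕ} :
    e ∈ longEdges st st' β θ ↔ {e.1, e.2} ∈ st'.cx ∧ e.1 ∉ X.rays ∧ e.2 ∉ X.rays ∧
      θ < dsq (st.cx.biUnion id) β e.1 e.2 := by
  unfold longEdges
  simp only [Finset.mem_filter, Finset.mem_product, Finset.mem_biUnion, id]
  constructor
  · exact fun h => h.2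
  · exact fun h => ⟨⟨⟨_, h.1, by simp⟩, ⟨_, h.1, by simp⟩⟩, h⟩

theorem shrink_aux (st : St X) (M : ℝ) (hM : 0 ≤ M) (N : ℕ) :
    ∀ (st' : St X) (R : Refines st st') (β : ℕ → ℕ → ℝ), st'.Good → Bary R β → Mesh st st' β M →
      (longEdges st st' β (3 / 4 * M)).card ≤ N →
      ∃ (st'' : St X) (R'' : Refines st st'') (β'' : ℕ → ℕ → ℝ),
        st''.Good ∧ Bary R'' β'' ∧ Mesh st st'' β'' (3 / 4 * M) := by
  induction N with
  | zero =>
    intro st' R β hg hβ _ hN
    refine ⟨st', R, β, hg, hβ, fun a a' h ha ha' => ?_⟩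
    by_contra hlt
    have : (a, a') ∈ longEdges st st' β (3 / 4 * M) := mem_longEdges.2 ⟨h, ha, ha', not_le.1 hlt⟩
    have := Finset.card_pos.2 ⟨_, this⟩
    omega
  | succ N ih =>
    intro st' R β hg hβ hm hN
    rcases (longEdges st st' β (3 / 4 * M)).eq_empty_or_nonempty with he | he
    · exact ih st' R β hg hβ hm (by rw [he]; simp)
    obtain ⟨⟨u, v⟩, huv, hmax⟩ := Finset.exists_max_image _
      (fun e : ℕ × ℕ => dsq (st.cx.biUnion id) β e.1 e.2) he
    obtain ⟨h1, hu, hv, hlong⟩ := mem_longEdges.1 huv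
    simp only at h1 hu hv hlong hmax
    have hne : u ≠ v := by
      rintro rfl
      rw [dsq_self] at hlong
      linarith
    have h : st'.Edge u v := ⟨hne, h1, hu, hv⟩
    obtain ⟨o', R₁, hR, hA⟩ := st'.bisect_refines h hg.1
    have hmax' : ∀ a a', {a, a'} ∈ st'.cx → a ∉ X.rays → a' ∉ X.rays →
        dsq (st.cx.biUnion id) β a a' ≤ dsq (st.cx.biUnion id) β u v := by
      intro a a' h ha ha'
      by_cases hl : 3 / 4 * M < dsq (st.cx.biUnion id) β a a'
      · exact hmax (a, a') (mem_longEdges.2 ⟨h, ha, ha', hl⟩)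
      · linarith
    have hp : ∀ a, a ≠ st'.fresh → {st'.fresh, a} ∈ (st'.bisect h o').cx → a ∉ X.rays →
        dsq (st.cx.biUnion id) (bisBary β u v st'.fresh) st'.fresh a ≤ 3 / 4 * M := by
      intro a hap ha har
      have h2 := ((st'.mem_bisCx_of_mem h (S' := {st'.fresh, a}) (by simp)).1 ha).1
      have ha' : a ∈ bisCar u v st'.fresh {st'.fresh, a} := mem_bisCar_of_ne (by simp) hap
      have hu' : u ∈ bisCar u v st'.fresh {st'.fresh, a} := by simp [bisCar]
      have hv' : v ∈ bisCar u v st'.fresh {st'.fresh, a} := by simp [bisCar]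
      have e1 := hmax' u a (st'.down _ h2 _ (by
        intro x hx; simp only [Finset.mem_insert, Finset.mem_singleton] at hx
        rcases hx with rfl | rfl <;> assumption)) hu har
      have e2 := hmax' v a (st'.down _ h2 _ (by
        intro x hx; simp only [Finset.mem_insert, Finset.mem_singleton] at hx
        rcases hx with rfl | rfl <;> assumption)) hv har
      have e3 := hm u v h1 hu hv
      rw [dsq_bis_mid _ _ _ _ hap]
      linarith
    have hall : ∀ a a', {a, a'} ∈ (st'.bisect h o').cx → a ∉ X.rays → a' ∉ X.rays →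
        dsq (st.cx.biUnion id) (bisBary β u v st'.fresh) a a' ≤ 3 / 4 * M ∨
        ({a, a'} ∈ st'.cx ∧ (a, a') ≠ (u, v) ∧
          dsq (st.cx.biUnion id) (bisBary β u v st'.fresh) a a' = dsq (st.cx.biUnion id) β a a') := by
      intro a a' h2 ha ha'
      by_cases hap : a = st'.fresh
      · subst hap
        by_cases hap' : a' = st'.fresh
        · subst hap'; left; rw [dsq_self]; linarith
        · exact Or.inl (hp a' hap' h2 ha')
      by_cases hap' : a' = st'.fresh
      · subst hap'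
        left
        rw [dsq_comm]
        exact hp a hap (by rwa [Finset.pair_comm]) ha
      have h3 := (st'.mem_bisCx_of_not_mem h (S' := {a, a'})
        (by simp [Ne.symm hap, Ne.symm hap'])).1 h2
      refine Or.inr ⟨h3.1, ?_, dsq_bis_of_ne _ _ _ _ hap hap'⟩
      intro he
      simp only [Prod.mk.injEq] at he
      exact h3.2 (by simp [he.1, he.2])
    refine ih (st'.bisect h o') (R.trans R₁) (bisBary β u v st'.fresh)
      ⟨hA, st'.bisect_lvk h o' hg.2⟩ (bary_bisect hβ h R₁ hR) (fun a a' h2 ha ha' => ?_) ?_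
    · rcases hall a a' h2 ha ha' with h3 | ⟨h3, -, h4⟩
      · linarith
      · rw [h4]; exact hm a a' h3 ha ha'
    · have hsub : longEdges st (st'.bisect h o') (bisBary β u v st'.fresh) (3 / 4 * M) ⊆
          (longEdges st st' β (3 / 4 * M)).erase (u, v) := by
        rintro ⟨a, a'⟩ he
        obtain ⟨h2, ha, ha', hl⟩ := mem_longEdges.1 he
        rcases hall a a' h2 ha ha' with h3 | ⟨h3, h5, h4⟩
        · exact absurd hl (not_lt.2 h3)
        · exact Finset.mem_erase.2 ⟨h5, mem_longEdges.2 ⟨h3, ha, ha', by rw [← h4]; exact hl⟩⟩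
      have := Finset.card_le_card hsub
      rw [Finset.card_erase_of_mem huv] at this
      omega

theorem exists_mesh (st : St X) (hg : st.Good) (ε : ℝ) (hε : 0 < ε) :
    ∃ (st' : St X) (R : Refines st st') (β : ℕ → ℕ → ℝ), st'.Good ∧ Bary R β ∧ Mesh st st' β ε := by
  classical
  have key : ∀ n : ℕ, ∃ (st' : St X) (R : Refines st st') (β : ℕ → ℕ → ℝ), st'.Good ∧ Bary R β ∧
      Mesh st st' β ((3 / 4) ^ n * (st.cx.biUnion id).card) := by
    intro n
    induction n with
    | zero =>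
      refine ⟨st, Refines.refl st, fun a w => if a = w then 1 else 0, hg,
        ⟨fun a w => by split_ifs <;> norm_num, fun S _ a ha hr w hw => ?_, fun a ha _ i => ?_⟩,
        fun a a' _ _ _ => ?_⟩
      · have : a = w := by by_contra hne; simp [hne] at hw
        subst this
        exact Finset.mem_sdiff.2 ⟨ha, hr⟩
      · rw [Finset.sum_eq_single a]
        · simp
        · intro w _ hw; simp [Ne.symm hw]
        · intro h; exact absurd (Finset.mem_biUnion.2 ⟨_, ha, by simp⟩) h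
      · simp only [pow_zero, one_mul, dsq]
        rw [Finset.card_eq_sum_ones]
        push_cast
        exact Finset.sum_le_sum fun w _ => by split_ifs <;> norm_num
    | succ n ih =>
      obtain ⟨st', R, β, h1, h2, h3⟩ := ih
      obtain ⟨st'', R'', β'', h4, h5, h6⟩ := shrink_aux st _ (by positivity) _ st' R β h1 h2 h3 le_rfl
      exact ⟨st'', R'', β'', h4, h5, by convert h6 using 1; ring⟩
  obtain ⟨n, hn⟩ := exists_pow_lt_of_lt_one (x := ε / ((st.cx.biUnion id).card + 1))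
    (y := (3 / 4 : ℝ)) (by positivity) (by norm_num)
  obtain ⟨st', R, β, h1, h2, h3⟩ := key n
  refine ⟨st', R, β, h1, h2, fun a a' h ha ha' => (h3 a a' h ha ha').trans ?_⟩
  rw [lt_div_iff₀ (by positivity)] at hn
  have : (0 : ℝ) ≤ (3 / 4) ^ n := by positivity
  nlinarith

theorem St.sum_lvl_eq_one (st : St X) {S : Finset ℕ} (hS : S ∈ st.cx) {a : ℕ} (ha : a ∈ S)
    (hr : a ∉ X.rays) : ∑ i, ((lvl X.lev i (st.pos a) : ℚ) : ℝ) = 1 := by
  have := (st.pos_fin a (st.down _ hS _ (by simpa using ha)) hr).2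
  exact_mod_cast this

theorem St.sum_sol (st : St X) {S : Finset ℕ} (hS : S ∈ st.cx) (hd : Disjoint S X.rays)
    {t : ℕ → ℝ} (h : ∀ i, ∑ a ∈ S, t a * ((lvl X.lev i (st.pos a) : ℚ) : ℝ) = X.b i) :
    ∑ a ∈ S, t a = ∑ i, X.b i := by
  rw [← Finset.sum_congr rfl fun i _ => h i, Finset.sum_comm]
  refine Finset.sum_congr rfl fun a ha => ?_
  rw [← Finset.mul_sum, st.sum_lvl_eq_one hS ha (Finset.disjoint_left.1 hd ha), mul_one]

theorem exists_pos_forall {ι : Type} (s : Finset ι) (P : ι → ℝ → Prop)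
    (mono : ∀ i η η', η' ≤ η → P i η → P i η') (h : ∀ i ∈ s, ∃ η, 0 < η ∧ P i η) :
    ∃ η, 0 < η ∧ ∀ i ∈ s, P i η := by
  classical
  induction s using Finset.induction_on with
  | empty => exact ⟨1, one_pos, by simp⟩
  | insert a s _ ih =>
    obtain ⟨η, h1, h2⟩ := ih fun i hi => h i (Finset.mem_insert_of_mem hi)
    obtain ⟨η', h3, h4⟩ := h a (Finset.mem_insert_self _ _)
    refine ⟨min η η', lt_min h1 h3, fun i hi => ?_⟩
    rcases Finset.mem_insert.1 hi with rfl | hi
    · exact mono _ _ _ (min_le_right _ _) h4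
    · exact mono _ _ _ (min_le_left _ _) (h2 i hi)

theorem St.exists_gap (st : St X) {R : Finset ℕ} (h : ¬ st.Meets R) (c : ℝ) (hc : 0 ≤ c) :
    ∃ η, 0 < η ∧ ∀ t : ℕ → ℝ, (∀ w, 0 ≤ t w ∧ t w ≤ c) →
      η ≤ ∑ i, |X.b i - ∑ w ∈ R, t w * ((lvl X.lev i (st.pos w) : ℚ) : ℝ)| := by
  have hK : IsCompact (Set.pi Set.univ fun _ : ℕ => Set.Icc (0 : ℝ) c) :=
    isCompact_univ_pi fun _ => isCompact_Icc
  have hcont : Continuous fun t : ℕ → ℝ =>
      ∑ i, |X.b i - ∑ w ∈ R, t w * ((lvl X.lev i (st.pos w) : ℚ) : ℝ)| := by fun_prop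
  obtain ⟨t₀, ht₀, hmin⟩ := hK.exists_isMinOn ⟨fun _ => 0, fun _ _ => ⟨le_rfl, hc⟩⟩
    hcont.continuousOn
  refine ⟨_, ?_, fun t ht => hmin fun w _ => ht w⟩
  refine lt_of_le_of_ne (Finset.sum_nonneg fun _ _ => abs_nonneg _) fun h0 => h ?_
  have h1 := (Finset.sum_eq_zero_iff_of_nonneg fun _ _ => abs_nonneg _).1 h0.symm
  refine st.meets_of_nonneg (t := t₀) (fun a _ => (ht₀ a trivial).1) fun i => ?_
  have := abs_eq_zero.1 (h1 i (Finset.mem_univ _))
  linarith

/-- Lebesgue number -/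
theorem St.exists_lebesgue (st : St X) : ∃ δ, 0 < δ ∧ ∀ S ∈ st.cx, Disjoint S X.rays →
    ∀ t : ℕ → ℝ, (∀ w, 0 ≤ t w) → (∀ w, w ∉ S → t w = 0) →
      (∀ i, ∑ a ∈ S, t a * ((lvl X.lev i (st.pos a) : ℚ) : ℝ) = X.b i) →
      st.Meets (S.filter fun w => δ ≤ t w) := by
  classical
  have hc : 0 ≤ ∑ i, X.b i := Finset.sum_nonneg fun i _ => (X.b_pos i).le
  obtain ⟨η, hη, H⟩ := exists_pos_forall st.cx (fun R η => ¬ st.Meets R →
      ∀ t : ℕ → ℝ, (∀ w, 0 ≤ t w ∧ t w ≤ ∑ i, X.b i) →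
        η ≤ ∑ i, |X.b i - ∑ w ∈ R, t w * ((lvl X.lev i (st.pos w) : ℚ) : ℝ)|)
    (fun R η η' h1 h2 h3 t ht => h1.trans (h2 h3 t ht)) (fun R _ => by
      by_cases hm : st.Meets R
      · exact ⟨1, one_pos, fun h => absurd hm h⟩
      · obtain ⟨η, h1, h2⟩ := st.exists_gap hm _ hc
        exact ⟨η, h1, fun _ => h2⟩)
  refine ⟨η / ((st.cx.biUnion id).card + 1), by positivity, fun S hS hd t ht h0 hsol => ?_⟩
  by_contra hm
  have hsum := st.sum_sol hS hd hsol
  have h1 := H _ (st.down _ hS _ (Finset.filter_subset _ _)) hm t fun w => ⟨ht w, by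
    by_cases hw : w ∈ S
    · rw [← hsum]; exact Finset.single_le_sum (fun a _ => ht a) hw
    · rw [h0 w hw]; exact hc⟩
  set δ := η / ((st.cx.biUnion id).card + 1) with hδ
  have h2 : ∀ i, |X.b i - ∑ w ∈ S.filter (fun w => δ ≤ t w),
      t w * ((lvl X.lev i (st.pos w) : ℚ) : ℝ)| =
      ∑ w ∈ S.filter (fun w => ¬ δ ≤ t w), t w * ((lvl X.lev i (st.pos w) : ℚ) : ℝ) := by
    intro i
    rw [← hsol i, ← Finset.sum_filter_add_sum_filter_not S (fun w => δ ≤ t w), add_sub_cancel_left]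
    exact abs_of_nonneg (Finset.sum_nonneg fun w _ => mul_nonneg (ht w)
      (by exact_mod_cast st.lvl_pos_nonneg w i))
  rw [Finset.sum_congr rfl fun i _ => h2 i, Finset.sum_comm] at h1
  have h3 : ∑ w ∈ S.filter (fun w => ¬ δ ≤ t w), ∑ i, t w * ((lvl X.lev i (st.pos w) : ℚ) : ℝ) ≤
      ∑ _w ∈ S.filter (fun w => ¬ δ ≤ t w), δ := by
    refine Finset.sum_le_sum fun w hw => ?_
    obtain ⟨hw1, hw2⟩ := Finset.mem_filter.1 hw
    rw [← Finset.mul_sum, st.sum_lvl_eq_one hS hw1 (Finset.disjoint_left.1 hd hw1), mul_one]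
    exact (not_le.1 hw2).le
  rw [Finset.sum_const, nsmul_eq_mul] at h3
  have h4 : ((S.filter fun w => ¬ δ ≤ t w).card : ℝ) ≤ (st.cx.biUnion id).card := by
    have : S.filter (fun w => ¬ δ ≤ t w) ⊆ st.cx.biUnion id := fun w hw =>
      Finset.mem_biUnion.2 ⟨S, hS, (Finset.mem_filter.1 hw).1⟩
    exact_mod_cast Finset.card_le_card this
  have h5 : δ * ((st.cx.biUnion id).card + 1) = η := by rw [hδ]; field_simp
  have h6 : 0 < δ := by positivity
  nlinarith

/-- the point of a meeting simplex of the subdivision, in coordinates relative to `st` -/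
theorem exists_point {st st' : St X} {R : Refines st st'} {β : ℕ → ℕ → ℝ} (hβ : Bary R β)
    {μ : ℝ} (hμ : 0 ≤ μ) (hm : Mesh st st' β (μ ^ 2)) {S' : Finset ℕ} (hS : S' ∈ st'.cx)
    (hM : st'.Meets S') {a : ℕ} (ha : a ∈ S') (hr : a ∉ X.rays) :
    ∃ t : ℕ → ℝ, (∀ w, 0 ≤ t w) ∧ (∀ w, w ∉ R.car S' \ X.rays → t w = 0) ∧
      (∀ i, ∑ w ∈ R.car S' \ X.rays, t w * ((lvl X.lev i (st.pos w) : ℚ) : ℝ) = X.b i) ∧
      ∀ w ∈ st.cx.biUnion id, |t w - (∑ i, X.b i) * β a w| ≤ (∑ i, X.b i) * μ := by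
  obtain ⟨t', ht', hsol⟩ := (st'.meets_sdiff_rays S').2 hM
  have hS' : S' \ X.rays ∈ st'.cx := st'.down _ hS _ Finset.sdiff_subset
  have hsum := st'.sum_sol hS' Finset.sdiff_disjoint hsol
  have hz : ∀ w, w ∉ R.car S' \ X.rays → ∀ a' ∈ S' \ X.rays, β a' w = 0 := by
    intro w hw a' ha'
    by_contra hne
    exact hw (hβ.supp S' hS a' (Finset.mem_sdiff.1 ha').1 (Finset.mem_sdiff.1 ha').2 w hne)
  refine ⟨fun w => ∑ a' ∈ S' \ X.rays, t' a' * β a' w, fun w => Finset.sum_nonneg fun a' ha' =>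
    mul_nonneg (ht' a' ha').le (hβ.nonneg _ _), fun w hw => Finset.sum_eq_zero fun a' ha' => by
      rw [hz w hw a' ha', mul_zero], fun i => ?_, fun w hw => ?_⟩
  · rw [← hsol i]
    simp only [Finset.sum_mul]
    rw [Finset.sum_comm]
    refine Finset.sum_congr rfl fun a' ha' => ?_
    rw [hβ.pos a' (st'.down _ hS' _ (by simpa using ha')) (Finset.mem_sdiff.1 ha').2 i,
      Finset.mul_sum]
    have hsub : R.car S' \ X.rays ⊆ st.cx.biUnion id := fun w hw => Finset.mem_biUnion.2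
      ⟨_, R.car_mem _ hS, (Finset.mem_sdiff.1 hw).1⟩
    rw [Finset.sum_subset hsub fun w _ hw => by rw [hz w hw a' ha']; simp]
    exact Finset.sum_congr rfl fun _ _ => by ring
  · rw [← hsum, Finset.sum_mul, Finset.sum_mul, ← Finset.sum_sub_distrib]
    refine (Finset.abs_sum_le_sum_abs _ _).trans (Finset.sum_le_sum fun a' ha' => ?_)
    rw [← mul_sub, abs_mul, abs_of_pos (ht' a' ha')]
    refine mul_le_mul_of_nonneg_left ?_ (ht' a' ha').le
    have h1 := hm a' a (st'.down _ hS _ (by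
      intro x hx; simp only [Finset.mem_insert, Finset.mem_singleton] at hx
      rcases hx with rfl | rfl
      · exact (Finset.mem_sdiff.1 ha').1
      · exact ha)) (Finset.mem_sdiff.1 ha').2 hr
    have h2 : (β a' w - β a w) ^ 2 ≤ dsq (st.cx.biUnion id) β a' a :=
      Finset.single_le_sum (f := fun w => (β a' w - β a w) ^ 2) (fun _ _ => sq_nonneg _) hw
    exact abs_le_of_sq_le_sq' (h2.trans h1) hμ |> abs_le.2

/-- arbitrarily fine subdivisions -/
theorem St.exists_fine {r : ℕ} {X : Space r} (st : St X) (h : st.Good) :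
    ∃ (st' : St X) (R : Refines st st'), st'.Good ∧ R.Fine := by
  classical
  obtain ⟨δ, hδ, H⟩ := st.exists_lebesgue
  have hc : 0 ≤ ∑ i, X.b i := Finset.sum_nonneg fun i _ => (X.b_pos i).le
  set μ := δ / (4 * (∑ i, X.b i + 1)) with hμ
  have hμ0 : 0 < μ := by positivity
  obtain ⟨st', R, β, hg, hβ, hm⟩ := exists_mesh st h (μ ^ 2) (by positivity)
  refine ⟨st', R, hg, fun a hr S₀ hS₀ ha₀ hM₀ => ?_⟩
  obtain ⟨t₀, h1, h2, h3, h4⟩ := exists_point hβ hμ0.le hm hS₀ hM₀ ha₀ hr
  have hc₀ : R.car S₀ \ X.rays ∈ st.cx := st.down _ (R.car_mem _ hS₀) _ Finset.sdiff_subset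
  refine ⟨_, st.down _ hc₀ _ (Finset.filter_subset _ _),
    H _ hc₀ Finset.sdiff_disjoint t₀ h1 h2 h3, fun S' hS ha hM w hw => ?_⟩
  obtain ⟨t, -, h6, -, h8⟩ := exists_point hβ hμ0.le hm hS hM ha hr
  obtain ⟨hw1, hw2⟩ := Finset.mem_filter.1 hw
  have hwV : w ∈ st.cx.biUnion id := Finset.mem_biUnion.2 ⟨_, hc₀, hw1⟩
  by_contra hn
  have e1 := abs_le.1 (h4 w hwV)
  have e2 := abs_le.1 (h8 w hwV)
  rw [h6 w fun h => hn (Finset.mem_sdiff.1 h).1] at e2
  have e3 : μ * (4 * (∑ i, X.b i + 1)) = δ := by rw [hμ]; field_simp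
  nlinarith

end Pool.Agent.Lead.THC
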