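import Pool.Agent.Lead.THC.Chains

/-! The filtered complex of chains with coefficients in `K` and its graded pieces. -/

set_option autoImplicit false

open scoped BigOperators

noncomputable section

namespace Pool.Agent.Lead.THC

namespace Lft

/-- cap product with linear operators, as a linear map -/
def capL (g : Pt → Pt → A →ₗ[ℚ] A) : (List Pt →₀ A) →ₗ[ℚ] (List Pt →₀ A) :=
  Finsupp.lsum ℚ fun l => match l with
    | z₀ :: z₁ :: t => (Finsupp.lsingle (z₁ :: t)).comp (g z₀ z₁)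
    | _ => 0

theorem capL_apply (g : Pt → Pt → A →ₗ[ℚ] A) (c : List Pt →₀ A) :
    capL g c = capWith (fun z₀ z₁ ω => g z₀ z₁ ω) c := by
  unfold capL capWith
  rw [Finsupp.lsum_apply]
  refine Finsupp.sum_congr fun l _ => ?_
  rcases l with _ | ⟨z₀, _ | ⟨z₁, t⟩⟩ <;> rfl

theorem capL_two (g : Pt → Pt → A →ₗ[ℚ] A) (z₀ z₁ : Pt) (t : List Pt) (ω : A) :
    capL g (Finsupp.single (z₀ :: z₁ :: t) ω) = Finsupp.single (z₁ :: t) (g z₀ z₁ ω) := by
  unfold capL; rw [Finsupp.lsum_single]; rfl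

theorem capL_short (g : Pt → Pt → A →ₗ[ℚ] A) {l : List Pt} (h : l.length ≤ 1) (ω : A) :
    capL g (Finsupp.single l ω) = 0 := by
  unfold capL; rw [Finsupp.lsum_single]
  rcases l with _ | ⟨z₀, _ | ⟨z₁, t⟩⟩
  · rfl
  · rfl
  · simp at h

theorem bdryL_long {l : List Pt} (h : 2 ≤ l.length) (ω : A) :
    bdryL (Finsupp.single l ω)
      = ∑ i ∈ Finset.range l.length, (-1 : ℚ) ^ i • Finsupp.single (l.eraseIdx i) ω := by
  unfold bdryL; rw [Finsupp.lsum_single, if_pos h]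
  simp only [LinearMap.sum_apply, LinearMap.smul_apply, Finsupp.lsingle_apply]

theorem bdryL_short {l : List Pt} (h : l.length ≤ 1) (ω : A) :
    bdryL (Finsupp.single l ω) = 0 := by
  unfold bdryL; rw [Finsupp.lsum_single, if_neg (by omega)]; rfl

theorem map_mem {N : Type} [AddCommGroup N] [Module ℚ N] (T : (List Pt →₀ A) →ₗ[ℚ] N)
    (W : Submodule ℚ N) (c : List Pt →₀ A)
    (h : ∀ l ∈ c.support, T (Finsupp.single l (c l)) ∈ W) : T c ∈ W := by
  rw [← Finsupp.sum_single c, Finsupp.sum, map_sum]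
  exact W.sum_mem h

theorem map_eq_zero {N : Type} [AddCommGroup N] [Module ℚ N] (T : (List Pt →₀ A) →ₗ[ℚ] N)
    (c : List Pt →₀ A) (h : ∀ l ∈ c.support, T (Finsupp.single l (c l)) = 0) : T c = 0 :=
  map_mem T ⊥ c h

variable {r : ℕ} (X : Space r)

/-- chains supported on lists in `V` with coefficients in `W l` -/
def Sub (V : List Pt → Prop) (W : List Pt → Submodule ℚ A) : Submodule ℚ (List Pt →₀ A) where
  carrier := {c | ∀ l, (c l ≠ 0 → V l) ∧ c l ∈ W l}
  zero_mem' := fun l => ⟨fun h => (h rfl).elim, (W l).zero_mem⟩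
  add_mem' := by
    intro a b ha hb l
    refine ⟨fun h => ?_, (W l).add_mem (ha l).2 (hb l).2⟩
    by_cases h1 : a l = 0
    · refine (hb l).1 fun h2 => h ?_
      rw [Finsupp.add_apply, h1, h2, add_zero]
    · exact (ha l).1 h1
  smul_mem' := by
    intro q a ha l
    refine ⟨fun h => (ha l).1 fun h2 => h ?_, (W l).smul_mem q (ha l).2⟩
    rw [Finsupp.smul_apply, h2, smul_zero]

theorem mem_Sub {V : List Pt → Prop} {W : List Pt → Submodule ℚ A} {c : List Pt →₀ A} :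
    c ∈ Sub V W ↔ ∀ l ∈ c.support, V l ∧ c l ∈ W l := by
  constructor
  · intro h l hl
    exact ⟨(h l).1 (Finsupp.mem_support_iff.1 hl), (h l).2⟩
  · intro h l
    by_cases h0 : c l = 0
    · exact ⟨fun h1 => (h1 h0).elim, h0 ▸ (W l).zero_mem⟩
    · have := h l (Finsupp.mem_support_iff.2 h0)
      exact ⟨fun _ => this.1, this.2⟩

theorem single_mem_Sub {V : List Pt → Prop} {W : List Pt → Submodule ℚ A} {l : List Pt} {ω : A}
    (h : V l) (hω : ω ∈ W l) : Finsupp.single l ω ∈ Sub V W := by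
  refine mem_Sub.2 fun l' hl' => ?_
  have := Finset.mem_singleton.1 (Finsupp.support_single_subset hl')
  subst this
  rw [Finsupp.single_eq_same]
  exact ⟨h, hω⟩

/-- the filtered complex -/
def PP (d s q : ℤ) : Submodule ℚ (List Pt →₀ A) :=
  Sub (fun l => 0 ≤ s ∧ 0 ≤ q ∧ (l.length : ℤ) = q + 1 ∧ X.Valid l)
    fun l => X.Phi d s.toNat (car l) (sed l)

/-- chains with coefficients in `F` -/
def CH (p q : ℕ) : Submodule ℚ (List Pt →₀ A) :=
  Sub (fun l => l.length = q + 1 ∧ X.Valid l) fun l => X.F p (car l)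

/-- null chains with valid support -/
def NV : Submodule ℚ (List Pt →₀ A) :=
  Sub (fun l => l ≠ [] ∧ X.Valid l) fun l => X.I (car l) (sed l)

/-- all null chains -/
def NL : Submodule ℚ (List Pt →₀ A) := Sub (fun _ => True) fun l => X.I (car l) (sed l)

theorem mem_NL {c : List Pt →₀ A} : c ∈ NL X ↔ X.Null c :=
  ⟨fun h l => (h l).2, fun h l => ⟨fun _ => trivial, h l⟩⟩

theorem NV_null {c : List Pt →₀ A} (h : c ∈ NV X) : X.Null c := fun l => (h l).2

theorem mem_CH {p q : ℕ} {c : List Pt →₀ A} : c ∈ CH X p q ↔ X.IsChain p q c := by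
  rw [CH, mem_Sub]
  exact forall₂_congr fun l _ => ⟨fun h => ⟨h.1.1, h.1.2.1, h.1.2.2, h.2⟩,
    fun h => ⟨⟨h.1, h.2.1, h.2.2.1⟩, h.2.2.2⟩⟩

/-- component of a chain -/
def cmp (J : Finset (Fin r)) : (List Pt →₀ A) →ₗ[ℚ] (List Pt →₀ A) :=
  Finsupp.mapRange.linearMap (X.comp J)

theorem cmp_apply (J : Finset (Fin r)) (c : List Pt →₀ A) (l : List Pt) :
    cmp X J c l = X.comp J (c l) := rfl

theorem cmp_single (J : Finset (Fin r)) (l : List Pt) (ω : A) :
    cmp X J (Finsupp.single l ω) = Finsupp.single l (X.comp J ω) := by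
  unfold cmp; simp

theorem cmp_bdry (J : Finset (Fin r)) (c : List Pt →₀ A) :
    cmp X J (bdryL c) = bdryL (cmp X J c) := by
  rw [bdryL_apply, bdryL_apply]
  exact (bdry_mapRange (X.comp J) c).symm

variable {X}

theorem valid_sub {l l' : List Pt} (h : X.Valid l) (hs : ∀ z ∈ l', z ∈ l) : X.Valid l' :=
  ⟨fun z hz => h.1 z (hs z hz), X.T_down _ h.2 _ (car_mono hs)⟩

theorem I_sub {l l' : List Pt} (h : X.Valid l) (hs : ∀ z ∈ l', z ∈ l) (hl : l' ≠ []) :
    X.I (car l) (sed l) ≤ X.I (car l') (sed l') :=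
  X.I_mono (X.cell_car hl (valid_sub h hs)) (car_mono hs) h.2 (sed_anti hs)

theorem Phi_sub {l l' : List Pt} (h : X.Valid l) (hs : ∀ z ∈ l', z ∈ l) (hl : l' ≠ []) (d : ℤ)
    (s : ℕ) : X.Phi d s (car l) (sed l) ≤ X.Phi d s (car l') (sed l') := fun _ hω =>
  X.mem_Phi.2 ⟨X.K_anti (car_mono hs) s (X.mem_Phi.1 hω).1,
    fun J hJ => I_sub h hs hl ((X.mem_Phi.1 hω).2 J hJ)⟩

theorem PP_mono (d s q : ℤ) : PP X (d - 1) s q ≤ PP X d s q := fun _ hc l =>
  ⟨(hc l).1, X.mem_Phi.2 ⟨(X.mem_Phi.1 (hc l).2).1,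
    fun J hJ => (X.mem_Phi.1 (hc l).2).2 J (by omega)⟩⟩

theorem PP_down {d s q : ℤ} {c : List Pt →₀ A} (hc : c ∈ PP X d s q)
    (h : ∀ J : Finset (Fin r), (J.card : ℤ) = d → X.Null (cmp X J c)) : c ∈ PP X (d - 1) s q := by
  intro l
  refine ⟨(hc l).1, X.mem_Phi.2 ⟨(X.mem_Phi.1 (hc l).2).1, fun J hJ => ?_⟩⟩
  by_cases e : (J.card : ℤ) = d
  · exact h J e l
  · exact (X.mem_Phi.1 (hc l).2).2 J (by omega)

theorem PP_cmp {d s q : ℤ} {c : List Pt →₀ A} (hc : c ∈ PP X d s q) {J : Finset (Fin r)}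
    (hJ : d < J.card) : cmp X J c ∈ NV X := by
  intro l
  refine ⟨fun h => ?_, (X.mem_Phi.1 (hc l).2).2 J hJ⟩
  have h0 : c l ≠ 0 := fun e => h (by rw [cmp_apply, e, map_zero])
  obtain ⟨-, h2, h3, h4⟩ := (hc l).1 h0
  refine ⟨?_, h4⟩
  rintro rfl
  simp at h3; omega

theorem PP_bdry {d s q : ℤ} {c : List Pt →₀ A} (hc : c ∈ PP X d s q) :
    bdryL c ∈ PP X d s (q - 1) := by
  refine map_mem _ _ _ fun l hl => ?_
  obtain ⟨⟨h1, h2, h3, h4⟩, h5⟩ := mem_Sub.1 hc l hl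
  by_cases hl2 : 2 ≤ l.length
  · rw [bdryL_long hl2]
    refine Submodule.sum_mem _ fun i hi => Submodule.smul_mem _ _ ?_
    have hi := Finset.mem_range.1 hi
    have e : (l.eraseIdx i).length = l.length - 1 := by rw [List.length_eraseIdx, if_pos hi]
    have hs : ∀ z ∈ l.eraseIdx i, z ∈ l := fun z hz => List.mem_of_mem_eraseIdx hz
    refine single_mem_Sub ⟨h1, by omega, by omega, valid_sub h4 hs⟩ (Phi_sub h4 hs ?_ _ _ h5)
    intro e'; rw [e'] at e; simp at e; omega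
  · rw [bdryL_short (by omega)]; exact Submodule.zero_mem _

theorem NV_bdry {c : List Pt →₀ A} (hc : c ∈ NV X) : X.Null (bdryL c) := by
  rw [bdryL_apply]
  exact X.null_bdry (fun l hl => (mem_Sub.1 hc l hl).1.2) (NV_null X hc)

theorem NV_cmp {c : List Pt →₀ A} (hc : c ∈ NV X) (J : Finset (Fin r)) : cmp X J c ∈ NV X := by
  refine map_mem _ _ _ fun l hl => ?_
  obtain ⟨h1, h2⟩ := mem_Sub.1 hc l hl
  rw [cmp_single]
  exact single_mem_Sub h1 (X.comp_mem_I (X.sed_ray h1.1 h1.2.1) J h2)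

section cap

variable {g : Pt → Pt → Module.Dual ℚ E}

/-- the Lefschetz operator -/
def LL (g : Pt → Pt → Module.Dual ℚ E) : (List Pt →₀ A) →ₗ[ℚ] (List Pt →₀ A) :=
  capL fun z₀ z₁ => ctr (g z₀ z₁)

theorem LL_apply (c : List Pt →₀ A) : LL g c = cap g c := capL_apply _ c

theorem LL_pow (w : ℕ) (c : List Pt →₀ A) : (LL g ^ w) c = (cap g)^[w] c := by
  induction w generalizing c with
  | zero => rfl
  | succ w ih => rw [pow_succ, Module.End.mul_apply, ih, LL_apply, Function.iterate_succ_apply]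

theorem ctr_I (hg : X.IsLineBundle g) {z₀ z₁ : Pt} {t : List Pt} (h : X.Valid (z₀ :: z₁ :: t))
    {ω : A} (hω : ω ∈ X.I (car (z₀ :: z₁ :: t)) (sed (z₀ :: z₁ :: t))) :
    ctr (g z₀ z₁) ω ∈ X.I (car (z₁ :: t)) (sed (z₁ :: t)) := by
  have hs : ∀ z ∈ [z₀, z₁], z ∈ z₀ :: z₁ :: t := by simp
  have hv := valid_sub h hs
  have hc := X.cell_car (by simp) hv
  refine I_sub h (fun z hz => List.mem_cons_of_mem _ hz) (by simp) (X.ctr_mem_I ?_ hω)
  refine le_trans (sup_le_sup (X.B_anti _ h.2 _ (car_mono hs) hc.2)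
    (Finsupp.supported_mono (sed_anti hs))) ?_
  exact hg.1 z₀ z₁ (h.1 _ (by simp)) (h.1 _ (by simp)) hv.2

theorem PP_LL (hg : X.IsLineBundle g) {d s q : ℤ} {c : List Pt →₀ A} (hc : c ∈ PP X d s q) :
    LL g c ∈ PP X d (s - 1) (q - 1) := by
  refine map_mem _ _ _ fun l hl => ?_
  obtain ⟨⟨h1, h2, h3, h4⟩, h5⟩ := mem_Sub.1 hc l hl
  rcases l with _ | ⟨z₀, _ | ⟨z₁, t⟩⟩
  · rw [LL, capL_short _ (by simp)]; exact Submodule.zero_mem _
  · rw [LL, capL_short _ (by simp)]; exact Submodule.zero_mem _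
  rw [LL, capL_two]
  obtain ⟨h6, h7⟩ := X.mem_Phi.1 h5
  by_cases hs : s = 0
  · subst hs
    rw [X.ctr_eq_zero_of_mem_K_zero _ h6, Finsupp.single_zero]; exact Submodule.zero_mem _
  have hsub : ∀ z ∈ z₁ :: t, z ∈ z₀ :: z₁ :: t := fun z hz => List.mem_cons_of_mem _ hz
  simp only [List.length_cons] at h3
  refine single_mem_Sub ⟨by omega, by push_cast at h3; omega, by
    simp only [List.length_cons]; push_cast at h3 ⊢; omega, valid_sub h4 hsub⟩
    (X.mem_Phi.2 ⟨X.K_anti (car_mono hsub) _ (X.ctr_mem_K _ ?_), fun J hJ => ?_⟩)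
  · rwa [show (s - 1).toNat + 1 = s.toNat by omega]
  · rw [X.comp_ctr]
    exact Submodule.smul_mem _ _ (ctr_I hg h4 (h7 J hJ))

theorem NV_LL (hg : X.IsLineBundle g) {c : List Pt →₀ A} (hc : c ∈ NV X) : LL g c ∈ NV X := by
  refine map_mem _ _ _ fun l hl => ?_
  obtain ⟨⟨-, h4⟩, h5⟩ := mem_Sub.1 hc l hl
  rcases l with _ | ⟨z₀, _ | ⟨z₁, t⟩⟩
  · rw [LL, capL_short _ (by simp)]; exact Submodule.zero_mem _
  · rw [LL, capL_short _ (by simp)]; exact Submodule.zero_mem _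
  rw [LL, capL_two]
  exact single_mem_Sub ⟨by simp, valid_sub h4 fun z hz => List.mem_cons_of_mem _ hz⟩
    (ctr_I hg h4 h5)

theorem NV_LL_pow (hg : X.IsLineBundle g) (w : ℕ) {c : List Pt →₀ A} (hc : c ∈ NV X) :
    (LL g ^ w) c ∈ NV X := by
  induction w with
  | zero => exact hc
  | succ w ih => rw [pow_succ', Module.End.mul_apply]; exact NV_LL hg ih

theorem PP_LL_pow (hg : X.IsLineBundle g) (w : ℕ) {d s q : ℤ} {c : List Pt →₀ A}
    (hc : c ∈ PP X d s q) : (LL g ^ w) c ∈ PP X d (s - w) (q - w) := by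
  induction w with
  | zero => simpa using hc
  | succ w ih =>
    rw [pow_succ', Module.End.mul_apply]
    have := PP_LL hg ih
    push_cast
    rwa [sub_sub, sub_sub] at this

theorem cmp_LL (J : Finset (Fin r)) (c : List Pt →₀ A) :
    cmp X J (LL g c) = (-1 : ℚ) ^ J.card • LL g (cmp X J c) := by
  rw [← sub_eq_zero]
  refine map_eq_zero ((cmp X J).comp (LL g) - (-1 : ℚ) ^ J.card • (LL g).comp (cmp X J)) c
    fun l _ => ?_
  simp only [LinearMap.sub_apply, LinearMap.smul_apply, LinearMap.comp_apply, cmp_single]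
  rcases l with _ | ⟨z₀, _ | ⟨z₁, t⟩⟩
  · simp [LL, capL_short]
  · simp [LL, capL_short]
  · rw [LL, capL_two, capL_two, cmp_single, X.comp_ctr, Finsupp.smul_single, sub_self]

theorem cmp_LL_pow (J : Finset (Fin r)) (w : ℕ) (c : List Pt →₀ A) :
    cmp X J ((LL g ^ w) c) = ((-1 : ℚ) ^ J.card) ^ w • (LL g ^ w) (cmp X J c) := by
  induction w with
  | zero => simp
  | succ w ih =>
    rw [pow_succ' (LL g), Module.End.mul_apply, Module.End.mul_apply, cmp_LL, ih, map_smul,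
      smul_smul, pow_succ']

theorem CH_LL_pow (w : ℕ) {p q : ℕ} {c : List Pt →₀ A} (hc : c ∈ CH X p q)
    (h : p < w ∨ q < w) : (LL g ^ w) c = 0 := by
  induction w generalizing p q c with
  | zero => omega
  | succ w ih =>
    rw [pow_succ, Module.End.mul_apply]
    by_cases h0 : p = 0 ∨ q = 0
    · rw [map_eq_zero (LL g) c fun l hl => ?_, map_zero]
      obtain ⟨⟨h3, -⟩, h5⟩ := mem_Sub.1 hc l hl
      rcases l with _ | ⟨z₀, _ | ⟨z₁, t⟩⟩
      · exact capL_short _ (by simp) _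
      · exact capL_short _ (by simp) _
      rcases h0 with rfl | rfl
      · rw [LL, capL_two, X.ctr_eq_zero_of_mem_K_zero _ (X.F_le_K _ _ h5), Finsupp.single_zero]
      · simp at h3
    · obtain ⟨p, rfl⟩ : ∃ p', p = p' + 1 := ⟨p - 1, by omega⟩
      obtain ⟨q, rfl⟩ : ∃ q', q = q' + 1 := ⟨q - 1, by omega⟩
      refine ih (p := p) (q := q) (map_mem _ _ _ fun l hl => ?_) (by omega)
      obtain ⟨⟨h3, h4⟩, h5⟩ := mem_Sub.1 hc l hl
      rcases l with _ | ⟨z₀, _ | ⟨z₁, t⟩⟩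
      · simp at h3
      · simp at h3
      have hsub : ∀ z ∈ z₁ :: t, z ∈ z₀ :: z₁ :: t := fun z hz => List.mem_cons_of_mem _ hz
      rw [LL, capL_two]
      exact single_mem_Sub ⟨by simpa using h3, valid_sub h4 hsub⟩
        (X.F_anti (car_mono hsub) _ (X.ctr_mem_F _ h5))

theorem bdry_LL (hg : X.IsLineBundle g) {d s q : ℤ} {c : List Pt →₀ A} (hc : c ∈ PP X d s q) :
    bdryL (LL g c) = - LL g (bdryL c) := by
  rw [eq_neg_iff_add_eq_zero]
  refine map_eq_zero (bdryL.comp (LL g) + (LL g).comp bdryL) c fun l hl => ?_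
  obtain ⟨⟨-, -, -, h4⟩, h5⟩ := mem_Sub.1 hc l hl
  simp only [LinearMap.add_apply, LinearMap.comp_apply]
  rcases l with _ | ⟨z₀, _ | ⟨z₁, _ | ⟨z₂, t⟩⟩⟩
  · rw [LL, capL_short _ (by simp), bdryL_short (by simp)]; simp
  · rw [LL, capL_short _ (by simp), bdryL_short (by simp)]; simp
  · rw [LL, capL_two, bdryL_short (by simp), bdryL_long (by simp)]
    simp [Finset.sum_range_succ, capL_short]
  · have h0 : ctr (g z₀ z₁ + g z₁ z₂ - g z₀ z₂) (c (z₀ :: z₁ :: z₂ :: t)) = 0 := by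
      refine X.ctr_eq_zero_of_star (fun S hS hsub => ?_) (X.mem_Phi.1 h5).1
      exact hg.2 z₀ z₁ z₂ (h4.1 _ (by simp)) (h4.1 _ (by simp)) (h4.1 _ (by simp)) S hS
        ((car_mono (by simp)).trans hsub)
    generalize c (z₀ :: z₁ :: z₂ :: t) = ω at h0 ⊢
    have h1 : ctr (g z₀ z₁) ω + ctr (g z₁ z₂) ω - ctr (g z₀ z₂) ω = 0 := by
      rw [← h0]; simp only [ctr, map_add, map_sub, LinearMap.add_apply, LinearMap.sub_apply]
    rw [LL, capL_two, bdryL_long (by simp), bdryL_long (by simp), map_sum]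
    simp only [List.length_cons]
    rw [Finset.sum_range_succ' _ (t.length + 1), Finset.sum_range_succ' _ (t.length + 1 + 1),
      Finset.sum_range_succ' _ (t.length + 1)]
    simp only [List.eraseIdx_cons_succ, List.eraseIdx_cons_zero, map_smul, capL_two, pow_succ,
      pow_zero, mul_neg, mul_one, neg_neg, neg_smul, one_smul, Finset.sum_neg_distrib, map_neg,
      zero_add]
    have h2 := congrArg (Finsupp.single (z₂ :: t)) h1
    rw [Finsupp.single_sub, Finsupp.single_add, Finsupp.single_zero] at h2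
    rw [← h2]; abel

end cap

/-- top components of a filtered chain are represented by chains with coefficients in `F` -/
theorem exists_comp {d p q : ℕ} {c : List Pt →₀ A} (hc : c ∈ PP X d (p + d : ℕ) q)
    {J : Finset (Fin r)} (hJ : J.card = d) : ∃ x ∈ CH X p q, cmp X J c - x ∈ NV X := by
  have key : cmp X J c ∈ CH X p q ⊔ NV X := by
    refine map_mem _ _ _ fun l hl => ?_
    obtain ⟨⟨-, -, h3, h4⟩, h5⟩ := mem_Sub.1 hc l hl
    have h6 : l.length = q + 1 := by exact_mod_cast h3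
    have hne : l ≠ [] := by rintro rfl; simp at h6
    obtain ⟨η, h7, h8⟩ := X.exists_F_comp (X.cell_car hne h4) (X.sed_ray hne h4.1) h5 hJ
    rw [cmp_single, ← add_sub_cancel η (X.comp J (c l)), Finsupp.single_add]
    exact Submodule.add_mem_sup (single_mem_Sub ⟨h6, h4⟩ h7) (single_mem_Sub ⟨hne, h4⟩ h8)
  obtain ⟨x, hx, y, hy, e⟩ := Submodule.mem_sup.1 key
  exact ⟨x, hx, by rw [← e, add_sub_cancel_left]; exact hy⟩

/-- a filtered chain with prescribed top components -/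
theorem exists_lift {d p q : ℕ} (η : Finset (Fin r) → List Pt →₀ A)
    (hη : ∀ J : Finset (Fin r), J.card = d → η J ∈ CH X p q) :
    ∃ c ∈ PP X d (p + d : ℕ) q, ∀ J : Finset (Fin r), J.card = d → cmp X J c = η J := by
  classical
  have key : ∀ l : List Pt, ∃ ω : A, (ω ≠ 0 → (l.length = q + 1 ∧ X.Valid l) ∧
      l ∈ Finset.univ.biUnion fun J => (η J).support) ∧
      ω ∈ X.Phi d (p + d) (car l) (sed l) ∧
      ∀ J : Finset (Fin r), J.card = d → X.comp J ω = η J l := by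
    intro l
    by_cases h0 : ∀ J : Finset (Fin r), J.card = d → η J l = 0
    · exact ⟨0, fun h => (h rfl).elim, Submodule.zero_mem _,
        fun J hJ => by rw [map_zero, h0 J hJ]⟩
    · push Not at h0
      obtain ⟨J₀, h1, h2⟩ := h0
      have h3 := (hη J₀ h1 l).1 h2
      have hne : l ≠ [] := by rintro rfl; simp at h3
      obtain ⟨ω, h4, h5, h6, -⟩ := X.exists_lift_comp (X.cell_car hne h3.2) (fun J => η J l)
        fun J hJ => (hη J hJ l).2
      refine ⟨ω, fun _ => ⟨h3, Finset.mem_biUnion.2 ⟨J₀, Finset.mem_univ _,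
        Finsupp.mem_support_iff.2 h2⟩⟩, X.mem_Phi.2 ⟨h4, fun J hJ => ?_⟩, h5⟩
      rw [h6 J (by exact_mod_cast hJ)]; exact Submodule.zero_mem _
  choose ω h1 h2 h3 using key
  refine ⟨Finsupp.onFinset _ ω fun l h => (h1 l h).2, fun l => ⟨fun h => ?_, h2 l⟩,
    fun J hJ => Finsupp.ext fun l => h3 l J hJ⟩
  have := (h1 l h).1
  exact ⟨by positivity, by positivity, by exact_mod_cast this.1, this.2⟩

/-- either a graded piece vanishes, or the degrees are natural numbers -/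
theorem degenerate {d s q : ℤ} {c : List Pt →₀ A} (hc : c ∈ PP X d s q) :
    c ∈ PP X (d - 1) s q ∨ ∃ d' p q' : ℕ, d = d' ∧ s = (p + d' : ℕ) ∧ q = q' := by
  by_cases h : 0 ≤ d ∧ d ≤ s ∧ 0 ≤ q
  · exact Or.inr ⟨d.toNat, (s - d).toNat, q.toNat, by omega, by push_cast; omega, by omega⟩
  · refine Or.inl (PP_down hc fun J hJ l => ?_)
    rw [cmp_apply]
    by_cases h0 : c l = 0
    · rw [h0, map_zero]; exact Submodule.zero_mem _
    obtain ⟨h1, h2, -⟩ := (hc l).1 h0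
    rw [X.comp_eq_zero_of_lt (s := s.toNat) (by omega) (X.mem_Phi.1 (hc l).2).1]
    exact Submodule.zero_mem _

/-- a filtered chain whose top components are boundaries -/
theorem exact_of_bdry {d s q : ℤ} {c : List Pt →₀ A} (hc : c ∈ PP X d s q)
    (h : ∀ d' p q' : ℕ, d = d' → s = (p + d' : ℕ) → q = q' →
      ∀ J : Finset (Fin r), J.card = d' → X.IsBdry p q' (cmp X J c)) :
    ∃ a ∈ PP X (d - 1) s q, ∃ y ∈ PP X d s (q + 1), c = a + bdryL y := by
  rcases degenerate hc with h0 | ⟨d, p, q, rfl, rfl, rfl⟩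
  · exact ⟨c, h0, 0, Submodule.zero_mem _, by simp⟩
  have h1 : ∀ J : Finset (Fin r), ∃ y, J.card = d →
      y ∈ CH X p (q + 1) ∧ X.Null (cmp X J c - bdry y) := by
    intro J
    by_cases hJ : J.card = d
    · obtain ⟨y, h2, h3⟩ := h d p q rfl rfl rfl J hJ
      exact ⟨y, fun _ => ⟨(mem_CH X).2 h2, h3⟩⟩
    · exact ⟨0, fun e => (hJ e).elim⟩
  choose η hη using h1
  obtain ⟨y, hy, h2⟩ := exists_lift η fun J hJ => (hη J hJ).1
  have h3 := PP_bdry hy
  push_cast at h3 hy hc ⊢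
  rw [add_sub_cancel_right] at h3
  refine ⟨c - bdryL y, PP_down (Submodule.sub_mem _ hc h3) fun J hJ => ?_, y, hy, by simp⟩
  have hJ : J.card = d := by exact_mod_cast hJ
  rw [map_sub, cmp_bdry, h2 J hJ, bdryL_apply]
  exact (hη J hJ).2

end Lft

end Pool.Agent.Lead.THC
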