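import Pool.Agent.Lead.THC.Chains
import Pool.Agent.Lead.THC.Deligne
import Pool.Agent.Lead.THC.LiftAux

set_option autoImplicit false

open scoped BigOperators

noncomputable section

namespace Pool.Agent.Lead.THC

namespace Lft

variable {r : ℕ} {X : Space r} {g : Pt → Pt → Module.Dual ℚ E} {n : ℕ}

theorem PP_cast {d s q d' s' q' : ℤ} {x : List Pt →₀ A} (h : x ∈ PP X d s q) (h1 : d = d')
    (h2 : s = s') (h3 : q = q') : x ∈ PP X d' s' q' := by
  subst h1 h2 h3; exact h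

theorem isBdry_of_null {p q : ℕ} {x x' : List Pt →₀ A} (h : X.IsBdry p q x')
    (hx : X.Null (x - x')) : X.IsBdry p q x := by
  obtain ⟨y, h1, h2⟩ := h
  refine ⟨y, h1, ?_⟩
  have := X.null_add hx h2
  rwa [sub_add_sub_cancel] at this

theorem isBdry_smul {p q : ℕ} {x : List Pt →₀ A} (h : X.IsBdry p q x) (a : ℚ) :
    X.IsBdry p q (a • x) := by
  obtain ⟨y, h1, h2⟩ := h
  refine ⟨a • y, (mem_CH X).1 (Submodule.smul_mem _ _ ((mem_CH X).2 h1)), ?_⟩
  have := X.null_smul a h2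
  rwa [smul_sub, ← bdryL_apply, ← map_smul, bdryL_apply] at this

theorem isBdry_zero (p q : ℕ) : X.IsBdry p q 0 := by
  refine ⟨0, (mem_CH X).1 (Submodule.zero_mem _), ?_⟩
  rw [← bdryL_apply, map_zero, sub_zero]; exact X.null_zero

/-- the top components of a cycle of the graded complex are represented by cycles -/
theorem exists_cycle {d p q : ℕ} {x : List Pt →₀ A} (hx : x ∈ PP X d (p + d : ℕ) q)
    (hD : bdryL x ∈ PP X (d - 1) (p + d : ℕ) (q - 1)) {J : Finset (Fin r)} (hJ : J.card = d) :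
    ∃ c, X.IsCycle p q c ∧ cmp X J x - c ∈ NV X := by
  obtain ⟨c, h1, h2⟩ := exists_comp hx hJ
  refine ⟨c, ⟨(mem_CH X).1 h1, ?_⟩, h2⟩
  have h3 := X.null_sub (NV_null X (PP_cmp hD (J := J) (by omega))) (NV_bdry h2)
  rwa [cmp_bdry, map_sub, sub_sub_cancel, bdryL_apply] at h3

theorem sign_sq (d w : ℕ) : ((-1 : ℚ) ^ d) ^ w * ((-1 : ℚ) ^ d) ^ w = 1 := by
  rw [← mul_pow, ← mul_pow]; simp

theorem inj (hg : X.IsLineBundle g) (hHL : X.HardLefschetz n g) (w : ℕ) (d s q : ℤ)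
    (x a y : List Pt →₀ A) (hw : s - d + q - n = w) (hx : x ∈ PP X d s q)
    (hD : bdryL x ∈ PP X (d - 1) s (q - 1)) (ha : a ∈ PP X (d - 1) (s - w) (q - w))
    (hy : y ∈ PP X d (s - w) (q - w + 1)) (e : (LL g ^ w) x = a + bdryL y) :
    ∃ a' ∈ PP X (d - 1) s q, ∃ y' ∈ PP X d s (q + 1), x = a' + bdryL y' := by
  refine exact_of_bdry hx ?_
  rintro d p q rfl rfl rfl J hJ
  obtain ⟨c, h1, h2⟩ := exists_cycle hx hD hJ
  refine isBdry_of_null (hHL.1 w p q c (by push_cast at hw; omega) h1 ?_) (NV_null X h2)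
  rw [← LL_pow]
  by_cases h0 : p < w ∨ q < w
  · rw [CH_LL_pow w ((mem_CH X).2 h1.1) h0]; exact isBdry_zero _ _
  obtain ⟨y', h3, h4⟩ := exists_comp (d := d) (p := p - w) (q := q - w + 1)
    (PP_cast hy rfl (by push_cast; omega) (by push_cast; omega)) hJ
  have h5 : X.IsBdry (p - w) (q - w) (cmp X J ((LL g ^ w) x)) := by
    refine ⟨y', (mem_CH X).1 h3, ?_⟩
    have := X.null_add (NV_null X (PP_cmp ha (J := J) (by omega))) (NV_bdry h4)
    rwa [map_sub, ← cmp_bdry, ← add_sub_assoc, ← map_add, ← e, bdryL_apply] at this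
  refine isBdry_of_null (isBdry_smul h5 (((-1 : ℚ) ^ J.card) ^ w)) ?_
  rw [cmp_LL_pow, smul_smul, sign_sq, one_smul, ← map_sub, ← neg_sub, map_neg]
  exact X.null_neg (NV_null X (NV_LL_pow hg w h2))

theorem bound (hHL : X.HardLefschetz n g) (d s q : ℤ) (x : List Pt →₀ A)
    (hw : (n : ℤ) < s - d + q - n) (hx : x ∈ PP X d s q) (hD : bdryL x ∈ PP X (d - 1) s (q - 1)) :
    ∃ a ∈ PP X (d - 1) s q, ∃ y ∈ PP X d s (q + 1), x = a + bdryL y := by
  refine exact_of_bdry hx ?_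
  rintro d p q rfl rfl rfl J hJ
  obtain ⟨c, h1, h2⟩ := exists_cycle hx hD hJ
  push_cast at hw
  refine isBdry_of_null (hHL.1 (p + q - n) p q c (by omega) h1 ?_) (NV_null X h2)
  rw [← LL_pow, CH_LL_pow _ ((mem_CH X).2 h1.1) (by omega)]
  exact isBdry_zero _ _

theorem surj (hg : X.IsLineBundle g) (hHL : X.HardLefschetz n g) (w : ℕ) (d s q : ℤ)
    (x : List Pt →₀ A) (hw : s - d + q - n = - (w : ℤ)) (hx : x ∈ PP X d s q)
    (hD : bdryL x ∈ PP X (d - 1) s (q - 1)) :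
    ∃ x' ∈ PP X d (s + w) (q + w), bdryL x' ∈ PP X (d - 1) (s + w) (q + w - 1) ∧
      ∃ a ∈ PP X (d - 1) s q, ∃ y ∈ PP X d s (q + 1), x = (LL g ^ w) x' + a + bdryL y := by
  rcases degenerate hx with h0 | ⟨d, p, q, rfl, rfl, rfl⟩
  · exact ⟨0, Submodule.zero_mem _, by rw [map_zero]; exact Submodule.zero_mem _, x, h0, 0,
      Submodule.zero_mem _, by simp⟩
  have h1 : ∀ J : Finset (Fin r), ∃ c', J.card = d → X.IsCycle (p + w) (q + w) c' ∧
      X.IsBdry p q (cmp X J x - (LL g ^ w) c') := by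
    intro J
    by_cases hJ : J.card = d
    · obtain ⟨c, h1, h2⟩ := exists_cycle hx hD hJ
      obtain ⟨c', h3, h4⟩ := hHL.2 w p q c (by push_cast at hw; omega) h1
      refine ⟨c', fun _ => ⟨h3, isBdry_of_null h4 ?_⟩⟩
      rw [LL_pow, sub_sub_sub_cancel_right]
      exact NV_null X h2
    · exact ⟨0, fun e => (hJ e).elim⟩
  choose c' hc' using h1
  obtain ⟨x', h2, h3⟩ := exists_lift (d := d) (p := p + w) (q := q + w)
    (fun J => ((-1 : ℚ) ^ J.card) ^ w • c' J)
    fun J hJ => Submodule.smul_mem _ _ ((mem_CH X).2 (hc' J hJ).1.1)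
  have h4 : x' ∈ PP X d ((p + d : ℕ) + w) (q + w) :=
    PP_cast h2 rfl (by push_cast; ring) (by push_cast; ring)
  refine ⟨x', h4, PP_down (PP_bdry h4) fun J hJ => ?_, ?_⟩
  · have hJ : J.card = d := by exact_mod_cast hJ
    rw [cmp_bdry, h3 J hJ, map_smul, bdryL_apply]
    exact X.null_smul _ (hc' J hJ).1.2
  · have h5 : x - (LL g ^ w) x' ∈ PP X d (p + d : ℕ) q :=
      Submodule.sub_mem _ hx (PP_cast (PP_LL_pow hg w h4) rfl (by ring) (by ring))
    obtain ⟨a, ha, y, hy, e⟩ := exact_of_bdry h5 (by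
      intro d' p' q' e1 e2 e3 J hJ
      obtain rfl : d = d' := by exact_mod_cast e1
      obtain rfl : p = p' := by omega
      obtain rfl : q = q' := by exact_mod_cast e3
      rw [map_sub, cmp_LL_pow, h3 J hJ, map_smul, smul_smul, sign_sq, one_smul]
      exact (hc' J hJ).2)
    exact ⟨a, ha, y, hy, by rw [add_assoc, ← e, add_sub_cancel]⟩

/-- degeneration of the spectral sequence of the filtered complex -/
theorem degen (hg : X.IsLineBundle g) (hHL : X.HardLefschetz n g) {d s q : ℤ}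
    {x : List Pt →₀ A} (hx : x ∈ PP X d s q) (hx2 : bdryL x ∈ PP X (d - 2) s (q - 1)) :
    ∃ y ∈ PP X (d - 1) s q, bdryL (x - y) ∈ PP X (-1) s (q - 1) :=
  deligne bdryL (LL g) (PP X) n n PP_mono
    (fun _ _ _ _ _ hc => PP_down hc fun J hJ => by omega)
    (fun _ _ _ _ => PP_bdry) (fun _ _ _ _ => PP_LL hg)
    (fun x => by rw [bdryL_apply, bdryL_apply, bdry_bdry])
    (fun _ _ _ _ => bdry_LL hg) (inj hg hHL) (surj hg hHL) (bound hHL) d s q x hx hx2

theorem exists_theta (X : Space r) : ∃ θ : Fin r → ℝ →ₗ[ℚ] ℚ,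
    ∀ i j, θ i (X.b j) = if i = j then 1 else 0 := by
  obtain ⟨Θ, h⟩ := LinearMap.exists_extend X.b_indep.repr
  refine ⟨fun i => (Finsupp.lapply i).comp Θ, fun i j => ?_⟩
  have h1 := LinearMap.congr_fun h ⟨X.b j, Submodule.subset_span ⟨j, rfl⟩⟩
  rw [X.b_indep.repr_eq_single j _ rfl] at h1
  simp only [LinearMap.comp_apply, Submodule.subtype_apply] at h1
  simp only [LinearMap.comp_apply, h1, Finsupp.lapply_apply, Finsupp.single_apply, eq_comm]

theorem lvl_mapRange (θ : ℝ →ₗ[ℚ] ℚ) {z : Pt} (hz : X.IsPt z) (j : Fin r) :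
    lvl X.lev j (Finsupp.mapRange θ (map_zero θ) z.1) = θ (X.b j) := by
  rw [← hz.2.1 j, lvl, Finsupp.linearCombination_apply,
    Finsupp.sum_mapRange_index (fun _ => by simp), Finsupp.sum, Finsupp.sum, map_sum]
  refine Finset.sum_congr rfl fun v _ => ?_
  split_ifs <;> simp

/-- multiply the coefficient by a multivector attached to the first vertex -/
def wH (W : Pt → A) : (List Pt →₀ A) →ₗ[ℚ] (List Pt →₀ A) :=
  Finsupp.lsum ℚ fun l => (Finsupp.lsingle l).comp (LinearMap.mulLeft ℚ (W l.headI))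

theorem wH_single (W : Pt → A) (l : List Pt) (ω : A) :
    wH W (Finsupp.single l ω) = Finsupp.single l (W l.headI * ω) := by
  unfold wH; rw [Finsupp.lsum_single]; rfl

theorem bdry_wH (W : Pt → A) (c : List Pt →₀ A) : bdryL (wH W c) =
    wH W (bdryL c) + capL (fun z₀ z₁ => LinearMap.mulLeft ℚ (W z₀ - W z₁)) c := by
  rw [← sub_eq_zero]
  refine map_eq_zero (bdryL.comp (wH W) - ((wH W).comp bdryL +
    capL (fun z₀ z₁ => LinearMap.mulLeft ℚ (W z₀ - W z₁)))) c fun l _ => ?_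
  simp only [LinearMap.sub_apply, LinearMap.add_apply, LinearMap.comp_apply, wH_single]
  generalize c l = ω
  rcases l with _ | ⟨z₀, _ | ⟨z₁, t⟩⟩
  · rw [bdryL_short (by simp), bdryL_short (by simp), capL_short _ (by simp)]; simp
  · rw [bdryL_short (by simp), bdryL_short (by simp), capL_short _ (by simp)]; simp
  · rw [bdryL_long (by simp), bdryL_long (by simp), capL_two, map_sum]
    simp only [List.length_cons]
    rw [Finset.sum_range_succ' _ (t.length + 1), Finset.sum_range_succ' _ (t.length + 1)]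
    simp only [List.eraseIdx_cons_succ, List.eraseIdx_cons_zero, map_smul, wH_single,
      List.headI_cons, pow_zero, one_smul, LinearMap.mulLeft_apply, sub_mul, Finsupp.single_sub]
    abel

theorem NV_wH (W : Pt → A) {c : List Pt →₀ A} (hc : c ∈ NV X) : wH W c ∈ NV X := by
  refine map_mem _ _ _ fun l hl => ?_
  obtain ⟨h1, h2⟩ := mem_Sub.1 hc l hl
  rw [wH_single]
  exact single_mem_Sub h1 (X.mul_mem_I _ h2)

theorem mem_PP_top {s q : ℕ} {c : List Pt →₀ A} : c ∈ PP X r s q ↔ X.IsKChain s q c := by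
  rw [PP, mem_Sub]
  refine forall₂_congr fun l _ => ⟨fun h => ⟨by exact_mod_cast h.1.2.2.1, h.1.2.2.2,
    (X.mem_Phi.1 h.2).1⟩, fun h => ⟨⟨by positivity, by positivity, by exact_mod_cast h.1, h.2.1⟩,
      X.mem_Phi.2 ⟨h.2.2, fun J hJ => ?_⟩⟩⟩
  have := Finset.card_le_univ J
  rw [Fintype.card_fin] at this
  omega

/-- the first lift of a cycle, whose boundary is the eigenwave -/
theorem exists_start {k : ℕ} {c : List Pt →₀ A} (hc : X.IsCycle k k c) :
    ∃ x ∈ PP X r (k + r : ℕ) k, cmp X Finset.univ x = c ∧ ∀ i, ∃ (θ : ℝ →ₗ[ℚ] ℚ) (σ : ℚ),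
      X.Null (cmp X (Finset.univ.erase i) (bdryL x) - σ • eig θ c) := by
  obtain ⟨θ, hθ⟩ := exists_theta X
  obtain ⟨W, σ, -, hW⟩ := X.exists_top_wedge
  let ε : Pt → Fin r → E := fun z i => Finsupp.mapRange (θ i) (map_zero _) z.1
  have hε : ∀ z, X.IsPt z → ∀ i j, lvl X.lev j (ε z i) = if i = j then 1 else 0 :=
    fun z hz i j => (lvl_mapRange (θ i) hz j).trans (hθ i j)
  have hhead : ∀ l ∈ c.support, l.headI ∈ l := by
    intro l hl
    have := (hc.1 l hl).1
    rcases l with _ | ⟨z, t⟩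
    · simp at this
    · simp
  refine ⟨wH (fun z => W (ε z)) c, map_mem _ _ _ fun l hl => ?_, ?_, fun i => ⟨θ i, -σ i, ?_⟩⟩
  · obtain ⟨h1, h2, h3, h4⟩ := hc.1 l hl
    rw [wH_single, mem_PP_top]
    intro l' hl'
    obtain rfl := Finset.mem_singleton.1 (Finsupp.support_single_subset hl')
    rw [Finsupp.single_eq_same]
    refine ⟨h1, ⟨h2, h3⟩, (hW _ (hε _ (h2 _ (hhead _ hl)))).1 _ _ _ (fun i v hv => ?_)
      (X.F_le_K _ _ h4)⟩
    exact mem_car.2 ⟨_, hhead _ hl, Or.inl (Finsupp.support_mapRange hv)⟩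
  · rw [← sub_eq_zero]
    refine map_eq_zero ((cmp X Finset.univ).comp (wH fun z => W (ε z)) - LinearMap.id) c
      fun l hl => ?_
    obtain ⟨h1, h2, h3, h4⟩ := hc.1 l hl
    simp only [LinearMap.sub_apply, LinearMap.comp_apply, wH_single, cmp_single, LinearMap.id_apply]
    rw [((hW _ (hε _ (h2 _ (hhead _ hl)))).2 _ (X.ctr_lvl_of_mem_F h4)).1, sub_self]
  · have h1 : bdryL c ∈ NV X := by
      have h2 : c ∈ PP X r k k := mem_PP_top.2 fun l hl =>
        ⟨(hc.1 l hl).1, ⟨(hc.1 l hl).2.1, (hc.1 l hl).2.2.1⟩, X.F_le_K _ _ (hc.1 l hl).2.2.2⟩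
      intro l
      refine ⟨fun h => ?_, by rw [bdryL_apply]; exact hc.2 l⟩
      obtain ⟨-, h3, h4, h5⟩ := (PP_bdry h2 l).1 h
      refine ⟨?_, h5⟩
      rintro rfl
      simp at h4; omega
    have h2 : eig (θ i) c = capL (fun z₀ z₁ => LinearMap.mulLeft ℚ
        (io (Finsupp.mapRange (θ i) (map_zero _) (z₁.1 - z₀.1)))) c := by
      rw [capL_apply]; rfl
    have h3 : cmp X (Finset.univ.erase i)
        (capL (fun z₀ z₁ => LinearMap.mulLeft ℚ (W (ε z₀) - W (ε z₁))) c) = -σ i • eig (θ i) c := by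
      rw [h2, ← sub_eq_zero]
      refine map_eq_zero ((cmp X (Finset.univ.erase i)).comp
        (capL fun z₀ z₁ => LinearMap.mulLeft ℚ (W (ε z₀) - W (ε z₁))) - -σ i • capL _) c
        fun l hl => ?_
      obtain ⟨-, h4, -, h5⟩ := hc.1 l hl
      simp only [LinearMap.sub_apply, LinearMap.comp_apply, LinearMap.smul_apply]
      rcases l with _ | ⟨z₀, _ | ⟨z₁, t⟩⟩
      · rw [capL_short _ (by simp), capL_short _ (by simp)]; simp
      · rw [capL_short _ (by simp), capL_short _ (by simp)]; simp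
      rw [capL_two, capL_two, cmp_single, Finsupp.smul_single, ← Finsupp.single_sub,
        LinearMap.mulLeft_apply, LinearMap.mulLeft_apply, sub_mul, map_sub,
        ((hW _ (hε z₀ (h4 _ (by simp)))).2 _ (X.ctr_lvl_of_mem_F h5)).2,
        ((hW _ (hε z₁ (h4 _ (by simp)))).2 _ (X.ctr_lvl_of_mem_F h5)).2,
        Finsupp.mapRange_sub (map_sub (θ i)), map_sub, sub_mul, neg_smul, ← smul_neg, neg_sub,
        smul_sub, sub_self, Finsupp.single_zero]
    rw [bdry_wH, map_add, h3, add_sub_cancel_right]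
    exact NV_null X (NV_cmp (NV_wH _ h1) _)

end Lft

open Lft in
/-- a class killed by the eigenwave lifts to the total space of the family -/
theorem Space.lift_cycle {r : ℕ} (X : Space r) (n : ℕ) (g : Pt → Pt → Module.Dual ℚ E)
    (hg : X.IsLineBundle g) (hHL : X.HardLefschetz n g) (k : ℕ) (c : List Pt →₀ A)
    (hc : X.IsCycle k k c) (he : ∀ θ : ℝ →ₗ[ℚ] ℚ, X.IsBdry (k + 1) (k - 1) (eig θ c)) :
    ∃ γ, X.IsKChain (k + r) k γ ∧ X.Null (bdry γ) ∧ X.Null (c - X.down γ) := by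
  obtain ⟨x, hx, h1, h2⟩ := exists_start hc
  have h3 : bdryL x ∈ PP X (r - 1) (k + r : ℕ) (k - 1) := PP_down (PP_bdry hx) fun J hJ => by
    obtain rfl : J = Finset.univ :=
      Finset.eq_univ_of_card J (by rw [Fintype.card_fin]; exact_mod_cast hJ)
    rw [cmp_bdry, h1, bdryL_apply]; exact hc.2
  obtain ⟨a, ha, y', hy', e⟩ := exact_of_bdry h3 (by
    intro d p q e1 e2 e3 J hJ
    obtain rfl : p = k + 1 := by omega
    obtain rfl : q = k - 1 := by omega
    obtain ⟨i, hi⟩ : ∃ i, i ∉ J := by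
      by_contra h
      push Not at h
      rw [Finset.eq_univ_of_forall h, Finset.card_univ, Fintype.card_fin] at hJ
      omega
    obtain rfl : J = Finset.univ.erase i := by
      refine Finset.eq_of_subset_of_card_le (fun j hj => Finset.mem_erase.2
        ⟨fun e => hi (e ▸ hj), Finset.mem_univ _⟩) ?_
      rw [Finset.card_erase_of_mem (Finset.mem_univ _), Finset.card_univ, Fintype.card_fin]
      omega
    obtain ⟨θ, σ, h4⟩ := h2 i
    exact isBdry_of_null (isBdry_smul (he θ) σ) h4)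
  rw [sub_add_cancel] at hy'
  have h4 : x - y' ∈ PP X r (k + r : ℕ) k := Submodule.sub_mem _ hx (PP_mono _ _ _ hy')
  obtain ⟨y, hy, h5⟩ := degen hg hHL h4 (by
    rw [map_sub, e, add_sub_cancel_right]
    exact PP_cast ha (by ring) rfl rfl)
  refine ⟨x - y' - y, mem_PP_top.1 (Submodule.sub_mem _ h4 (PP_mono _ _ _ hy)), fun l => ?_, ?_⟩
  · have := NV_null X (PP_cmp h5 (J := ∅) (by simp)) l
    rwa [cmp_apply, X.comp_empty, bdryL_apply] at this
  · have h6 : c - X.down (x - y' - y) = cmp X Finset.univ (y' + y) := by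
      change c - cmp X Finset.univ (x - y' - y) = _
      rw [sub_sub, map_sub, h1, sub_sub_cancel]
    rw [h6]
    exact NV_null X (PP_cmp (Submodule.add_mem _ hy' hy) (by simp))

end Pool.Agent.Lead.THC
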