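import Pool.Agent.Lead.THC.Meets

set_option autoImplicit false

open scoped BigOperators

noncomputable section

namespace Pool.Agent.Lead.THC

theorem loc_wedge_mul_eq_zero {e : ℕ → E} {ρ : Finset ℕ} {a : ℕ} (ha : a ∈ ρ) {η : A}
    (h : io (e a) * η = 0) : wedge e ρ * η = 0 := by
  obtain ⟨σ, -, hσ⟩ := exists_wedge_eq_mul_io (e := e) ha
  rw [hσ, smul_mul_assoc, mul_assoc, h, mul_zero, smul_zero]

theorem Space.loc_wedge_mul_mem_I {r : ℕ} (X : Space r) {e : ℕ → E} {ρ : Finset ℕ} {a : ℕ}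
    (ha : a ∈ ρ) {η : A} {S : Finset ℕ} {ρ' : Set ℕ} (h : io (e a) * η ∈ X.I S ρ') :
    wedge e ρ * η ∈ X.I S ρ' := by
  obtain ⟨σ, -, hσ⟩ := exists_wedge_eq_mul_io (e := e) ha
  rw [hσ, smul_mul_assoc, mul_assoc]
  exact Submodule.smul_mem _ _ (X.mul_mem_I _ h)

theorem loc_mul_cellBd (T : Finset (Finset ℕ)) (w : A) (c : Finset ℕ → A) (R : Finset ℕ) :
    w * cellBd T c R = cellBd T (fun S => w * c S) R :=
  (cellBd_map T (LinearMap.mulLeft ℚ w) c R).symm

theorem Space.loc_io_wedge_mem_I {r : ℕ} (X : Space r) {e : ℕ → E} {ρ : Finset ℕ} {v : ℕ}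
    (hv : v ∉ ρ) {η : A} {S : Finset ℕ} {ρ' : Set ℕ}
    (h : wedge e (insert v ρ) * η ∈ X.I S ρ') : io (e v) * (wedge e ρ * η) ∈ X.I S ρ' := by
  obtain ⟨σ, hσ1, hσ⟩ := exists_wedge_eq_mul_io (e := e) (Finset.mem_insert_self v ρ)
  rw [Finset.erase_insert hv] at hσ
  have hσ2 : σ * σ = 1 := by rcases hσ1 with h | h <;> simp [h]
  have h2 : wedge e ρ * io (e v) = σ • wedge e (insert v ρ) := by
    rw [hσ, smul_smul, hσ2, one_smul]
  rw [← mul_assoc, io_mul_wedge_comm, h2, smul_mul_assoc, smul_mul_assoc]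
  exact Submodule.smul_mem _ _ (Submodule.smul_mem _ _ h)

/-- gluing of primitives of the components `wedge ρ * y` -/
theorem St.reduce_step {r : ℕ} {X : Space r} (st : St X) (U : Finset ℕ → Prop)
    (hU : ∀ S, U S → st.Meets S) (up : ∀ S S', S ⊆ S' → U S → U S') (Z : Finset ℕ)
    (t a m : ℕ) (y : Finset ℕ → A) (x : Finset ℕ → Finset ℕ → A)
    (hx : ∀ ρ : Finset ℕ, ρ.card = m → Disjoint ρ Z → ∀ S ∈ st.cx, U S → ρ ⊆ S → S.card = a + 1 →
      x ρ S ∈ X.K (t + m) (st.kap S) ∧ ∀ v ∈ S, io (st.pos v) * x ρ S ∈ X.I (st.kap S) ∅)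
    (hb : ∀ ρ : Finset ℕ, ρ.card = m → Disjoint ρ Z → ∀ S ∈ st.cx, U S → ρ ⊆ S → S.card = a →
      wedge st.pos ρ * y S - cellBd st.cx (x ρ) S ∈ X.I (st.kap S) ∅) :
    ∃ x' : Finset ℕ → A,
      (∀ S ∈ st.cx, U S → S.card = a + 1 → x' S ∈ X.K t (st.kap S) ∧
        (∀ v ∈ S, v ∈ Z → io (st.pos v) * x' S = 0) ∧
        ∀ ρ ⊆ S, ρ.card = m + 1 → wedge st.pos ρ * x' S = 0) ∧
      ∀ S ∈ st.cx, U S → S.card = a → ∀ ρ ⊆ S, ρ.card = m → Disjoint ρ Z →
        wedge st.pos ρ * (y S - cellBd st.cx x' S) ∈ X.I (st.kap S) ∅ := by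
  classical
  have key : ∀ (ρ S : Finset ℕ), ∃ η : A, ρ.card = m → Disjoint ρ Z → S ∈ st.cx → U S → ρ ⊆ S →
      S.card = a + 1 → η ∈ X.K t (st.kap S) ∧
        x ρ S - wedge st.pos ρ * η ∈ X.I (st.kap S) ∅ ∧
        ∀ v ∈ S, v ∉ ρ → io (st.pos v) * η = 0 := by
    intro ρ S
    by_cases h : ρ.card = m ∧ Disjoint ρ Z ∧ S ∈ st.cx ∧ U S ∧ ρ ⊆ S ∧ S.card = a + 1
    · obtain ⟨h1, h2, h3, h4, h5, h6⟩ := h
      obtain ⟨f, hf, hd⟩ := st.exists_dual h3
      obtain ⟨hK, hI⟩ := hx ρ h1 h2 S h3 h4 h5 h6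
      have hK' : proj st.pos f S (x ρ S) ∈ X.K (t + ρ.card) (st.kap S) := by
        rw [h1]
        exact X.proj_mem_K f (fun a ha => st.pos_mem_supp ha) hK
      obtain ⟨η, hη, he, h0⟩ := X.exists_div hd h5 hK' (fun a ha => io_mul_proj hd ha _)
      refine ⟨η, fun _ _ _ _ _ _ => ⟨hη, ?_, h0⟩⟩
      rw [he]
      exact X.sub_proj_mem_I hd (fun a _ => hf a) hI
    · exact ⟨0, fun h1 h2 h3 h4 h5 h6 => (h ⟨h1, h2, h3, h4, h5, h6⟩).elim⟩
  choose η hη using key
  refine ⟨fun S => ∑ ρ ∈ (S.powersetCard m).filter (fun ρ => Disjoint ρ Z), η ρ S, ?_, ?_⟩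
  · intro S hS hUS hc
    have hm : ∀ ρ ∈ (S.powersetCard m).filter (fun ρ => Disjoint ρ Z),
        ρ ⊆ S ∧ ρ.card = m ∧ Disjoint ρ Z := by
      intro ρ hρ
      rw [Finset.mem_filter, Finset.mem_powersetCard] at hρ
      exact ⟨hρ.1.1, hρ.1.2, hρ.2⟩
    refine ⟨?_, ?_, ?_⟩
    · refine Submodule.sum_mem _ fun ρ hρ => ?_
      obtain ⟨h1, h2, h3⟩ := hm ρ hρ
      exact (hη ρ S h2 h3 hS hUS h1 hc).1
    · intro v hv hvZ
      rw [Finset.mul_sum]
      refine Finset.sum_eq_zero fun ρ hρ => ?_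
      obtain ⟨h1, h2, h3⟩ := hm ρ hρ
      exact (hη ρ S h2 h3 hS hUS h1 hc).2.2 v hv fun hvρ => Finset.disjoint_left.1 h3 hvρ hvZ
    · intro ρ'' h1'' h2''
      rw [Finset.mul_sum]
      refine Finset.sum_eq_zero fun ρ hρ => ?_
      obtain ⟨h1, h2, h3⟩ := hm ρ hρ
      obtain ⟨v, hv, hvρ⟩ := Finset.exists_mem_notMem_of_card_lt_card
        (s := ρ) (t := ρ'') (by omega)
      exact loc_wedge_mul_eq_zero hv ((hη ρ S h2 h3 hS hUS h1 hc).2.2 v (h1'' hv) hvρ)
  · intro S hS hUS hc ρ h1 h2 h3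
    rw [mul_sub, loc_mul_cellBd]
    have e1 : wedge st.pos ρ * y S - cellBd st.cx (fun S => wedge st.pos ρ *
        ∑ ρ ∈ (S.powersetCard m).filter (fun ρ => Disjoint ρ Z), η ρ S) S =
        (wedge st.pos ρ * y S - cellBd st.cx (x ρ) S) + cellBd st.cx (fun S => x ρ S -
          wedge st.pos ρ * ∑ ρ ∈ (S.powersetCard m).filter (fun ρ => Disjoint ρ Z), η ρ S) S := by
      rw [cellBd_sub]
      abel
    rw [e1]
    refine Submodule.add_mem _ (hb ρ h2 h3 S hS hUS h1 hc) (cellBd_mem _ fun v hv hvS => ?_)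
    have hsub : S ⊆ insert v S := Finset.subset_insert v S
    have hU' : U (insert v S) := up _ _ hsub hUS
    have hc' : (insert v S).card = a + 1 := by rw [Finset.card_insert_of_notMem hv, hc]
    refine st.I_kap_mono hvS hsub (hU S hUS) ?_
    have e2 : wedge st.pos ρ * ∑ ρ ∈ ((insert v S).powersetCard m).filter
        (fun ρ => Disjoint ρ Z), η ρ (insert v S) = wedge st.pos ρ * η ρ (insert v S) := by
      rw [Finset.mul_sum]
      refine Finset.sum_eq_single_of_mem ρ ?_ ?_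
      · rw [Finset.mem_filter, Finset.mem_powersetCard]
        exact ⟨⟨h1.trans hsub, h2⟩, h3⟩
      · intro ρ' hρ' hne
        rw [Finset.mem_filter, Finset.mem_powersetCard] at hρ'
        have : ¬ ρ ⊆ ρ' := fun h =>
          hne (Finset.eq_of_subset_of_card_le h (by rw [h2, hρ'.1.2])).symm
        obtain ⟨w, hw, hwρ⟩ := Finset.not_subset.1 this
        exact loc_wedge_mul_eq_zero hw
          ((hη ρ' _ hρ'.1.2 hρ'.2 hvS hU' hρ'.1.1 hc').2.2 w (hsub (h1 hw)) hwρ)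
    rw [e2]
    exact (hη ρ _ h2 h3 hvS hU' (h1.trans hsub) hc').2.1

theorem loc_wedge_singleton (e : ℕ → E) (v : ℕ) : wedge e {v} = io (e v) := by
  simp [wedge]

/-- the induction behind `local_exact` -/
theorem St.local_exact_aux {r : ℕ} {X : Space r} (st : St X) (hL : st.LVK) (n : ℕ) :
    ∀ (S₀ : Finset ℕ), st.cx.sup Finset.card < S₀.card + n → st.Meets S₀ →
    ∀ (t a : ℕ) (z : Finset ℕ → A), a < t →
    (∀ S ∈ st.cx, S₀ ⊆ S → S.card = a → z S ∈ X.K t (st.kap S) ∧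
      ∀ v ∈ S, io (st.pos v) * z S ∈ X.I (st.kap S) ∅) →
    (∀ R ∈ st.cx, S₀ ⊆ R → R.card + 1 = a → cellBd st.cx z R ∈ X.I (st.kap R) ∅) →
    ∃ y : Finset ℕ → A, (∀ S ∈ st.cx, S₀ ⊆ S → S.card = a + 1 → y S ∈ X.K t (st.kap S) ∧
        ∀ v ∈ S, io (st.pos v) * y S ∈ X.I (st.kap S) ∅) ∧
      ∀ S ∈ st.cx, S₀ ⊆ S → S.card = a → z S - cellBd st.cx y S ∈ X.I (st.kap S) ∅ := by
  classical
  induction n with
  | zero =>
    intro S₀ hn _ t a z _ _ _
    have hno : ∀ S ∈ st.cx, S₀ ⊆ S → False := by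
      intro S hS h
      have h1 : S.card ≤ st.cx.sup Finset.card := Finset.le_sup (f := Finset.card) hS
      have h2 := Finset.card_le_card h
      omega
    exact ⟨0, fun S hS h => (hno S hS h).elim, fun S hS h => (hno S hS h).elim⟩
  | succ n ih =>
    intro S₀ hn hm t a z hat hz hc
    by_cases h0 : S₀ ∈ st.cx
    swap
    · exact ⟨0, fun S hS h => (h0 (st.down S hS _ h)).elim,
        fun S hS h => (h0 (st.down S hS _ h)).elim⟩
    -- the invariant
    let P : ℕ → Prop := fun m => ∃ y : Finset ℕ → A,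
      (∀ S ∈ st.cx, S₀ ⊆ S → S.card = a + 1 → y S ∈ X.K t (st.kap S) ∧
        (∀ v ∈ S₀, io (st.pos v) * y S ∈ X.I (st.kap S) ∅) ∧
        ∀ ρ ⊆ S, Disjoint ρ S₀ → ρ.card = m + 1 → wedge st.pos ρ * y S ∈ X.I (st.kap S) ∅) ∧
      ∀ S ∈ st.cx, S₀ ⊆ S → S.card = a → z S - cellBd st.cx y S ∈ X.I (st.kap S) ∅
    have hstart : P (a + 1) := by
      obtain ⟨y, hy, hzy⟩ := hL S₀ h0 hm t a z hat (fun S hS h1 h2 => (hz S hS h1 h2).1) hc
      obtain ⟨f, hf, hd⟩ := st.exists_dual h0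
      have hf' : ∀ S ∈ st.cx, S₀ ⊆ S → ∀ a ∈ S₀,
          X.B (st.kap S) ⊔ supp ∅ ≤ LinearMap.ker (f a) := by
        intro S hS h1 a _
        refine le_trans (sup_le_sup_right ?_ _) (hf a)
        exact X.B_anti _ (st.kap_mem' hS) _ (st.kap_mono h1) (st.cell_kap h0 hm).2
      refine ⟨fun S => proj st.pos f S₀ (y S), ?_, ?_⟩
      · intro S hS h1 h2
        refine ⟨X.proj_mem_K f (fun a ha => st.pos_mem_supp (h1 ha)) (hy S hS h1 h2), ?_, ?_⟩
        · intro v hv
          rw [io_mul_proj hd hv]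
          exact Submodule.zero_mem _
        · intro ρ h3 _ h4
          have := Finset.card_le_card h3
          omega
      · intro S hS h1 h2
        rw [cellBd_map]
        have e1 : z S - proj st.pos f S₀ (cellBd st.cx y S) =
            (z S - proj st.pos f S₀ (z S)) + proj st.pos f S₀ (z S - cellBd st.cx y S) := by
          rw [map_sub]
          abel
        rw [e1]
        exact Submodule.add_mem _
          (X.sub_proj_mem_I hd (hf' S hS h1) fun v hv => (hz S hS h1 h2).2 v (h1 hv))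
          (X.proj_mem_I _ (hf' S hS h1) (hzy S hS h1 h2))
    have hstep : ∀ m, P (m + 1) → P m := by
      rintro m ⟨y, hy, hzy⟩
      have key : ∀ ρ : Finset ℕ, ∃ x : Finset ℕ → A, ρ.card = m + 1 → Disjoint ρ S₀ →
          (∀ S ∈ st.cx, S₀ ∪ ρ ⊆ S → S.card = a + 1 + 1 → x S ∈ X.K (t + (m + 1)) (st.kap S) ∧
            ∀ v ∈ S, io (st.pos v) * x S ∈ X.I (st.kap S) ∅) ∧
          ∀ S ∈ st.cx, S₀ ∪ ρ ⊆ S → S.card = a + 1 →
            wedge st.pos ρ * y S - cellBd st.cx x S ∈ X.I (st.kap S) ∅ := by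
        intro ρ
        by_cases h : ρ.card = m + 1 ∧ Disjoint ρ S₀
        swap
        · exact ⟨0, fun h1 h2 => (h ⟨h1, h2⟩).elim⟩
        obtain ⟨h1, h2⟩ := h
        have hcard : (S₀ ∪ ρ).card = S₀.card + (m + 1) := by
          rw [Finset.card_union_of_disjoint h2.symm, h1]
        refine (ih (S₀ ∪ ρ) (by omega)
          (st.meets_mono Finset.subset_union_left hm) (t + (m + 1)) (a + 1)
          (fun S => wedge st.pos ρ * y S) (by omega) ?_ ?_).imp fun x hx _ _ => hx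
        · intro S hS h3 h4
          have h5 : S₀ ⊆ S := Finset.subset_union_left.trans h3
          have h6 : ρ ⊆ S := Finset.subset_union_right.trans h3
          obtain ⟨hK, hv0, hw⟩ := hy S hS h5 h4
          refine ⟨?_, ?_⟩
          · rw [← h1]
            exact X.wedge_mul_mem_K (fun a ha => st.pos_mem_supp (h6 ha)) hK
          · intro v hv
            by_cases hvρ : v ∈ ρ
            · rw [← mul_assoc, io_mul_wedge hvρ, zero_mul]
              exact Submodule.zero_mem _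
            by_cases hvS : v ∈ S₀
            · rw [← mul_assoc, io_mul_wedge_comm, smul_mul_assoc, mul_assoc]
              exact Submodule.smul_mem _ _ (X.mul_mem_I _ (hv0 v hvS))
            · refine X.loc_io_wedge_mem_I hvρ (hw _ ?_ ?_ ?_)
              · exact Finset.insert_subset hv h6
              · exact Finset.disjoint_insert_left.2 ⟨hvS, h2⟩
              · rw [Finset.card_insert_of_notMem hvρ, h1]
        · intro R hR h3 h4
          have h5 : S₀ ⊆ R := Finset.subset_union_left.trans h3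
          have h6 : ρ ⊆ R := Finset.subset_union_right.trans h3
          have h7 : R.card = a := by omega
          rw [← loc_mul_cellBd]
          obtain ⟨v, hv⟩ : ρ.Nonempty := Finset.card_pos.1 (by omega)
          have e1 : wedge st.pos ρ * cellBd st.cx y R =
              wedge st.pos ρ * z R - wedge st.pos ρ * (z R - cellBd st.cx y R) := by
            rw [mul_sub]
            abel
          rw [e1]
          exact Submodule.sub_mem _
            (X.loc_wedge_mul_mem_I hv ((hz R hR h5 h7).2 v (h6 hv)))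
            (X.mul_mem_I _ (hzy R hR h5 h7))
      choose x hx using key
      obtain ⟨x', hx1, hx2⟩ := st.reduce_step (fun S => S₀ ⊆ S)
        (fun S h => st.meets_mono h hm) (fun S S' h1 h2 => h2.trans h1) S₀ t (a + 1) (m + 1) y x
        (fun ρ h1 h2 S hS h3 h4 h5 => (hx ρ h1 h2).1 S hS (Finset.union_subset h3 h4) h5)
        (fun ρ h1 h2 S hS h3 h4 h5 => (hx ρ h1 h2).2 S hS (Finset.union_subset h3 h4) h5)
      refine ⟨fun S => y S - cellBd st.cx x' S, ?_, ?_⟩
      · intro S hS h1 h2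
        obtain ⟨hK, hv0, -⟩ := hy S hS h1 h2
        have hins : ∀ v, v ∉ S → (insert v S).card = a + 1 + 1 := fun v hv => by
          rw [Finset.card_insert_of_notMem hv, h2]
        refine ⟨?_, ?_, ?_⟩
        · refine Submodule.sub_mem _ hK (cellBd_mem _ fun v hv hvS => ?_)
          exact X.K_anti (st.kap_mono (Finset.subset_insert v S)) t
            (hx1 _ hvS (h1.trans (Finset.subset_insert v S)) (hins v hv)).1
        · intro w hw
          rw [mul_sub, loc_mul_cellBd]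
          refine Submodule.sub_mem _ (hv0 w hw) (cellBd_mem _ fun v hv hvS => ?_)
          rw [(hx1 _ hvS (h1.trans (Finset.subset_insert v S)) (hins v hv)).2.1 w
            (Finset.mem_insert_of_mem (h1 hw)) hw]
          exact Submodule.zero_mem _
        · intro ρ h3 h4 h5
          exact hx2 S hS h1 h2 ρ h3 h5 h4
      · intro S hS h1 h2
        rw [cellBd_sub, cellBd_cellBd _ st.down, sub_zero]
        exact hzy S hS h1 h2
    have hall : ∀ m, P m → P 0 := by
      intro m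
      induction m with
      | zero => exact id
      | succ m ihm => exact fun h => ihm (hstep m h)
    obtain ⟨y, hy, hzy⟩ := hall _ hstart
    refine ⟨y, fun S hS h1 h2 => ⟨(hy S hS h1 h2).1, fun v hv => ?_⟩, hzy⟩
    by_cases hvS : v ∈ S₀
    · exact (hy S hS h1 h2).2.1 v hvS
    · have := (hy S hS h1 h2).2.2 {v} (Finset.singleton_subset_iff.2 hv)
        (Finset.disjoint_singleton_left.2 hvS) (by simp)
      rwa [loc_wedge_singleton] at this

/-- local exactness of the subcomplex of chains divisible by the volume elements -/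
theorem St.local_exact {r : ℕ} {X : Space r} (st : St X) (hL : st.LVK) {S₀ : Finset ℕ}
    (hm : st.Meets S₀) (t a : ℕ) (z : Finset ℕ → A) (hat : a < t)
    (hz : ∀ S ∈ st.cx, S₀ ⊆ S → S.card = a → z S ∈ X.K t (st.kap S) ∧
      ∀ v ∈ S, io (st.pos v) * z S ∈ X.I (st.kap S) ∅)
    (hc : ∀ R ∈ st.cx, S₀ ⊆ R → R.card + 1 = a → cellBd st.cx z R ∈ X.I (st.kap R) ∅) :
    ∃ y : Finset ℕ → A, (∀ S ∈ st.cx, S₀ ⊆ S → S.card = a + 1 → y S ∈ X.K t (st.kap S) ∧
        ∀ v ∈ S, io (st.pos v) * y S ∈ X.I (st.kap S) ∅) ∧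
      ∀ S ∈ st.cx, S₀ ⊆ S → S.card = a → z S - cellBd st.cx y S ∈ X.I (st.kap S) ∅ :=
  st.local_exact_aux hL (st.cx.sup Finset.card + 1) S₀ (by omega) hm t a z hat hz hc

end Pool.Agent.Lead.THC
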