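import Pool.Agent.Lead.THC.Local
import Pool.Agent.Lead.THC.Fine

set_option autoImplicit false

open scoped BigOperators

noncomputable section

namespace Pool.Agent.Lead.THC

theorem Refines.cyc_sd {r : ℕ} {X : Space r} {st st' : St X} (R : Refines st st') {s : ℕ}
    {c : Finset ℕ → A} (h : st.Cyc s c) : st'.Cyc s (R.sd c) := by
  refine ⟨fun S' hS' hm hcard => ?_, fun R' hR' hm hcard => ?_⟩
  · by_cases he : R.eps S' = 0
    · refine ⟨?_, fun v _ _ => ?_⟩
      · simp only [Refines.sd, he, zero_smul]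
        exact Submodule.zero_mem _
      · simp only [Refines.sd, he, zero_smul, mul_zero]
        exact Submodule.zero_mem _
    · have h1 := h.1 (R.car S') (R.car_mem S' hS') (R.meets_car S' hS' hm)
        ((R.card_car S' hS' he).trans hcard)
      rw [R.kap_car S' hS'] at h1
      refine ⟨Submodule.smul_mem _ _ h1.1, fun v hv hr => ?_⟩
      have hv' : v ∈ R.car S' := by
        have : v ∈ R.car S' ∩ X.rays := by
          rw [R.ray_car S' hS']
          exact Finset.mem_inter.2 ⟨hv, hr⟩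
        exact (Finset.mem_inter.1 this).1
      simp only [Refines.sd, mul_smul_comm]
      exact Submodule.smul_mem _ _ (h1.2 v hv' hr)
  · have hb : cellBd st'.cx (R.sd c) R' = R.eps R' • cellBd st.cx c (R.car R') :=
      R.sd_bd A c R' hR'
    rw [hb]
    by_cases he : R.eps R' = 0
    · rw [he, zero_smul]
      exact Submodule.zero_mem _
    · have h1 := h.2 (R.car R') (R.car_mem R' hR') (R.meets_car R' hR' hm)
        (by rw [R.card_car R' hR' he]; exact hcard)
      rw [R.kap_car R' hR'] at h1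
      exact Submodule.smul_mem _ _ h1

/-- a vector times a wedge is a wedge up to sign -/
theorem rd_io_mul_wedge (e : ℕ → E) {ρ : Finset ℕ} {v : ℕ} (hv : v ∉ ρ) :
    ∃ σ : ℚ, io (e v) * wedge e ρ = σ • wedge e (insert v ρ) := by
  obtain ⟨σ, hσ, h⟩ := exists_wedge_eq_mul_io (e := e) (Finset.mem_insert_self v ρ)
  rw [Finset.erase_insert hv] at h
  refine ⟨(-1 : ℚ) ^ ρ.card * σ, ?_⟩
  have hσ2 : σ * σ = 1 := by rcases hσ with rfl | rfl <;> norm_num
  rw [io_mul_wedge_comm, h, smul_smul, mul_assoc, hσ2, mul_one]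

theorem rd_wedge_singleton (e : ℕ → E) (v : ℕ) : wedge e {v} = io (e v) := by
  simp [wedge]

/-- everything in the span of a family killing `ω` modulo `U` kills `ω` modulo `U` -/
theorem rd_span_mul {G : Set A} {U : Submodule ℚ A} {ω w : A} (hw : w ∈ Submodule.span ℚ G)
    (h : ∀ g ∈ G, g * ω ∈ U) : w * ω ∈ U := by
  have : Submodule.span ℚ G ≤ U.comap (LinearMap.mulRight ℚ ω) :=
    Submodule.span_le.2 fun g hg => h g hg
  exact this hw

theorem rd_cellBd_mul (T : Finset (Finset ℕ)) (w : A) (c : Finset ℕ → A) (R : Finset ℕ) :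
    cellBd T (fun S => w * c S) R = w * cellBd T c R :=
  cellBd_map T (LinearMap.mulLeft ℚ w) c R

/-- wedges of bounded vertices of a subdivision in terms of the coarse wedges -/
theorem Refines.rd_wedge_mem {r : ℕ} {X : Space r} {st st' : St X} (R : Refines st st')
    {S' ρ' : Finset ℕ} (hS' : S' ∈ st'.cx) (hρ : ρ' ⊆ S') (hd : Disjoint ρ' X.rays) :
    wedge st'.pos ρ' ∈ Submodule.span ℚ
      {w | ∃ ρ ⊆ R.car S' \ X.rays, ρ.card = ρ'.card ∧ w = wedge st.pos ρ} :=
  vecs_span_pow_le st.pos _ _ (wedge_mem_pow fun a ha =>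
    R.span_car S' hS' a (hρ ha) (Finset.disjoint_left.1 hd ha))

namespace St

variable {r : ℕ} {X : Space r}

/-- the coefficients are killed by all wedges of `m` bounded vertices -/
def RdFil (st : St X) (s m : ℕ) (c : Finset ℕ → A) : Prop :=
  ∀ S ∈ st.cx, st.Meets S → S.card = s → ∀ ρ ⊆ S, ρ.card = m → Disjoint ρ X.rays →
    wedge st.pos ρ * c S ∈ X.I (st.kap S) ∅

/-- local improvement on the star of a meeting simplex -/
theorem rd_local (st : St X) (hL : st.LVK) {s m : ℕ} (hm : 1 ≤ m) {c : Finset ℕ → A}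
    (hc : st.Cyc s c) (hF : st.RdFil s (m + 1) c) {j : Finset ℕ} (hj : st.Meets j) :
    ∃ Y : Finset ℕ → A,
      (∀ S ∈ st.cx, j ⊆ S → S.card = s + 1 → Y S ∈ X.K s (st.kap S) ∧
        (∀ v ∈ S, v ∈ X.rays → io (st.pos v) * Y S = 0) ∧
        ∀ ρ ⊆ S, ρ.card = m + 1 → wedge st.pos ρ * Y S = 0) ∧
      ∀ S ∈ st.cx, j ⊆ S → S.card = s → ∀ ρ ⊆ S, ρ.card = m → Disjoint ρ X.rays →
        wedge st.pos ρ * (c S - cellBd st.cx Y S) ∈ X.I (st.kap S) ∅ := by
  have key : ∀ ρ : Finset ℕ, ∃ x : Finset ℕ → A, ρ.card = m → Disjoint ρ X.rays →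
      (∀ S ∈ st.cx, j ∪ ρ ⊆ S → S.card = s + 1 → x S ∈ X.K (s + m) (st.kap S) ∧
        ∀ v ∈ S, io (st.pos v) * x S ∈ X.I (st.kap S) ∅) ∧
      ∀ S ∈ st.cx, j ∪ ρ ⊆ S → S.card = s →
        wedge st.pos ρ * c S - cellBd st.cx x S ∈ X.I (st.kap S) ∅ := by
    intro ρ
    by_cases hρ : ρ.card = m ∧ Disjoint ρ X.rays
    · obtain ⟨hcard, hd⟩ := hρ
      have hm0 : st.Meets (j ∪ ρ) := st.meets_mono Finset.subset_union_left hj
      obtain ⟨x, hx1, hx2⟩ := st.local_exact hL hm0 (s + m) s (fun S => wedge st.pos ρ * c S)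
        (by omega)
        (fun S hS hsub hSc => by
          have hmS : st.Meets S := st.meets_mono hsub hm0
          have hρS : ρ ⊆ S := Finset.subset_union_right.trans hsub
          have h1 := hc.1 S hS hmS hSc
          refine ⟨?_, fun v hv => ?_⟩
          · rw [← hcard]
            exact X.wedge_mul_mem_K (fun a ha => st.pos_mem_supp (hρS ha)) h1.1
          · rw [← mul_assoc]
            by_cases hvρ : v ∈ ρ
            · rw [io_mul_wedge hvρ, zero_mul]
              exact Submodule.zero_mem _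
            · by_cases hvr : v ∈ X.rays
              · rw [io_mul_wedge_comm, smul_mul_assoc, mul_assoc, st.pos_ray v hvr]
                exact Submodule.smul_mem _ _ (X.mul_mem_I _ (h1.2 v hv hvr))
              · obtain ⟨σ, hσ⟩ := rd_io_mul_wedge st.pos hvρ
                rw [hσ, smul_mul_assoc]
                refine Submodule.smul_mem _ _ (hF S hS hmS hSc _ ?_ ?_ ?_)
                · exact Finset.insert_subset hv hρS
                · rw [Finset.card_insert_of_notMem hvρ, hcard]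
                · exact Finset.disjoint_insert_left.2 ⟨hvr, hd⟩)
        (fun R hR hsub hRc => by
          rw [rd_cellBd_mul]
          exact X.mul_mem_I _ (hc.2 R hR (st.meets_mono hsub hm0) hRc))
      exact ⟨x, fun _ _ => ⟨hx1, hx2⟩⟩
    · exact ⟨0, fun h1 h2 => absurd ⟨h1, h2⟩ hρ⟩
  choose x hx using key
  exact st.reduce_step (fun S => j ⊆ S) (fun S hS => st.meets_mono hS hj)
    (fun S S' h h' => h'.trans h) X.rays s s m c x
    (fun ρ h1 h2 S hS hjS hρS hSc => (hx ρ h1 h2).1 S hS (Finset.union_subset hjS hρS) hSc)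
    (fun ρ h1 h2 S hS hjS hρS hSc => (hx ρ h1 h2).2 S hS (Finset.union_subset hjS hρS) hSc)

/-- subtracting a boundary from a cycle -/
theorem rd_cyc_sub (st : St X) {s : ℕ} {c y : Finset ℕ → A} (hc : st.Cyc s c)
    (hy : ∀ S ∈ st.cx, st.Meets S → S.card = s + 1 → y S ∈ X.K s (st.kap S) ∧
      ∀ v ∈ S, v ∈ X.rays → io (st.pos v) * y S = 0) :
    st.Cyc s (fun S => c S - cellBd st.cx y S) ∧
      st.Hom s c (fun S => c S - cellBd st.cx y S) := by
  refine ⟨⟨fun S hS hm hcard => ?_, fun R hR hm hcard => ?_⟩, y, fun S hS hm hcard => ?_,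
    fun S _ _ _ => ?_⟩
  · have h1 := hc.1 S hS hm hcard
    have hy' : ∀ w, w ∉ S → insert w S ∈ st.cx → y (insert w S) ∈ X.K s (st.kap (insert w S)) ∧
        ∀ v ∈ insert w S, v ∈ X.rays → io (st.pos v) * y (insert w S) = 0 := fun w hw hwS =>
      hy _ hwS (st.meets_mono (Finset.subset_insert w S) hm)
        (by rw [Finset.card_insert_of_notMem hw, hcard])
    refine ⟨Submodule.sub_mem _ h1.1 (cellBd_mem _ fun w hw hwS =>
      X.K_anti (st.kap_mono (Finset.subset_insert w S)) s (hy' w hw hwS).1), fun v hv hr => ?_⟩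
    rw [mul_sub, ← rd_cellBd_mul]
    refine Submodule.sub_mem _ (h1.2 v hv hr) (cellBd_mem _ fun w hw hwS => ?_)
    rw [← st.pos_ray v hr, (hy' w hw hwS).2 v (Finset.mem_insert_of_mem hv) hr]
    exact Submodule.zero_mem _
  · rw [cellBd_sub, cellBd_cellBd _ st.down, sub_zero]
    exact hc.2 R hR hm hcard
  · refine ⟨(hy S hS hm hcard).1, fun v hv hr => ?_⟩
    rw [← st.pos_ray v hr, (hy S hS hm hcard).2 v hv hr]
    exact Submodule.zero_mem _
  · rw [sub_sub_cancel, sub_self]
    exact Submodule.zero_mem _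

/-- one step of the reduction, on a fine subdivision -/
theorem rd_step {st st' : St X} (R : Refines st st') (hfine : R.Fine) (hL : st.LVK) {s m : ℕ}
    (hm : 1 ≤ m) {c : Finset ℕ → A} (hc : st.Cyc s c) (hF : st.RdFil s (m + 1) c) :
    ∃ c', st'.Cyc s c' ∧ st'.Hom s (R.sd c) c' ∧ st'.RdFil s m c' := by
  have key : ∀ ρ' : Finset ℕ, ∃ Y : Finset ℕ → A, ρ'.card = m → Disjoint ρ' X.rays →
      ∀ S' ∈ st'.cx, st'.Meets S' → ρ' ⊆ S' →
      ((R.car S').card = s + 1 → Y (R.car S') ∈ X.K s (st.kap (R.car S')) ∧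
        (∀ v ∈ R.car S', v ∈ X.rays → io (st.pos v) * Y (R.car S') = 0) ∧
        ∀ ρ ⊆ R.car S', ρ.card = m + 1 → wedge st.pos ρ * Y (R.car S') = 0) ∧
      ((R.car S').card = s → ∀ ρ ⊆ R.car S', ρ.card = m → Disjoint ρ X.rays →
        wedge st.pos ρ * (c (R.car S') - cellBd st.cx Y (R.car S')) ∈
          X.I (st.kap (R.car S')) ∅) := by
    intro ρ'
    by_cases hρ : ρ'.card = m ∧ Disjoint ρ' X.rays ∧ ∃ S₀' ∈ st'.cx, st'.Meets S₀' ∧ ρ' ⊆ S₀'
    · obtain ⟨hcard, hd, S₀', hS₀, hm₀, hsub⟩ := hρ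
      obtain ⟨a, ha⟩ : ρ'.Nonempty := Finset.card_pos.1 (by omega)
      obtain ⟨j, _, hjm, hj⟩ := hfine a (Finset.disjoint_left.1 hd ha) S₀' hS₀ (hsub ha) hm₀
      obtain ⟨Y, hY1, hY2⟩ := st.rd_local hL hm hc hF hjm
      exact ⟨Y, fun _ _ S' hS' hmS' hρS =>
        ⟨hY1 _ (R.car_mem S' hS') (hj S' hS' (hρS ha) hmS'),
          hY2 _ (R.car_mem S' hS') (hj S' hS' (hρS ha) hmS')⟩⟩
    · exact ⟨0, fun h1 h2 S' hS' hmS' hρS => absurd ⟨h1, h2, S', hS', hmS', hρS⟩ hρ⟩
  choose Y hY using key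
  obtain ⟨x', hx1, hx2⟩ := st'.reduce_step st'.Meets (fun _ h => h)
    (fun S S' h h' => st'.meets_mono h h') X.rays s s m (R.sd c)
    (fun ρ' S' => wedge st'.pos ρ' * R.sd (Y ρ') S')
    (fun ρ' h1 h2 S' hS' hmS' hρS hcard => by
      by_cases he : R.eps S' = 0
      · simp only [Refines.sd, he, zero_smul, mul_zero]
        exact ⟨Submodule.zero_mem _, fun _ _ => Submodule.zero_mem _⟩
      · obtain ⟨hK, hray, hw⟩ := (hY ρ' h1 h2 S' hS' hmS' hρS).1
          ((R.card_car S' hS' he).trans hcard)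
        rw [R.kap_car S' hS'] at hK
        refine ⟨?_, fun v hv => ?_⟩
        · rw [← h1]
          exact X.wedge_mul_mem_K (fun a ha => st'.pos_mem_supp (hρS ha))
            (Submodule.smul_mem _ _ hK)
        · simp only [Refines.sd, mul_smul_comm]
          refine Submodule.smul_mem _ _ ?_
          rw [← mul_assoc]
          by_cases hvρ : v ∈ ρ'
          · rw [io_mul_wedge hvρ, zero_mul]
            exact Submodule.zero_mem _
          · by_cases hvr : v ∈ X.rays
            · have hv' : v ∈ R.car S' := by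
                have : v ∈ R.car S' ∩ X.rays := by
                  rw [R.ray_car S' hS']
                  exact Finset.mem_inter.2 ⟨hv, hvr⟩
                exact (Finset.mem_inter.1 this).1
              rw [io_mul_wedge_comm, smul_mul_assoc, mul_assoc, st'.pos_ray v hvr,
                ← st.pos_ray v hvr, hray v hv' hvr, mul_zero, smul_zero]
              exact Submodule.zero_mem _
            · obtain ⟨σ, hσ⟩ := rd_io_mul_wedge st'.pos hvρ
              rw [hσ, smul_mul_assoc]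
              refine Submodule.smul_mem _ _ (rd_span_mul (R.rd_wedge_mem hS'
                (Finset.insert_subset hv hρS) (Finset.disjoint_insert_left.2 ⟨hvr, h2⟩)) ?_)
              rintro g ⟨ρ, hρ, hρc, rfl⟩
              rw [Finset.card_insert_of_notMem hvρ, h1] at hρc
              rw [hw ρ (hρ.trans Finset.sdiff_subset) hρc]
              exact Submodule.zero_mem _)
    (fun ρ' h1 h2 S' hS' hmS' hρS hcard => by
      have hb : cellBd st'.cx (R.sd (Y ρ')) S' = R.eps S' • cellBd st.cx (Y ρ') (R.car S') :=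
        R.sd_bd A (Y ρ') S' hS'
      rw [rd_cellBd_mul, hb, ← mul_sub]
      simp only [Refines.sd]
      rw [← smul_sub, mul_smul_comm]
      by_cases he : R.eps S' = 0
      · rw [he, zero_smul]
        exact Submodule.zero_mem _
      · have hw := (hY ρ' h1 h2 S' hS' hmS' hρS).2 ((R.card_car S' hS' he).trans hcard)
        rw [R.kap_car S' hS'] at hw
        refine Submodule.smul_mem _ _ (rd_span_mul (R.rd_wedge_mem hS' hρS h2) ?_)
        rintro g ⟨ρ, hρ, hρc, rfl⟩
        exact hw ρ (hρ.trans Finset.sdiff_subset) (hρc.trans h1)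
          (Finset.disjoint_of_subset_left hρ Finset.sdiff_disjoint))
  obtain ⟨h1, h2⟩ := st'.rd_cyc_sub (R.cyc_sd hc)
    (fun S hS hmS hcard => ⟨(hx1 S hS hmS hcard).1, (hx1 S hS hmS hcard).2.1⟩)
  exact ⟨_, h1, h2, hx2⟩

/-- the last step: a cycle killed by all vertices is tangent modulo `I` -/
theorem rd_last (st : St X) {s : ℕ} {c : Finset ℕ → A} (hc : st.Cyc s c) (hF : st.RdFil s 1 c) :
    ∃ c', st.Cyc s c' ∧ st.Hom s c c' ∧ st.Tangent s c' := by
  have key : ∀ S : Finset ℕ, ∃ q : ℚ, S ∈ st.cx → st.Meets S → S.card = s →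
      q • wedge st.pos S ∈ X.K s (st.kap S) ∧ c S - q • wedge st.pos S ∈ X.I (st.kap S) ∅ := by
    intro S
    by_cases hS : S ∈ st.cx ∧ st.Meets S ∧ S.card = s
    · obtain ⟨hS, hm, hcard⟩ := hS
      obtain ⟨f, hf1, hf2⟩ := st.exists_dual hS
      have h1 := hc.1 S hS hm hcard
      have hkill : ∀ v ∈ S, io (st.pos v) * c S ∈ X.I (st.kap S) ∅ := by
        intro v hv
        by_cases hvr : v ∈ X.rays
        · rw [st.pos_ray v hvr]
          exact h1.2 v hv hvr
        · rw [← rd_wedge_singleton]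
          exact hF S hS hm hcard {v} (Finset.singleton_subset_iff.2 hv) (Finset.card_singleton v)
            (Finset.disjoint_singleton_left.2 hvr)
      have hK : proj st.pos f S (c S) ∈ X.K s (st.kap S) :=
        X.proj_mem_K f (fun a ha => st.pos_mem_supp ha) h1.1
      have hI := X.sub_proj_mem_I hf2 (fun a _ => hf1 a) hkill
      obtain ⟨η, hη, hdiv, -⟩ := X.exists_div (s := 0) hf2 (Finset.Subset.refl S)
        (by rw [zero_add, hcard]; exact hK) (fun a ha => io_mul_proj hf2 ha _)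
      obtain ⟨q, rfl⟩ := X.exists_algebraMap_of_mem_K_zero hη
      have hq : proj st.pos f S (c S) = q • wedge st.pos S := by
        rw [← hdiv, ← Algebra.commutes, Algebra.smul_def]
      rw [hq] at hK hI
      exact ⟨q, fun _ _ _ => ⟨hK, hI⟩⟩
    · exact ⟨0, fun h1 h2 h3 => absurd ⟨h1, h2, h3⟩ hS⟩
  choose q hq using key
  refine ⟨fun S => q S • wedge st.pos S, ⟨fun S hS hm hcard => ⟨(hq S hS hm hcard).1,
    fun v hv hr => ?_⟩, fun R hR hm hcard => ?_⟩, ⟨0, fun S _ _ _ => ⟨Submodule.zero_mem _,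
    fun v _ _ => ?_⟩, fun S hS hm hcard => ?_⟩, fun S _ _ _ => ⟨q S, rfl⟩⟩
  · rw [mul_smul_comm, ← st.pos_ray v hr, io_mul_wedge hv, smul_zero]
    exact Submodule.zero_mem _
  · have h1 : cellBd st.cx (fun S => c S - q S • wedge st.pos S) R ∈ X.I (st.kap R) ∅ :=
      cellBd_mem _ fun w hw hwR => st.I_kap_mono hwR (Finset.subset_insert w R) hm
        (hq _ hwR (st.meets_mono (Finset.subset_insert w R) hm)
          (by rw [Finset.card_insert_of_notMem hw, hcard])).2
    rw [cellBd_sub] at h1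
    have h2 := Submodule.sub_mem _ (hc.2 R hR hm hcard) h1
    rwa [sub_sub_cancel] at h2
  · rw [Pi.zero_apply, mul_zero]
    exact Submodule.zero_mem _
  · exact Submodule.sub_mem _ (hq S hS hm hcard).2 (cellBd_mem _ fun _ _ _ => Submodule.zero_mem _)

end St

/-- every cellular cycle becomes tangent after subdivisions and homologies -/
theorem reduce {r : ℕ} {X : Space r} (Q : (st : St X) → (Finset ℕ → A) → Prop) (s : ℕ)
    (hH : ∀ (st : St X) (c c' : Finset ℕ → A), st.Good → st.Cyc s c → st.Cyc s c' →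
      st.Hom s c c' → Q st c → Q st c')
    (hR : ∀ (st st' : St X) (R : Refines st st') (c : Finset ℕ → A), st.Good → st'.Good →
      st.Cyc s c → Q st c → Q st' (R.sd c))
    (st₀ : St X) (c₀ : Finset ℕ → A) (hg : st₀.Good) (hc : st₀.Cyc s c₀) (hQ : Q st₀ c₀) :
    ∃ (st : St X) (c : Finset ℕ → A), st.Good ∧ st.Cyc s c ∧ st.Tangent s c ∧ Q st c := by
  have main : ∀ (m : ℕ) (st : St X) (c : Finset ℕ → A), st.Good → st.Cyc s c → Q st c →
      st.RdFil s (m + 1) c →
      ∃ (st : St X) (c : Finset ℕ → A), st.Good ∧ st.Cyc s c ∧ st.Tangent s c ∧ Q st c := by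
    intro m
    induction m with
    | zero =>
      intro st c hg hc hQ hF
      obtain ⟨c', h1, h2, h3⟩ := st.rd_last hc hF
      exact ⟨st, c', hg, h1, h3, hH st c c' hg hc h1 h2 hQ⟩
    | succ m ih =>
      intro st c hg hc hQ hF
      obtain ⟨st', R, hg', hfine⟩ := st.exists_fine hg
      obtain ⟨c', h1, h2, h3⟩ := St.rd_step R hfine hg.2 (Nat.succ_le_succ (Nat.zero_le m)) hc hF
      exact ih st' c' hg' h1
        (hH st' _ c' hg' (R.cyc_sd hc) h1 h2 (hR st st' R c hg hg' hc hQ)) h3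
  refine main s st₀ c₀ hg hc hQ fun S _ _ hcard ρ hρ hρc _ => ?_
  have := Finset.card_le_card hρ
  omega

end Pool.Agent.Lead.THC
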