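import Pool.Agent.Lead.THC.Meets
import Pool.Agent.Lead.THC.Chains

set_option autoImplicit false

open scoped BigOperators

noncomputable section

namespace Pool.Agent.Lead.THC

section PsiAux

variable {M : Type} [AddCommGroup M] [Module ℚ M]

/-- `tens` as a bilinear map -/
def tensL (G : Type) : (G →₀ ℚ) →ₗ[ℚ] M →ₗ[ℚ] (G →₀ M) :=
  LinearMap.mk₂ ℚ tens
    (fun u u' ω => by ext g; simp [tens, add_smul])
    (fun q u ω => by ext g; simp [tens, mul_smul])
    (fun u ω ω' => by ext g; simp [tens, smul_add])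
    (fun q u ω => by ext g; simp [tens, smul_comm q])

theorem tensL_apply {G : Type} (u : G →₀ ℚ) (ω : M) : tensL G u ω = tens u ω := rfl

/-- `prisms` as a linear map -/
def prismsL (ρ : Finset ℕ) : (List Pt →₀ M) →ₗ[ℚ] (List Pt →₀ M) where
  toFun := prisms ρ
  map_add' := prisms_add ρ
  map_smul' := prisms_smul ρ

theorem prismsL_apply (ρ : Finset ℕ) (c : List Pt →₀ M) : prismsL ρ c = prisms ρ c := rfl

/-- the bilinear map `(u, ω) ↦ prisms ρ (tens u ω)` -/
def ptL (ρ : Finset ℕ) : (List Pt →₀ ℚ) →ₗ[ℚ] M →ₗ[ℚ] (List Pt →₀ M) :=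
  (tensL (List Pt)).compr₂ (prismsL ρ)

theorem ptL_apply (ρ : Finset ℕ) (u : List Pt →₀ ℚ) (ω : M) :
    ptL ρ u ω = prisms ρ (tens u ω) := rfl

theorem support_tens_subset {G : Type} (u : G →₀ ℚ) (ω : M) :
    (tens u ω).support ⊆ u.support := Finsupp.support_mapRange

theorem psi_bdry_sum {ι : Type} (s : Finset ι) (c : ι → List Pt →₀ M) :
    bdry (∑ i ∈ s, c i) = ∑ i ∈ s, bdry (c i) := by
  simp only [← bdryL_apply, map_sum]

theorem psi_bdry_smul (q : ℚ) (c : List Pt →₀ M) : bdry (q • c) = q • bdry c := by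
  simp only [← bdryL_apply, map_smul]

theorem psi_bdry_add (c c' : List Pt →₀ M) : bdry (c + c') = bdry c + bdry c' := by
  simp only [← bdryL_apply, map_add]

theorem psi_bdry_sub (c c' : List Pt →₀ M) : bdry (c - c') = bdry c - bdry c' := by
  simp only [← bdryL_apply, map_sub]

end PsiAux

namespace St

theorem tau_add_two (b a : ℕ) : tau b (a + 2) = tau b a := by
  unfold tau
  rw [show b * (a + 2 + 1) = b * (a + 1) + 2 * b by ring, pow_add, pow_mul (-1 : ℚ) 2 b]
  simp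

theorem tau_succ_right (b a : ℕ) : tau b (a + 1) = tau b a * (-1) ^ b := by
  unfold tau
  rw [show b * (a + 1 + 1) = b * (a + 1) + b by ring, pow_add]

theorem tau_succ_left (b a : ℕ) : tau (b + 1) a = -((-1) ^ a * tau b a) := by
  unfold tau
  rw [show (b + 1) * (a + 1) = b * (a + 1) + a + 1 by ring, pow_succ, pow_add]
  ring

variable {r : ℕ} {X : Space r} (st : St X)

open Classical in
/-- `Psi` with a shifted sign -/
def PsiE (e : ℕ) (h : Finset ℕ → List Pt →₀ ℚ) (s : ℕ) (c : Finset ℕ → A) : List Pt →₀ A :=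
  ∑ S ∈ st.cx.filter fun S => st.Meets S ∧ S.card = s,
    tau (S ∩ X.rays).card ((S \ X.rays).card + e) •
      prisms (S ∩ X.rays) (tens (h (S \ X.rays)) (c S))

theorem psiE_zero (h : Finset ℕ → List Pt →₀ ℚ) (s : ℕ) (c : Finset ℕ → A) :
    st.PsiE 0 h s c = st.Psi h s c := rfl

theorem psiE_add_two (e : ℕ) (h : Finset ℕ → List Pt →₀ ℚ) (s : ℕ) (c : Finset ℕ → A) :
    st.PsiE (e + 2) h s c = st.PsiE e h s c := by
  unfold PsiE
  refine Finset.sum_congr rfl fun S _ => ?_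
  rw [← add_assoc, tau_add_two]

open Classical in
/-- the cellular boundary of a family indexed by the bounded cells -/
def famBd (h : Finset ℕ → List Pt →₀ ℚ) (j : Finset ℕ) : List Pt →₀ ℚ :=
  ∑ v ∈ j, if st.Meets (j.erase v) then sgn v (j.erase v) • h (j.erase v) else 0

/-- a family of chains of length `|j| + 1 + n - r` carried by the bounded cells `j` -/
def Carried (n : ℕ) (h : Finset ℕ → List Pt →₀ ℚ) : Prop :=
  ∀ j ∈ st.cx, Disjoint j X.rays → st.Meets j → ∀ l ∈ (h j).support,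
    l.length + r = j.card + 1 + n ∧ (∀ z ∈ l, X.IsPt z) ∧ car l ⊆ st.kap j

theorem IsReal.carried {ψ : Finset ℕ → List Pt →₀ ℚ} (hψ : st.IsReal ψ) : st.Carried 0 ψ :=
  fun j hj hd hm l hl => (hψ j hj hd hm).1 l hl

theorem IsReal.bdry_eq {ψ : Finset ℕ → List Pt →₀ ℚ} (hψ : st.IsReal ψ) {j : Finset ℕ}
    (hj : j ∈ st.cx) (hd : Disjoint j X.rays) (hm : st.Meets j) :
    bdry (ψ j) = st.famBd ψ j := by
  classical
  obtain ⟨h1, h2, -⟩ := hψ j hj hd hm
  by_cases hr : r < j.card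
  · exact h2 hr
  · have hle : r ≤ j.card := (st.le_card_of_meets hm).trans (Finset.card_le_card Finset.sdiff_subset)
    rw [bdry_of_length_le_one fun l hl => by have := (h1 l hl).1; omega]
    unfold famBd
    refine (Finset.sum_eq_zero fun v hv => ?_).symm
    rw [if_neg]
    intro hm'
    have h3 := (st.le_card_of_meets hm').trans (Finset.card_le_card Finset.sdiff_subset)
    rw [Finset.card_erase_of_mem hv] at h3
    have := Finset.card_pos.2 ⟨v, hv⟩
    omega

theorem card_sdiff_add (S : Finset ℕ) : (S \ X.rays).card + (S ∩ X.rays).card = S.card :=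
  Finset.card_sdiff_add_card_inter S X.rays

/-- the support of the prisms over a carried family -/
theorem Carried.mem_prisms {n : ℕ} {h : Finset ℕ → List Pt →₀ ℚ} (hh : st.Carried n h)
    {S : Finset ℕ} (hS : S ∈ st.cx) (hm : st.Meets S) {ρ : Finset ℕ} (hρ : ρ ⊆ S ∩ X.rays)
    {l' : List Pt} (hl' : l' ∈ (prisms ρ (h (S \ X.rays))).support) :
    l'.length + r = (S \ X.rays).card + ρ.card + 1 + n ∧ l' ≠ [] ∧ (∀ z ∈ l', X.IsPt z) ∧
      car l' ⊆ st.kap S := by
  obtain ⟨l, hl, -, hlen, hcar, -, hz⟩ := mem_support_prisms hl'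
  obtain ⟨h1, h2, h3⟩ := hh (S \ X.rays) (st.down S hS _ Finset.sdiff_subset)
    Finset.sdiff_disjoint ((st.meets_sdiff_rays S).2 hm) l hl
  have h4 := st.le_card_of_meets hm
  refine ⟨by omega, ?_, ?_, ?_⟩
  · intro h0
    rw [h0, List.length_nil] at hlen
    omega
  · intro z' hz'
    obtain ⟨z, hzl, e1, -, e3⟩ := hz z' hz'
    obtain ⟨p1, p2, p3⟩ := h2 z hzl
    refine ⟨by rw [e1]; exact p1, by rw [e1]; exact p2, fun v hv => ?_⟩
    rcases Finset.mem_union.1 (e3 hv) with h5 | h5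
    · exact p3 v h5
    · exact lev_of_mem_rays (Finset.mem_inter.1 (hρ h5)).2
  · rw [hcar, st.kap_eq hS]
    exact Finset.union_subset_union h3 hρ

theorem psiE_kchain (e : ℕ) {n : ℕ} {h : Finset ℕ → List Pt →₀ ℚ} (hh : st.Carried n h)
    {t q a : ℕ} (hq : q + r = a + n) {c : Finset ℕ → A}
    (hc : ∀ S ∈ st.cx, st.Meets S → S.card = a → c S ∈ X.K t (st.kap S)) :
    X.IsKChain t q (st.PsiE e h a c) := by
  classical
  unfold PsiE
  refine X.kchain_sum _ fun S hS => X.kchain_smul _ ?_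
  obtain ⟨hS, hm, hcard⟩ := Finset.mem_filter.1 hS
  rw [prisms_tens]
  refine X.kchain_tens (st.kap_mem' hS) (fun l hl => ?_) (hc S hS hm hcard)
  obtain ⟨h1, -, h3, h4⟩ := hh.mem_prisms st hS hm subset_rfl hl
  have := card_sdiff_add (X := X) S
  exact ⟨by omega, h3, h4⟩

theorem psiE_null (e : ℕ) {n : ℕ} {h : Finset ℕ → List Pt →₀ ℚ} (hh : st.Carried n h) {a : ℕ}
    {c : Finset ℕ → A} (hc : ∀ S ∈ st.cx, st.Meets S → S.card = a → c S ∈ X.I (st.kap S) ∅) :
    X.Null (st.PsiE e h a c) := by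
  classical
  unfold PsiE
  refine X.null_sum _ fun S hS => X.null_smul _ ?_
  obtain ⟨hS, hm, hcard⟩ := Finset.mem_filter.1 hS
  rw [prisms_tens]
  refine X.null_tens (st.kap_mem' hS) (fun l hl => ?_) (hc S hS hm hcard)
  obtain ⟨-, h2, h3, h4⟩ := hh.mem_prisms st hS hm subset_rfl hl
  exact ⟨h2, h3, h4, Set.empty_subset _⟩

theorem psiE_sub (e : ℕ) (h : Finset ℕ → List Pt →₀ ℚ) (a : ℕ) (c c' : Finset ℕ → A) :
    st.PsiE e h a (fun S => c S - c' S) = st.PsiE e h a c - st.PsiE e h a c' := by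
  unfold PsiE
  rw [← Finset.sum_sub_distrib]
  refine Finset.sum_congr rfl fun S _ => ?_
  simp only [← ptL_apply, map_sub, smul_sub]

theorem psiE_sub_left (e : ℕ) (h h' : Finset ℕ → List Pt →₀ ℚ) (a : ℕ) (c : Finset ℕ → A) :
    st.PsiE e (fun j => h j - h' j) a c = st.PsiE e h a c - st.PsiE e h' a c := by
  unfold PsiE
  rw [← Finset.sum_sub_distrib]
  refine Finset.sum_congr rfl fun S _ => ?_
  simp only [← ptL_apply, map_sub, LinearMap.sub_apply, smul_sub]

theorem psiE_congr (e : ℕ) {h h' : Finset ℕ → List Pt →₀ ℚ}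
    (hh : ∀ j ∈ st.cx, Disjoint j X.rays → st.Meets j → h j = h' j) (a : ℕ)
    (c : Finset ℕ → A) : st.PsiE e h a c = st.PsiE e h' a c := by
  classical
  unfold PsiE
  refine Finset.sum_congr rfl fun S hS => ?_
  obtain ⟨hS, hm, -⟩ := Finset.mem_filter.1 hS
  rw [hh _ (st.down S hS _ Finset.sdiff_subset) Finset.sdiff_disjoint
    ((st.meets_sdiff_rays S).2 hm)]

theorem psiE_zero_left (e : ℕ) (a : ℕ) (c : Finset ℕ → A) :
    st.PsiE e (fun _ => 0) a c = 0 := by
  unfold PsiE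
  refine Finset.sum_eq_zero fun S _ => ?_
  simp only [← ptL_apply, map_zero, LinearMap.zero_apply, smul_zero]

open Classical in
/-- the terms at infinity of the boundary -/
def infE (e : ℕ) (h : Finset ℕ → List Pt →₀ ℚ) (s : ℕ) (c : Finset ℕ → A) : List Pt →₀ A :=
  ∑ S ∈ st.cx.filter fun S => st.Meets S ∧ S.card = s,
    tau (S ∩ X.rays).card ((S \ X.rays).card + e) • ∑ v ∈ S ∩ X.rays,
      sgn v ((S ∩ X.rays).erase v) •
        shift {v} (prisms ((S ∩ X.rays).erase v) (tens (h (S \ X.rays)) (c S)))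

theorem infE_null (e : ℕ) {n : ℕ} {h : Finset ℕ → List Pt →₀ ℚ} (hh : st.Carried n h)
    {t a : ℕ} {c : Finset ℕ → A} (hc : st.Ch t a c) : X.Null (st.infE e h a c) := by
  classical
  unfold infE
  refine X.null_sum _ fun S hS => X.null_smul _ (X.null_sum _ fun v hv => X.null_smul _ ?_)
  obtain ⟨hS, hm, hcard⟩ := Finset.mem_filter.1 hS
  obtain ⟨hv1, hv2⟩ := Finset.mem_inter.1 hv
  have hvk : v ∈ st.kap S := by
    rw [st.kap_eq hS]
    exact Finset.mem_union_right _ hv
  rw [prisms_tens, shift_tens]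
  refine X.null_tens (ρ := {v}) (st.kap_mem' hS) (fun l hl => ?_)
    (X.mem_I_singleton_of_io_mul (st.kap_mem' hS) hvk ((hc S hS hm hcard).2 v hv1 hv2))
  obtain ⟨l', hl', rfl⟩ := mem_support_shift hl
  obtain ⟨-, h2, h3, h4⟩ := hh.mem_prisms st hS hm (Finset.erase_subset _ _) hl'
  refine ⟨by simpa using h2, ?_, ?_, ?_⟩
  · intro z hz
    obtain ⟨z', hz', rfl⟩ := List.mem_map.1 hz
    obtain ⟨p1, p2, p3⟩ := h3 z' hz'
    refine ⟨p1, p2, fun w hw => ?_⟩
    rcases Finset.mem_union.1 hw with h5 | h5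
    · rw [Finset.mem_singleton.1 h5]
      exact lev_of_mem_rays hv2
    · exact p3 w h5
  · intro w hw
    obtain ⟨z, hz, h5⟩ := mem_car.1 hw
    obtain ⟨z', hz', rfl⟩ := List.mem_map.1 hz
    rcases h5 with h5 | h5
    · exact h4 (mem_car.2 ⟨z', hz', Or.inl h5⟩)
    · rcases Finset.mem_union.1 h5 with h6 | h6
      · rw [Finset.mem_singleton.1 h6]
        exact hvk
      · exact h4 (mem_car.2 ⟨z', hz', Or.inr h6⟩)
  · intro w hw z hz
    obtain ⟨z', -, rfl⟩ := List.mem_map.1 hz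
    rw [Set.mem_singleton_iff.1 hw]
    exact Finset.mem_union_left _ (Finset.mem_singleton_self v)

open Classical in
/-- `PsiE` of a cellular boundary -/
theorem psiE_cellBd (e : ℕ) (h : Finset ℕ → List Pt →₀ ℚ) (a : ℕ) (y : Finset ℕ → A) :
    st.PsiE e h a (cellBd st.cx y) =
      ∑ S ∈ st.cx.filter fun S => st.Meets S ∧ S.card = a + 1,
        (tau (S ∩ X.rays).card ((S \ X.rays).card + e + 1) •
            prisms (S ∩ X.rays) (tens (st.famBd h (S \ X.rays)) (y S)) -
          (-1 : ℚ) ^ e • tau (S ∩ X.rays).card ((S \ X.rays).card + e) • ∑ v ∈ S ∩ X.rays,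
            sgn v ((S ∩ X.rays).erase v) •
              prisms ((S ∩ X.rays).erase v) (tens (h (S \ X.rays)) (y S))) := by
  let β : Finset ℕ → A →ₗ[ℚ] (List Pt →₀ A) := fun R =>
    if st.Meets R ∧ R.card = a then
      tau (R ∩ X.rays).card ((R \ X.rays).card + e) • ptL (R ∩ X.rays) (h (R \ X.rays)) else 0
  have h1 : st.PsiE e h a (cellBd st.cx y) = ∑ R ∈ st.cx, β R (cellBd st.cx y R) := by
    unfold PsiE
    rw [Finset.sum_filter]
    refine Finset.sum_congr rfl fun R _ => ?_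
    by_cases hR : st.Meets R ∧ R.card = a
    · simp only [β, if_pos hR, LinearMap.smul_apply, ptL_apply]
    · simp only [β, if_neg hR, LinearMap.zero_apply]
  rw [h1, sum_cellBd st.cx st.down β y, Finset.sum_filter]
  refine Finset.sum_congr rfl fun S hS => ?_
  by_cases hm : st.Meets S ∧ S.card = a + 1
  swap
  · rw [if_neg hm]
    refine Finset.sum_eq_zero fun v hv => ?_
    have : ¬ (st.Meets (S.erase v) ∧ (S.erase v).card = a) := by
      rintro ⟨h2, h3⟩
      refine hm ⟨st.meets_mono (Finset.erase_subset _ _) h2, ?_⟩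
      rw [← h3, Finset.card_erase_add_one hv]
    simp only [β, if_neg this, LinearMap.zero_apply, smul_zero]
  rw [if_pos hm]
  obtain ⟨hm, hcard⟩ := hm
  have hsplit : ∀ f : ℕ → List Pt →₀ A,
      ∑ v ∈ S, f v = ∑ v ∈ S \ X.rays, f v + ∑ v ∈ S ∩ X.rays, f v := by
    intro f
    rw [← Finset.sum_union (Finset.disjoint_sdiff_inter S X.rays), Finset.sdiff_union_inter]
  rw [hsplit, sub_eq_add_neg]
  congr 1
  · unfold famBd
    rw [← ptL_apply, map_sum, LinearMap.sum_apply, Finset.smul_sum]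
    refine Finset.sum_congr rfl fun v hv => ?_
    obtain ⟨hv1, hv2⟩ := Finset.mem_sdiff.1 hv
    have e1 : S.erase v ∩ X.rays = S ∩ X.rays := by
      ext w
      simp only [Finset.mem_inter, Finset.mem_erase]
      constructor
      · rintro ⟨⟨-, h2⟩, h3⟩
        exact ⟨h2, h3⟩
      · rintro ⟨h2, h3⟩
        exact ⟨⟨fun h4 => hv2 (h4 ▸ h3), h2⟩, h3⟩
    have e2 : S.erase v \ X.rays = (S \ X.rays).erase v := by
      ext w
      simp only [Finset.mem_sdiff, Finset.mem_erase]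
      tauto
    have e3 : (S.erase v).card = a := by
      rw [Finset.card_erase_of_mem hv1, hcard]
      rfl
    have e4 : st.Meets (S.erase v) ↔ st.Meets ((S \ X.rays).erase v) := by
      rw [← e2, st.meets_sdiff_rays]
    by_cases hm' : st.Meets ((S \ X.rays).erase v)
    · have hc : st.Meets (S.erase v) ∧ (S.erase v).card = a := ⟨e4.2 hm', e3⟩
      have e5 : (S \ X.rays).card + e + 1 = ((S \ X.rays).erase v).card + e + 2 := by
        rw [← Finset.card_erase_add_one hv]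
        ring
      simp only [β, if_pos hc, if_pos hm', e1, e2, LinearMap.smul_apply, map_smul]
      rw [st.sgn_sdiff_rays hS hv1 hv2, e5, tau_add_two, smul_comm]
    · have hc : ¬ (st.Meets (S.erase v) ∧ (S.erase v).card = a) := fun h2 => hm' (e4.1 h2.1)
      simp only [β, if_neg hc, if_neg hm', LinearMap.zero_apply, smul_zero, map_zero]
  · rw [Finset.smul_sum, Finset.smul_sum, ← Finset.sum_neg_distrib]
    refine Finset.sum_congr rfl fun v hv => ?_
    obtain ⟨hv1, hv2⟩ := Finset.mem_inter.1 hv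
    have e1 : S.erase v ∩ X.rays = (S ∩ X.rays).erase v := by
      ext w
      simp only [Finset.mem_inter, Finset.mem_erase]
      tauto
    have e2 : S.erase v \ X.rays = S \ X.rays := by
      ext w
      simp only [Finset.mem_sdiff, Finset.mem_erase]
      constructor
      · rintro ⟨⟨-, h2⟩, h3⟩
        exact ⟨h2, h3⟩
      · rintro ⟨h2, h3⟩
        exact ⟨⟨fun h4 => h3 (h4 ▸ hv2), h2⟩, h3⟩
    have e3 : (S.erase v).card = a := by
      rw [Finset.card_erase_of_mem hv1, hcard]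
      rfl
    have e4 : st.Meets (S.erase v) := by
      rw [← st.meets_sdiff_rays, e2, st.meets_sdiff_rays]
      exact hm
    have hc : st.Meets (S.erase v) ∧ (S.erase v).card = a := ⟨e4, e3⟩
    simp only [β, if_pos hc, e1, e2, LinearMap.smul_apply, ptL_apply]
    rw [st.sgn_ray hS hv1 hv2, ← Finset.card_erase_add_one hv, tau_succ_left, smul_smul,
      smul_smul, smul_smul, ← neg_smul]
    congr 1
    have e5 : ((-1 : ℚ) ^ e) * (-1) ^ e = 1 := by
      rw [← mul_pow]
      simp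
    rw [pow_add]
    linear_combination (-((-1 : ℚ) ^ (S \ X.rays).card * sgn v ((S ∩ X.rays).erase v) *
      tau ((S ∩ X.rays).erase v).card ((S \ X.rays).card + e))) * e5

/-- the boundary formula for an arbitrary family of chains of nonempty lists -/
theorem bdry_psiE (e : ℕ) {h : Finset ℕ → List Pt →₀ ℚ}
    (hh : ∀ j ∈ st.cx, Disjoint j X.rays → st.Meets j → ∀ l ∈ (h j).support, l ≠ [])
    (a : ℕ) (y : Finset ℕ → A) :
    bdry (st.PsiE e h (a + 1) y) = (-1 : ℚ) ^ e • st.PsiE e h a (cellBd st.cx y) +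
      st.PsiE (e + 1) (fun j => bdry (h j) - (-1 : ℚ) ^ e • st.famBd h j) (a + 1) y +
      st.infE e h (a + 1) y := by
  classical
  rw [psiE_cellBd]
  unfold PsiE infE
  rw [psi_bdry_sum, Finset.smul_sum, ← Finset.sum_add_distrib, ← Finset.sum_add_distrib]
  refine Finset.sum_congr rfl fun S hS => ?_
  obtain ⟨hS, hm, -⟩ := Finset.mem_filter.1 hS
  have hne : ∀ l ∈ (tens (h (S \ X.rays)) (y S)).support, l ≠ [] := fun l hl =>
    hh _ (st.down S hS _ Finset.sdiff_subset) Finset.sdiff_disjoint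
      ((st.meets_sdiff_rays S).2 hm) l (support_tens_subset _ _ hl)
  have e5 : ((-1 : ℚ) ^ e) * (-1) ^ e = 1 := by
    rw [← mul_pow]
    simp
  rw [psi_bdry_smul, bdry_prisms _ hne, bdry_tens, ← add_assoc (S \ X.rays).card e 1,
    tau_succ_right]
  simp only [← ptL_apply, map_sub, map_smul, LinearMap.sub_apply, LinearMap.smul_apply, smul_sub,
    Finset.sum_sub_distrib, smul_add, smul_smul, ← mul_assoc, e5, one_mul]
  rw [mul_comm ((-1 : ℚ) ^ e) (tau _ _), mul_assoc (tau _ _) ((-1 : ℚ) ^ e),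
    mul_comm ((-1 : ℚ) ^ e), ← mul_assoc]
  abel

/-- in size zero there are no rays and no faces -/
theorem bdry_psiE_zero (e : ℕ) (h : Finset ℕ → List Pt →₀ ℚ) (y : Finset ℕ → A) :
    bdry (st.PsiE e h 0 y) = st.PsiE (e + 1) (fun j => bdry (h j)) 0 y := by
  classical
  unfold PsiE
  rw [psi_bdry_sum]
  refine Finset.sum_congr rfl fun S hS => ?_
  obtain ⟨-, -, hc⟩ := Finset.mem_filter.1 hS
  rw [Finset.card_eq_zero.1 hc]
  simp [prisms, tau, bdry_tens]

theorem Carried.ne_nil {n : ℕ} {h : Finset ℕ → List Pt →₀ ℚ} (hh : st.Carried n h) :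
    ∀ j ∈ st.cx, Disjoint j X.rays → st.Meets j → ∀ l ∈ (h j).support, l ≠ [] := by
  intro j hj hd hm l hl h0
  have h1 := (hh j hj hd hm l hl).1
  have h2 := (st.le_card_of_meets hm).trans (Finset.card_le_card Finset.sdiff_subset)
  rw [h0, List.length_nil] at h1
  omega

theorem psi_kchain {ψ : Finset ℕ → List Pt →₀ ℚ} (hψ : st.IsReal ψ) {t q : ℕ}
    {c : Finset ℕ → A} (hc : st.Ch t (q + r) c) : X.IsKChain t q (st.Psi ψ (q + r) c) :=
  st.psiE_kchain 0 (hψ.carried st) rfl fun S hS hm hcard => (hc S hS hm hcard).1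

theorem psi_null {ψ : Finset ℕ → List Pt →₀ ℚ} (hψ : st.IsReal ψ) {a : ℕ} {c : Finset ℕ → A}
    (hc : ∀ S ∈ st.cx, st.Meets S → S.card = a → c S ∈ X.I (st.kap S) ∅) :
    X.Null (st.Psi ψ a c) :=
  st.psiE_null 0 (hψ.carried st) hc

theorem psi_sub (ψ : Finset ℕ → List Pt →₀ ℚ) (a : ℕ) (c c' : Finset ℕ → A) :
    st.Psi ψ a (fun S => c S - c' S) = st.Psi ψ a c - st.Psi ψ a c' :=
  st.psiE_sub 0 ψ a c c'

/-- `Psi` is a chain map on chains with zero boundary at infinity -/
theorem psi_bdry {ψ : Finset ℕ → List Pt →₀ ℚ} (hψ : st.IsReal ψ) {t a : ℕ} {y : Finset ℕ → A}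
    (hy : st.Ch t (a + 1) y) :
    X.Null (bdry (st.Psi ψ (a + 1) y) - st.Psi ψ a (cellBd st.cx y)) := by
  have h1 := st.bdry_psiE 0 ((hψ.carried st).ne_nil st) a y
  rw [st.psiE_congr (0 + 1) (h' := fun _ => 0) (fun j hj hd hm => by
    rw [hψ.bdry_eq st hj hd hm, pow_zero, one_smul, sub_self]), psiE_zero_left, pow_zero,
    one_smul, add_zero, psiE_zero, psiE_zero] at h1
  rw [h1, add_sub_cancel_left]
  exact st.infE_null 0 (hψ.carried st) hy

theorem psi_cycle {ψ : Finset ℕ → List Pt →₀ ℚ} (hψ : st.IsReal ψ) {s : ℕ} {c : Finset ℕ → A}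
    (hc : st.Cyc s c) : X.Null (bdry (st.Psi ψ s c)) := by
  rcases s with _ | a
  · rw [← psiE_zero, bdry_psiE_zero]
    classical
    unfold PsiE
    refine X.null_sum _ fun S hS => ?_
    obtain ⟨hS, hm, hcard⟩ := Finset.mem_filter.1 hS
    have h0 : bdry (ψ (S \ X.rays)) = 0 := by
      rw [hψ.bdry_eq st (st.down S hS _ Finset.sdiff_subset) Finset.sdiff_disjoint
        ((st.meets_sdiff_rays S).2 hm), Finset.card_eq_zero.1 hcard]
      simp [famBd]
    simp only [h0, ← ptL_apply, map_zero, LinearMap.zero_apply, smul_zero]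
    exact X.null_zero
  · have h1 := X.null_add (st.psi_bdry hψ hc.1)
      (st.psi_null hψ (a := a) fun S hS hm hcard => hc.2 S hS hm (by rw [hcard]))
    rwa [sub_add_cancel] at h1

theorem rep_hom {k : ℕ} {γ : List Pt →₀ A} {c c' : Finset ℕ → A}
    (h : st.Hom (k + r) c c') (hr : st.Rep k γ c) : st.Rep k γ c' := by
  obtain ⟨y, hy, hcc⟩ := h
  obtain ⟨ψ, hψ, Y, hY, hN⟩ := hr
  have e1 : k + r + 1 = k + 1 + r := by ring
  refine ⟨ψ, hψ, Y + st.Psi ψ (k + r + 1) y, X.kchain_add hY ?_, ?_⟩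
  · rw [e1] at hy ⊢
    exact st.psi_kchain hψ hy
  · have h1 := st.psi_null hψ hcc
    rw [psi_sub, psi_sub] at h1
    have h2 := X.null_sub (X.null_add hN h1) (st.psi_bdry hψ hy)
    rw [psi_bdry_add]
    convert h2 using 1
    abel

end St

end Pool.Agent.Lead.THC
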