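import Pool.Agent.Lead.THC.CellCx
import Pool.Agent.Lead.THC.Psi

set_option autoImplicit false

open scoped BigOperators

noncomputable section

namespace Pool.Agent.Lead.THC

namespace StartAux

section Ext

variable {M : Type} [AddCommGroup M] [Module ℚ M] {G G' : Type}

theorem tens_apply (u : G →₀ ℚ) (ω : M) (g : G) : tens u ω g = u g • ω := by
  simp [tens]

theorem ext_eq_sum (f : G → G' →₀ ℚ) (c : G →₀ M) :
    ext f c = ∑ g ∈ c.support, tens (f g) (c g) := rfl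

theorem tens_smul (q : ℚ) (u : G →₀ ℚ) (ω : M) : tens (q • u) ω = q • tens u ω := by
  ext g
  simp [tens_apply, mul_smul]

theorem tens_zero_right (u : G →₀ ℚ) : tens u (0 : M) = 0 := by
  ext g
  simp [tens_apply]

theorem ext_rat (f : G → G' →₀ ℚ) (u : G →₀ ℚ) :
    ext f u = Finsupp.linearCombination ℚ f u := by
  rw [Finsupp.linearCombination_apply]
  unfold ext
  refine Finsupp.sum_congr fun g _ => ?_
  ext g'
  simp [tens_apply, mul_comm]

theorem ext_sub (f : G → G' →₀ ℚ) (c c' : G →₀ M) : ext f (c - c') = ext f c - ext f c' := by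
  unfold ext
  refine Finsupp.sum_sub_index fun g a b => ?_
  ext g'
  simp [tens_apply, smul_sub]

theorem ext_fun_sub (f f' : G → G' →₀ ℚ) (c : G →₀ M) :
    ext (fun g => f g - f' g) c = ext f c - ext f' c := by
  ext g'
  simp [ext_apply, sub_smul, Finset.sum_sub_distrib]

theorem mem_support_ext {f : G → G' →₀ ℚ} {c : G →₀ M} {g' : G'} (h : g' ∈ (ext f c).support) :
    ∃ g ∈ c.support, g' ∈ (f g).support := by
  by_contra hn
  push Not at hn
  rw [Finsupp.mem_support_iff, ext_apply] at h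
  refine h (Finset.sum_eq_zero fun g hg => ?_)
  rw [Finsupp.notMem_support_iff.1 (hn g hg), zero_smul]

theorem ext_apply_mem {f : G → G' →₀ ℚ} {c : G →₀ M} {g' : G'} {U : Submodule ℚ M}
    (h : ∀ g ∈ c.support, g' ∈ (f g).support → c g ∈ U) : ext f c g' ∈ U := by
  rw [ext_apply]
  refine U.sum_mem fun g hg => ?_
  by_cases hg' : g' ∈ (f g).support
  · exact U.smul_mem _ (h g hg hg')
  · rw [Finsupp.notMem_support_iff.1 hg', zero_smul]
    exact U.zero_mem

theorem aug_lc {f : G → G' →₀ ℚ} {u : G →₀ ℚ} (h : ∀ g ∈ u.support, aug (f g) = 1) :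
    aug (Finsupp.linearCombination ℚ f u) = aug u := by
  rw [Finsupp.linearCombination_apply, Finsupp.sum, map_sum]
  conv_rhs => rw [aug, Finsupp.linearCombination_apply, Finsupp.sum]
  refine Finset.sum_congr rfl fun g hg => ?_
  rw [map_smul, h g hg]

theorem aug_single (g : G) (q : ℚ) : aug (Finsupp.single g q) = q := by
  simp [aug]

theorem aug_shift (ρ : Finset ℕ) (u : List Pt →₀ ℚ) : aug (shift ρ u) = aug u := by
  unfold aug shift
  rw [Finsupp.linearCombination_mapDomain]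
  rfl

/-- `shift` as a linear map -/
def shiftL (ρ : Finset ℕ) : (List Pt →₀ M) →ₗ[ℚ] (List Pt →₀ M) :=
  Finsupp.lmapDomain M ℚ fun l => l.map fun z => (z.1, ρ ∪ z.2)

theorem shiftL_apply (ρ : Finset ℕ) (c : List Pt →₀ M) : shiftL ρ c = shift ρ c := rfl

/-- `prisms` as a linear map -/
def prismsL (ρ : Finset ℕ) : (List Pt →₀ M) →ₗ[ℚ] (List Pt →₀ M) where
  toFun := prisms ρ
  map_add' := prisms_add ρ
  map_smul' := prisms_smul ρ

theorem prismsL_apply (ρ : Finset ℕ) (c : List Pt →₀ M) : prismsL ρ c = prisms ρ c := rfl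

theorem prisms_empty (c : List Pt →₀ M) : prisms ∅ c = c := by
  simp [prisms]

end Ext

variable {r : ℕ} (X : Space r)

theorem cell_iff {S : Finset ℕ} (hS : S ∈ X.T) : X.Cell S ↔ X.st0.Meets S := by
  rw [X.meets_st0]
  exact ⟨fun h => h.2, fun h => ⟨hS, h⟩⟩

theorem mem_rays {S : Finset ℕ} (hS : S ∈ X.T) {v : ℕ} (hv : v ∈ S) (hl : X.lev v = ⊥) :
    v ∈ X.rays := by
  unfold Space.rays
  rw [Finset.mem_filter, Finset.mem_biUnion]
  exact ⟨⟨S, hS, hv⟩, hl⟩

/-- the affine chain attached to the face `(S, ρ)` of the compactification -/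
def psiHat (ψ : Finset ℕ → List Pt →₀ ℚ) (g : Finset ℕ × Finset ℕ) : List Pt →₀ ℚ :=
  St.tau ((g.1 ∩ X.rays) \ g.2).card (g.1 \ X.rays).card •
    shift g.2 (prisms ((g.1 ∩ X.rays) \ g.2) (ψ (g.1 \ X.rays)))

variable {X}

open Classical in
theorem real_fin {ψ : Finset ℕ → List Pt →₀ ℚ} (hψ : X.st0.IsReal ψ) {S : Finset ℕ}
    (hS : X.Cell S) :
    r ≤ (S \ X.rays).card ∧
    (∀ l ∈ (ψ (S \ X.rays)).support, l.length + r = (S \ X.rays).card + 1 ∧
      (∀ z ∈ l, X.IsPt z) ∧ car l ⊆ S \ X.rays) ∧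
    (bdry (ψ (S \ X.rays)) = ∑ v ∈ S \ X.rays, if X.Cell (S.erase v) then
      sgn v ((S \ X.rays).erase v) • ψ ((S \ X.rays).erase v) else 0) ∧
    ((S \ X.rays).card = r → aug (ψ (S \ X.rays)) = 1) := by
  have hm : X.st0.Meets S := (cell_iff X hS.1).1 hS
  have hm' : X.st0.Meets (S \ X.rays) := (X.st0.meets_sdiff_rays S).2 hm
  have hT : S \ X.rays ∈ X.T := X.T_down S hS.1 _ Finset.sdiff_subset
  have hle := X.st0.le_card_of_meets hm
  obtain ⟨h1, h2, h3⟩ := hψ (S \ X.rays) hT Finset.sdiff_disjoint hm'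
  have hiff : ∀ v, X.st0.Meets ((S \ X.rays).erase v) ↔ X.Cell (S.erase v) := fun v => by
    rw [cell_iff X (X.T_down S hS.1 _ (Finset.erase_subset v S)),
      ← X.st0.meets_sdiff_rays (S.erase v), Finset.erase_sdiff_comm]
  refine ⟨hle, fun l hl => ?_, ?_, h3⟩
  · have := h1 l hl
    rwa [X.kap_st0] at this
  · rcases hle.lt_or_eq with hlt | heq
    · rw [h2 hlt]
      refine Finset.sum_congr rfl fun v _ => ?_
      by_cases hc : X.Cell (S.erase v)
      · rw [if_pos hc, if_pos ((hiff v).2 hc)]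
      · rw [if_neg hc, if_neg fun h => hc ((hiff v).1 h)]
    · rw [bdry_of_length_le_one fun l hl => by have := (h1 l hl).1; omega]
      refine (Finset.sum_eq_zero fun v hv => if_neg fun hc => ?_).symm
      have h4 := X.st0.le_card_of_meets ((hiff v).2 hc)
      have h5 : ((S \ X.rays).erase v \ X.rays).card ≤ ((S \ X.rays).erase v).card :=
        Finset.card_le_card Finset.sdiff_subset
      have h6 := Finset.card_erase_add_one hv
      omega

theorem card_split {S ρ : Finset ℕ} (hρ : ρ ⊆ S ∩ X.rays) :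
    ((S ∩ X.rays) \ ρ).card + (S \ X.rays).card + ρ.card = S.card := by
  have h1 := Finset.card_sdiff_add_card_eq_card hρ
  have h2 := Finset.card_sdiff_add_card_inter S X.rays
  omega

theorem psiHat_support {ψ : Finset ℕ → List Pt →₀ ℚ} (hψ : X.st0.IsReal ψ)
    {g : Finset ℕ × Finset ℕ} (hg : X.COk g) : ∀ l ∈ (psiHat X ψ g).support,
      l.length = X.cdeg g + 1 ∧ (∀ z ∈ l, X.IsPt z) ∧ car l ⊆ g.1 ∧ (g.2 : Set ℕ) ⊆ sed l := by
  obtain ⟨S, ρ⟩ := g
  obtain ⟨hS, hρ⟩ := hg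
  dsimp only at hS hρ ⊢
  obtain ⟨hle, hsup, -, -⟩ := real_fin hψ hS
  intro l hl
  obtain ⟨l1, hl1, rfl⟩ := mem_support_shift (Finsupp.support_smul hl)
  dsimp only at hl1 ⊢
  obtain ⟨l0, hl0, -, hlen, hcar, -, hz⟩ := mem_support_prisms hl1
  obtain ⟨h1, h2, h3⟩ := hsup l0 hl0
  have hc := card_split hρ
  refine ⟨?_, ?_, ?_, ?_⟩
  · rw [List.length_map, hlen]
    unfold Space.cdeg
    dsimp only
    omega
  · intro z hz'
    obtain ⟨z1, hz1, rfl⟩ := List.mem_map.1 hz'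
    obtain ⟨z0, hz0, e1, -, e3⟩ := hz z1 hz1
    obtain ⟨p1, p2, p3⟩ := h2 z0 hz0
    refine ⟨?_, ?_, ?_⟩
    · intro v
      dsimp only
      rw [e1]
      exact p1 v
    · intro i
      dsimp only
      rw [e1]
      exact p2 i
    · intro v hv
      dsimp only at hv
      rcases Finset.mem_union.1 hv with hv | hv
      · exact St.lev_of_mem_rays (Finset.mem_inter.1 (hρ hv)).2
      · rcases Finset.mem_union.1 (e3 hv) with hv | hv
        · exact p3 v hv
        · exact St.lev_of_mem_rays (Finset.mem_inter.1 (Finset.mem_sdiff.1 hv).1).2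
  · intro v hv
    obtain ⟨z, hz', hv⟩ := mem_car.1 hv
    obtain ⟨z1, hz1, rfl⟩ := List.mem_map.1 hz'
    have hsub : car l1 ⊆ S := by
      rw [hcar]
      exact Finset.union_subset (h3.trans Finset.sdiff_subset)
        (Finset.sdiff_subset.trans Finset.inter_subset_left)
    dsimp only at hv
    rcases hv with hv | hv
    · exact hsub (mem_car.2 ⟨z1, hz1, Or.inl hv⟩)
    · rcases Finset.mem_union.1 hv with hv | hv
      · exact (Finset.mem_inter.1 (hρ hv)).1
      · exact hsub (mem_car.2 ⟨z1, hz1, Or.inr hv⟩)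
  · intro v hv z hz'
    obtain ⟨z1, -, rfl⟩ := List.mem_map.1 hz'
    exact Finset.mem_union_left _ hv

theorem aug_psiHat {ψ : Finset ℕ → List Pt →₀ ℚ} (hψ : X.st0.IsReal ψ)
    {g : Finset ℕ × Finset ℕ} (hg : X.COk g) (h0 : X.cdeg g = 0) : aug (psiHat X ψ g) = 1 := by
  obtain ⟨S, ρ⟩ := g
  obtain ⟨hS, hρ⟩ := hg
  dsimp only at hS hρ
  obtain ⟨hle, -, -, haug⟩ := real_fin hψ hS
  have hc := card_split hρ
  unfold Space.cdeg at h0
  dsimp only at h0
  have hb : ((S ∩ X.rays) \ ρ).card = 0 := by omega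
  have ha : (S \ X.rays).card = r := by omega
  unfold psiHat
  dsimp only
  rw [map_smul, aug_shift, hb, Finset.card_eq_zero.1 hb, prisms_empty, haug ha]
  simp [St.tau]

theorem tau_fin (b a : ℕ) : St.tau b (a + 1) * (-1) ^ b = St.tau b a := by
  unfold St.tau
  rw [← pow_add, show b * (a + 1 + 1) + b = b * (a + 1) + 2 * b by ring, pow_add, pow_mul _ 2]
  simp

theorem tau_ray (b a : ℕ) : St.tau (b + 1) a = - ((-1) ^ a * St.tau b a) := by
  unfold St.tau
  rw [show (b + 1) * (a + 1) = a + b * (a + 1) + 1 by ring, pow_succ, pow_add]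
  ring

theorem bdry_psiHat {ψ : Finset ℕ → List Pt →₀ ℚ} (hψ : X.st0.IsReal ψ)
    {g : Finset ℕ × Finset ℕ} (hg : X.COk g) :
    bdry (psiHat X ψ g) = Finsupp.linearCombination ℚ (psiHat X ψ) (X.cbd g) := by
  classical
  obtain ⟨S, ρ⟩ := g
  obtain ⟨hS, hρ⟩ := hg
  dsimp only at hS hρ
  obtain ⟨hle, hsup, hbd, -⟩ := real_fin hψ hS
  have hne : ∀ l ∈ (ψ (S \ X.rays)).support, l ≠ [] := fun l hl h => by
    have := (hsup l hl).1
    rw [h, List.length_nil] at this
    omega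
  have hρr : ∀ v ∈ ρ, v ∈ X.rays := fun v hv => (Finset.mem_inter.1 (hρ hv)).2
  have hT : S \ ρ ∈ X.st0.cx := X.T_down S hS.1 _ Finset.sdiff_subset
  have hsplit : S \ ρ = (S \ X.rays) ∪ ((S ∩ X.rays) \ ρ) := by
    ext v
    have := hρr v
    simp only [Finset.mem_sdiff, Finset.mem_union, Finset.mem_inter]
    tauto
  have hdisj : Disjoint (S \ X.rays) ((S ∩ X.rays) \ ρ) := by
    rw [Finset.disjoint_left]
    intro v h1 h2
    exact (Finset.mem_sdiff.1 h1).2 (Finset.mem_inter.1 (Finset.mem_sdiff.1 h2).1).2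
  have e1 : (S \ ρ) \ X.rays = S \ X.rays := by
    ext v
    have := hρr v
    simp only [Finset.mem_sdiff]
    tauto
  have e2 : (S \ ρ) ∩ X.rays = (S ∩ X.rays) \ ρ := by
    ext v
    simp only [Finset.mem_sdiff, Finset.mem_inter]
    tauto
  have hL : bdry (psiHat X ψ (S, ρ)) = St.tau ((S ∩ X.rays) \ ρ).card (S \ X.rays).card •
      shiftL ρ (bdry (prisms ((S ∩ X.rays) \ ρ) (ψ (S \ X.rays)))) := by
    unfold psiHat
    rw [← bdryL_apply, map_smul, bdryL_apply, bdry_shift]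
    rfl
  rw [hL, bdry_prisms _ hne, hbd, ← prismsL_apply, map_add, smul_add, map_smul, map_sum, map_sum,
    map_sum, Finset.smul_sum, Finset.smul_sum, Finset.smul_sum]
  unfold Space.cbd
  dsimp only
  rw [map_sum]
  conv_rhs => rw [Finset.sum_congr hsplit fun _ _ => rfl]
  rw [Finset.sum_union hdisj]
  congr 1
  · refine Finset.sum_congr rfl fun v hv => ?_
    obtain ⟨hvS, hvr⟩ := Finset.mem_sdiff.1 hv
    have hv' : v ∈ S \ ρ := Finset.mem_sdiff.2 ⟨hvS, fun h => hvr (hρr v h)⟩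
    rw [if_neg hvr, sub_zero, X.st0.sgn_sdiff_rays hT hv' hvr, e1]
    by_cases hc : X.Cell (S.erase v)
    · rw [if_pos hc, if_pos hc, map_smul, map_smul, map_smul, Finsupp.linearCombination_single,
        one_smul]
      unfold psiHat
      dsimp only
      have e3 : S.erase v ∩ X.rays = S ∩ X.rays := by
        ext w
        simp only [Finset.mem_inter, Finset.mem_erase]
        constructor
        · tauto
        · rintro ⟨h1, h2⟩
          exact ⟨⟨fun h => hvr (h ▸ h2), h1⟩, h2⟩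
      rw [e3, Finset.erase_sdiff_comm, ← Finset.card_erase_add_one hv, smul_smul, smul_smul,
        smul_smul, tau_fin, mul_comm]
      rfl
    · rw [if_neg hc, if_neg hc]
      simp
  · refine Finset.sum_congr rfl fun v hv => ?_
    obtain ⟨hv1, hvρ⟩ := Finset.mem_sdiff.1 hv
    obtain ⟨hvS, hvr⟩ := Finset.mem_inter.1 hv1
    have hv' : v ∈ S \ ρ := Finset.mem_sdiff.2 ⟨hvS, hvρ⟩
    have hc : X.Cell (S.erase v) := by
      refine ⟨X.T_down S hS.1 _ (Finset.erase_subset v S), fun i => ?_⟩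
      obtain ⟨w, hw, hwi⟩ := hS.2 i
      refine ⟨w, Finset.mem_erase.2 ⟨fun h => ?_, hw⟩, hwi⟩
      rw [h, St.lev_of_mem_rays hvr] at hwi
      exact WithBot.bot_ne_coe hwi
    rw [if_pos hc, if_pos hvr, X.st0.sgn_ray hT hv' hvr, e1, e2, map_smul, map_smul, map_sub,
      map_sub, Finsupp.linearCombination_single, Finsupp.linearCombination_single, one_smul,
      one_smul]
    unfold psiHat
    dsimp only
    have e3 : (S.erase v ∩ X.rays) \ ρ = ((S ∩ X.rays) \ ρ).erase v := by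
      ext w
      simp only [Finset.mem_inter, Finset.mem_erase, Finset.mem_sdiff]
      tauto
    have e4 : S.erase v \ X.rays = S \ X.rays := by
      ext w
      simp only [Finset.mem_sdiff, Finset.mem_erase]
      constructor
      · tauto
      · rintro ⟨h1, h2⟩
        exact ⟨⟨fun h => h2 (h ▸ hvr), h1⟩, h2⟩
    have e5 : (S ∩ X.rays) \ insert v ρ = ((S ∩ X.rays) \ ρ).erase v := by
      ext w
      simp only [Finset.mem_inter, Finset.mem_erase, Finset.mem_sdiff, Finset.mem_insert]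
      tauto
    have e6 : ρ ∪ {v} = insert v ρ := by
      ext w
      simp only [Finset.mem_union, Finset.mem_singleton, Finset.mem_insert]
      tauto
    rw [e3, e4, e5, shiftL_apply, shiftL_apply, shift_shift, e6, ← Finset.card_erase_add_one hv,
      tau_ray, ← smul_sub, smul_smul, smul_smul, ← neg_sub (shift ρ _), smul_neg, ← neg_smul]
    congr 1
    ring

/-- nonempty valid lists -/
def LOk (X : Space r) (l : List Pt) : Prop := l ≠ [] ∧ X.Valid l

/-- boundary of a generator -/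
def dl (l : List Pt) : List Pt →₀ ℚ := bdry (Finsupp.single l 1)

theorem mem_support_bdry_ok {M : Type} [AddCommGroup M] [Module ℚ M] {c : List Pt →₀ M}
    (hc : ∀ l ∈ c.support, X.Valid l) {l' : List Pt} (h : l' ∈ (bdry c).support) :
    LOk X l' ∧ ∃ l ∈ c.support, l'.length + 1 = l.length ∧ ∀ z ∈ l', z ∈ l := by
  obtain ⟨l, hl, h2, i, hi, rfl⟩ := mem_support_bdry h
  have hlen : (l.eraseIdx i).length + 1 = l.length := by
    rw [List.length_eraseIdx_of_lt hi]
    omega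
  have hsub : ∀ z ∈ l.eraseIdx i, z ∈ l := fun z hz => List.mem_of_mem_eraseIdx hz
  refine ⟨⟨fun h0 => ?_, fun z hz => (hc l hl).1 z (hsub z hz),
    X.T_down _ (hc l hl).2 _ (car_mono hsub)⟩, l, hl, hlen, hsub⟩
  rw [h0, List.length_nil] at hlen
  omega

theorem dl_support {l : List Pt} (hl : LOk X l) {l' : List Pt} (h : l' ∈ (dl l).support) :
    LOk X l' ∧ l'.length + 1 = l.length ∧ ∀ z ∈ l', z ∈ l := by
  have hs : ∀ l1 ∈ (Finsupp.single l (1 : ℚ)).support, l1 = l := fun l1 h1 =>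
    Finset.mem_singleton.1 (Finsupp.support_single_subset h1)
  obtain ⟨h1, l1, hl1, h2, h3⟩ := mem_support_bdry_ok (X := X)
    (fun l1 h1 => by rw [hs l1 h1]; exact hl.2) h
  rw [hs l1 hl1] at h2 h3
  exact ⟨h1, h2, h3⟩

theorem lc_dl (u : List Pt →₀ ℚ) : Finsupp.linearCombination ℚ dl u = bdry u := by
  rw [← ext_rat, bdry_eq_ext]
  rfl

theorem dl_deg {l : List Pt} (hl : LOk X l) :
    ∀ l' ∈ (dl l).support, LOk X l' ∧ (l'.length - 1) + 1 = l.length - 1 := fun l' h => by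
  obtain ⟨h1, h2, -⟩ := dl_support hl h
  have := List.length_pos_iff.2 h1.1
  exact ⟨h1, by omega⟩

theorem dl_dl (l : List Pt) : Finsupp.linearCombination ℚ dl (dl l) = 0 := by
  rw [lc_dl]
  exact bdry_bdry _

open Classical in
/-- the face carrying a valid list -/
theorem cok_car {l : List Pt} (hl : LOk X l) :
    X.COk (car l, (car l).filter fun v => v ∈ sed l) ∧
      ∀ ρ : Finset ℕ, ((car l).filter fun v => v ∈ sed l) ⊆ ρ ↔ sed l ⊆ (ρ : Set ℕ) := by
  refine ⟨⟨X.cell_car hl.1 hl.2, fun v hv => ?_⟩, fun ρ => ⟨fun h v hv => ?_, fun h v hv => ?_⟩⟩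
  · obtain ⟨h1, h2⟩ := Finset.mem_filter.1 hv
    exact Finset.mem_inter.2 ⟨h1, mem_rays X hl.2.2 h1 (X.sed_ray hl.1 hl.2.1 v h2)⟩
  · obtain ⟨z, hz⟩ := List.exists_mem_of_ne_nil l hl.1
    exact h (Finset.mem_filter.2 ⟨mem_car.2 ⟨z, hz, Or.inr (hv z hz)⟩, hv⟩)
  · exact h (Finset.mem_filter.1 hv).2

theorem cbd_eq_zero {g : Finset ℕ × Finset ℕ} (hg : X.COk g) (h0 : X.cdeg g = 0) :
    X.cbd g = 0 := by
  rw [← Finsupp.support_eq_empty, Finset.eq_empty_iff_forall_notMem]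
  intro g' hg'
  have := (X.cbd_support hg g' hg').2.1
  omega

/-- a carried chain map from the affine chains to the cellular chains of the compactification -/
theorem exists_kappa (X : Space r) : ∃ κ : List Pt → (Finset ℕ × Finset ℕ →₀ ℚ), ∀ l, LOk X l →
    (∀ g ∈ (κ l).support, X.COk g ∧ X.cdeg g = l.length - 1 ∧ g.1 ⊆ car l ∧
      sed l ⊆ (g.2 : Set ℕ)) ∧
    Finsupp.linearCombination ℚ X.cbd (κ l) = Finsupp.linearCombination ℚ κ (dl l) ∧
    (l.length - 1 = 0 → aug (κ l) = 1) := by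
  classical
  obtain ⟨κ, hκ⟩ := exists_carried_map (LOk X) (fun l => l.length - 1) dl
    (fun l hl => dl_deg hl) (fun l _ => dl_dl l) (Finsupp.linearCombination ℚ X.cbd) aug
    (fun l q => Finsupp.supported ℚ ℚ
      {g | X.COk g ∧ X.cdeg g = q ∧ g.1 ⊆ car l ∧ sed l ⊆ (g.2 : Set ℕ)})
    (fun l hl l' hl' q => by
      obtain ⟨-, -, h3⟩ := dl_support hl hl'
      refine Finsupp.supported_mono fun g hg => ?_
      exact ⟨hg.1, hg.2.1, hg.2.2.1.trans (car_mono h3), (sed_anti h3).trans hg.2.2.2⟩)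
    (fun _ => 1)
    (fun l hl h1 => by
      refine aug_bdry fun l1 h2 => ?_
      rw [Finset.mem_singleton.1 (Finsupp.support_single_subset h2)]
      omega)
    (fun l hl _ => by
      obtain ⟨hc, hρ⟩ := cok_car hl
      obtain ⟨g, g1, g2, g3, g4⟩ := X.exists_cell_vertex hc
      refine ⟨Finsupp.single g 1, Finsupp.single_mem_supported ℚ 1 ⟨g1, g2, g3, (hρ _).1 g4⟩, ?_,
        aug_single g 1⟩
      rw [Finsupp.linearCombination_single, cbd_eq_zero g1 g2, smul_zero])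
    (fun l hl q _ x hx h0 h1 => by
      obtain ⟨hc, hρ⟩ := cok_car hl
      obtain ⟨y, hy, hD⟩ := X.acyclic_cell hc (q := q) (u := x) (fun g hg => by
        obtain ⟨g1, g2, g3, g4⟩ := (Finsupp.mem_supported ℚ x).1 hx hg
        exact ⟨g1, g2, g3, (hρ _).2 g4⟩) h0 h1
      refine ⟨y, (Finsupp.mem_supported ℚ y).2 fun g hg => ?_, hD⟩
      obtain ⟨g1, g2, g3, g4⟩ := hy g hg
      exact ⟨g1, g2, g3, (hρ _).1 g4⟩)
  refine ⟨κ, fun l hl => ⟨fun g hg => ?_, (hκ l hl).2⟩⟩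
  exact (Finsupp.mem_supported ℚ _).1 (hκ l hl).1 hg

theorem bdry_ext_psiHat {M : Type} [AddCommGroup M] [Module ℚ M] {ψ : Finset ℕ → List Pt →₀ ℚ}
    (hψ : X.st0.IsReal ψ) {c : Finset ℕ × Finset ℕ →₀ M} (hc : ∀ g ∈ c.support, X.COk g) :
    bdry (ext (psiHat X ψ) c) = ext (psiHat X ψ) (ext X.cbd c) := by
  rw [bdry_ext, ext_ext]
  refine ext_congr fun g hg => ?_
  rw [ext_rat, bdry_psiHat hψ (hc g hg)]

/-- the homotopy between the identity and `psiHat ∘ κ` -/
theorem exists_homotopy {ψ : Finset ℕ → List Pt →₀ ℚ} (hψ : X.st0.IsReal ψ)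
    {κ : List Pt → (Finset ℕ × Finset ℕ →₀ ℚ)} (hκ : ∀ l, LOk X l →
    (∀ g ∈ (κ l).support, X.COk g ∧ X.cdeg g = l.length - 1 ∧ g.1 ⊆ car l ∧
      sed l ⊆ (g.2 : Set ℕ)) ∧
    Finsupp.linearCombination ℚ X.cbd (κ l) = Finsupp.linearCombination ℚ κ (dl l) ∧
    (l.length - 1 = 0 → aug (κ l) = 1)) :
    ∃ h : List Pt → List Pt →₀ ℚ, ∀ l, LOk X l →
      (∀ l' ∈ (h l).support, l'.length = l.length - 1 + 1 + 1 ∧ (∀ z ∈ l', X.IsPt z) ∧
        car l' ⊆ car l ∧ sed l ⊆ sed l') ∧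
      bdry (h l) = Finsupp.single l 1 - ext (psiHat X ψ) (κ l) - ext h (dl l) := by
  obtain ⟨h, hh⟩ := exists_carried_homotopy (LOk X) (fun l => l.length - 1) dl
    (fun l hl => dl_deg hl) (fun l _ => dl_dl l) bdryL aug
    (fun l q => Finsupp.supported ℚ ℚ
      {l' | l'.length = q + 1 ∧ (∀ z ∈ l', X.IsPt z) ∧ car l' ⊆ car l ∧ sed l ⊆ sed l'})
    (fun l hl l' hl' q => by
      obtain ⟨-, -, h3⟩ := dl_support hl hl'
      refine Finsupp.supported_mono fun g hg => ?_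
      exact ⟨hg.1, hg.2.1, hg.2.2.1.trans (car_mono h3), (sed_anti h3).trans hg.2.2.2⟩)
    (fun l hl x hx h0 h1 => by
      obtain ⟨a, ha⟩ := List.exists_mem_of_ne_nil l hl.1
      have hsub : ∀ z ∈ [a], z ∈ l := fun z hz => by rwa [List.mem_singleton.1 hz]
      obtain ⟨y, hy, hD⟩ := X.acyclic_huge (hl.2.1 a ha) (car_mono hsub) (sed_anti hsub)
        (q := l.length - 1) (u := x) (fun l' hl' => (Finsupp.mem_supported ℚ x).1 hx hl')
        (by rwa [bdryL_apply] at h0) h1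
      exact ⟨y, (Finsupp.mem_supported ℚ y).2 fun l' hl' => hy l' hl', by rwa [bdryL_apply]⟩)
    (fun l => Finsupp.single l 1 - ext (psiHat X ψ) (κ l))
    (fun l hl => by
      obtain ⟨k1, k2, k3⟩ := hκ l hl
      have hpos := List.length_pos_iff.2 hl.1
      refine ⟨Submodule.sub_mem _ (Finsupp.single_mem_supported ℚ 1
        ⟨by omega, hl.2.1, subset_rfl, subset_rfl⟩) ((Finsupp.mem_supported ℚ _).2 fun l' hl' => ?_),
        ?_, fun h0 => ?_⟩
      · obtain ⟨g, hg, hl'⟩ := mem_support_ext hl'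
        obtain ⟨g1, g2, g3, g4⟩ := k1 g hg
        obtain ⟨p1, p2, p3, p4⟩ := psiHat_support hψ g1 l' hl'
        exact ⟨by rw [p1, g2], p2, p3.trans g3, g4.trans p4⟩
      · rw [map_sub, bdryL_apply, bdryL_apply, bdry_ext_psiHat hψ fun g hg => (k1 g hg).1,
          ← ext_rat, ext_fun_sub, ext_single_one, ← ext_ext, ext_rat X.cbd, k2, ext_rat κ]
        rfl
      · rw [map_sub, aug_single, ext_rat, aug_lc fun g hg =>
          aug_psiHat hψ (k1 g hg).1 ((k1 g hg).2.1.trans h0), k3 h0, sub_self])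
  refine ⟨h, fun l hl => ⟨fun l' hl' => (Finsupp.mem_supported ℚ _).1 (hh l hl).1 hl', ?_⟩⟩
  have := (hh l hl).2
  rw [bdryL_apply, ← ext_rat] at this
  rw [← this, add_sub_cancel_right]

theorem null_ext {G : Type} {f : G → List Pt →₀ ℚ} {c : G →₀ A} (S : G → Finset ℕ) (ρ : G → Set ℕ)
    (h : ∀ g ∈ c.support, S g ∈ X.T ∧ c g ∈ X.I (S g) (ρ g) ∧ ∀ l ∈ (f g).support,
      l ≠ [] ∧ (∀ z ∈ l, X.IsPt z) ∧ car l ⊆ S g ∧ ρ g ⊆ sed l) : X.Null (ext f c) := by
  rw [ext_eq_sum]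
  exact X.null_sum _ fun g hg => X.null_tens (h g hg).1 (h g hg).2.2 (h g hg).2.1

theorem kchain_ext {G : Type} {f : G → List Pt →₀ ℚ} {c : G →₀ A} (S : G → Finset ℕ) {s q : ℕ}
    (h : ∀ g ∈ c.support, S g ∈ X.T ∧ c g ∈ X.K s (S g) ∧ ∀ l ∈ (f g).support,
      l.length = q + 1 ∧ (∀ z ∈ l, X.IsPt z) ∧ car l ⊆ S g) : X.IsKChain s q (ext f c) := by
  rw [ext_eq_sum]
  exact X.kchain_sum _ fun g hg => X.kchain_tens (h g hg).1 (h g hg).2.2 (h g hg).2.1

theorem psi_eq_ext (ψ : Finset ℕ → List Pt →₀ ℚ) {q : ℕ} {c : Finset ℕ × Finset ℕ →₀ A}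
    (hc : ∀ g ∈ c.support, X.COk g ∧ X.cdeg g = q ∧ g.2 = ∅) :
    X.st0.Psi ψ (q + r) (fun S => c (S, ∅)) = ext (psiHat X ψ) c := by
  classical
  rw [ext_eq_sum]
  unfold St.Psi
  symm
  refine Finset.sum_of_injOn (fun g => g.1) (fun g hg g' hg' h => ?_) (fun g hg => ?_)
    (fun S _ hS => ?_) (fun g hg => ?_)
  · exact Prod.ext h ((hc g hg).2.2.trans (hc g' hg').2.2.symm)
  · obtain ⟨h1, h2, h3⟩ := hc g hg
    have hm := (cell_iff X h1.1.1).1 h1.1
    refine Finset.mem_filter.2 ⟨h1.1.1, hm, ?_⟩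
    have h4 := X.st0.le_card_of_meets hm
    have h5 : (g.1 \ X.rays).card ≤ g.1.card := Finset.card_le_card Finset.sdiff_subset
    unfold Space.cdeg at h2
    rw [h3, Finset.card_empty] at h2
    dsimp only
    omega
  · have h0 : c (S, ∅) = 0 := by
      by_contra hn
      exact hS ⟨(S, ∅), Finsupp.mem_support_iff.2 hn, rfl⟩
    dsimp only
    rw [h0, tens_zero_right, ← prismsL_apply, map_zero, smul_zero]
  · obtain ⟨S, ρ⟩ := g
    obtain rfl : ρ = ∅ := (hc _ hg).2.2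
    unfold psiHat
    dsimp only
    rw [tens_smul, shift_empty, Finset.sdiff_empty, prisms_tens]

end StartAux

open StartAux in
/-- every affine cycle is represented by a cellular cycle on the initial complex -/
theorem Space.start {r : ℕ} (X : Space r) (hψ : ∃ ψ, X.st0.IsReal ψ) {k : ℕ} {γ : List Pt →₀ A}
    (hγ : X.IsKChain (k + r) k γ) (hz : X.Null (bdry γ)) :
    ∃ c, X.st0.Cyc (k + r) c ∧ X.st0.Rep k γ c := by
  classical
  obtain ⟨ψ, hψ⟩ := hψ
  obtain ⟨κ, hκ⟩ := exists_kappa X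
  obtain ⟨h, hh⟩ := exists_homotopy hψ hκ
  have hok : ∀ l ∈ γ.support, LOk X l := fun l hl =>
    ⟨List.length_pos_iff.1 (by rw [(hγ l hl).1]; omega), (hγ l hl).2.1⟩
  have hok' : ∀ l ∈ (bdry γ).support, LOk X l := fun l hl =>
    (mem_support_bdry_ok (fun l hl => (hok l hl).2) hl).1
  have hsup : ∀ g ∈ (ext κ γ).support, X.COk g ∧ X.cdeg g = k ∧ ext κ γ g ∈ X.K (k + r) g.1 := by
    intro g hg
    obtain ⟨l, hl, hg'⟩ := mem_support_ext hg
    obtain ⟨g1, g2, -⟩ := (hκ l (hok l hl)).1 g hg'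
    refine ⟨g1, by rw [g2, (hγ l hl).1]; omega, ext_apply_mem fun l hl hg' => ?_⟩
    exact X.K_anti ((hκ l (hok l hl)).1 g hg').2.2.1 _ (hγ l hl).2.2
  have hcomm : ext X.cbd (ext κ γ) = ext κ (bdry γ) := by
    rw [bdry_eq_ext, ext_ext, ext_ext]
    refine ext_congr fun l hl => ?_
    rw [ext_rat, ext_rat, (hκ l (hok l hl)).2.1]
    rfl
  obtain ⟨y, c', hy, hc', hI, hCh, hcyc⟩ := X.kill_infinity hsup (fun g => by
    rw [hcomm]
    refine ext_apply_mem fun l hl hg => ?_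
    obtain ⟨g1, -, g3, g4⟩ := (hκ l (hok' l hl)).1 g hg
    exact X.I_mono g1.1 g3 (hok' l hl).2.2 g4 (hz l))
  refine ⟨fun S => c' (S, ∅), ⟨hCh, fun R hR hm hcard => ?_⟩, ψ, hψ,
    ext h γ + ext (psiHat X ψ) y, X.kchain_add ?_ ?_, ?_⟩
  · rw [X.kap_st0]
    exact hcyc R hR hm hcard
  · refine kchain_ext car fun l hl => ⟨(hok l hl).2.2, (hγ l hl).2.2, fun l' hl' => ?_⟩
    obtain ⟨p1, p2, p3, -⟩ := (hh l (hok l hl)).1 l' hl'
    exact ⟨by rw [p1, (hγ l hl).1]; omega, p2, p3⟩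
  · refine kchain_ext Prod.fst fun g hg => ⟨(hy g hg).1.1.1, (hy g hg).2.2, fun l hl => ?_⟩
    obtain ⟨p1, p2, p3, -⟩ := psiHat_support hψ (hy g hg).1 l hl
    exact ⟨by rw [p1, (hy g hg).2.1], p2, p3⟩
  · have e1 : bdry (ext h γ) = γ - ext (psiHat X ψ) (ext κ γ) - ext h (bdry γ) := by
      rw [bdry_ext, ext_congr fun l hl => (hh l (hok l hl)).2, ext_fun_sub, ext_fun_sub,
        ext_single_one, ext_ext, bdry_eq_ext γ, ext_ext]
      rfl
    have e2 : γ - X.st0.Psi ψ (k + r) (fun S => c' (S, ∅)) -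
        bdry (ext h γ + ext (psiHat X ψ) y) =
        ext (psiHat X ψ) (ext κ γ - c' - ext X.cbd y) + ext h (bdry γ) := by
      rw [psi_eq_ext ψ hc', ← bdryL_apply, map_add, bdryL_apply, bdryL_apply, e1,
        bdry_ext_psiHat hψ fun g hg => (hy g hg).1, ext_sub, ext_sub]
      abel
    rw [e2]
    refine X.null_add (null_ext Prod.fst (fun g => (g.2 : Set ℕ)) fun g hg => ?_)
      (null_ext car sed fun l hl => ⟨(hok' l hl).2.2, hz l, fun l' hl' => ?_⟩)
    · have hg1 : X.COk g := by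
        rcases Finset.mem_union.1 (Finsupp.support_sub hg) with h1 | h1
        · rcases Finset.mem_union.1 (Finsupp.support_sub h1) with h2 | h2
          · exact (hsup g h2).1
          · exact (hc' g h2).1
        · obtain ⟨g', hg', h2⟩ := mem_support_ext h1
          exact (X.cbd_support (hy g' hg').1 g h2).1
      refine ⟨hg1.1.1, hI g, fun l hl => ?_⟩
      obtain ⟨p1, p2, p3, p4⟩ := psiHat_support hψ hg1 l hl
      exact ⟨List.length_pos_iff.1 (by omega), p2, p3, p4⟩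
    · obtain ⟨p1, p2, p3, p4⟩ := (hh l (hok' l hl)).1 l' hl'
      exact ⟨List.length_pos_iff.1 (by omega), p2, p3, p4⟩

end Pool.Agent.Lead.THC
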