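import Pool.Agent.Lead.THC.Lift
import Pool.Agent.Lead.THC.Reduce
import Pool.Agent.Lead.THC.Final
import Pool.Agent.Lead.THC.Start

set_option autoImplicit false

open scoped BigOperators

noncomputable section

namespace Pool.Agent.Lead.THC

theorem main {r : ℕ} (X : Space r) (hX : X.LocAcyclic) (n : ℕ) (g : Pt → Pt → Module.Dual ℚ E)
    (hg : X.IsLineBundle g) (hHL : X.HardLefschetz n g) (k : ℕ) (c : List Pt →₀ A)
    (hc : X.IsCycle k k c) (he : ∀ θ : ℝ →ₗ[ℚ] ℚ, X.IsBdry (k + 1) (k - 1) (eig θ c)) :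
    ∃ Z, X.IsTropCycle k Z ∧ X.IsBdry k k (c - Z) := by
  obtain ⟨γ, hγ, hγz, hcγ⟩ := X.lift_cycle n g hg hHL k c hc he
  have hg0 : X.st0.Good := ⟨X.aug_st0, X.lvk_st0 hX⟩
  have hreal : ∀ st : St X, st.Good → ∃ ψ, st.IsReal ψ := fun st h =>
    (st.exists_straight_real h.1).imp fun _ h => h.1
  obtain ⟨c₀, hc₀, hr₀⟩ := X.start (hreal _ hg0) hγ hγz
  obtain ⟨st, c₁, hst, hc₁, ht, hr⟩ := reduce (fun st c => st.Rep k γ c) (k + r)
    (fun st _ _ _ _ _ hh hq => st.rep_hom hh hq)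
    (fun _ st' R _ _ h' hc hq => R.rep_sd hc hq (hreal st' h')) X.st0 c₀ hg0 hc₀ hr₀
  obtain ⟨Z, hZ, Y, hY, hN⟩ := st.rep_final hst.1 hγ hc₁ ht hr
  refine ⟨Z, hZ, Y, hY, ?_⟩
  have : c - Z - bdry Y = (c - X.down γ) + (X.down γ - Z - bdry Y) := by abel
  rw [this]
  exact X.null_add hcγ hN

end Pool.Agent.Lead.THC
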