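import Pool.Agent.Lead.THC.Alg

set_option autoImplicit false

open scoped BigOperators

noncomputable section

namespace Pool.Agent.Lead.THC

namespace St

variable {r : ℕ} {X : Space r} (st : St X)

theorem kap_mem' {S : Finset ℕ} (hS : S ∈ st.cx) : st.kap S ∈ X.T := st.kap_mem S hS

theorem kap_mono {R S : Finset ℕ} (h : R ⊆ S) : st.kap R ⊆ st.kap S :=
  Finset.biUnion_subset_biUnion_of_subset_left _ h

theorem pos_mem_supp {S : Finset ℕ} {a : ℕ} (ha : a ∈ S) :
    st.pos a ∈ supp ((st.kap S : Finset ℕ) : Set ℕ) :=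
  (Finsupp.mem_supported ℚ _).2 fun _ hv => Finset.mem_coe.2 (Finset.mem_biUnion.2 ⟨a, ha, hv⟩)

theorem lev_of_mem_rays {v : ℕ} (hv : v ∈ X.rays) : X.lev v = ⊥ := (Finset.mem_filter.1 hv).2

theorem lvl_pos_ray {a : ℕ} (ha : a ∈ X.rays) (i : Fin r) : lvl X.lev i (st.pos a) = 0 := by
  simp [st.pos_ray a ha, lvl, (Finset.mem_filter.1 ha).2]

theorem lvl_pos_nonneg (a : ℕ) (i : Fin r) : 0 ≤ lvl X.lev i (st.pos a) := by
  rw [lvl, Finsupp.linearCombination_apply]
  refine Finset.sum_nonneg fun v _ => ?_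
  dsimp only
  split_ifs <;> simp [st.pos_nonneg]

theorem kap_eq {S : Finset ℕ} (hS : S ∈ st.cx) :
    st.kap S = st.kap (S \ X.rays) ∪ (S ∩ X.rays) := by
  ext v
  simp only [kap, Finset.mem_union, Finset.mem_biUnion, Finset.mem_sdiff, Finset.mem_inter]
  constructor
  · rintro ⟨a, ha, hv⟩
    by_cases hr : a ∈ X.rays
    · rw [st.pos_ray a hr, Finsupp.support_single _ one_ne_zero, Finset.mem_singleton] at hv
      exact Or.inr (hv ▸ ⟨ha, hr⟩)
    · exact Or.inl ⟨a, ⟨ha, hr⟩, hv⟩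
  · rintro (⟨a, ha, hv⟩ | ⟨h1, h2⟩)
    · exact ⟨a, ha.1, hv⟩
    · exact ⟨v, h1, by simp [st.pos_ray v h2]⟩

theorem mem_of_mem_kap_ray {S : Finset ℕ} (hS : S ∈ st.cx) {v : ℕ} (hv : v ∈ st.kap S)
    (hl : X.lev v = ⊥) : v ∈ S ∧ v ∈ X.rays := by
  obtain ⟨a, ha, hv⟩ := Finset.mem_biUnion.1 hv
  by_cases hr : a ∈ X.rays
  · rw [st.pos_ray a hr, Finsupp.support_single _ one_ne_zero, Finset.mem_singleton] at hv
    exact hv ▸ ⟨ha, hr⟩
  · exact absurd hl ((st.pos_fin a (st.down S hS _ (by simpa using ha)) hr).1 v hv)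

theorem sum_sdiff_rays {F : Type} [Field F] [CharZero F] (S : Finset ℕ) (t : ℕ → F) (i : Fin r) :
    ∑ a ∈ S \ X.rays, t a * ((lvl X.lev i (st.pos a) : ℚ) : F) =
      ∑ a ∈ S, t a * ((lvl X.lev i (st.pos a) : ℚ) : F) :=
  Finset.sum_subset Finset.sdiff_subset fun a ha h => by
    rw [st.lvl_pos_ray (by simpa [ha] using h)]; simp

theorem meets_sdiff_rays (S : Finset ℕ) : st.Meets (S \ X.rays) ↔ st.Meets S := by
  constructor
  · rintro ⟨t, h1, h2⟩
    refine ⟨fun a => if a ∈ X.rays then 1 else t a, fun a ha => ?_, fun i => ?_⟩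
    · by_cases hr : a ∈ X.rays
      · simp [hr]
      · simpa [hr] using h1 a (by simp [ha, hr])
    · rw [← st.sum_sdiff_rays, ← h2 i]
      exact Finset.sum_congr rfl fun a ha => by rw [if_neg (Finset.mem_sdiff.1 ha).2]
  · rintro ⟨t, h1, h2⟩
    exact ⟨t, fun a ha => h1 a (Finset.mem_sdiff.1 ha).1, fun i => by rw [st.sum_sdiff_rays, h2]⟩

theorem span_eq_top_of_meets {S : Finset ℕ} (h : st.Meets S) : Submodule.span ℚ
    ((fun a j => lvl X.lev j (st.pos a)) '' ((S \ X.rays : Finset ℕ) : Set ℕ)) = ⊤ := by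
  obtain ⟨t, -, h2⟩ := h
  refine eq_top_iff.2 fun x _ => ?_
  by_contra hx
  obtain ⟨φ, f1, f2⟩ := Submodule.exists_dual_map_eq_bot_of_notMem hx inferInstance
  have f3 : ∀ a ∈ S \ X.rays,
      ∑ j, lvl X.lev j (st.pos a) * φ (fun k => if j = k then 1 else 0) = 0 := fun a ha => by
    have : φ (fun j => lvl X.lev j (st.pos a)) = 0 := by
      rw [← Submodule.mem_bot ℚ, ← f2]
      exact Submodule.mem_map_of_mem (Submodule.subset_span ⟨a, ha, rfl⟩)
    rwa [LinearMap.pi_apply_eq_sum_univ] at this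
  have f4 := Fintype.linearIndependent_iff.1 X.b_indep
    (fun j => φ fun k => if j = k then 1 else 0) (by
      simp only [← h2, ← st.sum_sdiff_rays S, Finset.smul_sum]
      rw [Finset.sum_comm]
      refine Finset.sum_eq_zero fun a ha => ?_
      have := congrArg (fun q : ℚ => t a * (q : ℝ)) (f3 a ha)
      simp only [Rat.cast_sum, Rat.cast_mul, Finset.mul_sum, Rat.cast_zero, mul_zero] at this
      rw [← this]
      exact Finset.sum_congr rfl fun j _ => by rw [Rat.smul_def]; ring)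
  exact f1 (by rw [LinearMap.pi_apply_eq_sum_univ]; simp [f4])

/-- the projections of the vertices of a meeting simplex span the base -/
theorem exists_section {S : Finset ℕ} (h : st.Meets S) (i : Fin r) :
    ∃ m : ℕ → ℚ, ∀ j, ∑ a ∈ S \ X.rays, m a * lvl X.lev j (st.pos a) = if i = j then 1 else 0 := by
  have : (fun j => if i = j then (1 : ℚ) else 0) ∈ Submodule.span ℚ
      ((fun a j => lvl X.lev j (st.pos a)) '' ((S \ X.rays : Finset ℕ) : Set ℕ)) := by
    rw [st.span_eq_top_of_meets h]; trivial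
  obtain ⟨m, hm⟩ := (Submodule.mem_span_image_finset_iff_exists_fun' ℚ).1 this
  exact ⟨m, fun j => by simpa using congrFun hm j⟩

theorem meets_mono {R S : Finset ℕ} (hRS : R ⊆ S) (h : st.Meets R) : st.Meets S := by
  have : (fun j => ∑ a ∈ S \ R, lvl X.lev j (st.pos a)) ∈ Submodule.span ℚ
      ((fun a j => lvl X.lev j (st.pos a)) '' ((R \ X.rays : Finset ℕ) : Set ℕ)) := by
    rw [st.span_eq_top_of_meets h]; trivial
  obtain ⟨m, hm⟩ := (Submodule.mem_span_image_finset_iff_exists_fun' ℚ).1 this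
  obtain ⟨t, h1, h2⟩ := h
  have ev : ∀ᶠ e : ℝ in nhdsWithin 0 (Set.Ioi 0), ∀ a ∈ R, 0 < t a - e * m a :=
    (Filter.eventually_all_finset R).2 fun a ha => Filter.Eventually.filter_mono nhdsWithin_le_nhds
      (continuousAt_const.eventually_lt (by fun_prop) (by simpa using h1 a ha))
  obtain ⟨e, e1, e2⟩ := (ev.and self_mem_nhdsWithin).exists
  refine ⟨fun a => if a ∈ R then t a - e * m a else e, fun a _ => ?_, fun i => ?_⟩
  · by_cases ha : a ∈ R
    · simpa only [if_pos ha] using e1 a ha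
    · simpa only [if_neg ha] using e2
  · have k := congrArg (fun q : ℚ => (q : ℝ)) (congrFun hm i)
    simp only [Finset.sum_apply, Pi.smul_apply, smul_eq_mul, Rat.cast_sum, Rat.cast_mul] at k
    rw [st.sum_sdiff_rays R fun a => (m a : ℝ)] at k
    dsimp only
    rw [← Finset.sum_sdiff hRS, Finset.sum_congr rfl fun a ha => by
      rw [if_neg (Finset.mem_sdiff.1 ha).2], Finset.sum_congr (s₁ := R) rfl fun a ha => by
      rw [if_pos ha], ← Finset.mul_sum, ← k, ← h2 i, Finset.mul_sum, ← Finset.sum_add_distrib]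
    exact Finset.sum_congr rfl fun a _ => by ring

/-- a solution with nonnegative coefficients is enough -/
theorem meets_of_nonneg {S : Finset ℕ} {t : ℕ → ℝ} (ht : ∀ a ∈ S, 0 ≤ t a)
    (h : ∀ i, ∑ a ∈ S, t a * ((lvl X.lev i (st.pos a) : ℚ) : ℝ) = X.b i) : st.Meets S := by
  refine st.meets_mono (Finset.filter_subset (fun a => 0 < t a) S)
    ⟨t, fun a ha => (Finset.mem_filter.1 ha).2, fun i => ?_⟩
  rw [← h i]
  refine Finset.sum_subset (Finset.filter_subset _ _) fun a ha h0 => ?_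
  rw [le_antisymm (by simpa [ha] using h0) (ht a ha), zero_mul]

theorem le_card_of_meets {S : Finset ℕ} (h : st.Meets S) : r ≤ (S \ X.rays).card := by
  have := finrank_le_of_span_eq_top (R := ℚ)
    (v := fun (a : (S \ X.rays : Finset ℕ)) j => lvl X.lev j (st.pos a)) (by
      rw [← st.span_eq_top_of_meets h]
      congr 1
      exact (Set.image_eq_range (fun a j => lvl X.lev j (st.pos a))
        ((S \ X.rays : Finset ℕ) : Set ℕ)).symm)
  simpa only [Module.finrank_fin_fun, Fintype.card_coe] using this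

theorem cell_kap {S : Finset ℕ} (hS : S ∈ st.cx) (h : st.Meets S) : X.Cell (st.kap S) := by
  obtain ⟨t, -, h2⟩ := h
  refine ⟨st.kap_mem S hS, fun i => ?_⟩
  obtain ⟨a, ha, h0⟩ := Finset.exists_ne_zero_of_sum_ne_zero ((h2 i).trans_ne (X.b_pos i).ne')
  have h1 : lvl X.lev i (st.pos a) ≠ 0 := fun h => h0 (by simp [h])
  rw [lvl, Finsupp.linearCombination_apply] at h1
  obtain ⟨v, hv, h3⟩ := Finset.exists_ne_zero_of_sum_ne_zero h1
  exact ⟨v, Finset.mem_biUnion.2 ⟨a, ha, hv⟩, by by_contra h; simp [h] at h3⟩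

theorem I_kap_mono {R S : Finset ℕ} (hS : S ∈ st.cx) (hRS : R ⊆ S) (h : st.Meets R) :
    X.I (st.kap S) ∅ ≤ X.I (st.kap R) ∅ :=
  X.I_mono (st.cell_kap (st.down S hS R hRS) h) (st.kap_mono hRS) (st.kap_mem S hS) subset_rfl

theorem exists_dual {S : Finset ℕ} (hS : S ∈ st.cx) :
    ∃ f : ℕ → Module.Dual ℚ E, (∀ a, X.B (st.kap S) ⊔ supp ∅ ≤ LinearMap.ker (f a)) ∧
      ∀ a ∈ S, ∀ a' ∈ S, f a (st.pos a') = if a = a' then 1 else 0 := by
  obtain ⟨f, h1, h2⟩ := X.exists_dual (st.kap_mem S hS) (fun a ha => st.pos_mem_supp ha)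
    (st.indep S hS)
  exact ⟨f, fun a => sup_le (h1 a) (by simp [supp, Finsupp.supported_empty]), h2⟩

/-- rays do not count in the sign of a bounded vertex -/
theorem sgn_sdiff_rays {S : Finset ℕ} (hS : S ∈ st.cx) {v : ℕ} (hv : v ∈ S) (hr : v ∉ X.rays) :
    sgn v (S.erase v) = sgn v ((S \ X.rays).erase v) := by
  unfold sgn
  congr 2
  ext w
  simp only [Finset.mem_filter, Finset.mem_erase, Finset.mem_sdiff]
  exact ⟨fun ⟨⟨a, b⟩, c⟩ => ⟨⟨a, b, fun h => lt_asymm c
    (st.ray_lt w h v (st.down S hS _ (by simpa using hv)) hr)⟩, c⟩, fun ⟨⟨a, b, _⟩, c⟩ => ⟨⟨a, b⟩, c⟩⟩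

theorem sgn_ray {S : Finset ℕ} (hS : S ∈ st.cx) {v : ℕ} (hv : v ∈ S) (hr : v ∈ X.rays) :
    sgn v (S.erase v) = (-1) ^ (S \ X.rays).card * sgn v ((S ∩ X.rays).erase v) := by
  unfold sgn
  rw [← pow_add, ← Finset.card_union_of_disjoint (Finset.disjoint_left.2 fun w h1 h2 => by
    simp only [Finset.mem_filter, Finset.mem_erase, Finset.mem_sdiff, Finset.mem_inter] at h1 h2
    exact h1.2 h2.1.2.2)]
  congr 2
  ext w
  simp only [Finset.mem_filter, Finset.mem_erase, Finset.mem_sdiff, Finset.mem_inter,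
    Finset.mem_union]
  constructor
  · rintro ⟨⟨a, b⟩, c⟩
    by_cases h : w ∈ X.rays
    · exact Or.inr ⟨⟨a, b, h⟩, c⟩
    · exact Or.inl ⟨b, h⟩
  · rintro (⟨a, b⟩ | ⟨⟨a, b, _⟩, c⟩)
    · have := st.ray_lt v hr w (st.down S hS _ (by simpa using a)) b
      exact ⟨⟨this.ne', a⟩, this⟩
    · exact ⟨⟨a, b⟩, c⟩

end St

section CellBd

variable {M : Type} [AddCommGroup M] [Module ℚ M] (T : Finset (Finset ℕ))

theorem cellBd_add (c c' : Finset ℕ → M) (R : Finset ℕ) :
    cellBd T (fun S => c S + c' S) R = cellBd T c R + cellBd T c' R := by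
  simp only [cellBd, ← Finset.sum_add_distrib]
  exact Finset.sum_congr rfl fun v _ => by split_ifs <;> simp

theorem cellBd_sub (c c' : Finset ℕ → M) (R : Finset ℕ) :
    cellBd T (fun S => c S - c' S) R = cellBd T c R - cellBd T c' R := by
  simp only [cellBd, ← Finset.sum_sub_distrib]
  exact Finset.sum_congr rfl fun v _ => by split_ifs <;> simp [smul_sub]

theorem cellBd_map {M' : Type} [AddCommGroup M'] [Module ℚ M'] (φ : M →ₗ[ℚ] M')
    (c : Finset ℕ → M) (R : Finset ℕ) : cellBd T (fun S => φ (c S)) R = φ (cellBd T c R) := by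
  simp only [cellBd, map_sum]
  exact Finset.sum_congr rfl fun v _ => by split_ifs <;> simp

theorem cellBd_congr {c c' : Finset ℕ → M} {R : Finset ℕ}
    (h : ∀ v, v ∉ R → insert v R ∈ T → c (insert v R) = c' (insert v R)) :
    cellBd T c R = cellBd T c' R :=
  Finset.sum_congr rfl fun v _ => by
    split_ifs with hv
    · rw [h v hv.1 hv.2]
    · rfl

theorem cellBd_mem {c : Finset ℕ → M} {R : Finset ℕ} {U : Submodule ℚ M}
    (h : ∀ v, v ∉ R → insert v R ∈ T → c (insert v R) ∈ U) : cellBd T c R ∈ U :=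
  U.sum_mem fun v _ => by
    split_ifs with hv
    · exact U.smul_mem _ (h v hv.1 hv.2)
    · exact U.zero_mem

theorem cellBd_cellBd (hT : ∀ S ∈ T, ∀ R ⊆ S, R ∈ T) (c : Finset ℕ → M) (R : Finset ℕ) :
    cellBd T (cellBd T c) R = 0 := by
  let f : ℕ → ℕ → M := fun v w => if v ∉ R ∧ w ∉ R ∧ v ≠ w ∧ insert w (insert v R) ∈ T then
    (sgn v R * sgn w (insert v R)) • c (insert w (insert v R)) else 0
  have e : cellBd T (cellBd T c) R = ∑ v ∈ T.biUnion id, ∑ w ∈ T.biUnion id, f v w := by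
    refine Finset.sum_congr rfl fun v _ => ?_
    split_ifs with hv
    · rw [cellBd, Finset.smul_sum]
      refine Finset.sum_congr rfl fun w _ => ?_
      by_cases hw : w ∉ insert v R ∧ insert w (insert v R) ∈ T
      · rw [if_pos hw, smul_smul]
        simp only [Finset.mem_insert, not_or] at hw
        exact (if_pos ⟨hv.1, hw.1.2, fun h => hw.1.1 h.symm, hw.2⟩).symm
      · rw [if_neg hw, smul_zero]
        exact (if_neg fun h => hw ⟨by simp [h.2.1, h.2.2.1.symm], h.2.2.2⟩).symm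
    · exact (Finset.sum_eq_zero fun w _ => if_neg fun h =>
        hv ⟨h.1, hT _ h.2.2.2 _ (Finset.subset_insert _ _)⟩).symm
  have a : ∀ v w, f v w = -f w v := fun v w => by
    by_cases h : v ∉ R ∧ w ∉ R ∧ v ≠ w ∧ insert w (insert v R) ∈ T
    · simp only [f]
      rw [if_pos h, if_pos ⟨h.2.1, h.1, h.2.2.1.symm, Finset.insert_comm w v R ▸ h.2.2.2⟩,
        sgn_anticomm h.2.2.1 h.1 h.2.1, Finset.insert_comm, neg_smul]
    · simp only [f]
      rw [if_neg h, if_neg fun h' => h ⟨h'.2.1, h'.1, h'.2.2.1.symm,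
        Finset.insert_comm v w R ▸ h'.2.2.2⟩, neg_zero]
  have b : ∑ v ∈ T.biUnion id, ∑ w ∈ T.biUnion id, f v w =
      -∑ v ∈ T.biUnion id, ∑ w ∈ T.biUnion id, f v w := by
    conv_lhs => rw [Finset.sum_comm]
    simp only [← Finset.sum_neg_distrib]
    exact Finset.sum_congr rfl fun v _ => Finset.sum_congr rfl fun w _ => a w v
  rw [e]
  have : (2 : ℚ) • ∑ v ∈ T.biUnion id, ∑ w ∈ T.biUnion id, f v w = 0 := by
    rw [two_smul]; exact add_eq_zero_iff_eq_neg.2 b
  exact (smul_eq_zero.1 this).resolve_left two_ne_zero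

/-- transposition: pairing a chain with the boundary of a family indexed by the simplices -/
theorem sum_cellBd {N : Type} [AddCommGroup N] [Module ℚ N] (hT : ∀ S ∈ T, ∀ R ⊆ S, R ∈ T)
    (β : Finset ℕ → M →ₗ[ℚ] N) (c : Finset ℕ → M) :
    ∑ R ∈ T, β R (cellBd T c R) =
      ∑ S ∈ T, ∑ v ∈ S, sgn v (S.erase v) • β (S.erase v) (c S) := by
  rw [Finset.sum_comm' (t' := T.biUnion id) (s' := fun v => T.filter fun S => v ∈ S) (by
    simp only [Finset.mem_filter, Finset.mem_biUnion, id]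
    exact fun S v => ⟨fun h => ⟨h, S, h⟩, fun h => h.1⟩)]
  simp only [cellBd, map_sum]
  rw [Finset.sum_comm]
  refine Finset.sum_congr rfl fun v _ => ?_
  simp only [apply_ite (β _), map_zero, map_smul]
  rw [← Finset.sum_filter]
  refine Finset.sum_bij' (fun R _ => insert v R) (fun S _ => S.erase v) (fun R hR => ?_)
    (fun S hS => ?_) (fun R hR => ?_) (fun S hS => ?_) fun R hR => ?_
  · simpa using (Finset.mem_filter.1 hR).2.2
  · simp only [Finset.mem_filter] at hS ⊢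
    exact ⟨hT _ hS.1 _ (Finset.erase_subset _ _), by simp, by rw [Finset.insert_erase hS.2]; exact hS.1⟩
  · exact Finset.erase_insert (Finset.mem_filter.1 hR).2.1
  · exact Finset.insert_erase (Finset.mem_filter.1 hS).2
  · rw [Finset.erase_insert (Finset.mem_filter.1 hR).2.1]

end CellBd

end Pool.Agent.Lead.THC
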