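import Pool.Agent.Lead.THC.Psi

set_option autoImplicit false

open scoped BigOperators

noncomputable section

namespace Pool.Agent.Lead.THC

namespace Rz

/-- `prisms ρ (tens u ω)` as a bilinear map -/
def pt (ρ : Finset ℕ) : (List Pt →₀ ℚ) →ₗ[ℚ] A →ₗ[ℚ] (List Pt →₀ A) :=
  LinearMap.mk₂ ℚ (fun u ω => prisms ρ (tens u ω))
    (fun u u' ω => by rw [← prisms_add]; congr 1; ext l; simp [tens, add_smul])
    (fun q u ω => by rw [← prisms_smul]; congr 1; ext l; simp [tens, smul_smul])
    (fun u ω ω' => by rw [← prisms_add]; congr 1; ext l; simp [tens])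
    (fun q u ω => by rw [← prisms_smul]; congr 1; ext l; simp [tens, smul_smul, mul_comm])

theorem pt_apply (ρ : Finset ℕ) (u : List Pt →₀ ℚ) (ω : A) : pt ρ u ω = prisms ρ (tens u ω) := rfl

theorem tens_support {u : List Pt →₀ ℚ} {ω : A} {l : List Pt} (h : l ∈ (tens u ω).support) :
    l ∈ u.support := Finsupp.support_mapRange h

variable {r : ℕ} {X : Space r} (st : St X)

/-- chains of valid lists inside a simplex -/
def Car (X : Space r) (K : Finset ℕ) (q : ℕ) : Submodule ℚ (List Pt →₀ ℚ) :=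
  Finsupp.supported ℚ ℚ {l | l.length = q + 1 ∧ (∀ z ∈ l, X.IsPt z) ∧ car l ⊆ K}

theorem mem_Car {K : Finset ℕ} {q : ℕ} {u : List Pt →₀ ℚ} : u ∈ Car X K q ↔
    ∀ l ∈ u.support, l.length = q + 1 ∧ (∀ z ∈ l, X.IsPt z) ∧ car l ⊆ K := Iff.rfl

theorem prisms_mem {K : Finset ℕ} {q : ℕ} {u : List Pt →₀ ℚ} (hu : u ∈ Car X K q) {ρ : Finset ℕ}
    (h1 : ρ ⊆ K) (h2 : ρ ⊆ X.rays) : prisms ρ u ∈ Car X K (q + ρ.card) := fun l' hl' => by
  obtain ⟨l, hl, -, a, b, -, d⟩ := mem_support_prisms hl'
  obtain ⟨e1, e2, e3⟩ := hu hl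
  refine ⟨by omega, fun z' hz' => ?_, b ▸ Finset.union_subset e3 h1⟩
  obtain ⟨z, hz, f1, -, f2⟩ := d z' hz'
  obtain ⟨g1, g2, g3⟩ := e2 z hz
  exact ⟨f1 ▸ g1, f1 ▸ g2, fun v hv => (Finset.mem_union.1 (f2 hv)).elim (g3 v) fun h =>
    (Finset.mem_filter.1 (h2 h)).2⟩

theorem null_shift {K : Finset ℕ} (hK : K ∈ X.T) {q : ℕ} {u : List Pt →₀ ℚ} (hu : u ∈ Car X K q)
    {v : ℕ} (h1 : v ∈ K) (h2 : v ∈ X.rays) {ω : A} (hω : ω ∈ X.I K {v}) :
    X.Null (shift {v} (tens u ω)) := by
  rw [shift_tens]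
  refine X.null_tens hK (fun l' hl' => ?_) hω
  obtain ⟨l, hl, rfl⟩ := mem_support_shift hl'
  obtain ⟨e1, e2, e3⟩ := hu hl
  refine ⟨by simpa using List.ne_nil_of_length_eq_add_one e1, ?_, fun w hw => ?_, ?_⟩
  · simp only [List.forall_mem_map]
    exact fun z hz => ⟨(e2 z hz).1, (e2 z hz).2.1, fun w hw => (Finset.mem_union.1 hw).elim
      (fun h => Finset.mem_singleton.1 h ▸ (Finset.mem_filter.1 h2).2) ((e2 z hz).2.2 w)⟩
  · obtain ⟨_, hz', h⟩ := mem_car.1 hw
    obtain ⟨z, hz, rfl⟩ := List.mem_map.1 hz'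
    rcases h with h | h
    · exact e3 (mem_car.2 ⟨z, hz, Or.inl h⟩)
    · exact (Finset.mem_union.1 h).elim (fun h => Finset.mem_singleton.1 h ▸ h1) fun h =>
        e3 (mem_car.2 ⟨z, hz, Or.inr h⟩)
  · rintro _ rfl
    simp only [sed, Set.mem_setOf_eq, List.forall_mem_map]
    simp

theorem exists_pt {S : Finset ℕ} (h : st.Meets S) : ∃ a : Pt, X.IsPt a ∧ car [a] ⊆ st.kap S := by
  obtain ⟨t, h1, h2⟩ := h
  refine ⟨(∑ a ∈ S, t a • (st.pos a).mapRange (fun q : ℚ => (q : ℝ)) (by simp), ∅),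
    ⟨fun v => ?_, fun i => ?_, by simp⟩, fun v hv => ?_⟩
  · simp only [Finsupp.finset_sum_apply, Finsupp.smul_apply, Finsupp.mapRange_apply]
    exact Finset.sum_nonneg fun a ha => mul_nonneg (h1 a ha).le (by simpa using st.pos_nonneg a v)
  · have e : ∀ x : ℕ →₀ ℝ, (x.sum fun v a => if X.lev v = (i : WithBot (Fin r)) then a else 0) =
        Finsupp.linearCombination ℝ
          (fun v => if X.lev v = (i : WithBot (Fin r)) then (1 : ℝ) else 0) x := fun x => by
      simp [Finsupp.linearCombination_apply]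
    rw [e, map_sum, ← h2 i]
    refine Finset.sum_congr rfl fun a _ => ?_
    rw [map_smul, smul_eq_mul, Finsupp.linearCombination_apply, Finsupp.sum_mapRange_index (by simp),
      lvl, Finsupp.linearCombination_apply]
    simp [Finsupp.sum, apply_ite (fun q : ℚ => (q : ℝ))]
  · obtain ⟨z, hz, h⟩ := mem_car.1 hv
    obtain rfl := List.mem_singleton.1 hz
    obtain ⟨a, ha, h⟩ := Finset.mem_biUnion.1 (Finsupp.support_finset_sum (h.resolve_right (by simp)))
    exact Finset.mem_biUnion.2 ⟨a, ha, Finsupp.support_mapRange (Finsupp.support_smul h)⟩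

open Classical in
/-- the boundary of a meeting simplex -/
def dd (S : Finset ℕ) : Finset ℕ →₀ ℚ :=
  ∑ v ∈ S, if st.Meets (S.erase v) then sgn v (S.erase v) • Finsupp.single (S.erase v) 1 else 0

open Classical in
theorem lc_dd {N : Type} [AddCommGroup N] [Module ℚ N] (f : Finset ℕ → N) (S : Finset ℕ) :
    Finsupp.linearCombination ℚ f (dd st S) =
      ∑ v ∈ S, if st.Meets (S.erase v) then sgn v (S.erase v) • f (S.erase v) else 0 := by
  simp only [dd, map_sum, apply_ite (Finsupp.linearCombination ℚ f), map_smul, map_zero,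
    Finsupp.linearCombination_single, one_smul]

theorem mem_dd {S R : Finset ℕ} (h : R ∈ (dd st S).support) :
    ∃ v ∈ S, st.Meets (S.erase v) ∧ R = S.erase v := by
  obtain ⟨v, hv, h⟩ := Finset.mem_biUnion.1 (Finsupp.support_finset_sum h)
  split_ifs at h with h1
  · exact ⟨v, hv, h1, Finset.mem_singleton.1
      (Finsupp.support_single_subset (Finsupp.support_smul h))⟩
  · simp at h

theorem dd_dd (S : Finset ℕ) : Finsupp.linearCombination ℚ (dd st) (dd st S) = 0 := by
  classical
  let f : ℕ → ℕ → Finset ℕ →₀ ℚ := fun v w => if v ≠ w ∧ st.Meets ((S.erase v).erase w) then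
    (sgn v (S.erase v) * sgn w ((S.erase v).erase w)) • Finsupp.single ((S.erase v).erase w) 1 else 0
  have e : Finsupp.linearCombination ℚ (dd st) (dd st S) = ∑ v ∈ S, ∑ w ∈ S, f v w := by
    rw [lc_dd]
    refine Finset.sum_congr rfl fun v hv => ?_
    rw [← Finset.add_sum_erase S _ hv, show f v v = 0 by simp [f], zero_add]
    split_ifs with h
    · rw [dd, Finset.smul_sum]
      refine Finset.sum_congr rfl fun w hw => ?_
      simp only [f, (Finset.ne_of_mem_erase hw).symm, ne_eq, not_false_eq_true, true_and]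
      split_ifs <;> simp [smul_smul]
    · exact (Finset.sum_eq_zero fun w _ => if_neg fun h' =>
        h (st.meets_mono (Finset.erase_subset _ _) h'.2)).symm
  have a : ∀ v ∈ S, ∀ w ∈ S, f v w = -f w v := fun v hv w hw => by
    simp only [f, Finset.erase_right_comm (a := w) (b := v), ne_comm (a := w) (b := v)]
    split_ifs with h
    · have := sgn_anticomm h.1 (R := (S.erase v).erase w) (by simp) (by simp)
      rw [Finset.insert_erase (by simp [hw, h.1.symm]), Finset.erase_right_comm (a := v),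
        Finset.insert_erase (by simp [hv, h.1]), Finset.erase_right_comm (a := w)] at this
      rw [← neg_smul]; congr 1; linarith
    · simp
  have b : ∑ v ∈ S, ∑ w ∈ S, f v w = -∑ v ∈ S, ∑ w ∈ S, f v w := by
    conv_lhs => rw [Finset.sum_comm]
    simp only [← Finset.sum_neg_distrib]
    exact Finset.sum_congr rfl fun v hv => Finset.sum_congr rfl fun w hw => a w hw v hv
  rw [e]
  have : (2 : ℚ) • ∑ v ∈ S, ∑ w ∈ S, f v w = 0 := by
    rw [two_smul]; exact add_eq_zero_iff_eq_neg.2 b
  exact (smul_eq_zero.1 this).resolve_left two_ne_zero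

theorem le_card {S : Finset ℕ} (h : st.Meets S) : r ≤ S.card :=
  (st.le_card_of_meets h).trans (Finset.card_le_card Finset.sdiff_subset)

theorem exists_homotopy {ψ ψ' : Finset ℕ → List Pt →₀ ℚ} (h : st.IsReal ψ) (h' : st.IsReal ψ') :
    ∃ H : Finset ℕ → List Pt →₀ ℚ, ∀ S ∈ st.cx, Disjoint S X.rays → st.Meets S →
      H S ∈ Car X (st.kap S) (S.card - r + 1) ∧
      bdry (H S) = ψ S - ψ' S - Finsupp.linearCombination ℚ H (dd st S) := by
  have k : ∀ {ψ}, st.IsReal ψ → ∀ S ∈ st.cx, Disjoint S X.rays → st.Meets S →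
      ψ S ∈ Car X (st.kap S) (S.card - r) ∧
      bdryL (ψ S) = Finsupp.linearCombination ℚ ψ (dd st S) := fun {ψ} h S h1 h2 h3 => by
    obtain ⟨a, b, -⟩ := h S h1 h2 h3
    have := le_card st h3
    refine ⟨fun l hl => ⟨by have := (a l hl).1; omega, (a l hl).2⟩, ?_⟩
    rw [bdryL_apply, lc_dd]
    rcases this.lt_or_eq with h4 | h4
    · convert b h4
    · rw [bdry_of_length_le_one fun l hl => by have := (a l hl).1; omega]
      exact (Finset.sum_eq_zero fun v hv => if_neg fun h5 => by
        have := le_card st h5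
        rw [Finset.card_erase_of_mem hv] at this
        have := Finset.card_pos.2 ⟨v, hv⟩
        omega).symm
  obtain ⟨H, hH⟩ := exists_carried_homotopy (fun S => S ∈ st.cx ∧ Disjoint S X.rays ∧ st.Meets S)
    (fun S => S.card - r) (dd st) (fun S hS R hR => by
      obtain ⟨v, hv, a, rfl⟩ := mem_dd st hR
      refine ⟨⟨st.down S hS.1 _ (Finset.erase_subset _ _),
        hS.2.1.mono_left (Finset.erase_subset _ _), a⟩, ?_⟩
      have := le_card st a
      have := Finset.card_pos.2 ⟨v, hv⟩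
      simp only [Finset.card_erase_of_mem hv] at *
      omega) (fun S _ => dd_dd st S) bdryL aug (fun S q => Car X (st.kap S) q)
    (fun S _ R hR q u hu l hl => by
      obtain ⟨v, -, -, rfl⟩ := mem_dd st hR
      exact ⟨(hu hl).1, (hu hl).2.1, (hu hl).2.2.trans (st.kap_mono (Finset.erase_subset _ _))⟩)
    (fun S hS u hu a b => by
      obtain ⟨z, z1, z2⟩ := exists_pt st hS.2.2
      obtain ⟨y, y1, y2⟩ := X.acyclic_huge (ρ := ∅) z1 z2 (by simp)
        (fun l hl => ⟨(hu hl).1, (hu hl).2.1, (hu hl).2.2, by simp⟩) (by rwa [← bdryL_apply]) b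
      exact ⟨y, fun l hl => ⟨(y1 l hl).1, (y1 l hl).2.1, (y1 l hl).2.2.1⟩, by rwa [bdryL_apply]⟩)
    (fun S => ψ S - ψ' S) (fun S hS => by
      obtain ⟨a, b⟩ := k h S hS.1 hS.2.1 hS.2.2
      obtain ⟨a', b'⟩ := k h' S hS.1 hS.2.1 hS.2.2
      refine ⟨Submodule.sub_mem _ a a', ?_, fun h0 => ?_⟩
      · simp only [map_sub, b, b', lc_dd, ← Finset.sum_sub_distrib]
        exact Finset.sum_congr rfl fun v _ => by split_ifs <;> simp [smul_sub]
      · have := le_card st hS.2.2
        rw [map_sub, (h S hS.1 hS.2.1 hS.2.2).2.2 (by omega),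
          (h' S hS.1 hS.2.1 hS.2.2).2.2 (by omega), sub_self])
  exact ⟨H, fun S a b c => ⟨(hH S ⟨a, b, c⟩).1, by rw [← (hH S ⟨a, b, c⟩).2, bdryL_apply]; abel⟩⟩

end Rz

open Rz

namespace St

variable {r : ℕ} {X : Space r} (st : St X)

/-- a representation holds for every realization -/
theorem rep_any {k : ℕ} {γ : List Pt →₀ A} {c : Finset ℕ → A} (hc : st.Cyc (k + r) c)
    (hr : st.Rep k γ c) {ψ : Finset ℕ → List Pt →₀ ℚ} (hψ : st.IsReal ψ) :
    ∃ Y, X.IsKChain (k + r) (k + 1) Y ∧ X.Null (γ - st.Psi ψ (k + r) c - bdry Y) := by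
  classical
  obtain ⟨ψ0, h0, Y, y1, y2⟩ := hr
  obtain ⟨H, hH⟩ := exists_homotopy st h0 hψ
  have hH' := fun S (hS : S ∈ st.cx) (hm : st.Meets S) => hH _ (st.down S hS _ Finset.sdiff_subset)
    Finset.sdiff_disjoint ((st.meets_sdiff_rays S).2 hm)
  have hC : ∀ S ∈ st.cx, st.Meets S → ∀ ρ ⊆ S ∩ X.rays, prisms ρ (H (S \ X.rays)) ∈
      Car X (st.kap S) ((S \ X.rays).card - r + 1 + ρ.card) := fun S hS hm ρ hρ =>
    prisms_mem (fun l hl => ⟨((hH' S hS hm).1 hl).1, ((hH' S hS hm).1 hl).2.1,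
      ((hH' S hS hm).1 hl).2.2.trans (st.kap_mono Finset.sdiff_subset)⟩)
      (by rw [st.kap_eq hS]; exact hρ.trans Finset.subset_union_right)
      (hρ.trans Finset.inter_subset_right)
  let β : Finset ℕ → A →ₗ[ℚ] (List Pt →₀ A) := fun R => if st.Meets R ∧ R.card + 1 = k + r then
    tau (R ∩ X.rays).card ((R \ X.rays).card + 1) • pt (R ∩ X.rays) (H (R \ X.rays)) else 0
  let T := st.cx.filter fun S => st.Meets S ∧ S.card = k + r
  let Y' := ∑ S ∈ T, tau (S ∩ X.rays).card ((S \ X.rays).card + 1) •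
    pt (S ∩ X.rays) (H (S \ X.rays)) (c S)
  let Z := ∑ S ∈ T, tau (S ∩ X.rays).card ((S \ X.rays).card + 1) • ∑ v ∈ S ∩ X.rays,
    sgn v ((S ∩ X.rays).erase v) • shift {v} (pt ((S ∩ X.rays).erase v) (H (S \ X.rays)) (c S))
  have e1 : ∑ R ∈ st.cx, β R (cellBd st.cx c R) =
      ∑ S ∈ T, ∑ v ∈ S, sgn v (S.erase v) • β (S.erase v) (c S) := by
    rw [sum_cellBd _ st.down]
    refine (Finset.sum_subset (Finset.filter_subset _ _) fun S hS h => Finset.sum_eq_zero
      fun v hv => ?_).symm
    simp only [β]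
    rw [if_neg fun h' => h (Finset.mem_filter.2 ⟨hS, st.meets_mono (Finset.erase_subset _ _) h'.1,
      by rw [← h'.2, Finset.card_erase_add_one hv]⟩)]
    simp
  have e2 : bdry Y' = st.Psi ψ0 (k + r) c - st.Psi ψ (k + r) c -
      ∑ R ∈ st.cx, β R (cellBd st.cx c R) + Z := by
    rw [e1, ← bdryL_apply]
    simp only [Y', Z, T, Psi, map_sum, ← Finset.sum_sub_distrib, ← Finset.sum_add_distrib]
    refine Finset.sum_congr rfl fun S hS => ?_
    obtain ⟨hS, hm, hk⟩ := Finset.mem_filter.1 hS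
    have a1 : ∑ v ∈ S \ X.rays, sgn v (S.erase v) • β (S.erase v) (c S) =
        tau (S ∩ X.rays).card (S \ X.rays).card • pt (S ∩ X.rays)
          (Finsupp.linearCombination ℚ H (dd st (S \ X.rays))) (c S) := by
      rw [lc_dd, map_sum, LinearMap.sum_apply, Finset.smul_sum]
      refine Finset.sum_congr rfl fun v hv => ?_
      obtain ⟨v1, v2⟩ := Finset.mem_sdiff.1 hv
      have b1 : S.erase v \ X.rays = (S \ X.rays).erase v := Finset.erase_sdiff_comm _ _ _
      have b2 : S.erase v ∩ X.rays = S ∩ X.rays := by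
        rw [Finset.erase_inter, Finset.erase_eq_of_notMem (by simp [v2])]
      simp only [β, Finset.card_erase_add_one v1, hk, and_true, ← st.meets_sdiff_rays (S.erase v),
        b1, b2, Finset.card_erase_add_one hv, st.sgn_sdiff_rays hS v1 v2]
      split_ifs <;> simp [smul_smul, mul_comm]
    have a2 : ∑ v ∈ S ∩ X.rays, sgn v (S.erase v) • β (S.erase v) (c S) =
        tau (S ∩ X.rays).card ((S \ X.rays).card + 1) • ∑ v ∈ S ∩ X.rays,
          sgn v ((S ∩ X.rays).erase v) • pt ((S ∩ X.rays).erase v) (H (S \ X.rays)) (c S) := by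
      rw [Finset.smul_sum]
      refine Finset.sum_congr rfl fun v hv => ?_
      obtain ⟨v1, v2⟩ := Finset.mem_inter.1 hv
      have b1 : S.erase v \ X.rays = S \ X.rays := by
        rw [Finset.erase_sdiff_comm, Finset.erase_eq_of_notMem (by simp [v2])]
      simp only [β, Finset.card_erase_add_one v1, hk, and_true, ← st.meets_sdiff_rays (S.erase v),
        b1, Finset.erase_inter, st.sgn_ray hS v1 v2, (st.meets_sdiff_rays S).2 hm, if_true,
        LinearMap.smul_apply, smul_smul]
      congr 1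
      rw [← Finset.card_erase_add_one hv]
      simp only [tau, add_mul, mul_add, pow_add, mul_one, one_mul]
      ring_nf
    rw [← Finset.sum_sdiff (Finset.inter_subset_left (s₂ := X.rays)), Finset.sdiff_inter_self_left,
      a1, a2, map_smul, bdryL_apply, pt_apply, bdry_prisms _ fun l hl =>
        List.ne_nil_of_length_eq_add_one ((hH' S hS hm).1 (tens_support hl)).1, bdry_tens,
      (hH' S hS hm).2]
    simp only [← pt_apply, map_sub, LinearMap.sub_apply, smul_sub, smul_add, smul_smul,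
      Finset.sum_sub_distrib]
    rw [show tau (S ∩ X.rays).card ((S \ X.rays).card + 1) * (-1) ^ (S ∩ X.rays).card =
      tau (S ∩ X.rays).card (S \ X.rays).card by
        simp only [tau, mul_add, pow_add, mul_one, mul_assoc, ← mul_pow]; simp]
    abel
  refine ⟨Y + Y', X.kchain_add y1 (X.kchain_sum _ fun S hS => X.kchain_smul _ ?_), ?_⟩
  · obtain ⟨hS, hm, hk⟩ := Finset.mem_filter.1 hS
    rw [pt_apply, prisms_tens]
    refine X.kchain_tens (st.kap_mem S hS) ?_ (hc.1 S hS hm hk).1
    have := Finset.card_sdiff_add_card_inter S X.rays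
    have := st.le_card_of_meets hm
    rw [show k + 1 = (S \ X.rays).card - r + 1 + (S ∩ X.rays).card by omega]
    exact mem_Car.1 (hC S hS hm _ subset_rfl)
  · have : γ - st.Psi ψ (k + r) c - bdry (Y + Y') = γ - st.Psi ψ0 (k + r) c - bdry Y +
        (∑ R ∈ st.cx, β R (cellBd st.cx c R) - Z) := by
      rw [← bdryL_apply, map_add, bdryL_apply, bdryL_apply, e2]; abel
    rw [this]
    refine X.null_add y2 (X.null_sub (X.null_sum _ fun R hR => ?_) (X.null_sum _ fun S hS =>
      X.null_smul _ (X.null_sum _ fun v hv => X.null_smul _ ?_)))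
    · simp only [β]
      split_ifs with h
      · rw [LinearMap.smul_apply, pt_apply, prisms_tens]
        exact X.null_smul _ (X.null_tens (st.kap_mem R hR) (fun l hl =>
          have := hC R hR h.1 _ subset_rfl hl
          ⟨List.ne_nil_of_length_eq_add_one this.1, this.2.1, this.2.2, by simp⟩)
          (hc.2 R hR h.1 h.2))
      · exact X.null_zero
    · obtain ⟨hS, hm, hk⟩ := Finset.mem_filter.1 hS
      obtain ⟨v1, v2⟩ := Finset.mem_inter.1 hv
      have hv' : v ∈ st.kap S := by rw [st.kap_eq hS]; exact Finset.mem_union_right _ hv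
      rw [pt_apply, prisms_tens]
      exact null_shift (st.kap_mem S hS) (hC S hS hm _ (Finset.erase_subset _ _)) hv' v2
        (X.mem_I_singleton_of_io_mul (st.kap_mem S hS) hv' ((hc.1 S hS hm hk).2 v v1 v2))

end St

theorem Rz.cellBd_ind {T : Finset (Finset ℕ)} {S : Finset ℕ} (hS : S ∈ T) (R : Finset ℕ) :
    cellBd T (fun S' => if S' = S then (1 : ℚ) else 0) R =
      ∑ v ∈ S, if R = S.erase v then sgn v (S.erase v) else 0 := by
  rw [cellBd, ← Finset.sum_subset (s₁ := S) (fun v hv => Finset.mem_biUnion.2 ⟨S, hS, hv⟩)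
    fun v _ hv => by
      rw [if_neg (c := insert v R = S) fun h => hv (h ▸ Finset.mem_insert_self _ _)]; simp]
  refine Finset.sum_congr rfl fun v hv => ?_
  by_cases h : R = S.erase v
  · subst h
    simp [Finset.insert_erase hv, hS]
  · rw [if_neg h]
    split_ifs with h1 h2
    · exact absurd (by rw [← h2, Finset.erase_insert h1.1]) h
    · simp
    · rfl

/-- representations pass to subdivisions -/
theorem Refines.rep_sd {r : ℕ} {X : Space r} {st st' : St X} (R : Refines st st') {k : ℕ}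
    {γ : List Pt →₀ A} {c : Finset ℕ → A} (hc : st.Cyc (k + r) c) (hr : st.Rep k γ c)
    (hψ : ∃ ψ', st'.IsReal ψ') : st'.Rep k γ (R.sd c) := by
  classical
  obtain ⟨ψ', h'⟩ := hψ
  let ψ : Finset ℕ → List Pt →₀ ℚ := fun S =>
    ∑ S' ∈ st'.cx.filter fun S' => st'.Meets S' ∧ R.car S' = S, R.eps S' • ψ' S'
  have dj : ∀ S' ∈ st'.cx, Disjoint (R.car S') X.rays → Disjoint S' X.rays := fun S' h1 h2 => by
    rwa [Finset.disjoint_iff_inter_eq_empty, ← R.ray_car S' h1, ← Finset.disjoint_iff_inter_eq_empty]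
  have h : st.IsReal ψ := fun S hS hd hm => by
    refine ⟨fun l hl => ?_, fun hk => ?_, fun hk => ?_⟩
    · obtain ⟨S', h1, h2⟩ := Finset.mem_biUnion.1 (Finsupp.support_finset_sum hl)
      obtain ⟨a, b, rfl⟩ := Finset.mem_filter.1 h1
      have e0 : R.eps S' ≠ 0 := fun h0 => by simp [h0] at h2
      rw [R.card_car S' a e0, R.kap_car S' a]
      exact (h' S' a (dj S' a hd) b).1 l (Finsupp.support_smul h2)
    · have := sum_cellBd st'.cx st'.down
        (fun R' => if st'.Meets R' then LinearMap.toSpanSingleton ℚ _ (ψ' R') else 0)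
        (fun S' => R.eps S' • if R.car S' = S then (1 : ℚ) else 0)
      rw [Finset.sum_congr rfl fun R' hR' => by
        rw [R.sd_bd ℚ (fun S' => if S' = S then (1 : ℚ) else 0) R' hR', cellBd_ind hS]] at this
      simp only [← bdryL_apply, ψ, map_sum, map_smul]
      refine Eq.trans ?_ (this.symm.trans ?_)
      · rw [Finset.sum_filter]
        refine Finset.sum_congr rfl fun S' hS' => ?_
        by_cases e0 : R.eps S' = 0
        · simp [e0]
        by_cases e1 : R.car S' = S
        swap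
        · simp [e1]
        subst e1
        simp only [and_true, if_true]
        split_ifs with e2
        · rw [bdryL_apply, (h' S' hS' (dj S' hS' hd) e2).2.1 (R.card_car S' hS' e0 ▸ hk),
            Finset.smul_sum]
          exact Finset.sum_congr rfl fun v _ => by split_ifs <;> simp [smul_smul, mul_comm]
        · exact (Finset.sum_eq_zero fun v _ => by
            rw [if_neg fun h => e2 (st'.meets_mono (Finset.erase_subset _ _) h)]; simp).symm
      · simp only [Finset.smul_sum, map_sum]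
        rw [Finset.sum_comm]
        refine Finset.sum_congr rfl fun v _ => ?_
        split_ifs with h1
        · rw [Finset.sum_filter]
          refine Finset.sum_congr rfl fun R' _ => ?_
          by_cases a : st'.Meets R' <;> by_cases b : R.car R' = S.erase v <;>
            simp [a, b, smul_smul, mul_comm]
        · refine Finset.sum_eq_zero fun R' hR' => ?_
          by_cases a : st'.Meets R'
          · rw [if_neg (c := R.car R' = S.erase v) fun b => h1 (b ▸ R.meets_car R' hR' a)]; simp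
          · simp [a]
    · rw [← R.o_car S hS hd hm hk]
      simp only [ψ, map_sum, map_smul, smul_eq_mul]
      refine Finset.sum_congr (by congr) fun S' hS' => ?_
      obtain ⟨a, b, rfl⟩ := Finset.mem_filter.1 hS'
      by_cases e0 : R.eps S' = 0
      · simp [e0]
      · rw [(h' S' a (dj S' a hd) b).2.2 (R.card_car S' a e0 ▸ hk)]
  obtain ⟨Y, y1, y2⟩ := st.rep_any hc hr h
  refine ⟨ψ', h', Y, y1, ?_⟩
  convert y2 using 3
  let F : Finset ℕ → Finset ℕ → List Pt →₀ A := fun S j => if S.card = k + r then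
    St.tau (S ∩ X.rays).card (S \ X.rays).card • R.eps j • pt (S ∩ X.rays) (ψ' j) (c S) else 0
  have a1 : st'.Psi ψ' (k + r) (R.sd c) =
      ∑ S' ∈ st'.cx.filter st'.Meets, F (R.car S') (S' \ X.rays) := by
    simp only [St.Psi, Finset.sum_filter]
    refine Finset.sum_congr rfl fun S' hS' => ?_
    simp only [F, Refines.sd, ← pt_apply, map_smul, R.fin_eps S' hS', R.ray_car S' hS']
    by_cases e0 : R.eps S' = 0
    · simp [e0]
    rw [R.card_car S' hS' e0, ← R.fin_car S' hS', R.card_car _ (st'.down S' hS' _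
      Finset.sdiff_subset) (by rwa [R.fin_eps S' hS']), ite_and]
  rw [a1, ← Finset.sum_fiberwise_of_maps_to (t := st.cx.filter st.Meets) (g := R.car) fun S' hS' =>
    Finset.mem_filter.2 ⟨R.car_mem S' (Finset.mem_filter.1 hS').1,
      R.meets_car S' (Finset.mem_filter.1 hS').1 (Finset.mem_filter.1 hS').2⟩]
  simp only [St.Psi, Finset.sum_filter (s := st.cx), ite_and]
  refine Finset.sum_congr rfl fun S hS => ?_
  refine ite_congr rfl (fun hm => ?_) fun _ => rfl
  have a2 : ∑ j ∈ st'.cx.filter fun j => st'.Meets j ∧ R.car j = S \ X.rays, F S j =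
      if S.card = k + r then St.tau (S ∩ X.rays).card (S \ X.rays).card •
        prisms (S ∩ X.rays) (tens (ψ (S \ X.rays)) (c S)) else 0 := by
    simp only [F, ψ, ← pt_apply, map_sum, map_smul, LinearMap.sum_apply, LinearMap.smul_apply,
      Finset.smul_sum]
    split_ifs <;> simp
  rw [← a2]
  have e : ∀ j ∈ st'.cx, R.car j = S \ X.rays → (j ∪ S ∩ X.rays) \ X.rays = j := fun j a b => by
    rw [Finset.union_sdiff_distrib, Finset.sdiff_eq_self_of_disjoint (dj j a (b ▸
      Finset.sdiff_disjoint)), Finset.sdiff_eq_empty_iff_subset.2 Finset.inter_subset_right,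
      Finset.union_empty]
  refine Finset.sum_bij' (fun S' _ => S' \ X.rays) (fun j _ => j ∪ S ∩ X.rays) (fun S' hS' => ?_)
    (fun j hj => ?_) (fun S' hS' => ?_) (fun j hj => ?_) fun S' hS' => ?_
  · simp only [Finset.mem_filter] at hS' ⊢
    obtain ⟨⟨a, b⟩, rfl⟩ := hS'
    exact ⟨st'.down S' a _ Finset.sdiff_subset, (st'.meets_sdiff_rays S').2 b, R.fin_car S' a⟩
  · simp only [Finset.mem_filter] at hj ⊢
    obtain ⟨a, b, d⟩ := hj
    have m := R.join S hS j a d
    refine ⟨⟨m, st'.meets_mono Finset.subset_union_left b⟩, ?_⟩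
    rw [← Finset.sdiff_union_inter (R.car _) X.rays, ← R.fin_car _ m, R.ray_car _ m, e j a d, d,
      Finset.union_inter_distrib_right, Finset.disjoint_iff_inter_eq_empty.1
        (dj j a (d ▸ Finset.sdiff_disjoint)), Finset.empty_union, Finset.inter_assoc,
      Finset.inter_self, Finset.sdiff_union_inter]
  · simp only [Finset.mem_filter] at hS'
    obtain ⟨⟨a, -⟩, rfl⟩ := hS'
    rw [R.ray_car S' a, Finset.sdiff_union_inter]
  · simp only [Finset.mem_filter] at hj
    exact e j hj.1 hj.2.2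
  · rw [(Finset.mem_filter.1 hS').2]

end Pool.Agent.Lead.THC
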