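import Pool.Agent.Lead.THC.Meets

set_option autoImplicit false

open scoped BigOperators

noncomputable section

namespace Pool.Agent.Lead.THC

namespace Space

variable {r : ℕ} (X : Space r)

theorem st0_biUnion (S : Finset ℕ) :
    (S.biUnion fun a => (Finsupp.single a (1 : ℚ)).support) = S := by
  ext v
  simp

theorem st0_lvl_single (i : Fin r) (a : ℕ) :
    lvl X.lev i (Finsupp.single a 1) = if X.lev a = (i : WithBot (Fin r)) then 1 else 0 := by
  simp [lvl]

theorem st0_lev_ne {a : ℕ} {S : Finset ℕ} (hS : S ∈ X.T) (ha : a ∈ S) (hr : a ∉ X.rays) :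
    X.lev a ≠ ⊥ := fun h =>
  hr (Finset.mem_filter.2 ⟨Finset.mem_biUnion.2 ⟨S, hS, ha⟩, h⟩)

/-- the initial complex -/
def st0 : St X where
  cx := X.T
  down := X.T_down
  pos := fun a => Finsupp.single a 1
  pos_nonneg := fun a v => by
    rw [Finsupp.single_apply]
    split_ifs <;> norm_num
  pos_ray := fun _ _ => rfl
  pos_fin := fun a ha hr => by
    have hne := X.st0_lev_ne ha (Finset.mem_singleton_self a) hr
    refine ⟨fun v hv => ?_, ?_⟩
    · rw [Finsupp.support_single _ (one_ne_zero (α := ℚ)), Finset.mem_singleton] at hv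
      rw [hv]; exact hne
    · obtain ⟨i, hi⟩ := WithBot.ne_bot_iff_exists.1 hne
      simp only [st0_lvl_single, ← hi, WithBot.coe_eq_coe]
      simp
  ray_lt := fun a ha a' ha' hr => by
    have hne := X.st0_lev_ne ha' (Finset.mem_singleton_self a') hr
    by_contra hlt
    have h1 := X.lev_mono (not_lt.1 hlt)
    rw [(Finset.mem_filter.1 ha).2] at h1
    exact hne (le_bot_iff.1 h1)
  kap_mem := fun S hS => by rw [st0_biUnion]; exact hS
  indep := fun S _ => by
    have h := (Finsupp.basisSingleOne (R := ℚ) (ι := ℕ)).linearIndependent.comp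
      (fun a : S => (a : ℕ)) Subtype.val_injective
    convert h using 1
    ext1 a
    simp
  o := fun _ => 1

theorem kap_st0 (S : Finset ℕ) : X.st0.kap S = S := st0_biUnion S

theorem meets_st0 (S : Finset ℕ) :
    X.st0.Meets S ↔ ∀ i : Fin r, ∃ v ∈ S, X.lev v = (i : WithBot (Fin r)) := by
  classical
  constructor
  · rintro ⟨t, -, ht⟩ i
    by_contra hne
    push Not at hne
    have h := ht i
    rw [Finset.sum_eq_zero] at h
    · exact (X.b_pos i).ne h
    · intro a ha
      have : lvl X.lev i (X.st0.pos a) = 0 := by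
        change lvl X.lev i (Finsupp.single a 1) = 0
        rw [st0_lvl_single, if_neg (hne a ha)]
      rw [this]; simp
  · intro h
    choose v hv hl using h
    refine X.st0.meets_of_nonneg (t := fun a => ∑ i, if a = v i then X.b i else 0) ?_ ?_
    · intro a _
      refine Finset.sum_nonneg fun i _ => ?_
      split_ifs
      · exact (X.b_pos i).le
      · exact le_rfl
    · intro j
      simp only [Finset.sum_mul]
      rw [Finset.sum_comm]
      have : ∀ i, ∑ a ∈ S, (if a = v i then X.b i else 0) *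
          ((lvl X.lev j (X.st0.pos a) : ℚ) : ℝ) = if i = j then X.b i else 0 := by
        intro i
        rw [Finset.sum_eq_single (v i)]
        · change _ * ((lvl X.lev j (Finsupp.single (v i) 1) : ℚ) : ℝ) = _
          rw [st0_lvl_single, hl i]
          by_cases hij : i = j <;> simp [hij]
        · intro a _ ha; simp [ha]
        · intro h; exact absurd (hv i) h
      simp only [this]
      simp

theorem aug_st0 : X.st0.Aug := by
  classical
  intro S hS hdis hm hcard
  rw [meets_st0] at hm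
  set L : Finset (WithBot (Fin r)) := Finset.univ.image fun i : Fin r => (i : WithBot (Fin r))
    with hL
  have hLc : L.card = r := by
    rw [hL, Finset.card_image_of_injective _ WithBot.coe_injective]; simp
  have hmap : ∀ a ∈ S, X.lev a ∈ L := by
    intro a ha
    obtain ⟨i, hi⟩ := WithBot.ne_bot_iff_exists.1
      (X.st0_lev_ne hS ha (Finset.disjoint_left.1 hdis ha))
    exact Finset.mem_image.2 ⟨i, Finset.mem_univ _, hi⟩
  have key : ∀ u ∈ S, ∀ v ∈ S, u ≠ v → X.lev u = X.lev v →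
      ∀ i : Fin r, ∃ w ∈ S.erase u, X.lev w = (i : WithBot (Fin r)) := by
    intro u hu v hv huv hl i
    obtain ⟨w, hw, hwi⟩ := hm i
    by_cases hwu : w = u
    · exact ⟨v, Finset.mem_erase.2 ⟨huv.symm, hv⟩, by rw [← hl, ← hwu, hwi]⟩
    · exact ⟨w, Finset.mem_erase.2 ⟨hwu, hw⟩, hwi⟩
  obtain ⟨u, hu, v, hv, huv, hl⟩ : ∃ u ∈ S, ∃ v ∈ S, u < v ∧ X.lev u = X.lev v := by
    obtain ⟨u, hu, v, hv, huv, hl⟩ :=
      Finset.exists_ne_map_eq_of_card_lt_of_maps_to (s := S) (t := L) (f := X.lev)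
        (by omega) hmap
    rcases lt_or_gt_of_ne huv with h | h
    · exact ⟨u, hu, v, hv, h, hl⟩
    · exact ⟨v, hv, u, hu, h, hl.symm⟩
  have hinj : Set.InjOn X.lev (S.erase u : Finset ℕ) := by
    refine Finset.injOn_of_surjOn_of_card_le (t := L) X.lev
      (fun a ha => hmap a (Finset.mem_of_mem_erase ha)) ?_ ?_
    · intro x hx
      obtain ⟨i, -, rfl⟩ := Finset.mem_image.1 hx
      obtain ⟨w, hw, hwi⟩ := key u hu v hv huv.ne hl i
      exact ⟨w, hw, hwi⟩
    · rw [Finset.card_erase_of_mem hu]; omega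
  have hve : v ∈ S.erase u := Finset.mem_erase.2 ⟨huv.ne', hv⟩
  have hother : ∀ w ∈ S, w ≠ u → w ≠ v → ¬ X.st0.Meets (S.erase w) := by
    intro w hw hwu hwv hmw
    rw [meets_st0] at hmw
    obtain ⟨i, -, hi⟩ := Finset.mem_image.1 (hmap w hw)
    obtain ⟨w', hw', hw'i⟩ := hmw i
    have hwe : w ∈ S.erase u := Finset.mem_erase.2 ⟨hwu, hw⟩
    obtain ⟨hw'w, hw'S⟩ := Finset.mem_erase.1 hw'
    by_cases hw'u : w' = u
    · exact hwv (hinj hwe hve (by rw [← hl, ← hw'u, hw'i, hi]))
    · exact hw'w (hinj (Finset.mem_erase.2 ⟨hw'u, hw'S⟩) hwe (by rw [hw'i, hi]))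
  rw [Finset.sum_eq_add u v huv.ne]
  · rw [if_pos ((X.meets_st0 _).2 (key u hu v hv huv.ne hl)),
      if_pos ((X.meets_st0 _).2 (key v hv u hu huv.ne' hl.symm))]
    have hf : ((S.erase u).filter fun w => u < w) =
        insert v ((S.erase v).filter fun w => v < w) := by
      ext w
      simp only [Finset.mem_filter, Finset.mem_erase, Finset.mem_insert]
      constructor
      · rintro ⟨⟨hwu, hw⟩, huw⟩
        by_cases hwv : w = v
        · exact Or.inl hwv
        · refine Or.inr ⟨⟨hwv, hw⟩, ?_⟩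
          by_contra hlt
          have h1 := X.lev_mono (not_lt.1 hlt)
          have h2 := X.lev_mono huw.le
          rw [hl] at h2
          exact hwv (hinj (Finset.mem_erase.2 ⟨hwu, hw⟩) hve (le_antisymm h1 h2))
      · rintro (rfl | ⟨⟨hwv, hw⟩, hvw⟩)
        · exact ⟨⟨huv.ne', hv⟩, huv⟩
        · exact ⟨⟨(huv.trans hvw).ne', hw⟩, huv.trans hvw⟩
    change sgn u (S.erase u) * 1 + sgn v (S.erase v) * 1 = 0
    unfold sgn
    rw [hf, Finset.card_insert_of_notMem (by simp), pow_succ]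
    ring
  · intro w hw hne
    rw [if_neg (hother w hw hne.1 hne.2)]
  · intro h; exact absurd hu h
  · intro h; exact absurd hv h

theorem st0_cellBd_zero (R : Finset ℕ) : cellBd X.T (fun _ => (0 : A)) R = 0 := by
  simp [cellBd]

theorem st0_lvk_aux (h : X.LocAcyclic) {S₀ : Finset ℕ} (h₀ : X.Cell S₀) {t q : ℕ}
    (hq : q + r < t) (n : ℕ) (hn : n ≤ r + 1) : ∀ c : Finset ℕ → A,
    (∀ S ∈ X.T, S₀ ⊆ S → S.card = q + r → c S ∈ X.K t S ∧
      ∀ J : Finset (Fin r), n ≤ J.card → X.comp J (c S) ∈ X.I S ∅) →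
    (∀ R ∈ X.T, S₀ ⊆ R → R.card + 1 = q + r → cellBd X.T c R ∈ X.I R ∅) →
    ∃ y : Finset ℕ → A, (∀ S ∈ X.T, S₀ ⊆ S → S.card = q + r + 1 → y S ∈ X.K t S) ∧
      ∀ S ∈ X.T, S₀ ⊆ S → S.card = q + r → c S - cellBd X.T y S ∈ X.I S ∅ := by
  classical
  have hcell : ∀ S ∈ X.T, S₀ ⊆ S → X.Cell S := fun S hS hs =>
    ⟨hS, fun i => (h₀.2 i).imp fun v hv => ⟨hs hv.1, hv.2⟩⟩
  have hemp : ∀ v ∈ (∅ : Set ℕ), X.lev v = ⊥ := fun v hv => absurd hv (Set.notMem_empty v)
  induction n with
  | zero =>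
    intro c hc _
    refine ⟨fun _ => 0, fun _ _ _ _ => zero_mem _, fun S hS hs hk => ?_⟩
    have := (hc S hS hs hk).2 ∅ (Nat.zero_le _)
    rw [comp_empty] at this
    rwa [st0_cellBd_zero, sub_zero]
  | succ n ih =>
    intro c hc hcy
    obtain ⟨p, rfl⟩ : ∃ p, t = p + n := ⟨t - n, by omega⟩
    have h1 : ∀ (J : Finset (Fin r)) (S : Finset ℕ), ∃ η : A, J.card = n → S ∈ X.T → S₀ ⊆ S →
        S.card = q + r → η ∈ X.F p S ∧ X.comp J (c S) - η ∈ X.I S ∅ := by
      intro J S
      by_cases hh : J.card = n ∧ S ∈ X.T ∧ S₀ ⊆ S ∧ S.card = q + r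
      · obtain ⟨hJ, hS, hs, hk⟩ := hh
        obtain ⟨η, hη, hη'⟩ := X.exists_F_comp (d := n) (p := p) (hcell S hS hs) hemp
          (ω := c S) (X.mem_Phi.2 ⟨(hc S hS hs hk).1, fun J' hJ' =>
            (hc S hS hs hk).2 J' (by omega)⟩) hJ
        exact ⟨η, fun _ _ _ _ => ⟨hη, hη'⟩⟩
      · exact ⟨0, fun a b c d => absurd ⟨a, b, c, d⟩ hh⟩
    choose η hη using h1
    have h2 : ∀ J : Finset (Fin r), ∃ y : Finset ℕ → A, J.card = n →
        (∀ S ∈ X.T, S₀ ⊆ S → S.card = q + 1 + r → y S ∈ X.F p S) ∧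
        ∀ S ∈ X.T, S₀ ⊆ S → S.card = q + r → η J S - cellBd X.T y S ∈ X.I S ∅ := by
      intro J
      by_cases hJ : J.card = n
      · obtain ⟨y, hy⟩ := h S₀ h₀.1 h₀.2 p q (η J) (by omega)
          (fun S hS hs hk => (hη J S hJ hS hs hk).1) (fun R hR hs hk => by
            have e : cellBd X.T (η J) R = X.comp J (cellBd X.T c R) -
                cellBd X.T (fun S => X.comp J (c S) - η J S) R := by
              rw [cellBd_sub, cellBd_map]; abel
            rw [e]
            refine sub_mem (X.comp_mem_I hemp J (hcy R hR hs hk)) (cellBd_mem _ ?_)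
            intro v hv hvT
            exact X.I_mono (hcell R hR hs) (Finset.subset_insert v R) hvT le_rfl
              (hη J _ hJ hvT (hs.trans (Finset.subset_insert v R))
                (by rw [Finset.card_insert_of_notMem hv]; exact hk)).2)
        exact ⟨y, fun _ => hy⟩
      · exact ⟨0, fun a => absurd a hJ⟩
    choose y hy using h2
    have h3 : ∀ S : Finset ℕ, ∃ ω : A, S ∈ X.T → S₀ ⊆ S → S.card = q + r + 1 →
        ω ∈ X.K (p + n) S ∧ (∀ J : Finset (Fin r), J.card = n → X.comp J ω = y J S) ∧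
        (∀ J : Finset (Fin r), n < J.card → X.comp J ω = 0) := by
      intro S
      by_cases hh : S ∈ X.T ∧ S₀ ⊆ S ∧ S.card = q + r + 1
      · obtain ⟨hS, hs, hk⟩ := hh
        obtain ⟨ω, hω, hω1, hω2, -⟩ := X.exists_lift_comp (d := n) (p := p) (hcell S hS hs)
          (fun J => y J S) (fun J hJ => (hy J hJ).1 S hS hs (by omega))
        exact ⟨ω, fun _ _ _ => ⟨hω, hω1, hω2⟩⟩
      · exact ⟨0, fun a b c => absurd ⟨a, b, c⟩ hh⟩
    choose ω hω using h3
    have hω' : ∀ S, S₀ ⊆ S → S.card = q + r → ∀ v, v ∉ S → insert v S ∈ X.T →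
        ω (insert v S) ∈ X.K (p + n) (insert v S) ∧
        (∀ J : Finset (Fin r), J.card = n → X.comp J (ω (insert v S)) = y J (insert v S)) ∧
        (∀ J : Finset (Fin r), n < J.card → X.comp J (ω (insert v S)) = 0) :=
      fun S hs hk v hv hvT => hω _ hvT (hs.trans (Finset.subset_insert v S))
        (by rw [Finset.card_insert_of_notMem hv, hk])
    obtain ⟨y', hy'1, hy'2⟩ := ih (by omega) (fun S => c S - cellBd X.T ω S)
      (fun S hS hs hk => by
        refine ⟨sub_mem (hc S hS hs hk).1 (cellBd_mem _ fun v hv hvT =>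
          X.K_anti (Finset.subset_insert v S) _ (hω' S hs hk v hv hvT).1), fun J hJ => ?_⟩
        rw [map_sub, ← cellBd_map]
        rcases hJ.eq_or_lt with hJ | hJ
        · rw [cellBd_congr _ (c' := y J) fun v hv hvT => (hω' S hs hk v hv hvT).2.1 J hJ.symm]
          have e : X.comp J (c S) - cellBd X.T (y J) S =
              (X.comp J (c S) - η J S) + (η J S - cellBd X.T (y J) S) := by abel
          rw [e]
          exact add_mem (hη J S hJ.symm hS hs hk).2 ((hy J hJ.symm).2 S hS hs hk)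
        · rw [cellBd_congr _ (c' := fun _ => 0) fun v hv hvT => (hω' S hs hk v hv hvT).2.2 J hJ,
            st0_cellBd_zero, sub_zero]
          exact (hc S hS hs hk).2 J hJ)
      (fun R hR hs hk => by
        rw [cellBd_sub, cellBd_cellBd _ X.T_down, sub_zero]
        exact hcy R hR hs hk)
    refine ⟨fun S => ω S + y' S, fun S hS hs hk => add_mem (hω S hS hs hk).1 (hy'1 S hS hs hk),
      fun S hS hs hk => ?_⟩
    rw [cellBd_add, ← sub_sub]
    exact hy'2 S hS hs hk

theorem lvk_st0 (h : X.LocAcyclic) : X.st0.LVK := by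
  intro S₀ hS₀ hm t a c hat hc hcy
  simp only [kap_st0] at hc hcy ⊢
  have hr : r ≤ S₀.card :=
    (X.st0.le_card_of_meets hm).trans (Finset.card_le_card Finset.sdiff_subset)
  by_cases har : r ≤ a
  · obtain ⟨q, rfl⟩ : ∃ q, a = q + r := ⟨a - r, by omega⟩
    refine X.st0_lvk_aux h ⟨hS₀, (X.meets_st0 S₀).1 hm⟩ hat (r + 1) le_rfl c
      (fun S hS hs hk => ⟨hc S hS hs hk, fun J hJ => ?_⟩) hcy
    have := Finset.card_le_univ J
    rw [Fintype.card_fin] at this
    omega
  · refine ⟨fun _ => 0, fun _ _ _ _ => zero_mem _, fun S _ hs hk => ?_⟩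
    have := Finset.card_le_card hs
    omega

/-! ### the cellular complex of the compactification: generators `(S, ρ)`, `ρ` the rays at
infinity -/

/-- valid generators -/
def COk (g : Finset ℕ × Finset ℕ) : Prop := X.Cell g.1 ∧ g.2 ⊆ g.1 ∩ X.rays

/-- dimension -/
def cdeg (_X : Space r) (g : Finset ℕ × Finset ℕ) : ℕ := g.1.card - g.2.card - r

open Classical in
/-- boundary -/
def cbd (g : Finset ℕ × Finset ℕ) : Finset ℕ × Finset ℕ →₀ ℚ :=
  ∑ v ∈ g.1 \ g.2, sgn v ((g.1 \ g.2).erase v) •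
    ((if X.Cell (g.1.erase v) then Finsupp.single (g.1.erase v, g.2) 1 else 0) -
      if v ∈ X.rays then Finsupp.single (g.1, insert v g.2) 1 else 0)

end Space

end Pool.Agent.Lead.THC
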